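import Mathlib

set_option autoImplicit false

namespace Pool.Agent.H221R3

open Finset Complex

/-- the general term of the cosine series -/
noncomputable def trm (x : ℝ) (n : ℕ) : ℝ :=
  2 / Real.sqrt (n : ℝ) * Real.cos (Real.pi * ((3 * (n : ℝ) - 1) / 4 - x / (n : ℝ)))

noncomputable def zz : ℂ := cexp (((3 * Real.pi / 4 : ℝ) : ℂ) * I)

noncomputable def cc : ℂ := cexp (((- (Real.pi / 4) : ℝ) : ℂ) * I)

noncomputable def GG (x : ℝ) (n : ℕ) : ℂ :=
  ((1 / Real.sqrt (n : ℝ) : ℝ) : ℂ) * cexp (((-(Real.pi * x / n) : ℝ) : ℂ) * I)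

lemma cc_mul_zz_pow (n : ℕ) :
    cc * zz ^ n = cexp (((Real.pi * ((3 * (n : ℝ) - 1) / 4) : ℝ) : ℂ) * I) := by
  unfold cc zz
  rw [← Complex.exp_nat_mul, ← Complex.exp_add]
  congr 1
  push_cast
  ring

lemma trm_eq (x : ℝ) (n : ℕ) : trm x n = 2 * (cc * zz ^ n * GG x n).re := by
  rw [cc_mul_zz_pow]
  unfold GG trm
  have : cexp (((Real.pi * ((3 * (n : ℝ) - 1) / 4) : ℝ) : ℂ) * I) *
      (((1 / Real.sqrt (n : ℝ) : ℝ) : ℂ) * cexp (((-(Real.pi * x / n) : ℝ) : ℂ) * I))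
      = ((1 / Real.sqrt (n : ℝ) : ℝ) : ℂ) *
        cexp (((Real.pi * ((3 * (n : ℝ) - 1) / 4 - x / (n : ℝ)) : ℝ) : ℂ) * I) := by
    rw [mul_left_comm, ← Complex.exp_add]
    congr 2
    push_cast
    ring
  rw [this, Complex.re_ofReal_mul, Complex.exp_ofReal_mul_I_re]
  ring

lemma norm_zz : ‖zz‖ = 1 := by
  unfold zz
  exact Complex.norm_exp_ofReal_mul_I _

lemma norm_cc : ‖cc‖ = 1 := by
  unfold cc
  exact Complex.norm_exp_ofReal_mul_I _

lemma zz_re : zz.re = - (Real.sqrt 2 / 2) := by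
  unfold zz
  rw [Complex.exp_ofReal_mul_I_re]
  have : (3 * Real.pi / 4 : ℝ) = Real.pi - Real.pi / 4 := by ring
  rw [this, Real.cos_pi_sub, Real.cos_pi_div_four]

lemma one_le_norm_zz_sub_one : 1 ≤ ‖zz - 1‖ := by
  have h := Complex.abs_re_le_norm (zz - 1)
  have h2 : (zz - 1).re = - (Real.sqrt 2 / 2) - 1 := by
    rw [Complex.sub_re, zz_re]; simp
  rw [h2] at h
  have h3 : 0 ≤ Real.sqrt 2 := Real.sqrt_nonneg 2
  rw [abs_of_nonpos (by linarith)] at h
  linarith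

lemma parts (z : ℂ) (g : ℕ → ℂ) (a b : ℕ) (hab : a ≤ b) :
    (z - 1) * ∑ n ∈ Ico a b, z ^ n * g n =
      z ^ b * g b - z ^ a * g a - ∑ n ∈ Ico a b, z ^ (n + 1) * (g (n + 1) - g n) := by
  induction b, hab using Nat.le_induction with
  | base => simp
  | succ b hb ih =>
    rw [Finset.sum_Ico_succ_top hb, Finset.sum_Ico_succ_top hb, mul_add, ih]
    ring

lemma norm_GG (x : ℝ) (n : ℕ) : ‖GG x n‖ = 1 / Real.sqrt n := by
  unfold GG
  rw [norm_mul, Complex.norm_exp_ofReal_mul_I, mul_one, Complex.norm_real, Real.norm_eq_abs,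
    abs_of_nonneg (by positivity)]

lemma norm_exp_sub_exp (s t : ℝ) :
    ‖cexp ((s : ℂ) * I) - cexp ((t : ℂ) * I)‖ ≤ |s - t| := by
  have h1 : cexp ((s : ℂ) * I) - cexp ((t : ℂ) * I)
      = cexp ((t : ℂ) * I) * (cexp (I * ((s - t : ℝ) : ℂ)) - 1) := by
    rw [mul_sub, ← Complex.exp_add, mul_one]
    congr 2
    push_cast
    ring
  rw [h1, norm_mul, Complex.norm_exp_ofReal_mul_I, one_mul]
  have := Real.norm_exp_I_mul_ofReal_sub_one_le (x := s - t)
  simpa [Real.norm_eq_abs] using this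

lemma norm_GG_sub (x : ℝ) (hx : 0 ≤ x) (n : ℕ) (hn : 1 ≤ n) :
    ‖GG x (n + 1) - GG x n‖ ≤ (1 / Real.sqrt n - 1 / Real.sqrt (n + 1 : ℕ)) +
      1 / Real.sqrt n * (Real.pi * x * (1 / n - 1 / (n + 1 : ℕ))) := by
  have hn0 : (0 : ℝ) < n := by exact_mod_cast hn
  set u : ℝ := 1 / Real.sqrt n with hu
  set u' : ℝ := 1 / Real.sqrt ((n + 1 : ℕ) : ℝ) with hu'
  set s : ℝ := -(Real.pi * x / n) with hs
  set s' : ℝ := -(Real.pi * x / ((n + 1 : ℕ) : ℝ)) with hs'
  have e1 : GG x n = (u : ℂ) * cexp ((s : ℂ) * I) := rfl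
  have e2 : GG x (n + 1) = (u' : ℂ) * cexp ((s' : ℂ) * I) := rfl
  have h1 : GG x (n + 1) - GG x n = ((u' - u : ℝ) : ℂ) * cexp ((s' : ℂ) * I)
      + (u : ℂ) * (cexp ((s' : ℂ) * I) - cexp ((s : ℂ) * I)) := by
    rw [e1, e2]; push_cast; ring
  have huu : u' ≤ u := by
    rw [hu, hu']
    apply one_div_le_one_div_of_le (Real.sqrt_pos.mpr hn0)
    apply Real.sqrt_le_sqrt
    push_cast; linarith
  have hu0 : 0 ≤ u := by positivity
  have hss : |s' - s| = Real.pi * x * (1 / n - 1 / ((n + 1 : ℕ) : ℝ)) := by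
    have : s' - s = Real.pi * x * (1 / n - 1 / ((n + 1 : ℕ) : ℝ)) := by
      rw [hs, hs']; ring
    rw [this]
    apply abs_of_nonneg
    apply mul_nonneg (by positivity)
    rw [sub_nonneg]
    apply one_div_le_one_div_of_le hn0
    push_cast; linarith
  rw [h1]
  refine (norm_add_le _ _).trans ?_
  rw [norm_mul, norm_mul, Complex.norm_exp_ofReal_mul_I, mul_one, Complex.norm_real,
    Complex.norm_real, Real.norm_eq_abs, Real.norm_eq_abs, abs_of_nonpos (by linarith),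
    abs_of_nonneg hu0]
  have h2 := norm_exp_sub_exp s' s
  rw [hss] at h2
  have h3 : u * ‖cexp ((s' : ℂ) * I) - cexp ((s : ℂ) * I)‖ ≤
      u * (Real.pi * x * (1 / n - 1 / ((n + 1 : ℕ) : ℝ))) :=
    mul_le_mul_of_nonneg_left h2 hu0
  linarith

lemma sum_norm_GG_sub (x : ℝ) (hx : 0 ≤ x) (a b : ℕ) (ha : 1 ≤ a) (hab : a ≤ b) :
    ∑ n ∈ Ico a b, ‖GG x (n + 1) - GG x n‖ ≤ (1 / Real.sqrt a - 1 / Real.sqrt b) +
      1 / Real.sqrt a * (Real.pi * x * (1 / a - 1 / b)) := by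
  induction b, hab using Nat.le_induction with
  | base => simp
  | succ b hb ih =>
    rw [Finset.sum_Ico_succ_top hb]
    have hb1 : 1 ≤ b := ha.trans hb
    have h := norm_GG_sub x hx b hb1
    have hb0 : (0 : ℝ) < b := by exact_mod_cast hb1
    have ha0 : (0 : ℝ) < a := by exact_mod_cast ha
    have h1 : 1 / Real.sqrt b ≤ 1 / Real.sqrt a := by
      apply one_div_le_one_div_of_le (Real.sqrt_pos.mpr ha0)
      apply Real.sqrt_le_sqrt
      exact_mod_cast hb
    have h2 : 0 ≤ Real.pi * x * (1 / (b : ℝ) - 1 / ((b + 1 : ℕ) : ℝ)) := by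
      apply mul_nonneg (by positivity)
      rw [sub_nonneg]
      apply one_div_le_one_div_of_le hb0
      push_cast; linarith
    have h3 := mul_le_mul_of_nonneg_right h1 h2
    have h4 : 1 / Real.sqrt a * (Real.pi * x * (1 / (a : ℝ) - 1 / (b : ℝ))) +
        1 / Real.sqrt a * (Real.pi * x * (1 / (b : ℝ) - 1 / ((b + 1 : ℕ) : ℝ))) =
        1 / Real.sqrt a * (Real.pi * x * (1 / (a : ℝ) - 1 / ((b + 1 : ℕ) : ℝ))) := by ring
    linarith

lemma norm_sum_zz_GG (x : ℝ) (hx : 0 ≤ x) (a b : ℕ) (ha : 1 ≤ a) (hab : a ≤ b) :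
    ‖∑ n ∈ Ico a b, zz ^ n * GG x n‖ ≤ 2 / Real.sqrt a + Real.pi * x / (a * Real.sqrt a) := by
  have h := parts zz (GG x) a b hab
  have ha0 : (0 : ℝ) < a := by exact_mod_cast ha
  have hb0 : (0 : ℝ) < b := by exact_mod_cast ha.trans hab
  have hnz : ∀ n : ℕ, ‖zz ^ n‖ = 1 := fun n => by rw [norm_pow, norm_zz, one_pow]
  have h1 : ‖zz - 1‖ * ‖∑ n ∈ Ico a b, zz ^ n * GG x n‖ ≤
      1 / Real.sqrt b + 1 / Real.sqrt a + ((1 / Real.sqrt a - 1 / Real.sqrt b) +
      1 / Real.sqrt a * (Real.pi * x * (1 / a - 1 / b))) := by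
    rw [← norm_mul, h]
    refine (norm_sub_le _ _).trans ?_
    refine add_le_add ?_ ?_
    · refine (norm_sub_le _ _).trans ?_
      rw [norm_mul, norm_mul, hnz, hnz, norm_GG, norm_GG, one_mul, one_mul]
    · refine (norm_sum_le _ _).trans ?_
      refine le_trans (le_of_eq ?_) (sum_norm_GG_sub x hx a b ha hab)
      refine Finset.sum_congr rfl (fun n _ => ?_)
      rw [norm_mul, hnz, one_mul]
  have h2 : ‖∑ n ∈ Ico a b, zz ^ n * GG x n‖ ≤ ‖zz - 1‖ * ‖∑ n ∈ Ico a b, zz ^ n * GG x n‖ :=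
    le_mul_of_one_le_left (norm_nonneg _) one_le_norm_zz_sub_one
  have h3 : 1 / Real.sqrt a * (Real.pi * x * (1 / a - 1 / b)) ≤
      Real.pi * x / (a * Real.sqrt a) := by
    have e : Real.pi * x / (a * Real.sqrt a) = 1 / Real.sqrt a * (Real.pi * x * (1 / a)) := by
      field_simp
    rw [e]
    apply mul_le_mul_of_nonneg_left _ (by positivity)
    apply mul_le_mul_of_nonneg_left _ (by positivity)
    have : 0 ≤ 1 / (b : ℝ) := by positivity
    linarith
  have h4 : 2 / Real.sqrt a = 1 / Real.sqrt a + 1 / Real.sqrt a := by ring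
  linarith

/-- partial sums -/
noncomputable def FF (x : ℝ) (N : ℕ) : ℝ := ∑ n ∈ Icc 1 N, trm x n

lemma FF_sub (x : ℝ) (hx : 0 ≤ x) (a b : ℕ) (ha : 1 ≤ a) (hab : a ≤ b) :
    |FF x b - FF x a| ≤ 2 * (2 / Real.sqrt a + Real.pi * x / (a * Real.sqrt a)) := by
  have h1 : FF x b - FF x a = ∑ n ∈ Ico (a + 1) (b + 1), trm x n := by
    unfold FF
    have hI : ∀ N : ℕ, Icc 1 N = Ico 1 (N + 1) := fun N => by
      ext n; simp [Finset.mem_Icc, Finset.mem_Ico]
    rw [hI, hI, ← Finset.sum_Ico_consecutive (trm x) (m := 1) (n := a + 1) (k := b + 1)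
      (by omega) (by omega)]
    ring
  have h2 : ∑ n ∈ Ico (a + 1) (b + 1), trm x n =
      2 * (cc * ∑ n ∈ Ico (a + 1) (b + 1), zz ^ n * GG x n).re := by
    rw [Finset.mul_sum, Complex.re_sum, Finset.mul_sum]
    refine Finset.sum_congr rfl (fun n _ => ?_)
    rw [trm_eq, mul_assoc]
  rw [h1, h2, abs_mul, abs_of_pos (by norm_num : (0 : ℝ) < 2)]
  apply mul_le_mul_of_nonneg_left _ (by norm_num)
  refine (Complex.abs_re_le_norm _).trans ?_
  rw [norm_mul, norm_cc, one_mul]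
  refine (norm_sum_zz_GG x hx (a + 1) (b + 1) (by omega) (by omega)).trans ?_
  have ha0 : (0 : ℝ) < a := by exact_mod_cast ha
  have hle : (a : ℝ) ≤ ((a + 1 : ℕ) : ℝ) := by push_cast; linarith
  have hs : Real.sqrt a ≤ Real.sqrt ((a + 1 : ℕ) : ℝ) := Real.sqrt_le_sqrt hle
  have hsp : 0 < Real.sqrt a := Real.sqrt_pos.mpr ha0
  apply add_le_add
  · exact div_le_div_of_nonneg_left (by norm_num) hsp hs
  · apply div_le_div_of_nonneg_left (by positivity) (by positivity)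
    exact mul_le_mul hle hs hsp.le (by positivity)

lemma exists_limit (x : ℝ) (hx : 0 ≤ x) :
    ∃ S : ℝ, Filter.Tendsto (FF x) Filter.atTop (nhds S) ∧
      ∀ a : ℕ, 1 ≤ a → |S - FF x a| ≤ 2 * (2 / Real.sqrt a + Real.pi * x / (a * Real.sqrt a)) := by
  have hlim : Filter.Tendsto (fun a : ℕ => 2 * (2 / Real.sqrt a + Real.pi * x / (a * Real.sqrt a)))
      Filter.atTop (nhds 0) := by
    have h1 : Filter.Tendsto (fun a : ℕ => Real.sqrt (a : ℝ)) Filter.atTop Filter.atTop :=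
      Real.tendsto_sqrt_atTop.comp tendsto_natCast_atTop_atTop
    have h2 : Filter.Tendsto (fun a : ℕ => 2 / Real.sqrt (a : ℝ)) Filter.atTop (nhds 0) :=
      Filter.Tendsto.div_atTop tendsto_const_nhds h1
    have h3 : Filter.Tendsto (fun a : ℕ => Real.pi * x / ((a : ℝ) * Real.sqrt (a : ℝ)))
        Filter.atTop (nhds 0) :=
      Filter.Tendsto.div_atTop tendsto_const_nhds
        (Filter.Tendsto.atTop_mul_atTop₀ tendsto_natCast_atTop_atTop h1)
    have := (h2.add h3).const_mul 2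
    simpa using this
  have hc : CauchySeq (FF x) := by
    refine cauchySeq_of_le_tendsto_0' (fun a : ℕ => if 1 ≤ a then
      2 * (2 / Real.sqrt a + Real.pi * x / (a * Real.sqrt a)) else
      |FF x 0 - FF x 1| + 2 * (2 / Real.sqrt (1 : ℕ) + Real.pi * x / ((1 : ℕ) * Real.sqrt (1 : ℕ)))) ?_ ?_
    · intro n m hnm
      by_cases hn : 1 ≤ n
      · rw [if_pos hn, dist_comm, Real.dist_eq]
        exact FF_sub x hx n m hn hnm
      · have hn0 : n = 0 := by omega
        rw [if_neg hn, hn0]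
        by_cases hm : m = 0
        · rw [hm, dist_self]; positivity
        · have hm1 : 1 ≤ m := Nat.one_le_iff_ne_zero.mpr hm
          have := FF_sub x hx 1 m le_rfl hm1
          rw [Real.dist_eq]
          have h5 : FF x 0 - FF x m = (FF x 0 - FF x 1) - (FF x m - FF x 1) := by ring
          rw [h5]
          refine (abs_sub _ _).trans ?_
          exact add_le_add_right this _
    · refine hlim.congr' ?_
      filter_upwards [Filter.eventually_ge_atTop 1] with a ha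
      rw [if_pos ha]
  obtain ⟨S, hS⟩ := cauchySeq_tendsto_of_complete hc
  refine ⟨S, hS, fun a ha => ?_⟩
  have h1 : Filter.Tendsto (fun b => |FF x b - FF x a|) Filter.atTop (nhds |S - FF x a|) :=
    (hS.sub_const _).abs
  refine le_of_tendsto h1 ?_
  filter_upwards [Filter.eventually_ge_atTop a] with b hb
  exact FF_sub x hx a b ha hb

end Pool.Agent.H221R3
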