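import Mathlib
import Pool.Agent.H221R3.PsiTail

set_option autoImplicit false

namespace Pool.Agent.H221R3

open Finset Complex

/-- the resonating root of unity -/
noncomputable def ze (Q n : ℕ) : ℂ := - cexp (((-(8 * Real.pi * Q / n) : ℝ) : ℂ) * I)

lemma norm_ze (Q n : ℕ) : ‖ze Q n‖ = 1 := by
  unfold ze
  rw [norm_neg, Complex.norm_exp_ofReal_mul_I]

lemma ze_pow (Q n : ℕ) (hn : 1 ≤ n) : ze Q n ^ (2 * n) = 1 := by
  unfold ze
  rw [Even.neg_pow (even_two_mul n), ← Complex.exp_nat_mul]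
  have hn0 : (n : ℂ) ≠ 0 := by
    have : n ≠ 0 := by omega
    exact_mod_cast this
  have : ((2 * n : ℕ) : ℂ) * (((-(8 * Real.pi * Q / n) : ℝ) : ℂ) * I) =
      ((-(8 * Q : ℤ) : ℤ) : ℂ) * (2 * Real.pi * I) := by
    push_cast
    field_simp
  rw [this]
  exact Complex.exp_int_mul_two_pi_mul_I _

lemma norm_one_sub_pow_le (z : ℂ) (hz : ‖z‖ = 1) (j : ℕ) : ‖1 - z ^ j‖ ≤ j * ‖1 - z‖ := by
  induction j with
  | zero => simp
  | succ j ih =>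
    have : 1 - z ^ (j + 1) = (1 - z) + z * (1 - z ^ j) := by ring
    rw [this]
    refine (norm_add_le _ _).trans ?_
    rw [norm_mul, hz, one_mul]
    push_cast
    linarith

/-- nontrivial roots of unity of order dividing `2n` stay away from 1 -/
lemma one_div_le_norm_one_sub (z : ℂ) (n : ℕ) (hn : 1 ≤ n) (hz : z ^ (2 * n) = 1) (hz1 : z ≠ 1)
    (hnz : ‖z‖ = 1) : 1 / (n : ℝ) ≤ ‖1 - z‖ := by
  have h0 : ∑ j ∈ range (2 * n), z ^ j = 0 := by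
    have := geom_sum_mul z (2 * n)
    rw [hz, sub_self] at this
    rcases mul_eq_zero.mp this with h | h
    · exact h
    · exact absurd (sub_eq_zero.mp h) hz1
  have h1 : ((2 * n : ℕ) : ℂ) = ∑ j ∈ range (2 * n), (1 - z ^ j) := by
    rw [Finset.sum_sub_distrib, h0]
    simp
  have h2 : ((2 * n : ℕ) : ℝ) ≤ ∑ j ∈ range (2 * n), (j : ℝ) * ‖1 - z‖ := by
    calc ((2 * n : ℕ) : ℝ) = ‖((2 * n : ℕ) : ℂ)‖ := by rw [Complex.norm_natCast]
      _ = ‖∑ j ∈ range (2 * n), (1 - z ^ j)‖ := by rw [← h1]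
      _ ≤ ∑ j ∈ range (2 * n), ‖1 - z ^ j‖ := norm_sum_le _ _
      _ ≤ _ := Finset.sum_le_sum (fun j _ => norm_one_sub_pow_le z hnz j)
  rw [← Finset.sum_mul] at h2
  have h3 : (∑ j ∈ range (2 * n), (j : ℝ)) ≤ 2 * (n : ℝ) * n := by
    have h4 : (∑ j ∈ range (2 * n), j) * 2 = 2 * n * (2 * n - 1) := Finset.sum_range_id_mul_two _
    have h5 : (∑ j ∈ range (2 * n), j) * 2 ≤ 2 * n * (2 * n) := by
      rw [h4]; exact Nat.mul_le_mul_left _ (by omega)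
    have h6 := (Nat.cast_le (α := ℝ)).mpr h5
    push_cast at h6
    linarith
  have hn0 : (0 : ℝ) < n := by exact_mod_cast hn
  have h7 : ((2 * n : ℕ) : ℝ) ≤ 2 * (n : ℝ) * n * ‖1 - z‖ :=
    h2.trans (mul_le_mul_of_nonneg_right h3 (norm_nonneg _))
  push_cast at h7
  rw [div_le_iff₀ hn0]
  nlinarith [norm_nonneg (1 - z)]

/-- geometric sum bound -/
lemma norm_geom_le (z : ℂ) (n M : ℕ) (hn : 1 ≤ n) (hz : z ^ (2 * n) = 1) (hz1 : z ≠ 1)
    (hnz : ‖z‖ = 1) : ‖∑ m ∈ range M, z ^ (m + 1)‖ ≤ 2 * n := by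
  have h1 := one_div_le_norm_one_sub z n hn hz hz1 hnz
  have hn0 : (0 : ℝ) < n := by exact_mod_cast hn
  have h2 : (∑ m ∈ range M, z ^ (m + 1)) * (z - 1) = z * (z ^ M - 1) := by
    rw [← geom_sum_mul z M]
    have : ∑ m ∈ range M, z ^ (m + 1) = z * ∑ m ∈ range M, z ^ m := by
      rw [Finset.mul_sum]
      exact Finset.sum_congr rfl (fun m _ => by ring)
    rw [this]; ring
  have h3 : ‖∑ m ∈ range M, z ^ (m + 1)‖ * ‖1 - z‖ ≤ 2 := by
    rw [norm_sub_rev, ← norm_mul, h2, norm_mul, hnz, one_mul]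
    refine (norm_sub_le _ _).trans ?_
    rw [norm_pow, hnz, one_pow, norm_one]
    norm_num
  have h4 : ‖∑ m ∈ range M, z ^ (m + 1)‖ * (1 / n) ≤ 2 :=
    (mul_le_mul_of_nonneg_left h1 (norm_nonneg _)).trans h3
  rw [mul_one_div, div_le_iff₀ hn0] at h4
  exact h4

/-- the signed average over `x = 8 Q (m₁ + m₂ + 2)` of one term -/
lemma avg_trm (Q n M : ℕ) :
    ∑ m₁ ∈ range M, ∑ m₂ ∈ range M, (-1 : ℝ) ^ (m₁ + m₂) *
      trm (8 * Q * ((m₁ : ℝ) + m₂ + 2)) n =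
    2 * (cc * zz ^ n * ((1 / Real.sqrt (n : ℝ) : ℝ) : ℂ) *
      (∑ m ∈ range M, ze Q n ^ (m + 1)) ^ 2).re := by
  rw [sq, Finset.sum_mul_sum, Finset.mul_sum, Complex.re_sum, Finset.mul_sum]
  refine Finset.sum_congr rfl (fun m₁ _ => ?_)
  rw [Finset.mul_sum, Complex.re_sum, Finset.mul_sum]
  refine Finset.sum_congr rfl (fun m₂ _ => ?_)
  rw [trm_eq]
  have h : cc * zz ^ n * ((1 / Real.sqrt (n : ℝ) : ℝ) : ℂ) * (ze Q n ^ (m₁ + 1) * ze Q n ^ (m₂ + 1))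
      = (((-1 : ℝ) ^ (m₁ + m₂) : ℝ) : ℂ) * (cc * zz ^ n * GG (8 * Q * ((m₁ : ℝ) + m₂ + 2)) n) := by
    unfold GG ze
    rw [← pow_add, neg_pow, ← Complex.exp_nat_mul]
    have h1 : ((-1 : ℂ)) ^ (m₁ + 1 + (m₂ + 1)) = (((-1 : ℝ) ^ (m₁ + m₂) : ℝ) : ℂ) := by
      push_cast
      have : m₁ + 1 + (m₂ + 1) = (m₁ + m₂) + 2 := by ring
      rw [this, pow_add]; norm_num
    have h2 : ((m₁ + 1 + (m₂ + 1) : ℕ) : ℂ) * (((-(8 * Real.pi * Q / n) : ℝ) : ℂ) * I) =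
        (((-(Real.pi * (8 * Q * ((m₁ : ℝ) + m₂ + 2)) / n) : ℝ) : ℂ) * I) := by
      push_cast; ring
    rw [h1, h2]
    ring
  rw [h, Complex.re_ofReal_mul]
  ring

lemma zz_pow_eight : zz ^ 8 = 1 := by
  unfold zz
  rw [← Complex.exp_nat_mul]
  have : ((8 : ℕ) : ℂ) * (((3 * Real.pi / 4 : ℝ) : ℂ) * I) = ((3 : ℤ) : ℂ) * (2 * Real.pi * I) := by
    push_cast; ring
  rw [this]
  exact Complex.exp_int_mul_two_pi_mul_I _

lemma cc_re : cc.re = Real.sqrt 2 / 2 := by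
  unfold cc
  rw [Complex.exp_ofReal_mul_I_re, Real.cos_neg, Real.cos_pi_div_four]

/-- resonance -/
lemma ze_eq_one (Q d : ℕ) (hQ : Odd Q) (hd : d ∣ Q) (hd0 : 0 < d) : ze Q (8 * d) = 1 := by
  obtain ⟨e, rfl⟩ := hd
  have he : Odd e := Nat.Odd.of_mul_left (by rwa [mul_comm] at hQ)
  unfold ze
  have h1 : (((-(8 * Real.pi * ((d * e : ℕ) : ℝ) / ((8 * d : ℕ) : ℝ)) : ℝ) : ℂ) * I) =
      -((e : ℕ) * (Real.pi * I)) := by
    have : (d : ℂ) ≠ 0 := by exact_mod_cast hd0.ne'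
    push_cast
    field_simp
  rw [h1, Complex.exp_neg, Complex.exp_nat_mul, Complex.exp_pi_mul_I, he.neg_one_pow]
  norm_num

/-- converse: only the multiples `8 d`, `d ∣ Q`, resonate -/
lemma dvd_of_ze_eq_one (Q n : ℕ) (hQ : Odd Q) (hn : 1 ≤ n) (h : ze Q n = 1) :
    ∃ d, d ∣ Q ∧ n = 8 * d := by
  unfold ze at h
  have hn0 : (n : ℂ) ≠ 0 := by
    have : n ≠ 0 := by omega
    exact_mod_cast this
  have h1 : cexp (((-(8 * Real.pi * Q / n) : ℝ) : ℂ) * I + Real.pi * I) = 1 := by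
    rw [Complex.exp_add, Complex.exp_pi_mul_I]
    linear_combination h
  rw [Complex.exp_eq_one_iff] at h1
  obtain ⟨k, hk⟩ := h1
  have hpi : (Real.pi : ℂ) * I ≠ 0 := by
    apply mul_ne_zero _ Complex.I_ne_zero
    exact_mod_cast Real.pi_ne_zero
  have h2 : ((Real.pi : ℂ) * I) * ((n : ℂ) - 8 * Q) = ((Real.pi : ℂ) * I) * (2 * k * n) := by
    have h3 := congrArg (fun z => z * (n : ℂ)) hk
    have e1 : ((((-(8 * Real.pi * Q / n) : ℝ) : ℂ) * I + Real.pi * I)) * (n : ℂ) =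
        ((Real.pi : ℂ) * I) * ((n : ℂ) - 8 * Q) := by
      push_cast
      field_simp
      ring
    rw [e1] at h3
    rw [h3]; ring
  have h3 := mul_left_cancel₀ hpi h2
  have h4 : (n : ℤ) - 8 * Q = 2 * k * n := by exact_mod_cast h3
  -- n (1 - 2k) = 8 Q
  have h5 : (n : ℤ) * (1 - 2 * k) = 8 * Q := by linarith
  have h6 : (8 : ℤ) ∣ n := by
    have h7 : (8 : ℤ) ∣ (1 - 2 * k) * n := ⟨Q, by linarith⟩
    have hc : IsCoprime (8 : ℤ) (1 - 2 * k) := by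
      have h8 : IsCoprime (2 : ℤ) (1 - 2 * k) := ⟨k, 1, by ring⟩
      have h9 : IsCoprime ((2 : ℤ) ^ 3) (1 - 2 * k) := h8.pow_left
      norm_num at h9
      exact h9
    exact hc.dvd_of_dvd_mul_left h7
  have h7 : 8 ∣ n := by exact_mod_cast h6
  obtain ⟨d, rfl⟩ := h7
  refine ⟨d, ?_, rfl⟩
  have h8 : (d : ℤ) * (1 - 2 * k) = Q := by
    push_cast at h5; linarith
  have h9 : (d : ℤ) ∣ (Q : ℤ) := ⟨_, h8.symm⟩
  exact_mod_cast h9

end Pool.Agent.H221R3
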