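import Mathlib
import Pool.Agent.H221R3.PsiAvg

set_option autoImplicit false

namespace Pool.Agent.H221R3

open Finset Complex

noncomputable def TT (Q : ℕ) : ℝ := ∑ d ∈ Q.divisors, 1 / Real.sqrt (d : ℝ)

/-- the averaged term -/
noncomputable def vv (Q M n : ℕ) : ℝ :=
  2 * (cc * zz ^ n * ((1 / Real.sqrt (n : ℝ) : ℝ) : ℂ) *
      (∑ m ∈ range M, ze Q n ^ (m + 1)) ^ 2).re

lemma vv_res (Q M d : ℕ) (hQ : Odd Q) (hd : d ∣ Q) (hd0 : 0 < d) :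
    vv Q M (8 * d) = 1 / 2 * (1 / Real.sqrt d) * (M : ℝ) ^ 2 := by
  unfold vv
  rw [ze_eq_one Q d hQ hd hd0]
  have h1 : zz ^ (8 * d) = 1 := by rw [pow_mul, zz_pow_eight, one_pow]
  rw [h1]
  simp only [one_pow, Finset.sum_const, Finset.card_range, nsmul_eq_mul, mul_one]
  have h2 : cc * ((1 / Real.sqrt ((8 * d : ℕ) : ℝ) : ℝ) : ℂ) * (M : ℂ) ^ 2 =
      ((1 / Real.sqrt ((8 * d : ℕ) : ℝ) * (M : ℝ) ^ 2 : ℝ) : ℂ) * cc := by
    push_cast; ring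
  rw [h2, Complex.re_ofReal_mul, cc_re]
  have h3 : Real.sqrt ((8 * d : ℕ) : ℝ) = 2 * Real.sqrt 2 * Real.sqrt d := by
    push_cast
    rw [Real.sqrt_mul (by norm_num)]
    congr 1
    have : (8 : ℝ) = 2 ^ 2 * 2 := by norm_num
    rw [this, Real.sqrt_mul (by norm_num), Real.sqrt_sq (by norm_num)]
  rw [h3]
  have h4 : Real.sqrt 2 ≠ 0 := by positivity
  have h5 : Real.sqrt (d : ℝ) ≠ 0 := by
    have : (0 : ℝ) < d := by exact_mod_cast hd0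
    positivity
  field_simp

lemma vv_nonres (Q M n : ℕ) (hQ : Odd Q) (hn : 1 ≤ n) (h : ∀ d, d ∣ Q → n ≠ 8 * d) :
    - (8 * ((n : ℝ) ^ 2 / Real.sqrt n)) ≤ vv Q M n := by
  have hz1 : ze Q n ≠ 1 := by
    intro h1
    obtain ⟨d, hd, hnd⟩ := dvd_of_ze_eq_one Q n hQ hn h1
    exact h d hd hnd
  have h1 := norm_geom_le (ze Q n) n M hn (ze_pow Q n hn) hz1 (norm_ze Q n)
  have h2 : |vv Q M n| ≤ 8 * ((n : ℝ) ^ 2 / Real.sqrt n) := by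
    unfold vv
    rw [abs_mul, abs_of_pos (by norm_num : (0 : ℝ) < 2)]
    have h3 := Complex.abs_re_le_norm (cc * zz ^ n * ((1 / Real.sqrt (n : ℝ) : ℝ) : ℂ) *
      (∑ m ∈ range M, ze Q n ^ (m + 1)) ^ 2)
    rw [norm_mul, norm_mul, norm_mul, norm_cc, norm_pow, norm_zz, one_pow, one_mul, one_mul,
      Complex.norm_real, Real.norm_eq_abs,
      abs_of_nonneg (show (0 : ℝ) ≤ 1 / Real.sqrt (n : ℝ) by positivity), norm_pow] at h3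
    have h4 : ‖∑ m ∈ range M, ze Q n ^ (m + 1)‖ ^ 2 ≤ (2 * n) ^ 2 :=
      pow_le_pow_left₀ (norm_nonneg _) h1 2
    have h5 : 1 / Real.sqrt (n : ℝ) * ‖∑ m ∈ range M, ze Q n ^ (m + 1)‖ ^ 2 ≤
        1 / Real.sqrt (n : ℝ) * (2 * n) ^ 2 := mul_le_mul_of_nonneg_left h4 (by positivity)
    calc 2 * |_| ≤ 2 * (1 / Real.sqrt (n : ℝ) * (2 * n) ^ 2) := by linarith
      _ = 8 * ((n : ℝ) ^ 2 / Real.sqrt n) := by ring
  exact (abs_le.mp h2).1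

lemma sum_vv (Q : ℕ) (hQ : Odd Q) (hQ2 : 2 ≤ Q) :
    (Q : ℝ) ^ 10 * (1 / 2 * TT Q - 8) ≤ ∑ n ∈ Icc 1 (Q ^ 4), vv Q (Q ^ 5) n := by
  classical
  set R : Finset ℕ := Q.divisors.image (fun d => 8 * d) with hR
  have hsub : R ⊆ Icc 1 (Q ^ 4) := by
    intro n hn
    rw [hR, Finset.mem_image] at hn
    obtain ⟨d, hd, rfl⟩ := hn
    have hd1 : 0 < d := Nat.pos_of_mem_divisors hd
    have hd2 : d ≤ Q := Nat.divisor_le hd
    rw [Finset.mem_Icc]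
    refine ⟨by omega, ?_⟩
    calc 8 * d ≤ 8 * Q := Nat.mul_le_mul_left _ hd2
      _ ≤ Q ^ 3 * Q := Nat.mul_le_mul_right _ (by
          calc 8 = 2 ^ 3 := by norm_num
            _ ≤ Q ^ 3 := Nat.pow_le_pow_left hQ2 3)
      _ = Q ^ 4 := by ring
  rw [← Finset.sum_sdiff hsub]
  have h1 : ∑ n ∈ R, vv Q (Q ^ 5) n = 1 / 2 * TT Q * (Q : ℝ) ^ 10 := by
    rw [hR, Finset.sum_image (by
      intro a _ b _ hab
      simpa using hab)]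
    unfold TT
    rw [Finset.mul_sum, Finset.sum_mul]
    refine Finset.sum_congr rfl (fun d hd => ?_)
    rw [vv_res Q (Q ^ 5) d hQ (Nat.dvd_of_mem_divisors hd) (Nat.pos_of_mem_divisors hd)]
    push_cast
    ring
  have hsq : Real.sqrt (((Q ^ 4 : ℕ)) : ℝ) = (Q : ℝ) ^ 2 := by
    push_cast
    have : (Q : ℝ) ^ 4 = ((Q : ℝ) ^ 2) ^ 2 := by ring
    rw [this, Real.sqrt_sq (by positivity)]
  have hQ0 : (0 : ℝ) < Q := by
    have : 0 < Q := by omega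
    exact_mod_cast this
  have h2 : ∀ n ∈ Icc 1 (Q ^ 4) \ R, -(8 * (Q : ℝ) ^ 6) ≤ vv Q (Q ^ 5) n := by
    intro n hn
    rw [Finset.mem_sdiff, Finset.mem_Icc] at hn
    obtain ⟨⟨hn1, hn2⟩, hn3⟩ := hn
    have h := vv_nonres Q (Q ^ 5) n hQ hn1 (by
      intro d hd hnd
      apply hn3
      rw [hR, Finset.mem_image]
      exact ⟨d, Nat.mem_divisors.mpr ⟨hd, by omega⟩, hnd.symm⟩)
    refine le_trans ?_ h
    apply neg_le_neg
    apply mul_le_mul_of_nonneg_left _ (by norm_num)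
    have hn0 : (0 : ℝ) < n := by exact_mod_cast hn1
    have e1 : (n : ℝ) ^ 2 / Real.sqrt n = n * Real.sqrt n := by
      rw [div_eq_iff (by positivity)]
      rw [mul_assoc, Real.mul_self_sqrt hn0.le]; ring
    rw [e1]
    have hn4 : (n : ℝ) ≤ ((Q ^ 4 : ℕ) : ℝ) := by exact_mod_cast hn2
    have h6 : Real.sqrt n ≤ (Q : ℝ) ^ 2 := by
      rw [← hsq]; exact Real.sqrt_le_sqrt hn4
    have h7 : (n : ℝ) ≤ (Q : ℝ) ^ 4 := by push_cast at hn4; exact hn4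
    calc (n : ℝ) * Real.sqrt n ≤ (Q : ℝ) ^ 4 * (Q : ℝ) ^ 2 :=
          mul_le_mul h7 h6 (Real.sqrt_nonneg _) (by positivity)
      _ = (Q : ℝ) ^ 6 := by ring
  have h3 : -(8 * (Q : ℝ) ^ 10) ≤ ∑ n ∈ Icc 1 (Q ^ 4) \ R, vv Q (Q ^ 5) n := by
    have h4 := Finset.card_nsmul_le_sum (Icc 1 (Q ^ 4) \ R) (fun n => vv Q (Q ^ 5) n)
      (-(8 * (Q : ℝ) ^ 6)) h2
    refine le_trans ?_ h4
    rw [nsmul_eq_mul]
    have h5 : (((Icc 1 (Q ^ 4) \ R).card : ℕ) : ℝ) ≤ (Q : ℝ) ^ 4 := by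
      have : (Icc 1 (Q ^ 4) \ R).card ≤ Q ^ 4 := by
        refine (Finset.card_le_card Finset.sdiff_subset).trans ?_
        simp
      exact_mod_cast this
    have h6 : (0 : ℝ) ≤ 8 * (Q : ℝ) ^ 6 := by positivity
    have h7 := mul_le_mul_of_nonneg_right h5 h6
    have h8 : (Q : ℝ) ^ 4 * (8 * (Q : ℝ) ^ 6) = 8 * (Q : ℝ) ^ 10 := by ring
    linarith
  rw [h1]
  linarith

/-- The key inequality: if every limit value at the sample points is at most `B` in absolute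
value, then the divisor sum is at most `2 B + 230`. -/
lemma TT_le (Q : ℕ) (hQ : Odd Q) (hQ2 : 2 ≤ Q) (B : ℝ)
    (hB : ∀ x : ℝ, 16 * (Q : ℝ) ≤ x → x ≤ 16 * (Q : ℝ) ^ 6 → ∀ S : ℝ,
      Filter.Tendsto (FF x) Filter.atTop (nhds S) → |S| ≤ B) :
    TT Q ≤ 2 * B + 300 := by
  have hQ0 : (0 : ℝ) < Q := by
    have : 0 < Q := by omega
    exact_mod_cast this
  have hQ1 : (1 : ℝ) ≤ Q := by
    have : 1 ≤ Q := by omega
    exact_mod_cast this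
  have key : ∀ m₁ ∈ range (Q ^ 5), ∀ m₂ ∈ range (Q ^ 5),
      |FF (8 * Q * ((m₁ : ℝ) + m₂ + 2)) (Q ^ 4)| ≤ B + 140 := by
    intro m₁ hm₁ m₂ hm₂
    rw [Finset.mem_range] at hm₁ hm₂
    have h1 : (m₁ : ℝ) + 1 ≤ (Q : ℝ) ^ 5 := by exact_mod_cast hm₁
    have h2 : (m₂ : ℝ) + 1 ≤ (Q : ℝ) ^ 5 := by exact_mod_cast hm₂
    set x : ℝ := 8 * Q * ((m₁ : ℝ) + m₂ + 2) with hx
    have hm10 : (0 : ℝ) ≤ m₁ := Nat.cast_nonneg _
    have hm20 : (0 : ℝ) ≤ m₂ := Nat.cast_nonneg _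
    have hx1 : 16 * (Q : ℝ) ≤ x := by
      rw [hx]
      nlinarith
    have hx2 : x ≤ 16 * (Q : ℝ) ^ 6 := by
      rw [hx]
      have : (m₁ : ℝ) + m₂ + 2 ≤ 2 * (Q : ℝ) ^ 5 := by linarith
      calc 8 * (Q : ℝ) * ((m₁ : ℝ) + m₂ + 2) ≤ 8 * (Q : ℝ) * (2 * (Q : ℝ) ^ 5) :=
            mul_le_mul_of_nonneg_left this (by positivity)
        _ = 16 * (Q : ℝ) ^ 6 := by ring
    have hx0 : 0 ≤ x := by linarith
    obtain ⟨S, hS, hS2⟩ := exists_limit x hx0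
    have h3 := hB x hx1 hx2 S hS
    have h4 := hS2 (Q ^ 4) (Nat.one_le_pow _ _ (by omega))
    have hsq : Real.sqrt (((Q ^ 4 : ℕ)) : ℝ) = (Q : ℝ) ^ 2 := by
      push_cast
      have : (Q : ℝ) ^ 4 = ((Q : ℝ) ^ 2) ^ 2 := by ring
      rw [this, Real.sqrt_sq (by positivity)]
    rw [hsq] at h4
    have h5 : 2 / (Q : ℝ) ^ 2 ≤ 2 := by
      rw [div_le_iff₀ (by positivity)]
      nlinarith
    have h6 : Real.pi * x / (((Q ^ 4 : ℕ) : ℝ) * (Q : ℝ) ^ 2) ≤ 64 := by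
      rw [div_le_iff₀ (by positivity)]
      push_cast
      have h7 : Real.pi * x ≤ 4 * (16 * (Q : ℝ) ^ 6) :=
        mul_le_mul Real.pi_le_four hx2 hx0 (by norm_num)
      calc Real.pi * x ≤ 4 * (16 * (Q : ℝ) ^ 6) := h7
        _ = 64 * ((Q : ℝ) ^ 4 * (Q : ℝ) ^ 2) := by ring
    have h8 : |FF x (Q ^ 4)| ≤ |S| + |S - FF x (Q ^ 4)| := by
      have : FF x (Q ^ 4) = S - (S - FF x (Q ^ 4)) := by ring
      calc |FF x (Q ^ 4)| = |S - (S - FF x (Q ^ 4))| := by rw [← this]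
        _ ≤ |S| + |S - FF x (Q ^ 4)| := abs_sub _ _
    linarith
  have hsum : ∑ n ∈ Icc 1 (Q ^ 4), vv Q (Q ^ 5) n =
      ∑ m₁ ∈ range (Q ^ 5), ∑ m₂ ∈ range (Q ^ 5), (-1 : ℝ) ^ (m₁ + m₂) *
        FF (8 * Q * ((m₁ : ℝ) + m₂ + 2)) (Q ^ 4) := by
    unfold vv
    rw [Finset.sum_congr rfl (fun n _ => (avg_trm Q n (Q ^ 5)).symm)]
    rw [Finset.sum_comm]
    refine Finset.sum_congr rfl (fun m₁ _ => ?_)
    rw [Finset.sum_comm]
    refine Finset.sum_congr rfl (fun m₂ _ => ?_)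
    unfold FF
    rw [Finset.mul_sum]
  have hB0 : 0 ≤ B + 140 := by
    have h0 : 0 ∈ range (Q ^ 5) := by
      rw [Finset.mem_range]; positivity
    exact (abs_nonneg _).trans (key 0 h0 0 h0)
  have hup : ∑ n ∈ Icc 1 (Q ^ 4), vv Q (Q ^ 5) n ≤ (Q : ℝ) ^ 10 * (B + 140) := by
    rw [hsum]
    calc ∑ m₁ ∈ range (Q ^ 5), ∑ m₂ ∈ range (Q ^ 5), (-1 : ℝ) ^ (m₁ + m₂) *
          FF (8 * Q * ((m₁ : ℝ) + m₂ + 2)) (Q ^ 4)
        ≤ ∑ m₁ ∈ range (Q ^ 5), ∑ m₂ ∈ range (Q ^ 5), (B + 140) := by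
          refine Finset.sum_le_sum (fun m₁ hm₁ => Finset.sum_le_sum (fun m₂ hm₂ => ?_))
          refine (le_abs_self _).trans ?_
          rw [abs_mul, abs_pow, abs_neg, abs_one, one_pow, one_mul]
          exact key m₁ hm₁ m₂ hm₂
      _ = (Q : ℝ) ^ 10 * (B + 140) := by
          rw [Finset.sum_const, Finset.sum_const, Finset.card_range, nsmul_eq_mul, nsmul_eq_mul]
          push_cast
          ring
  have hlow := sum_vv Q hQ hQ2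
  have h9 : (Q : ℝ) ^ 10 * (1 / 2 * TT Q - 8) ≤ (Q : ℝ) ^ 10 * (B + 140) := hlow.trans hup
  have h10 : (0 : ℝ) < (Q : ℝ) ^ 10 := by positivity
  have h11 := le_of_mul_le_mul_left h9 h10
  linarith

end Pool.Agent.H221R3
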