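import Mathlib
import Pool.Agent.H221R3.PsiMain

set_option autoImplicit false

namespace Pool.Agent.H221R3

open Finset

/-- odd primes up to `y` -/
def oddP (y : ℕ) : Finset ℕ := (Nat.primesLE y).erase 2

/-- product of the odd primes up to `y` -/
def QQ (y : ℕ) : ℕ := ∏ p ∈ oddP y, p

lemma prime_of_mem_oddP {y p : ℕ} (h : p ∈ oddP y) : p.Prime :=
  Nat.prime_of_mem_primesLE (Finset.mem_of_mem_erase h)

lemma QQ_odd (y : ℕ) : Odd (QQ y) := by
  unfold QQ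
  apply Finset.prod_induction _ Odd (fun a b ha hb => ha.mul hb) odd_one
  intro p hp
  exact (prime_of_mem_oddP hp).odd_of_ne_two (Finset.ne_of_mem_erase hp)

lemma QQ_pos (y : ℕ) : 0 < QQ y := (QQ_odd y).pos

lemma QQ_le (y : ℕ) : QQ y ≤ 4 ^ y := by
  refine le_trans ?_ (primorial_le_four_pow y)
  rw [primorial_eq_prod_primesLE]
  unfold QQ
  apply Finset.prod_le_prod_of_subset_of_one_le' (Finset.erase_subset _ _)
  intro p hp _
  exact (Nat.prime_of_mem_primesLE hp).one_lt.le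

lemma two_pow_card_le (y : ℕ) : 2 ^ (oddP y).card ≤ QQ y := by
  unfold QQ
  rw [← Finset.prod_const]
  exact Finset.prod_le_prod' (fun p hp => (prime_of_mem_oddP hp).two_le)

lemma prod_le_TT (y : ℕ) : ∏ p ∈ oddP y, (1 + 1 / Real.sqrt (p : ℝ)) ≤ TT (QQ y) := by
  classical
  rw [Finset.prod_one_add]
  unfold TT
  have h1 : ∀ t ∈ (oddP y).powerset, ∏ i ∈ t, 1 / Real.sqrt (i : ℝ) =
      1 / Real.sqrt ((∏ p ∈ t, p : ℕ) : ℝ) := by
    intro t _
    rw [Finset.prod_div_distrib, Finset.prod_const_one]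
    congr 1
    push_cast
    rw [← Real.sqrt_prod]
    intro i _
    exact Nat.cast_nonneg i
  rw [Finset.sum_congr rfl h1]
  have hinj : Set.InjOn (fun t : Finset ℕ => ∏ p ∈ t, p) ((oddP y).powerset : Set (Finset ℕ)) := by
    intro s hs t ht hst
    have hs' : s ⊆ oddP y := Finset.mem_powerset.mp (Finset.mem_coe.mp hs)
    have ht' : t ⊆ oddP y := Finset.mem_powerset.mp (Finset.mem_coe.mp ht)
    have e1 := Nat.primeFactors_prod (s := s) (fun p hp => prime_of_mem_oddP (hs' hp))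
    have e2 := Nat.primeFactors_prod (s := t) (fun p hp => prime_of_mem_oddP (ht' hp))
    have hst' : ∏ p ∈ s, p = ∏ p ∈ t, p := hst
    rw [← e1, ← e2, hst']
  rw [← Finset.sum_image (f := fun d : ℕ => 1 / Real.sqrt (d : ℝ)) hinj]
  apply Finset.sum_le_sum_of_subset_of_nonneg
  · intro d hd
    rw [Finset.mem_image] at hd
    obtain ⟨t, ht, rfl⟩ := hd
    rw [Nat.mem_divisors]
    refine ⟨?_, (QQ_pos y).ne'⟩
    exact Finset.prod_dvd_prod_of_subset _ _ _ (Finset.mem_powerset.mp ht)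
  · intro d _ _
    positivity

lemma two_pow_le_TT (z : ℕ) (hz : 1 ≤ z) (hc : z ^ 3 ≤ (oddP (z ^ 4)).card) :
    (2 : ℝ) ^ z ≤ TT (QQ (z ^ 4)) := by
  refine le_trans ?_ (prod_le_TT (z ^ 4))
  have hz0 : (0 : ℝ) < z := by exact_mod_cast hz
  have h1 : ∀ p ∈ oddP (z ^ 4), (1 + 1 / (z : ℝ) ^ 2) ≤ 1 + 1 / Real.sqrt (p : ℝ) := by
    intro p hp
    have hp1 : p ≤ z ^ 4 := Nat.le_of_mem_primesLE (Finset.mem_of_mem_erase hp)
    have hp2 : (p : ℝ) ≤ ((z : ℝ) ^ 2) ^ 2 := by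
      have : (p : ℝ) ≤ ((z ^ 4 : ℕ) : ℝ) := by exact_mod_cast hp1
      push_cast at this
      calc (p : ℝ) ≤ (z : ℝ) ^ 4 := this
        _ = ((z : ℝ) ^ 2) ^ 2 := by ring
    have hp3 : Real.sqrt p ≤ (z : ℝ) ^ 2 := by
      rw [← Real.sqrt_sq (show (0 : ℝ) ≤ (z : ℝ) ^ 2 by positivity)]
      exact Real.sqrt_le_sqrt hp2
    have hp4 : 0 < Real.sqrt (p : ℝ) := by
      apply Real.sqrt_pos.mpr
      exact_mod_cast (prime_of_mem_oddP hp).pos
    have := one_div_le_one_div_of_le hp4 hp3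
    linarith
  have h2 : ∏ p ∈ oddP (z ^ 4), (1 + 1 / (z : ℝ) ^ 2) ≤
      ∏ p ∈ oddP (z ^ 4), (1 + 1 / Real.sqrt (p : ℝ)) :=
    Finset.prod_le_prod (fun p _ => by positivity) h1
  refine le_trans ?_ h2
  rw [Finset.prod_const]
  have h3 : (1 : ℝ) ≤ 1 + 1 / (z : ℝ) ^ 2 := by
    have : 0 ≤ 1 / (z : ℝ) ^ 2 := by positivity
    linarith
  refine le_trans ?_ (pow_le_pow_right₀ h3 hc)
  have h4 : z ^ 3 = z ^ 2 * z := by ring
  rw [h4, pow_mul]
  apply pow_le_pow_left₀ (by norm_num)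
  have h5 := one_add_mul_le_pow (a := 1 / (z : ℝ) ^ 2) (by
    have : 0 ≤ 1 / (z : ℝ) ^ 2 := by positivity
    linarith) (z ^ 2)
  refine le_trans (le_of_eq ?_) h5
  push_cast
  field_simp
  norm_num

lemma eventually_card : ∀ᶠ z : ℕ in Filter.atTop, z ^ 3 ≤ (oddP (z ^ 4)).card := by
  have hlog := (Real.isLittleO_log_id_atTop.comp_tendsto
    (tendsto_natCast_atTop_atTop (R := ℝ))).bound (show (0 : ℝ) < 1 / 100 by norm_num)
  filter_upwards [hlog, Filter.eventually_ge_atTop 2] with z hz hz2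
  have hz1 : (2 : ℝ) ≤ z := by exact_mod_cast hz2
  have hz0 : (0 : ℝ) < z := by linarith
  simp only [Function.comp, id] at hz
  rw [Real.norm_of_nonneg (Real.log_nonneg (by linarith)), Real.norm_of_nonneg hz0.le] at hz
  have h1 := Chebyshev.pi_ge (z ^ 4)
  have hz4 : (1 : ℝ) < ((z ^ 4 : ℕ) : ℝ) := by
    push_cast
    exact one_lt_pow₀ (by linarith) (by norm_num)
  have h2 : ((z ^ 3 + 1 : ℕ) : ℝ) ≤
      (((z ^ 4 : ℕ) : ℝ) * Real.log 2 - Real.log (((z ^ 4 : ℕ) : ℝ) + 1)) /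
        Real.log ((z ^ 4 : ℕ) : ℝ) := by
    rw [le_div_iff₀ (Real.log_pos hz4)]
    have h3 : Real.log (((z ^ 4 : ℕ) : ℝ) + 1) ≤ Real.log 2 + Real.log ((z ^ 4 : ℕ) : ℝ) := by
      rw [← Real.log_mul (by norm_num) (by positivity)]
      apply Real.log_le_log (by positivity)
      linarith
    have h4 : Real.log ((z ^ 4 : ℕ) : ℝ) ≤ 4 * (1 / 100 * z) := by
      push_cast
      rw [Real.log_pow]
      push_cast
      linarith
    have h5 := Real.log_two_gt_d9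
    have h6 := Real.log_two_lt_d9
    push_cast at *
    have h7 : ((z : ℝ) ^ 3 + 1) * Real.log ((z : ℝ) ^ 4) ≤ ((z : ℝ) ^ 3 + 1) * (4 * (1 / 100 * z)) :=
      mul_le_mul_of_nonneg_left h4 (by positivity)
    have h8 : (z : ℝ) ^ 4 * 0.69 ≤ (z : ℝ) ^ 4 * Real.log 2 :=
      mul_le_mul_of_nonneg_left (by linarith) (by positivity)
    have h9 : (16 : ℝ) ≤ (z : ℝ) ^ 4 := by
      calc (16 : ℝ) = 2 ^ 4 := by norm_num
        _ ≤ (z : ℝ) ^ 4 := pow_le_pow_left₀ (by norm_num) hz1 4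
    have h10 : (z : ℝ) ≤ (z : ℝ) ^ 4 := by
      calc (z : ℝ) = (z : ℝ) ^ 1 := by ring
        _ ≤ (z : ℝ) ^ 4 := pow_le_pow_right₀ (by linarith) (by norm_num)
    have h11 : ((z : ℝ) ^ 3 + 1) * (4 * (1 / 100 * z)) = 4 / 100 * (z : ℝ) ^ 4 + 4 / 100 * z := by
      ring
    linarith
  have h12 : ((z ^ 3 + 1 : ℕ) : ℝ) ≤ ((Nat.primeCounting (z ^ 4) : ℕ) : ℝ) := h2.trans h1
  have h13 : z ^ 3 + 1 ≤ Nat.primeCounting (z ^ 4) := by exact_mod_cast h12
  have h14 : Nat.primeCounting (z ^ 4) = (Nat.primesLE (z ^ 4)).card := by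
    rw [Nat.primesLE_eq_filter_range, Nat.primeCounting, Nat.primeCounting', Nat.count_eq_card_filter_range]
  have h15 : (Nat.primesLE (z ^ 4)).card ≤ (oddP (z ^ 4)).card + 1 := by
    unfold oddP
    have := Finset.pred_card_le_card_erase (s := Nat.primesLE (z ^ 4)) (a := 2)
    omega
  omega

end Pool.Agent.H221R3
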