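import Mathlib
import Pool.Agent.Helper434.PSCplx

set_option autoImplicit false

namespace H221R3.Sturm

open Pool.Agent.Helper434.PSCplx (L2 exists_H)

section hilbert

variable {X : Type*} [NormedAddCommGroup X] [InnerProductSpace ℂ X] [CompleteSpace X]

/-- a self-adjoint operator which is bounded below at the real energy `E` is invertible there -/
theorem isUnit_of_below {H : X →L[ℂ] X} (hH : IsSelfAdjoint H) {E c : ℝ} (hc : 0 < c)
    (h : ∀ ψ : X, c * ‖ψ‖ ≤ ‖H ψ - (E : ℂ) • ψ‖) :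
    (E : ℂ) ∉ spectrum ℂ H := by
  set T : X →L[ℂ] X := H - (E : ℂ) • ContinuousLinearMap.id ℂ X with hT
  have hTa : ∀ ψ, T ψ = H ψ - (E : ℂ) • ψ := fun ψ => rfl
  have hTs : IsSelfAdjoint T := by
    apply hH.sub
    have h1 : IsSelfAdjoint (E : ℂ) := Complex.conj_ofReal E
    exact h1.smul (IsSelfAdjoint.one (X →L[ℂ] X))
  have hsym := (ContinuousLinearMap.isSelfAdjoint_iff_isSymmetric.mp hTs)
  have hal : AntilipschitzWith (Real.toNNReal c⁻¹) T := by
    apply ContinuousLinearMap.antilipschitz_of_bound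
    intro ψ
    rw [Real.coe_toNNReal _ (by positivity), hTa]
    have := h ψ
    rw [inv_mul_eq_div, le_div_iff₀ hc]
    linarith
  have hinj : Function.Injective T := hal.injective
  have hcl : IsClosed (LinearMap.range (T : X →ₗ[ℂ] X) : Set X) := by
    exact hal.isClosed_range T.uniformContinuous
  have hker : (LinearMap.range (T : X →ₗ[ℂ] X))ᗮ = ⊥ := by
    rw [Submodule.eq_bot_iff]
    intro φ hφ
    rw [Submodule.mem_orthogonal] at hφ
    have h1 : ∀ ψ, inner ℂ (T ψ) φ = 0 := fun ψ => hφ _ ⟨ψ, rfl⟩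
    have h2 : inner ℂ (T φ) (T φ) = 0 := by
      have := h1 (T φ)
      have h3 : inner ℂ (T (T φ)) φ = inner ℂ (T φ) (T φ) := hsym (T φ) φ
      rw [← h3]; exact this
    have h3 : T φ = 0 := inner_self_eq_zero.mp h2
    exact hinj (by rw [h3, map_zero])
  have hsurj : Function.Surjective T := by
    have : (LinearMap.range (T : X →ₗ[ℂ] X)) = ⊤ := by
      have : CompleteSpace (LinearMap.range (T : X →ₗ[ℂ] X)) := hcl.completeSpace_coe
      exact (Submodule.orthogonal_eq_bot_iff).mp hker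
    exact LinearMap.range_eq_top.mp this
  have hunit : IsUnit T := by
    rw [ContinuousLinearMap.isUnit_iff_bijective]
    exact ⟨hinj, hsurj⟩
  intro hmem
  rw [spectrum.mem_iff] at hmem
  apply hmem
  have h4 : algebraMap ℂ (X →L[ℂ] X) (E : ℂ) - H = -T := by
    rw [Algebra.algebraMap_eq_smul_one]
    rw [hT, neg_sub]
    rfl
  rw [h4]
  exact hunit.neg

theorem free_of_below {H : X →L[ℂ] X} (hH : IsSelfAdjoint H) {E c : ℝ} (hc : 0 < c)
    (h : ∀ ψ : X, c * ‖ψ‖ ≤ ‖H ψ - (E : ℂ) • ψ‖) {E' : ℝ} (hE : |E' - E| < c) :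
    (E' : ℂ) ∉ spectrum ℂ H := by
  apply isUnit_of_below hH (c := c - |E' - E|) (by linarith)
  intro ψ
  have h1 : H ψ - (E : ℂ) • ψ = (H ψ - (E' : ℂ) • ψ) + ((E' - E : ℝ) : ℂ) • ψ := by
    rw [Complex.ofReal_sub, sub_smul]
    abel
  have h2 := h ψ
  rw [h1] at h2
  have h3 := norm_add_le (H ψ - (E' : ℂ) • ψ) (((E' - E : ℝ) : ℂ) • ψ)
  rw [norm_smul, Complex.norm_real, Real.norm_eq_abs] at h3
  have h4 := h2.trans h3
  nlinarith

/-- approximate eigenvectors give nearby spectrum -/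
theorem near_of_approx {H : X →L[ℂ] X} (hH : IsSelfAdjoint H) {E ε ε' : ℝ} (hε : 0 < ε')
    (hεε : ε < ε') {ψ : X} (hψ : ψ ≠ 0) (h : ‖H ψ - (E : ℂ) • ψ‖ ≤ ε * ‖ψ‖) :
    ∃ E' : ℝ, |E' - E| ≤ ε' ∧ (E' : ℂ) ∈ spectrum ℂ H := by
  by_contra hcon
  push Not at hcon
  set T : X →L[ℂ] X := H - (E : ℂ) • (1 : X →L[ℂ] X) with hT
  have hTa : ∀ ψ, T ψ = H ψ - (E : ℂ) • ψ := fun ψ => rfl
  have hTs : IsSelfAdjoint T := by
    apply hH.sub
    have h1 : IsSelfAdjoint (E : ℂ) := Complex.conj_ofReal E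
    exact h1.smul (IsSelfAdjoint.one (X →L[ℂ] X))
  have hspecT : ∀ μ : ℂ, μ ∈ spectrum ℂ T → μ + E ∈ spectrum ℂ H := by
    intro μ hμ
    rw [spectrum.mem_iff] at hμ ⊢
    have h1 : algebraMap ℂ (X →L[ℂ] X) (μ + E) - H = algebraMap ℂ (X →L[ℂ] X) μ - T := by
      rw [hT, map_add, Algebra.algebraMap_eq_smul_one (E : ℂ)]; abel
    rw [h1]; exact hμ
  have hE0 : (E : ℂ) ∉ spectrum ℂ H := hcon E (by simp [hε.le])
  have hunit : IsUnit T := by
    by_contra hnu
    have h0 : (0 : ℂ) ∈ spectrum ℂ T := by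
      rw [spectrum.zero_mem_iff]; exact hnu
    have := hspecT 0 h0
    rw [zero_add] at this
    exact hE0 this
  obtain ⟨u, hu⟩ := hunit
  set R : X →L[ℂ] X := ((u⁻¹ : (X →L[ℂ] X)ˣ) : X →L[ℂ] X) with hR
  have hRs : IsSelfAdjoint R := by
    have h1 : IsSelfAdjoint u := by
      rw [IsSelfAdjoint]
      ext1
      rw [Units.coe_star, hu]
      exact hTs
    have h2 : IsSelfAdjoint (u⁻¹) := h1.inv
    have h3 := congrArg Units.val h2
    exact h3
  have hspecR : ∀ μ ∈ spectrum ℂ R, ‖μ‖ ≤ 1 / ε' := by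
    intro μ hμ
    have hμ0 : μ ≠ 0 := by
      rintro rfl
      rw [spectrum.zero_mem_iff] at hμ
      exact hμ (u⁻¹).isUnit
    have h1 : μ⁻¹ ∈ spectrum ℂ T := by
      rw [← hu]
      have := spectrum.inv_mem_iff (R := ℂ) (r := Units.mk0 μ hμ0) (a := u⁻¹)
      rw [inv_inv] at this
      exact this.mp hμ
    have h2 := hTs.mem_spectrum_eq_re h1
    have h3 := hspecT _ h1
    rw [h2] at h3
    by_contra hlt
    push Not at hlt
    have h4 : |(μ⁻¹).re + E - E| ≤ ε' := by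
      rw [add_sub_cancel_right]
      have h5 : ‖μ⁻¹‖ < ε' := by
        rw [norm_inv]
        rw [inv_lt_comm₀ (norm_pos_iff.mpr hμ0) hε]
        rwa [one_div] at hlt
      exact (Complex.abs_re_le_norm _).trans h5.le
    have h5 := hcon _ h4
    apply h5
    push_cast
    exact h3
  have hnorm : ‖R‖ ≤ 1 / ε' := by
    have h1 := hRs.spectralRadius_eq_nnnorm
    have h2 : spectralRadius ℂ R ≤ (Real.toNNReal (1 / ε') : ENNReal) := by
      rw [spectralRadius]
      apply iSup₂_le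
      intro μ hμ
      have := hspecR μ hμ
      rw [ENNReal.coe_le_coe]
      rw [← NNReal.coe_le_coe, Real.coe_toNNReal _ (by positivity)]
      simpa using this
    rw [h1, ENNReal.coe_le_coe, ← NNReal.coe_le_coe, Real.coe_toNNReal _ (by positivity)] at h2
    simpa using h2
  have h1 : R (T ψ) = ψ := by
    have h2 : (R * T) ψ = ψ := by
      rw [hR, ← hu, Units.inv_mul]; rfl
    exact h2
  have h2 : ‖ψ‖ ≤ 1 / ε' * (ε * ‖ψ‖) := by
    calc ‖ψ‖ = ‖R (T ψ)‖ := by rw [h1]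
      _ ≤ ‖R‖ * ‖T ψ‖ := R.le_opNorm _
      _ ≤ 1 / ε' * (ε * ‖ψ‖) := by
          apply mul_le_mul hnorm _ (norm_nonneg _) (by positivity)
          rw [hTa]; exact h
  have h3 : 0 < ‖ψ‖ := norm_pos_iff.mpr hψ
  have h4 : 1 / ε' * (ε * ‖ψ‖) < ‖ψ‖ := by
    rw [← mul_assoc, one_div, inv_mul_eq_div]
    calc ε / ε' * ‖ψ‖ < 1 * ‖ψ‖ := by
          apply mul_lt_mul_of_pos_right _ h3
          rw [div_lt_one hε]; exact hεε
      _ = ‖ψ‖ := one_mul _
  linarith

end hilbert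

end H221R3.Sturm
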