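import Mathlib

set_option autoImplicit false

namespace H221R3.Sturm

open scoped ENNReal

/-- a contraction estimate for square sums -/
theorem sq_sum_le {a f : ℤ → ℝ} {r : ℝ} (hr0 : 0 < r) (hr1 : r < 1)
    (ha0 : ∀ n, 0 ≤ a n) (hf0 : ∀ n, 0 ≤ f n) (σ : ℤ ≃ ℤ)
    (h : ∀ n, a n ≤ r * a (σ n) + f n)
    (hsa : Summable fun n => a n ^ 2) (hsf : Summable fun n => f n ^ 2) :
    (1 - r) ^ 2 * ∑' n, a n ^ 2 ≤ ∑' n, f n ^ 2 := by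
  have h1 : ∀ n, a n ^ 2 ≤ r * a (σ n) ^ 2 + (1 - r)⁻¹ * f n ^ 2 := by
    intro n
    have h2 : a n ^ 2 ≤ (r * a (σ n) + f n) ^ 2 := by
      apply pow_le_pow_left₀ (ha0 n) (h n)
    have h1r : 0 < 1 - r := by linarith
    have h3 : (r * a (σ n) + f n) ^ 2 ≤ r * a (σ n) ^ 2 + (1 - r)⁻¹ * f n ^ 2 := by
      have h4 : 0 ≤ r * (1 - r)⁻¹ * ((1 - r) * a (σ n) - f n) ^ 2 := by positivity
      have h5 : r * a (σ n) ^ 2 + (1 - r)⁻¹ * f n ^ 2 - (r * a (σ n) + f n) ^ 2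
          = r * (1 - r)⁻¹ * ((1 - r) * a (σ n) - f n) ^ 2 := by
        field_simp
        ring
      linarith
    linarith
  have hs1 : Summable fun n => a (σ n) ^ 2 := (σ.summable_iff (f := fun n => a n ^ 2)).mpr hsa
  have hs2 : ∑' n, a (σ n) ^ 2 = ∑' n, a n ^ 2 := σ.tsum_eq fun n => a n ^ 2
  have h6 : ∑' n, a n ^ 2 ≤ ∑' n, (r * a (σ n) ^ 2 + (1 - r)⁻¹ * f n ^ 2) :=
    hsa.tsum_le_tsum h1 ((hs1.mul_left r).add (hsf.mul_left _))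
  rw [(hs1.mul_left r).tsum_add (hsf.mul_left _), tsum_mul_left, tsum_mul_left, hs2] at h6
  have h1r : 0 < 1 - r := by linarith
  have h7 : (1 - r) * ∑' n, a n ^ 2 ≤ (1 - r)⁻¹ * ∑' n, f n ^ 2 := by linarith
  have h8 := mul_le_mul_of_nonneg_left h7 h1r.le
  rw [← mul_assoc, mul_inv_cancel_left₀ h1r.ne'] at h8
  calc (1 - r) ^ 2 * ∑' n, a n ^ 2 = (1 - r) * (1 - r) * ∑' n, a n ^ 2 := by ring
    _ ≤ _ := h8

/-- Green function bound: two solutions with exponential bounds and nonzero Wronskian -/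
theorem green {x : ℤ → ℂ} {sp sm : ℤ → ℂ} {C r : ℝ} (hr0 : 0 < r) (hr1 : r < 1) (hC : 0 < C)
    (hsp : ∀ n, sp (n + 1) + sp (n - 1) + x n * sp n = 0)
    (hsm : ∀ n, sm (n + 1) + sm (n - 1) + x n * sm n = 0)
    (hbp : ∀ n : ℤ, ‖sp n‖ ≤ C * r ^ n) (hbm : ∀ n : ℤ, ‖sm n‖ ≤ C * r ^ (-n))
    {w : ℂ} (hw : w ≠ 0) (hwe : ∀ n : ℤ, sp (n - 1) * sm n - sm (n - 1) * sp n = w) :
    ∃ c : ℝ, 0 < c ∧ ∀ ψ : ℤ → ℂ, Summable (fun n => ‖ψ n‖ ^ 2) →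
      Summable (fun n => ‖ψ (n + 1) + ψ (n - 1) + x n * ψ n‖ ^ 2) →
      c ^ 2 * ∑' n, ‖ψ n‖ ^ 2 ≤ ∑' n, ‖ψ (n + 1) + ψ (n - 1) + x n * ψ n‖ ^ 2 := by
  refine ⟨‖w‖ * (1 - r) / (2 * C ^ 2), by
    have : 0 < ‖w‖ := norm_pos_iff.mpr hw
    have : 0 < 1 - r := by linarith
    positivity, ?_⟩
  intro ψ hψ hφ
  set φ : ℤ → ℂ := fun n => ψ (n + 1) + ψ (n - 1) + x n * ψ n with hφd
  set Wp : ℤ → ℂ := fun n => ψ n * sp (n - 1) - ψ (n - 1) * sp n with hWp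
  set Wm : ℤ → ℂ := fun n => ψ n * sm (n - 1) - ψ (n - 1) * sm n with hWm
  have hWp1 : ∀ n, Wp (n + 1) = Wp n + φ n * sp n := by
    intro n
    simp only [hWp, hφd, add_sub_cancel_right]
    linear_combination (-ψ n) * hsp n
  have hWm1 : ∀ n, Wm (n + 1) = Wm n + φ n * sm n := by
    intro n
    simp only [hWm, hφd, add_sub_cancel_right]
    linear_combination (-ψ n) * hsm n
  have hψw : ∀ n, Wp n * sm n - Wm n * sp n = ψ n * w := by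
    intro n
    rw [← hwe n]
    simp only [hWp, hWm]
    ring
  have hrz : ∀ n : ℤ, 0 < r ^ n := fun n => zpow_pos hr0 n
  have hrr : ∀ n : ℤ, r ^ n * r ^ (-n) = 1 := fun n => by
    rw [← zpow_add₀ hr0.ne', add_neg_cancel, zpow_zero]
  set a : ℤ → ℝ := fun n => ‖Wp n‖ * r ^ (-n) with ha
  set b : ℤ → ℝ := fun n => ‖Wm n‖ * r ^ n with hb
  have ha0 : ∀ n, 0 ≤ a n := fun n => mul_nonneg (norm_nonneg _) (hrz _).le
  have hb0 : ∀ n, 0 ≤ b n := fun n => mul_nonneg (norm_nonneg _) (hrz _).le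
  have hra : ∀ n, a n ≤ r * a ((Equiv.addRight (1 : ℤ)) n) + C * ‖φ n‖ := by
    intro n
    simp only [ha, Equiv.coe_addRight]
    have h1 : Wp n = Wp (n + 1) - φ n * sp n := by rw [hWp1]; ring
    have h2 : ‖Wp n‖ ≤ ‖Wp (n + 1)‖ + ‖φ n‖ * (C * r ^ n) := by
      rw [h1]
      refine (norm_sub_le _ _).trans ?_
      rw [norm_mul]
      gcongr
      exact hbp n
    have h3 : r * (‖Wp (n + 1)‖ * r ^ (-(n + 1))) = ‖Wp (n + 1)‖ * r ^ (-n) := by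
      rw [neg_add, zpow_add₀ hr0.ne', zpow_neg_one]
      field_simp
    rw [h3]
    calc ‖Wp n‖ * r ^ (-n) ≤ (‖Wp (n + 1)‖ + ‖φ n‖ * (C * r ^ n)) * r ^ (-n) :=
          mul_le_mul_of_nonneg_right h2 (hrz _).le
      _ = ‖Wp (n + 1)‖ * r ^ (-n) + C * ‖φ n‖ * (r ^ n * r ^ (-n)) := by ring
      _ = _ := by rw [hrr, mul_one]
  have hrb : ∀ n, b n ≤ r * b ((Equiv.subRight (1 : ℤ)) n)
      + C * ‖φ ((Equiv.subRight (1 : ℤ)) n)‖ := by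
    intro n
    simp only [hb, Equiv.subRight_apply]
    have h1 : Wm n = Wm (n - 1) + φ (n - 1) * sm (n - 1) := by
      rw [← hWm1, sub_add_cancel]
    have h2 : ‖Wm n‖ ≤ ‖Wm (n - 1)‖ + ‖φ (n - 1)‖ * (C * r ^ (-(n - 1))) := by
      rw [h1]
      refine (norm_add_le _ _).trans ?_
      rw [norm_mul]
      gcongr
      exact hbm (n - 1)
    have h3 : r ^ n = r * r ^ (n - 1) := by
      rw [zpow_sub_one₀ hr0.ne']
      field_simp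
    calc ‖Wm n‖ * r ^ n ≤ (‖Wm (n - 1)‖ + ‖φ (n - 1)‖ * (C * r ^ (-(n - 1)))) * r ^ n :=
          mul_le_mul_of_nonneg_right h2 (hrz _).le
      _ = r * (‖Wm (n - 1)‖ * r ^ (n - 1))
          + r * (C * ‖φ (n - 1)‖) * (r ^ (n - 1) * r ^ (-(n - 1))) := by rw [h3]; ring
      _ ≤ r * (‖Wm (n - 1)‖ * r ^ (n - 1)) + 1 * (C * ‖φ (n - 1)‖) := by
          rw [hrr, mul_one]
          gcongr
      _ = _ := by rw [one_mul]
  -- summability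
  have hsψ1 : Summable fun n : ℤ => ‖ψ (n - 1)‖ ^ 2 :=
    ((Equiv.subRight (1 : ℤ)).summable_iff (f := fun n => ‖ψ n‖ ^ 2)).mpr hψ
  have hsa : Summable fun n => a n ^ 2 := by
    refine Summable.of_nonneg_of_le (fun n => by positivity) (fun n => ?_)
      ((hψ.mul_left (2 * (C * r⁻¹) ^ 2)).add (hsψ1.mul_left (2 * C ^ 2)))
    have h1 : a n ≤ C * r⁻¹ * ‖ψ n‖ + C * ‖ψ (n - 1)‖ := by
      simp only [ha, hWp]
      have h2 : ‖ψ n * sp (n - 1) - ψ (n - 1) * sp n‖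
          ≤ ‖ψ n‖ * (C * r ^ (n - 1)) + ‖ψ (n - 1)‖ * (C * r ^ n) := by
        refine (norm_sub_le _ _).trans ?_
        rw [norm_mul, norm_mul]
        gcongr
        · exact hbp _
        · exact hbp _
      calc _ ≤ (‖ψ n‖ * (C * r ^ (n - 1)) + ‖ψ (n - 1)‖ * (C * r ^ n)) * r ^ (-n) :=
            mul_le_mul_of_nonneg_right h2 (hrz _).le
        _ = C * r⁻¹ * ‖ψ n‖ * (r ^ n * r ^ (-n)) + C * ‖ψ (n - 1)‖ * (r ^ n * r ^ (-n)) := by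
            rw [zpow_sub_one₀ hr0.ne']; ring
        _ = _ := by rw [hrr]; ring
    calc a n ^ 2 ≤ (C * r⁻¹ * ‖ψ n‖ + C * ‖ψ (n - 1)‖) ^ 2 := pow_le_pow_left₀ (ha0 n) h1 2
      _ ≤ 2 * (C * r⁻¹) ^ 2 * ‖ψ n‖ ^ 2 + 2 * C ^ 2 * ‖ψ (n - 1)‖ ^ 2 := by
          nlinarith [sq_nonneg (C * r⁻¹ * ‖ψ n‖ - C * ‖ψ (n - 1)‖)]
  have hsb : Summable fun n => b n ^ 2 := by
    refine Summable.of_nonneg_of_le (fun n => by positivity) (fun n => ?_)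
      ((hψ.mul_left (2 * C ^ 2)).add (hsψ1.mul_left (2 * C ^ 2)))
    have h1 : b n ≤ C * ‖ψ n‖ + C * ‖ψ (n - 1)‖ := by
      simp only [hb, hWm]
      have h2 : ‖ψ n * sm (n - 1) - ψ (n - 1) * sm n‖
          ≤ ‖ψ n‖ * (C * r ^ (-(n - 1))) + ‖ψ (n - 1)‖ * (C * r ^ (-n)) := by
        refine (norm_sub_le _ _).trans ?_
        rw [norm_mul, norm_mul]
        gcongr
        · exact hbm _
        · exact hbm _
      calc _ ≤ (‖ψ n‖ * (C * r ^ (-(n - 1))) + ‖ψ (n - 1)‖ * (C * r ^ (-n))) * r ^ n :=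
            mul_le_mul_of_nonneg_right h2 (hrz _).le
        _ = C * r * ‖ψ n‖ * (r ^ n * r ^ (-n)) + C * ‖ψ (n - 1)‖ * (r ^ n * r ^ (-n)) := by
            rw [neg_sub, sub_eq_add_neg, zpow_add₀ hr0.ne' 1, zpow_one]; ring
        _ = C * r * ‖ψ n‖ + C * ‖ψ (n - 1)‖ := by rw [hrr]; ring
        _ ≤ C * 1 * ‖ψ n‖ + C * ‖ψ (n - 1)‖ := by gcongr
        _ = _ := by ring
    calc b n ^ 2 ≤ (C * ‖ψ n‖ + C * ‖ψ (n - 1)‖) ^ 2 := pow_le_pow_left₀ (hb0 n) h1 2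
      _ ≤ 2 * C ^ 2 * ‖ψ n‖ ^ 2 + 2 * C ^ 2 * ‖ψ (n - 1)‖ ^ 2 := by
          nlinarith [sq_nonneg (C * ‖ψ n‖ - C * ‖ψ (n - 1)‖)]
  have hsf : Summable fun n => (C * ‖φ n‖) ^ 2 := by
    have : (fun n => (C * ‖φ n‖) ^ 2) = fun n => C ^ 2 * ‖φ n‖ ^ 2 := by
      ext n; ring
    rw [this]
    exact hφ.mul_left _
  have hsf1 : Summable fun n => (C * ‖φ ((Equiv.subRight (1 : ℤ)) n)‖) ^ 2 :=
    ((Equiv.subRight (1 : ℤ)).summable_iff (f := fun n => (C * ‖φ n‖) ^ 2)).mpr hsf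
  have hA := sq_sum_le hr0 hr1 ha0 (fun n => by positivity) _ hra hsa hsf
  have hB := sq_sum_le hr0 hr1 hb0 (fun n => by positivity) _ hrb hsb hsf1
  rw [(Equiv.subRight (1 : ℤ)).tsum_eq fun n => (C * ‖φ n‖) ^ 2] at hB
  have hF : ∑' n, (C * ‖φ n‖) ^ 2 = C ^ 2 * ∑' n, ‖φ n‖ ^ 2 := by
    rw [← tsum_mul_left]
    congr 1; ext n; ring
  rw [hF] at hA hB
  -- pointwise bound for psi
  have hpt : ∀ n, ‖w‖ ^ 2 * ‖ψ n‖ ^ 2 ≤ 2 * C ^ 2 * a n ^ 2 + 2 * C ^ 2 * b n ^ 2 := by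
    intro n
    have h1 : ‖w‖ * ‖ψ n‖ ≤ C * a n + C * b n := by
      have h2 : ‖w‖ * ‖ψ n‖ = ‖Wp n * sm n - Wm n * sp n‖ := by
        rw [hψw, norm_mul, mul_comm]
      rw [h2]
      refine (norm_sub_le _ _).trans ?_
      rw [norm_mul, norm_mul]
      simp only [ha, hb]
      have h3 : ‖Wp n‖ * ‖sm n‖ ≤ ‖Wp n‖ * (C * r ^ (-n)) := by
        gcongr; exact hbm n
      have h4 : ‖Wm n‖ * ‖sp n‖ ≤ ‖Wm n‖ * (C * r ^ n) := by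
        gcongr; exact hbp n
      nlinarith
    have h0 : 0 ≤ ‖w‖ * ‖ψ n‖ := by positivity
    calc ‖w‖ ^ 2 * ‖ψ n‖ ^ 2 = (‖w‖ * ‖ψ n‖) ^ 2 := by ring
      _ ≤ (C * a n + C * b n) ^ 2 := pow_le_pow_left₀ h0 h1 2
      _ ≤ _ := by nlinarith [sq_nonneg (C * a n - C * b n)]
  have hsum : ‖w‖ ^ 2 * ∑' n, ‖ψ n‖ ^ 2 ≤ 2 * C ^ 2 * ∑' n, a n ^ 2 + 2 * C ^ 2 * ∑' n, b n ^ 2 := by
    rw [← tsum_mul_left, ← tsum_mul_left, ← tsum_mul_left,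
      ← (hsa.mul_left (2 * C ^ 2)).tsum_add (hsb.mul_left (2 * C ^ 2))]
    exact (hψ.mul_left _).tsum_le_tsum hpt ((hsa.mul_left _).add (hsb.mul_left _))
  have h1r : 0 < (1 - r) ^ 2 := by
    have : 0 < 1 - r := by linarith
    positivity
  have hfin : ‖w‖ ^ 2 * (1 - r) ^ 2 * ∑' n, ‖ψ n‖ ^ 2 ≤ 4 * C ^ 4 * ∑' n, ‖φ n‖ ^ 2 := by
    have h2 := mul_le_mul_of_nonneg_left hsum h1r.le
    have h3 : 0 < 2 * C ^ 2 := by positivity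
    have hA' := mul_le_mul_of_nonneg_left hA h3.le
    have hB' := mul_le_mul_of_nonneg_left hB h3.le
    nlinarith
  have h4 : (‖w‖ * (1 - r) / (2 * C ^ 2)) ^ 2 * ∑' n, ‖ψ n‖ ^ 2
      = (‖w‖ ^ 2 * (1 - r) ^ 2 * ∑' n, ‖ψ n‖ ^ 2) / (4 * C ^ 4) := by
    field_simp
    ring
  rw [h4, div_le_iff₀ (by positivity)]
  linarith

end H221R3.Sturm
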