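import Mathlib

set_option autoImplicit false

namespace H221R3.Sturm

open scoped ENNReal

/-- square sum in `ℝ≥0∞` -/
noncomputable def e2 (ψ : ℤ → ℂ) : ℝ≥0∞ := ∑' n, ENNReal.ofReal (‖ψ n‖ ^ 2)

/-- Jacobi action -/
def JA (x : ℤ → ℂ) (ψ : ℤ → ℂ) : ℤ → ℂ := fun n => ψ (n + 1) + ψ (n - 1) + x n * ψ n

/-- tent -/
noncomputable def tent (M : ℕ) (k : ℤ) : ℝ := max 0 (1 - |(k : ℝ)| / (2 * M))

theorem tent_nonneg (M : ℕ) (k : ℤ) : 0 ≤ tent M k := le_max_left _ _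

theorem tent_zero {M : ℕ} (hM : 0 < M) {k : ℤ} (hk : (2 * M : ℤ) ≤ |k|) : tent M k = 0 := by
  rw [tent]
  apply max_eq_left
  have hM' : (0 : ℝ) < 2 * M := by positivity
  have h1 : (2 * M : ℝ) ≤ |(k : ℝ)| := by
    have : ((2 * M : ℤ) : ℝ) ≤ ((|k| : ℤ) : ℝ) := by exact_mod_cast hk
    push_cast at this
    exact this
  have : 1 ≤ |(k : ℝ)| / (2 * M) := by
    rw [le_div_iff₀ hM']; linarith
  linarith

theorem tent_lip {M : ℕ} (hM : 0 < M) (k : ℤ) :
    |tent M (k + 1) - tent M k| ≤ 1 / (2 * M) := by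
  have hM' : (0 : ℝ) < 2 * M := by positivity
  have h1 : |tent M (k + 1) - tent M k|
      ≤ |(1 - |((k + 1 : ℤ) : ℝ)| / (2 * M)) - (1 - |(k : ℝ)| / (2 * M))| := by
    rw [tent, tent]
    refine (abs_max_sub_max_le_max _ _ _ _).trans ?_
    rw [sub_zero, abs_zero]
    exact max_le (abs_nonneg _) le_rfl
  refine h1.trans ?_
  have h2 : (1 - |((k + 1 : ℤ) : ℝ)| / (2 * M)) - (1 - |(k : ℝ)| / (2 * M))
      = (|(k : ℝ)| - |((k + 1 : ℤ) : ℝ)|) / (2 * M) := by ring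
  rw [h2, abs_div, abs_of_pos hM']
  apply div_le_div_of_nonneg_right _ hM'.le
  refine (abs_abs_sub_abs_le _ _).trans ?_
  push_cast
  rw [show (k : ℝ) - (k + 1) = -1 by ring]
  simp

/-- square sum of the tent -/
noncomputable def S1 (M : ℕ) : ℝ≥0∞ := ∑' k : ℤ, ENNReal.ofReal (tent M k ^ 2)

/-- square sum of the differences of the tent -/
noncomputable def D1 (M : ℕ) : ℝ≥0∞ :=
  ∑' k : ℤ, ENNReal.ofReal ((tent M (k + 1) - tent M k) ^ 2)

theorem S1_ne_top {M : ℕ} (hM : 0 < M) : S1 M ≠ ∞ := by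
  rw [S1, tsum_eq_sum (s := Finset.Ioo (-(2 * M : ℤ)) (2 * M))]
  · exact ENNReal.sum_ne_top.mpr fun _ _ => ENNReal.ofReal_ne_top
  · intro k hk
    rw [Finset.mem_Ioo, not_and_or, not_lt, not_lt] at hk
    rw [tent_zero hM, zero_pow (by norm_num), ENNReal.ofReal_zero]
    rcases hk with h | h
    · rw [abs_of_nonpos (by omega)]; omega
    · exact h.trans (le_abs_self k)

theorem S1_ge {M : ℕ} (hM : 0 < M) : ENNReal.ofReal ((M : ℝ) / 4) ≤ S1 M := by
  rw [S1]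
  calc ENNReal.ofReal ((M : ℝ) / 4)
      = ∑ k ∈ Finset.Ico (0 : ℤ) M, ENNReal.ofReal (1 / 4) := by
        rw [Finset.sum_const, Int.card_Ico, nsmul_eq_mul]
        rw [← ENNReal.ofReal_natCast, ← ENNReal.ofReal_mul (by positivity)]
        congr 1
        simp
        ring
    _ ≤ ∑ k ∈ Finset.Ico (0 : ℤ) M, ENNReal.ofReal (tent M k ^ 2) := by
        apply Finset.sum_le_sum
        intro k hk
        rw [Finset.mem_Ico] at hk
        apply ENNReal.ofReal_le_ofReal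
        have hM' : (0 : ℝ) < M := by exact_mod_cast hM
        have h0 : (0 : ℝ) ≤ (k : ℝ) := by exact_mod_cast hk.1
        have h1 : (k : ℝ) ≤ M := by exact_mod_cast hk.2.le
        have h2 : 1 / 2 ≤ tent M k := by
          rw [tent]
          apply le_max_of_le_right
          rw [abs_of_nonneg h0]
          have : (k : ℝ) / (2 * M) ≤ 1 / 2 := by
            rw [div_le_div_iff₀ (by positivity) (by norm_num)]
            linarith
          linarith
        nlinarith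
    _ ≤ _ := ENNReal.sum_le_tsum _

theorem D1_le {M : ℕ} (hM : 0 < M) : D1 M ≤ ENNReal.ofReal (1 / M) := by
  have hM' : (0 : ℝ) < M := by exact_mod_cast hM
  rw [D1, tsum_eq_sum (s := Finset.Ico (-(2 * M : ℤ)) (2 * M))]
  · calc ∑ k ∈ Finset.Ico (-(2 * M : ℤ)) (2 * M),
          ENNReal.ofReal ((tent M (k + 1) - tent M k) ^ 2)
        ≤ ∑ k ∈ Finset.Ico (-(2 * M : ℤ)) (2 * M), ENNReal.ofReal ((1 / (2 * M)) ^ 2) := by
          apply Finset.sum_le_sum
          intro k _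
          apply ENNReal.ofReal_le_ofReal
          rw [← sq_abs]
          exact pow_le_pow_left₀ (abs_nonneg _) (tent_lip hM k) 2
      _ = ENNReal.ofReal (1 / M) := by
          rw [Finset.sum_const, Int.card_Ico, nsmul_eq_mul]
          rw [← ENNReal.ofReal_natCast, ← ENNReal.ofReal_mul (by positivity)]
          congr 1
          have : ((2 * (M : ℤ) - -(2 * (M : ℤ))).toNat : ℝ) = 4 * M := by
            have h1 : (2 * (M : ℤ) - -(2 * (M : ℤ))).toNat = 4 * M := by omega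
            rw [h1]; push_cast; ring
          rw [this]
          field_simp
          ring
  · intro k hk
    rw [Finset.mem_Ico, not_and_or, not_le, not_lt] at hk
    have h1 : tent M (k + 1) = 0 := by
      apply tent_zero hM
      rcases hk with h | h
      · rw [abs_of_nonpos (by omega)]; omega
      · rw [abs_of_nonneg (by omega)]; omega
    have h2 : tent M k = 0 := by
      apply tent_zero hM
      rcases hk with h | h
      · rw [abs_of_nonpos (by omega)]; omega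
      · rw [abs_of_nonneg (by omega)]; omega
    rw [h1, h2]
    simp

theorem e2_shift (ψ : ℤ → ℂ) (a : ℤ) : e2 (fun n => ψ (n + a)) = e2 ψ :=
  (Equiv.addRight a).tsum_eq fun n => ENNReal.ofReal (‖ψ n‖ ^ 2)

theorem double_sum (g : ℤ → ℝ) (hg : ∀ k, 0 ≤ g k) (ψ : ℤ → ℂ) :
    ∑' m : ℤ, ∑' n : ℤ, ENNReal.ofReal (g (n - m) * ‖ψ n‖ ^ 2)
      = (∑' k : ℤ, ENNReal.ofReal (g k)) * e2 ψ := by
  rw [ENNReal.tsum_comm, e2, ← ENNReal.tsum_mul_left]
  congr 1
  ext n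
  have : ∀ m : ℤ, ENNReal.ofReal (g (n - m) * ‖ψ n‖ ^ 2)
      = ENNReal.ofReal (g (n - m)) * ENNReal.ofReal (‖ψ n‖ ^ 2) := fun m =>
    ENNReal.ofReal_mul (hg _)
  simp_rw [this]
  rw [ENNReal.tsum_mul_right]
  congr 1
  exact (Equiv.subLeft n).tsum_eq fun k => ENNReal.ofReal (g k)

/-- localisation: a lower bound on all windows gives a global lower bound -/
theorem localise {x : ℤ → ℂ} {c : ℝ} (hc : 0 < c) {M : ℕ} (hM : 0 < M)
    (hMc : 64 ≤ c ^ 2 * (M : ℝ) ^ 2)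
    (h : ∀ (m : ℤ) (φ : ℤ → ℂ), (∀ n : ℤ, (2 * M : ℤ) ≤ |n - m| → φ n = 0) →
      ENNReal.ofReal (c ^ 2) * e2 φ ≤ e2 (JA x φ))
    (ψ : ℤ → ℂ) (hψ : e2 ψ ≠ ∞) :
    ENNReal.ofReal (c ^ 2 / 4) * e2 ψ ≤ e2 (JA x ψ) := by
  have hM' : (0 : ℝ) < M := by exact_mod_cast hM
  set φ := JA x ψ with hφ
  have hpt : ∀ m n : ℤ, ‖JA x (fun n => (tent M (n - m) : ℂ) * ψ n) n‖ ^ 2
      ≤ 2 * (tent M (n - m) ^ 2 * ‖φ n‖ ^ 2)
        + (4 * ((tent M (n - m + 1) - tent M (n - m)) ^ 2 * ‖ψ (n + 1)‖ ^ 2)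
        + 4 * ((tent M (n - m) - tent M (n - m - 1)) ^ 2 * ‖ψ (n - 1)‖ ^ 2)) := by
    intro m n
    have h1 : JA x (fun n => (tent M (n - m) : ℂ) * ψ n) n
        = (tent M (n - m) : ℂ) * φ n
          + (((tent M (n - m + 1) - tent M (n - m) : ℝ) : ℂ) * ψ (n + 1)
          + ((tent M (n - m - 1) - tent M (n - m) : ℝ) : ℂ) * ψ (n - 1)) := by
      simp only [hφ, JA]
      rw [show n + 1 - m = n - m + 1 by ring, show n - 1 - m = n - m - 1 by ring]
      push_cast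
      ring
    rw [h1]
    have h2 := norm_add_le ((tent M (n - m) : ℂ) * φ n)
      (((tent M (n - m + 1) - tent M (n - m) : ℝ) : ℂ) * ψ (n + 1)
          + ((tent M (n - m - 1) - tent M (n - m) : ℝ) : ℂ) * ψ (n - 1))
    have h3 := norm_add_le (((tent M (n - m + 1) - tent M (n - m) : ℝ) : ℂ) * ψ (n + 1))
      (((tent M (n - m - 1) - tent M (n - m) : ℝ) : ℂ) * ψ (n - 1))
    rw [norm_mul, norm_mul, Complex.norm_real, Complex.norm_real, Real.norm_eq_abs,
      Real.norm_eq_abs] at h3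
    rw [norm_mul, Complex.norm_real, Real.norm_eq_abs] at h2
    set A := |tent M (n - m)| * ‖φ n‖ with hA
    set B := |tent M (n - m + 1) - tent M (n - m)| * ‖ψ (n + 1)‖ with hB
    set C := |tent M (n - m - 1) - tent M (n - m)| * ‖ψ (n - 1)‖ with hC
    have h4 : ‖(tent M (n - m) : ℂ) * φ n
          + (((tent M (n - m + 1) - tent M (n - m) : ℝ) : ℂ) * ψ (n + 1)
          + ((tent M (n - m - 1) - tent M (n - m) : ℝ) : ℂ) * ψ (n - 1))‖ ≤ A + (B + C) :=
      h2.trans (by linarith)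
    have h5 := pow_le_pow_left₀ (norm_nonneg _) h4 2
    refine h5.trans ?_
    have hA2 : A ^ 2 = tent M (n - m) ^ 2 * ‖φ n‖ ^ 2 := by rw [hA, mul_pow, sq_abs]
    have hB2 : B ^ 2 = (tent M (n - m + 1) - tent M (n - m)) ^ 2 * ‖ψ (n + 1)‖ ^ 2 := by
      rw [hB, mul_pow, sq_abs]
    have hC2 : C ^ 2 = (tent M (n - m) - tent M (n - m - 1)) ^ 2 * ‖ψ (n - 1)‖ ^ 2 := by
      rw [hC, mul_pow, sq_abs]; ring
    rw [← hA2, ← hB2, ← hC2]
    nlinarith [sq_nonneg (A - (B + C)), sq_nonneg (B - C)]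
  have hwin : ∀ m : ℤ, ENNReal.ofReal (c ^ 2)
        * ∑' n : ℤ, ENNReal.ofReal (tent M (n - m) ^ 2 * ‖ψ n‖ ^ 2)
      ≤ 2 * ∑' n : ℤ, ENNReal.ofReal (tent M (n - m) ^ 2 * ‖φ n‖ ^ 2)
        + (4 * ∑' n : ℤ, ENNReal.ofReal
            ((tent M (n - m + 1) - tent M (n - m)) ^ 2 * ‖ψ (n + 1)‖ ^ 2)
        + 4 * ∑' n : ℤ, ENNReal.ofReal
            ((tent M (n - m) - tent M (n - m - 1)) ^ 2 * ‖ψ (n - 1)‖ ^ 2)) := by
    intro m
    have h1 := h m (fun n => (tent M (n - m) : ℂ) * ψ n) (by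
      intro n hn
      rw [tent_zero hM hn]
      simp)
    have h2 : e2 (fun n => (tent M (n - m) : ℂ) * ψ n)
        = ∑' n : ℤ, ENNReal.ofReal (tent M (n - m) ^ 2 * ‖ψ n‖ ^ 2) := by
      rw [e2]
      congr 1; ext n
      rw [norm_mul, mul_pow, Complex.norm_real, Real.norm_eq_abs, sq_abs]
    rw [h2] at h1
    refine h1.trans ?_
    rw [e2, ← ENNReal.tsum_mul_left, ← ENNReal.tsum_mul_left, ← ENNReal.tsum_mul_left,
      ← ENNReal.tsum_add, ← ENNReal.tsum_add]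
    apply ENNReal.tsum_le_tsum
    intro n
    refine (ENNReal.ofReal_le_ofReal (hpt m n)).trans ?_
    rw [ENNReal.ofReal_add (by positivity) (by positivity),
      ENNReal.ofReal_add (by positivity) (by positivity),
      ENNReal.ofReal_mul (by norm_num : (0:ℝ) ≤ 2),
      ENNReal.ofReal_mul (by norm_num : (0:ℝ) ≤ 4) (q := _),
      ENNReal.ofReal_mul (by norm_num : (0:ℝ) ≤ 4) (q := _)]
    simp
  have hsum := ENNReal.tsum_le_tsum hwin
  rw [ENNReal.tsum_mul_left, ENNReal.tsum_add, ENNReal.tsum_add, ENNReal.tsum_mul_left,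
    ENNReal.tsum_mul_left, ENNReal.tsum_mul_left] at hsum
  have e1 : ∑' m : ℤ, ∑' n : ℤ, ENNReal.ofReal (tent M (n - m) ^ 2 * ‖ψ n‖ ^ 2)
      = S1 M * e2 ψ := double_sum (fun k => tent M k ^ 2) (fun k => by positivity) ψ
  have e2' : ∑' m : ℤ, ∑' n : ℤ, ENNReal.ofReal (tent M (n - m) ^ 2 * ‖φ n‖ ^ 2)
      = S1 M * e2 φ := double_sum (fun k => tent M k ^ 2) (fun k => by positivity) φ
  have e3 : ∑' m : ℤ, ∑' n : ℤ, ENNReal.ofReal
            ((tent M (n - m + 1) - tent M (n - m)) ^ 2 * ‖ψ (n + 1)‖ ^ 2) = D1 M * e2 ψ := by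
    rw [double_sum (fun k => (tent M (k + 1) - tent M k) ^ 2) (fun k => by positivity)
      (fun n => ψ (n + 1)), e2_shift]
    rfl
  have e4 : ∑' m : ℤ, ∑' n : ℤ, ENNReal.ofReal
            ((tent M (n - m) - tent M (n - m - 1)) ^ 2 * ‖ψ (n - 1)‖ ^ 2) = D1 M * e2 ψ := by
    have := double_sum (fun k => (tent M k - tent M (k - 1)) ^ 2) (fun k => by positivity)
      (fun n => ψ (n + (-1)))
    rw [e2_shift] at this
    have h5 : ∑' k : ℤ, ENNReal.ofReal ((tent M k - tent M (k - 1)) ^ 2) = D1 M := by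
      have h6 := (Equiv.addRight (1 : ℤ)).tsum_eq
        fun k : ℤ => ENNReal.ofReal ((tent M k - tent M (k - 1)) ^ 2)
      rw [← h6, D1]
      congr 1; ext k
      simp
    rw [h5] at this
    exact this
  rw [e1, e2', e3, e4] at hsum
  -- convert to reals
  by_cases htop : e2 φ = ∞
  · rw [htop]; exact le_top
  have hS := S1_ne_top hM
  have hD : D1 M ≠ ∞ := ne_top_of_le_ne_top ENNReal.ofReal_ne_top (D1_le hM)
  lift e2 ψ to NNReal using hψ with p
  lift e2 φ to NNReal using htop with f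
  have hSge := S1_ge hM
  have hDle := D1_le hM
  lift S1 M to NNReal using hS with s
  lift D1 M to NNReal using hD with d
  have hs : (M : ℝ) / 4 ≤ s := by
    have := ENNReal.toReal_mono (by simp) hSge
    rwa [ENNReal.toReal_ofReal (by positivity), ENNReal.coe_toReal] at this
  have hd : (d : ℝ) ≤ 1 / M := by
    have := ENNReal.toReal_mono (by simp) hDle
    rwa [ENNReal.toReal_ofReal (by positivity), ENNReal.coe_toReal] at this
  have hmain : c ^ 2 * (s * p) ≤ 2 * (s * f) + (4 * (d * p) + 4 * (d * p)) := by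
    have := ENNReal.toReal_mono (by
      apply ENNReal.add_ne_top.mpr ⟨?_, ?_⟩
      · exact ENNReal.mul_ne_top (by simp) (ENNReal.mul_ne_top (by simp) (by simp))
      · apply ENNReal.add_ne_top.mpr ⟨?_, ?_⟩ <;>
        exact ENNReal.mul_ne_top (by simp) (ENNReal.mul_ne_top (by simp) (by simp))) hsum
    have e5 : (2 * ((s : ℝ≥0∞) * f) + (4 * ((d : ℝ≥0∞) * p) + 4 * ((d : ℝ≥0∞) * p)))
        = (((2 * (s * f) + (4 * (d * p) + 4 * (d * p)) : NNReal)) : ℝ≥0∞) := by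
      push_cast; rfl
    rw [e5, ENNReal.coe_toReal, ENNReal.toReal_mul, ENNReal.toReal_mul,
      ENNReal.toReal_ofReal (by positivity), ENNReal.coe_toReal, ENNReal.coe_toReal] at this
    push_cast at this
    exact this
  have hp0 : (0 : ℝ) ≤ p := p.2
  have hf0 : (0 : ℝ) ≤ f := f.2
  have hd8 : 8 * (d : ℝ) ≤ c ^ 2 / 2 * s := by
    have h1 : 8 * (d : ℝ) ≤ 8 * (1 / M) := by linarith
    have h2 : c ^ 2 / 2 * ((M : ℝ) / 4) ≤ c ^ 2 / 2 * s := by
      apply mul_le_mul_of_nonneg_left hs (by positivity)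
    have h3 : 8 * (1 / (M : ℝ)) ≤ c ^ 2 / 2 * ((M : ℝ) / 4) := by
      rw [mul_one_div, div_le_iff₀ hM']
      nlinarith
    linarith
  have h6 : c ^ 2 / 2 * s * p ≤ 2 * (s * f) := by
    have h7 : 8 * (d : ℝ) * p ≤ c ^ 2 / 2 * s * p := mul_le_mul_of_nonneg_right hd8 hp0
    nlinarith
  have hs0 : (0 : ℝ) < s := lt_of_lt_of_le (by positivity) hs
  have h8 : c ^ 2 / 4 * p ≤ f := by
    have h9 : s * (c ^ 2 / 4 * p) ≤ s * (f : ℝ) := by nlinarith
    exact le_of_mul_le_mul_left h9 hs0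
  have h10 : ENNReal.ofReal (c ^ 2 / 4) * (p : ℝ≥0∞) = ENNReal.ofReal (c ^ 2 / 4 * p) := by
    rw [ENNReal.ofReal_mul (by positivity), ENNReal.ofReal_coe_nnreal]
  rw [h10]
  calc ENNReal.ofReal (c ^ 2 / 4 * p) ≤ ENNReal.ofReal (f : ℝ) := ENNReal.ofReal_le_ofReal h8
    _ = f := ENNReal.ofReal_coe_nnreal

end H221R3.Sturm
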