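import Mathlib
import Pool.Agent.H221R3.StB

set_option autoImplicit false

namespace H221R3.Sturm

/-- orbits of a sequence of permutations -/
theorem exists_orbit {X : Type*} (σ : ℤ → Equiv.Perm X) (x : X) :
    ∃ u : ℤ → X, u 0 = x ∧ ∀ n, u (n + 1) = σ n (u n) := by
  let f : ℕ → X := fun n => Nat.rec x (fun k y => σ k y) n
  let g : ℕ → X := fun n => Nat.rec ((σ (-1)).symm x) (fun k y => (σ (-(k + 2 : ℤ))).symm y) n
  refine ⟨fun n => match n with
    | Int.ofNat n => f n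
    | Int.negSucc n => g n, rfl, ?_⟩
  intro n
  match n with
  | Int.ofNat n => rfl
  | Int.negSucc 0 =>
    change f 0 = σ (-1) (g 0)
    change x = σ (-1) ((σ (-1)).symm x)
    rw [Equiv.apply_symm_apply]
  | Int.negSucc (k + 1) =>
    have h1 : Int.negSucc (k + 1) + 1 = Int.negSucc k := by omega
    rw [h1]
    change g k = σ (Int.negSucc (k + 1)) (g (k + 1))
    have h2 : (Int.negSucc (k + 1)) = (-(k + 2 : ℤ)) := by omega
    rw [h2]
    change g k = σ (-(k + 2 : ℤ)) ((σ (-(k + 2 : ℤ))).symm (g k))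
    rw [Equiv.apply_symm_apply]

/-- solutions of the difference equation -/
def Sol (x y : ℤ → ℂ) : Prop := ∀ n, y (n + 1) + y (n - 1) + x n * y n = 0

theorem exists_sol (x : ℤ → ℂ) (a b : ℂ) : ∃ y, Sol x y ∧ y 0 = a ∧ y (-1) = b := by
  let σ : ℤ → Equiv.Perm (ℂ × ℂ) := fun n =>
    { toFun := fun z => (-(x n * z.1) - z.2, z.1)
      invFun := fun z => (z.2, -(x n * z.2) - z.1)
      left_inv := fun z => by
        ext1 <;> simp
      right_inv := fun z => by
        ext1 <;> simp }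
  obtain ⟨u, hu0, hu⟩ := exists_orbit σ (a, b)
  have h2 : ∀ n, (u (n + 1)).2 = (u n).1 := fun n => by rw [hu]; rfl
  have h1 : ∀ n, (u (n + 1)).1 = -(x n * (u n).1) - (u n).2 := fun n => by rw [hu]; rfl
  have h3 : ∀ n, (u n).2 = (u (n - 1)).1 := fun n => by
    have := h2 (n - 1)
    rwa [sub_add_cancel] at this
  refine ⟨fun n => (u n).1, ?_, by simp [hu0], ?_⟩
  · intro n
    change (u (n + 1)).1 + (u (n - 1)).1 + x n * (u n).1 = 0
    rw [h1, h3]
    ring
  · have := h3 0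
    rw [hu0] at this
    simpa using this.symm

theorem Sol.add_smul {x y z : ℤ → ℂ} (hy : Sol x y) (hz : Sol x z) (a b : ℂ) :
    Sol x (fun n => a * y n + b * z n) := by
  intro n
  simp only
  linear_combination a * hy n + b * hz n

theorem sol_unique {x y : ℤ → ℂ} (hy : Sol x y) (h0 : y 0 = 0) (h1 : y (-1) = 0) (n : ℤ) :
    y n = 0 := by
  have key : ∀ n : ℤ, y n = 0 ∧ y (n - 1) = 0 := by
    intro n
    induction n using Int.induction_on with
    | zero => exact ⟨h0, by simpa using h1⟩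
    | succ i ih =>
      obtain ⟨ih1, ih2⟩ := ih
      have := hy i
      rw [ih1, ih2] at this
      refine ⟨by simpa using this, by simpa using ih1⟩
    | pred i ih =>
      obtain ⟨ih1, ih2⟩ := ih
      have := hy (-i - 1)
      rw [sub_add_cancel, ih1, ih2] at this
      exact ⟨ih2, by simpa using this⟩
  exact (key n).1

/-- one step matrix -/
def Am (t : ℂ) : Matrix (Fin 2) (Fin 2) ℂ := !![-t, -1; 1, 0]

theorem Am_det (t : ℂ) : (Am t).det = 1 := by
  rw [Am, Matrix.det_fin_two_of]; ring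

/-- transfer matrices -/
noncomputable def Tm (x : ℤ → ℂ) (n0 : ℤ) : ℕ → Matrix (Fin 2) (Fin 2) ℂ
  | 0 => 1
  | k + 1 => Am (x (n0 + k)) * Tm x n0 k

theorem Tm_zero (x : ℤ → ℂ) (n0 : ℤ) : Tm x n0 0 = 1 := rfl

theorem Tm_succ (x : ℤ → ℂ) (n0 : ℤ) (k : ℕ) :
    Tm x n0 (k + 1) = Am (x (n0 + k)) * Tm x n0 k := rfl

theorem Tm_det (x : ℤ → ℂ) (n0 : ℤ) (k : ℕ) : (Tm x n0 k).det = 1 := by
  induction k with
  | zero => simp [Tm_zero]
  | succ k ih => rw [Tm_succ, Matrix.det_mul, Am_det, ih, one_mul]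

theorem Tm_add (x : ℤ → ℂ) (n0 : ℤ) (j k : ℕ) :
    Tm x n0 (j + k) = Tm x (n0 + j) k * Tm x n0 j := by
  induction k with
  | zero => simp [Tm_zero]
  | succ k ih =>
    rw [← add_assoc, Tm_succ, ih, Tm_succ, Matrix.mul_assoc]
    congr 3
    push_cast
    ring

theorem Tm_congr {x x' : ℤ → ℂ} {n0 n0' : ℤ} {k : ℕ}
    (h : ∀ j : ℕ, j < k → x (n0 + j) = x' (n0' + j)) : Tm x n0 k = Tm x' n0' k := by
  induction k with
  | zero => rfl
  | succ k ih =>
    rw [Tm_succ, Tm_succ, ih (fun j hj => h j (by omega)), h k (by omega)]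

/-- phase vector -/
def vec (y : ℤ → ℂ) (n : ℤ) : Fin 2 → ℂ := ![y n, y (n - 1)]

theorem vec_Tm {x y : ℤ → ℂ} (hy : Sol x y) (n0 : ℤ) (k : ℕ) :
    vec y (n0 + k) = (Tm x n0 k).mulVec (vec y n0) := by
  induction k with
  | zero => simp [Tm_zero]
  | succ k ih =>
    rw [Tm_succ, ← Matrix.mulVec_mulVec, ← ih]
    have h1 := hy (n0 + k)
    have h2 : n0 + ((k + 1 : ℕ) : ℤ) = n0 + k + 1 := by push_cast; ring
    rw [h2]
    ext i
    fin_cases i
    · simp [vec, Am, Matrix.mulVec, dotProduct, Fin.sum_univ_two]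
      linear_combination h1
    · simp [vec, Am, Matrix.mulVec, dotProduct, Fin.sum_univ_two]

/-- Bloch solutions from eigenvectors of the monodromy -/
theorem bloch {x : ℤ → ℂ} {q : ℕ} (hx : ∀ n, x (n + q) = x n) {μ : ℂ} {e : Fin 2 → ℂ}
    (he : (Tm x 0 q).mulVec e = μ • e) :
    ∃ y, Sol x y ∧ vec y 0 = e ∧ ∀ n, y (n + q) = μ * y n := by
  obtain ⟨y, hy, h0, h1⟩ := exists_sol x (e 0) (e 1)
  have hv : vec y 0 = e := by
    ext i
    fin_cases i
    · simpa [vec] using h0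
    · simpa [vec] using h1
  refine ⟨y, hy, hv, ?_⟩
  have hshift : Sol x (fun n => y (n + q)) := by
    intro n
    have := hy (n + q)
    rw [hx] at this
    simp only
    rw [show n + 1 + (q : ℤ) = n + q + 1 by ring, show n - 1 + (q : ℤ) = n + q - 1 by ring]
    exact this
  have hz : Sol x (fun n => 1 * y (n + q) + (-μ) * y n) := hshift.add_smul hy 1 (-μ)
  have hvq := vec_Tm hy 0 q
  rw [hv, he, zero_add] at hvq
  have e0 : y q = μ * y 0 := by
    have := congrFun hvq 0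
    simpa [vec, ← h0] using this
  have e1 : y (q - 1) = μ * y (-1) := by
    have := congrFun hvq 1
    simpa [vec, ← h1] using this
  intro n
  have := sol_unique hz (by simp [e0]) (by
    rw [show (-1 : ℤ) + q = q - 1 by ring, e1]; ring) n
  linear_combination this

/-- the Wronskian is constant -/
theorem wronskian {x y z : ℤ → ℂ} (hy : Sol x y) (hz : Sol x z) (n : ℤ) :
    y (n - 1) * z n - z (n - 1) * y n = y (-1) * z 0 - z (-1) * y 0 := by
  have step : ∀ n : ℤ, y n * z (n + 1) - z n * y (n + 1) = y (n - 1) * z n - z (n - 1) * y n := by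
    intro n
    linear_combination y n * hz n - z n * hy n
  induction n using Int.induction_on with
  | zero => simp
  | succ i ih =>
    rw [add_sub_cancel_right, step, ih]
  | pred i ih =>
    have := step (-i - 1)
    rw [sub_add_cancel] at this
    rw [← this, ih]

/-- periodic sequences are bounded -/
theorem per_bound {f : ℤ → ℝ} {q : ℕ} (hq : 0 < q) (hf : ∀ n, f (n + q) = f n) :
    ∃ C : ℝ, 0 < C ∧ ∀ n, f n ≤ C := by
  have hper : ∀ (n k : ℤ), f (n + k * q) = f n := by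
    intro n k
    induction k using Int.induction_on with
    | zero => simp
    | succ i ih =>
      rw [show n + ((i : ℤ) + 1) * q = n + i * q + q by ring, hf, ih]
    | pred i ih =>
      rw [← hf, show n + (-(i : ℤ) - 1) * q + q = n + -(i : ℤ) * q by ring, ih]
  obtain ⟨C, hC⟩ := ((Set.finite_Iio q).image (fun j : ℕ => f j)).bddAbove
  refine ⟨max C 1, lt_max_of_lt_right one_pos, fun n => ?_⟩
  have hq' : (0 : ℤ) < q := by exact_mod_cast hq
  have h1 : f n = f (n % q) := by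
    conv_lhs => rw [← Int.emod_add_mul_ediv n q]
    rw [mul_comm, hper]
  have h2 : n % q = ((n % q).toNat : ℤ) := (Int.toNat_of_nonneg (Int.emod_nonneg _ hq'.ne')).symm
  rw [h1, h2]
  apply le_max_of_le_left
  apply hC
  refine ⟨(n % q).toNat, ?_, rfl⟩
  have := Int.emod_lt_of_pos n hq'
  rw [Set.mem_Iio]
  omega

theorem growth {y : ℤ → ℂ} {q : ℕ} (hq : 0 < q) {μ : ℂ} {r : ℝ} (hr : 0 < r)
    (hy : ∀ n, y (n + q) = μ * y n) (hμ : ‖μ‖ = r ^ q) :
    ∃ C : ℝ, 0 < C ∧ ∀ n : ℤ, ‖y n‖ ≤ C * r ^ n := by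
  obtain ⟨C, hC, h⟩ := per_bound (f := fun n : ℤ => ‖y n‖ * r ^ (-n)) hq (by
    intro n
    rw [hy, norm_mul, hμ, neg_add, zpow_add₀ hr.ne', zpow_neg r (q : ℤ), zpow_natCast]
    field_simp)
  refine ⟨C, hC, fun n => ?_⟩
  have h1 := h n
  rw [zpow_neg, ← div_eq_mul_inv, div_le_iff₀ (zpow_pos hr n)] at h1
  exact h1

end H221R3.Sturm
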