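import Mathlib
import Pool.Agent.H221R3.StC

set_option autoImplicit false

namespace H221R3.Sturm

theorem par {e f : Fin 2 → ℂ} (he : e ≠ 0) (h : e 0 * f 1 = e 1 * f 0) : ∃ t : ℂ, f = t • e := by
  by_cases h0 : e 0 = 0
  · have h1 : e 1 ≠ 0 := by
      intro h1
      apply he
      ext i; fin_cases i
      · exact h0
      · exact h1
    refine ⟨f 1 / e 1, ?_⟩
    have hf0 : f 0 = 0 := by
      rw [h0, zero_mul] at h
      exact (mul_eq_zero.mp h.symm).resolve_left h1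
    ext i; fin_cases i
    · simp [h0, hf0]
    · simp [h1]
  · refine ⟨f 0 / e 0, ?_⟩
    ext i; fin_cases i
    · simp [h0]
    · simp only [Fin.mk_one, Pi.smul_apply, smul_eq_mul]
      field_simp
      linear_combination h

theorem eigvec {M : Matrix (Fin 2) (Fin 2) ℂ} (hd : M.det = 1) {μ : ℂ}
    (hμ : μ ^ 2 - M.trace * μ + 1 = 0) : ∃ e : Fin 2 → ℂ, e ≠ 0 ∧ M.mulVec e = μ • e := by
  have h : (M - Matrix.scalar (Fin 2) μ).det = 0 := by
    rw [Matrix.det_fin_two] at hd ⊢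
    rw [Matrix.trace_fin_two] at hμ
    simp
    linear_combination hd + hμ
  obtain ⟨e, he, h1⟩ := Matrix.exists_mulVec_eq_zero_iff.mpr h
  refine ⟨e, he, ?_⟩
  rw [Matrix.sub_mulVec, sub_eq_zero] at h1
  rw [h1]
  ext i
  simp [Matrix.mulVec_diagonal]

theorem eig_indep {M : Matrix (Fin 2) (Fin 2) ℂ} {μ ν : ℂ} (hμν : μ ≠ ν) {e f : Fin 2 → ℂ}
    (he : e ≠ 0) (hf : f ≠ 0) (h1 : M.mulVec e = μ • e) (h2 : M.mulVec f = ν • f) :
    e 0 * f 1 - e 1 * f 0 ≠ 0 := by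
  intro h
  obtain ⟨t, ht⟩ := par he (sub_eq_zero.mp h)
  have h3 : M.mulVec f = μ • f := by
    rw [ht, Matrix.mulVec_smul, h1, smul_comm]
  rw [h2] at h3
  have h4 : (ν - μ) • f = 0 := by rw [sub_smul, h3, sub_self]
  rcases smul_eq_zero.mp h4 with h5 | h5
  · exact hμν (sub_eq_zero.mp h5).symm
  · exact hf h5

theorem vec_zero (y : ℤ → ℂ) : vec y 0 0 = y 0 := rfl

theorem vec_one (y : ℤ → ℂ) : vec y 0 1 = y (-1) := rfl

theorem decomp {x S U y : ℤ → ℂ} (hS : Sol x S) (hU : Sol x U) (hy : Sol x y)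
    (hd : vec S 0 0 * vec U 0 1 - vec S 0 1 * vec U 0 0 ≠ 0) :
    ∃ A B : ℂ, ∀ n, y n = A * S n + B * U n := by
  rw [vec_zero, vec_one, vec_zero, vec_one] at hd
  set d := S 0 * U (-1) - S (-1) * U 0 with hdd
  refine ⟨(y 0 * U (-1) - y (-1) * U 0) / d, (S 0 * y (-1) - S (-1) * y 0) / d, fun n => ?_⟩
  set A := (y 0 * U (-1) - y (-1) * U 0) / d with hA
  set B := (S 0 * y (-1) - S (-1) * y 0) / d with hB
  have hz : Sol x (fun n => 1 * y n + (-1) * (A * S n + B * U n)) :=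
    hy.add_smul (hS.add_smul hU A B) 1 (-1)
  have := sol_unique hz (by
    rw [hA, hB]
    field_simp
    rw [hdd]; ring) (by
    rw [hA, hB]
    field_simp
    rw [hdd]; ring) n
  linear_combination this

/-- gluing two solutions -/
theorem glue {xL xR y1 y2 : ℤ → ℂ} (h1 : Sol xR y1) (h2 : Sol xL y2) (hv : vec y1 0 = vec y2 0) :
    Sol (fun n => if 0 ≤ n then xR n else xL n) (fun n => if 0 ≤ n then y1 n else y2 n) := by
  have e0 : y1 0 = y2 0 := by
    have := congrFun hv 0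
    rwa [vec_zero, vec_zero] at this
  have e1 : y1 (-1) = y2 (-1) := by
    have := congrFun hv 1
    rwa [vec_one, vec_one] at this
  intro n
  simp only
  rcases lt_trichotomy n (-1) with h | h | h
  · rw [if_neg (by omega), if_neg (by omega), if_neg (by omega), if_neg (by omega)]
    exact h2 n
  · subst h
    rw [if_pos (by norm_num), if_neg (by norm_num), if_neg (by norm_num), if_neg (by norm_num)]
    have := h2 (-1)
    norm_num at this ⊢
    rw [e0]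
    exact this
  · rcases eq_or_lt_of_le (show 0 ≤ n by omega) with h' | h'
    · subst h'
      rw [if_pos (by norm_num), if_neg (by norm_num), if_pos (le_refl _), if_pos (le_refl _)]
      have := h1 0
      norm_num at this ⊢
      rw [← e1]
      exact this
    · rw [if_pos (by omega), if_pos (by omega), if_pos (by omega), if_pos (by omega)]
      exact h1 n

/-- lower bound for the operator with two periodic half-lines -/
theorem halfline {xL xR : ℤ → ℂ} {q : ℕ} (hq : 0 < q) (hL : ∀ n, xL (n + q) = xL n)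
    (hR : ∀ n, xR (n + q) = xR n) {μ : ℂ} (hμ : 1 < ‖μ‖)
    (htL : (Tm xL 0 q).trace = μ + μ⁻¹) (htR : (Tm xR 0 q).trace = μ + μ⁻¹)
    (hne : ∀ e : Fin 2 → ℂ, (Tm xR 0 q).mulVec e = μ⁻¹ • e → (Tm xL 0 q).mulVec e = μ • e →
      e = 0) :
    ∃ c : ℝ, 0 < c ∧ ∀ ψ : ℤ → ℂ, Summable (fun n => ‖ψ n‖ ^ 2) →
      Summable (fun n => ‖ψ (n + 1) + ψ (n - 1)
        + (if 0 ≤ n then xR n else xL n) * ψ n‖ ^ 2) →
      c ^ 2 * ∑' n, ‖ψ n‖ ^ 2 ≤ ∑' n, ‖ψ (n + 1) + ψ (n - 1)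
        + (if 0 ≤ n then xR n else xL n) * ψ n‖ ^ 2 := by
  have hμ0 : μ ≠ 0 := by
    rintro rfl
    norm_num at hμ
  have hμpos : 0 < ‖μ‖ := by linarith
  -- the rate
  set r : ℝ := ‖μ‖⁻¹ ^ ((q : ℝ)⁻¹) with hr
  have hμi : ‖μ‖⁻¹ < 1 := inv_lt_one_of_one_lt₀ hμ
  have hr0 : 0 < r := Real.rpow_pos_of_pos (by positivity) _
  have hq0 : (q : ℝ) ≠ 0 := by positivity
  have hr1 : r < 1 := Real.rpow_lt_one (by positivity) hμi (by positivity)
  have hrq : r ^ q = ‖μ‖⁻¹ := by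
    rw [hr, ← Real.rpow_natCast, ← Real.rpow_mul (by positivity), inv_mul_cancel₀ hq0,
      Real.rpow_one]
  have hμq : ‖μ⁻¹‖ = r ^ q := by rw [norm_inv, hrq]
  have hμq' : ‖μ‖ = r⁻¹ ^ q := by rw [inv_pow, hrq, inv_inv]
  have hμμ : μ ≠ μ⁻¹ := by
    intro h
    have : ‖μ‖ = ‖μ⁻¹‖ := by rw [← h]
    rw [norm_inv] at this
    linarith
  -- eigenvectors
  have q1 : ∀ T : ℂ, T = μ + μ⁻¹ → μ ^ 2 - T * μ + 1 = 0 := by
    rintro T rfl
    field_simp
    ring
  have q2 : ∀ T : ℂ, T = μ + μ⁻¹ → μ⁻¹ ^ 2 - T * μ⁻¹ + 1 = 0 := by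
    rintro T rfl
    field_simp
    ring
  obtain ⟨sR, hsR0, hsR⟩ := eigvec (Tm_det xR 0 q) (q2 _ htR)
  obtain ⟨uR, huR0, huR⟩ := eigvec (Tm_det xR 0 q) (q1 _ htR)
  obtain ⟨sL, hsL0, hsL⟩ := eigvec (Tm_det xL 0 q) (q2 _ htL)
  obtain ⟨uL, huL0, huL⟩ := eigvec (Tm_det xL 0 q) (q1 _ htL)
  obtain ⟨SR, hSR, hSRv, hSRp⟩ := bloch hR hsR
  obtain ⟨UR, hUR, hURv, hURp⟩ := bloch hR huR
  obtain ⟨SL, hSL, hSLv, hSLp⟩ := bloch hL hsL
  obtain ⟨UL, hUL, hULv, hULp⟩ := bloch hL huL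
  obtain ⟨C1, hC1, hC1b⟩ := growth hq hr0 hSRp hμq
  obtain ⟨C2, hC2, hC2b⟩ := growth hq (inv_pos.mpr hr0) hURp hμq'
  obtain ⟨C3, hC3, hC3b⟩ := growth hq hr0 hSLp hμq
  obtain ⟨C4, hC4, hC4b⟩ := growth hq (inv_pos.mpr hr0) hULp hμq'
  -- continuations
  obtain ⟨yL, hyL, hyL0, hyL1⟩ := exists_sol xL (sR 0) (sR 1)
  obtain ⟨yR, hyR, hyR0, hyR1⟩ := exists_sol xR (uL 0) (uL 1)
  have hyLv : vec yL 0 = sR := by
    ext i; fin_cases i
    · exact hyL0
    · exact hyL1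
  have hyRv : vec yR 0 = uL := by
    ext i; fin_cases i
    · exact hyR0
    · exact hyR1
  have hdL : vec SL 0 0 * vec UL 0 1 - vec SL 0 1 * vec UL 0 0 ≠ 0 := by
    rw [hSLv, hULv]
    exact eig_indep hμμ.symm hsL0 huL0 hsL huL
  have hdR : vec SR 0 0 * vec UR 0 1 - vec SR 0 1 * vec UR 0 0 ≠ 0 := by
    rw [hSRv, hURv]
    exact eig_indep hμμ.symm hsR0 huR0 hsR huR
  obtain ⟨A, B, hAB⟩ := decomp hSL hUL hyL hdL
  obtain ⟨A', B', hAB'⟩ := decomp hSR hUR hyR hdR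
  have hsp := glue hSR hyL (by rw [hSRv, hyLv])
  have hsm := glue hyR hUL (by rw [hyRv, hULv])
  set C : ℝ := C1 + C4 + (‖A‖ * C3 + ‖B‖ * C4) + (‖A'‖ * C1 + ‖B'‖ * C2) with hC
  have hCpos : 0 < C := by positivity
  have hge : ∀ n : ℤ, 0 ≤ n → r ^ n ≤ r ^ (-n) := fun n hn => by
    apply zpow_le_zpow_right_of_le_one₀ hr0 hr1.le (by omega)
  have hrz : ∀ n : ℤ, 0 < r ^ n := fun n => zpow_pos hr0 n
  have hinvz : ∀ n : ℤ, r⁻¹ ^ n = r ^ (-n) := fun n => by rw [inv_zpow, zpow_neg]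
  refine green (sp := fun n => if 0 ≤ n then SR n else yL n)
    (sm := fun n => if 0 ≤ n then yR n else UL n) hr0 hr1 hCpos hsp hsm ?_ ?_
    (w := vec (fun n => if 0 ≤ n then SR n else yL n) 0 1
        * vec (fun n => if 0 ≤ n then yR n else UL n) 0 0
      - vec (fun n => if 0 ≤ n then yR n else UL n) 0 1
        * vec (fun n => if 0 ≤ n then SR n else yL n) 0 0) ?_ ?_
  · intro n
    split_ifs with h
    · refine (hC1b n).trans (mul_le_mul_of_nonneg_right ?_ (hrz n).le)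
      rw [hC]
      have : 0 ≤ C4 + (‖A‖ * C3 + ‖B‖ * C4) + (‖A'‖ * C1 + ‖B'‖ * C2) := by positivity
      linarith
    · rw [hAB]
      refine (norm_add_le _ _).trans ?_
      rw [norm_mul, norm_mul]
      have h1 : ‖UL n‖ ≤ C4 * r ^ n := by
        refine (hC4b n).trans (mul_le_mul_of_nonneg_left ?_ hC4.le)
        rw [hinvz]
        have := hge (-n) (by omega)
        rwa [neg_neg] at this
      have h2 : ‖A‖ * ‖SL n‖ ≤ ‖A‖ * (C3 * r ^ n) := by gcongr; exact hC3b n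
      have h3 : ‖B‖ * ‖UL n‖ ≤ ‖B‖ * (C4 * r ^ n) := by gcongr
      calc ‖A‖ * ‖SL n‖ + ‖B‖ * ‖UL n‖ ≤ (‖A‖ * C3 + ‖B‖ * C4) * r ^ n := by linarith
        _ ≤ C * r ^ n := by
            apply mul_le_mul_of_nonneg_right _ (hrz n).le
            rw [hC]
            have : 0 ≤ C1 + C4 + (‖A'‖ * C1 + ‖B'‖ * C2) := by positivity
            linarith
  · intro n
    split_ifs with h
    · rw [hAB']
      refine (norm_add_le _ _).trans ?_
      rw [norm_mul, norm_mul]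
      have h1 : ‖SR n‖ ≤ C1 * r ^ (-n) := by
        refine (hC1b n).trans (mul_le_mul_of_nonneg_left (hge n h) hC1.le)
      have h1' : ‖UR n‖ ≤ C2 * r ^ (-n) := by
        refine (hC2b n).trans (le_of_eq ?_)
        rw [hinvz]
      have h2 : ‖A'‖ * ‖SR n‖ ≤ ‖A'‖ * (C1 * r ^ (-n)) := by gcongr
      have h3 : ‖B'‖ * ‖UR n‖ ≤ ‖B'‖ * (C2 * r ^ (-n)) := by gcongr
      calc ‖A'‖ * ‖SR n‖ + ‖B'‖ * ‖UR n‖ ≤ (‖A'‖ * C1 + ‖B'‖ * C2) * r ^ (-n) := by linarith
        _ ≤ C * r ^ (-n) := by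
            apply mul_le_mul_of_nonneg_right _ (hrz _).le
            rw [hC]
            have : 0 ≤ C1 + C4 + (‖A‖ * C3 + ‖B‖ * C4) := by positivity
            linarith
    · refine (hC4b n).trans ?_
      rw [hinvz]
      apply mul_le_mul_of_nonneg_right _ (hrz _).le
      rw [hC]
      have : 0 ≤ C1 + (‖A‖ * C3 + ‖B‖ * C4) + (‖A'‖ * C1 + ‖B'‖ * C2) := by positivity
      linarith
  · -- Wronskian nonzero
    have e1 : vec (fun n => if 0 ≤ n then SR n else yL n) 0 = sR := by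
      ext i; fin_cases i
      · simp only [Fin.zero_eta, vec_zero, le_refl, if_true]
        have := congrFun hSRv 0
        exact this
      · simp only [Fin.mk_one, vec_one]
        rw [if_neg (by norm_num)]
        exact hyL1
    have e2 : vec (fun n => if 0 ≤ n then yR n else UL n) 0 = uL := by
      ext i; fin_cases i
      · simp only [Fin.zero_eta, vec_zero, le_refl, if_true]
        exact hyR0
      · simp only [Fin.mk_one, vec_one]
        rw [if_neg (by norm_num)]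
        have := congrFun hULv 1
        exact this
    rw [e1, e2]
    intro h
    obtain ⟨t, ht⟩ := par hsR0 (show sR 0 * uL 1 = sR 1 * uL 0 by linear_combination -h)
    have ht0 : t ≠ 0 := by
      rintro rfl
      rw [zero_smul] at ht
      exact huL0 ht
    apply hsR0
    apply hne sR hsR
    have h2 : sR = t⁻¹ • uL := by rw [ht, smul_smul, inv_mul_cancel₀ ht0, one_smul]
    rw [h2, Matrix.mulVec_smul, huL, smul_comm]
  · intro n
    exact wronskian hsp hsm n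

end H221R3.Sturm
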