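import Mathlib
import Pool.Agent.H221R3.StD

set_option autoImplicit false

namespace H221R3.Sturm

open Polynomial

theorem comm_diff (a b : ℂ) : Am b * Am a - Am a * Am b = (b - a) • !![0, 1; 1, 0] := by
  ext i j
  fin_cases i <;> fin_cases j <;> simp [Am, Matrix.mul_apply, Fin.sum_univ_two] <;> ring

theorem CR_sq {C : Matrix (Fin 2) (Fin 2) ℂ} (hC : C.det = 1) {a b : ℂ} (hab : a ≠ b)
    (htr : (C * (Am a * Am b)).trace = (C * (Am b * Am a)).trace) :
    (C * !![0, 1; 1, 0]) * (C * !![0, 1; 1, 0]) = 1 := by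
  have h1 : (C * ((b - a) • !![0, 1; 1, 0])).trace = 0 := by
    rw [← comm_diff, Matrix.mul_sub, Matrix.trace_sub, htr, sub_self]
  rw [Matrix.mul_smul, Matrix.trace_smul, smul_eq_mul] at h1
  have h2 : (C * (!![0, 1; 1, 0] : Matrix (Fin 2) (Fin 2) ℂ)).trace = 0 :=
    (mul_eq_zero.mp h1).resolve_left (sub_ne_zero.mpr hab.symm)
  rw [Matrix.trace_fin_two] at h2
  simp [Matrix.mul_apply, Fin.sum_univ_two] at h2
  rw [Matrix.det_fin_two] at hC
  ext i j
  fin_cases i <;> fin_cases j <;> simp [Matrix.mul_apply, Fin.sum_univ_two]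
  · linear_combination hC + C 0 1 * h2
  · linear_combination C 0 0 * h2
  · linear_combination C 1 1 * h2
  · linear_combination hC + C 1 0 * h2

theorem alg_ii {C : Matrix (Fin 2) (Fin 2) ℂ} (hC : C.det = 1) {a b : ℂ} (hab : a ≠ b)
    (htr : (C * (Am a * Am b)).trace = (C * (Am b * Am a)).trace)
    {ν ν' : ℂ} (hν : ν * ν' = 1) {e : Fin 2 → ℂ} (he : e ≠ 0)
    (h1 : (C * (Am a * Am b)).mulVec e = ν • e) (h2 : (C * (Am b * Am a)).mulVec e = ν' • e) :
    (ν + ν') ^ 2 - 4 = (b - a) ^ 2 := by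
  have h3 : (b - a) • (C * (!![0, 1; 1, 0] : Matrix (Fin 2) (Fin 2) ℂ)).mulVec e
      = (ν' - ν) • e := by
    rw [← Matrix.smul_mulVec, ← Matrix.mul_smul, ← comm_diff, Matrix.mul_sub, Matrix.sub_mulVec,
      h1, h2, sub_smul]
  have h4 : (b - a) ^ 2 • e = (ν' - ν) ^ 2 • e := by
    have h5 : (b - a) • (C * (!![0, 1; 1, 0] : Matrix (Fin 2) (Fin 2) ℂ)).mulVec
        ((b - a) • (C * (!![0, 1; 1, 0] : Matrix (Fin 2) (Fin 2) ℂ)).mulVec e)
        = (b - a) • (C * (!![0, 1; 1, 0] : Matrix (Fin 2) (Fin 2) ℂ)).mulVec ((ν' - ν) • e) :=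
      congrArg (fun w => (b - a) •
        (C * (!![0, 1; 1, 0] : Matrix (Fin 2) (Fin 2) ℂ)).mulVec w) h3
    rw [Matrix.mulVec_smul, Matrix.mulVec_smul, Matrix.mulVec_mulVec, CR_sq hC hab htr,
      Matrix.one_mulVec, smul_comm (b - a) (ν' - ν), h3, smul_smul, smul_smul] at h5
    rw [pow_two, pow_two]
    exact h5
  have h6 : ((b - a) ^ 2 - (ν' - ν) ^ 2) • e = 0 := by rw [sub_smul, h4, sub_self]
  have h7 := (smul_eq_zero.mp h6).resolve_right he
  linear_combination (-4 : ℂ) * (-1) * hν - h7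

theorem alg_i {C : Matrix (Fin 2) (Fin 2) ℂ} (hC : C.det = 1) {a b : ℂ} (hab : a ≠ b)
    {ε : ℂ} (h1 : C * (Am a * Am b) = ε • 1) (h2 : C * (Am b * Am a) = ε • 1) : False := by
  have h3 : C * ((b - a) • (!![0, 1; 1, 0] : Matrix (Fin 2) (Fin 2) ℂ)) = 0 := by
    rw [← comm_diff, Matrix.mul_sub, h1, h2, sub_self]
  have h4 := congrArg Matrix.det h3
  rw [Matrix.det_mul, hC, one_mul, Matrix.det_smul, Matrix.det_fin_two_of] at h4
  simp [sub_eq_zero] at h4
  exact hab h4.symm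

/-- the periodic words -/
def vp (p q n : ℤ) : ℤ := n * p / q - (n - 1) * p / q

def vm (p q n : ℤ) : ℤ := (n * p - 1) / q - ((n - 1) * p - 1) / q

section words

variable {p q : ℤ}

theorem vp_per (hq : 0 < q) (n : ℤ) : vp p q (n + q) = vp p q n := by
  rw [vp, vp, show (n + q) * p = n * p + q * p by ring,
    show (n + q - 1) * p = (n - 1) * p + q * p by ring,
    Int.add_mul_ediv_left _ _ hq.ne', Int.add_mul_ediv_left _ _ hq.ne']
  ring

theorem vm_per (hq : 0 < q) (n : ℤ) : vm p q (n + q) = vm p q n := by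
  rw [vm, vm, show (n + q) * p - 1 = n * p - 1 + q * p by ring,
    show (n + q - 1) * p - 1 = (n - 1) * p - 1 + q * p by ring,
    Int.add_mul_ediv_left _ _ hq.ne', Int.add_mul_ediv_left _ _ hq.ne']
  ring

theorem ediv_neg_one {q t : ℤ} (h0 : 0 < t) (h1 : t ≤ q) : (-t) / q = -1 := by
  have hq : 0 < q := by omega
  apply le_antisymm
  · have : (-t) / q < 0 := Int.ediv_neg_of_neg_of_pos (by omega) hq
    omega
  · rw [Int.le_ediv_iff_mul_le hq]; omega

theorem vp_zero (h0 : 0 < p) (h1 : p < q) : vp p q 0 = 1 := by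
  rw [vp]
  rw [show (0 - 1) * p = -p by ring, ediv_neg_one h0 h1.le]
  simp

theorem vp_one (h0 : 0 < p) (h1 : p < q) : vp p q 1 = 0 := by
  rw [vp, one_mul, sub_self, zero_mul, Int.ediv_eq_zero_of_lt h0.le h1]
  simp

theorem vm_zero (h0 : 0 < p) (h1 : p < q) : vm p q 0 = 0 := by
  rw [vm, show (0 : ℤ) * p - 1 = -1 by ring, show (0 - 1) * p - 1 = -(p + 1) by ring,
    ediv_neg_one one_pos (by omega), ediv_neg_one (by omega) (by omega)]
  simp

theorem vm_one (h0 : 0 < p) (h1 : p < q) : vm p q 1 = 1 := by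
  rw [vm, one_mul, sub_self, zero_mul, zero_sub, ediv_neg_one one_pos (by omega),
    Int.ediv_eq_zero_of_lt (by omega) (by omega)]
  simp

theorem ediv_sub_one {q t : ℤ} (hq : 0 < q) (h : ¬ q ∣ t) : (t - 1) / q = t / q := by
  have h1 : 0 < t % q := by
    rcases (Int.emod_nonneg t hq.ne').lt_or_eq with h2 | h2
    · exact h2
    · exact absurd (Int.dvd_of_emod_eq_zero h2.symm) h
  have h2 : t % q < q := Int.emod_lt_of_pos t hq
  have h3 := Int.emod_add_mul_ediv t q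
  have h4 : t - 1 = (t % q - 1) + q * (t / q) := by linarith
  rw [h4, Int.add_mul_ediv_left _ _ hq.ne', Int.ediv_eq_zero_of_lt (by omega) (by omega), zero_add]

theorem vp_eq_vm (hq : 0 < q) (hpq : IsCoprime p q) {n : ℤ} (h1 : ¬ q ∣ n) (h2 : ¬ q ∣ n - 1) :
    vp p q n = vm p q n := by
  have h3 : ¬ q ∣ n * p := fun h => h1 (hpq.symm.dvd_of_dvd_mul_right h)
  have h4 : ¬ q ∣ (n - 1) * p := fun h => h2 (hpq.symm.dvd_of_dvd_mul_right h)
  rw [vp, vm, ediv_sub_one hq h3, ediv_sub_one hq h4]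

theorem vm_shift (hq : 0 < q) (hpq : IsCoprime p q) :
    ∃ m : ℕ, ∀ n, vm p q n = vp p q (n + m) := by
  obtain ⟨a, b, hab⟩ := hpq
  -- a p + b q = 1, want m p ≡ -1
  refine ⟨((-a) % q).toNat, fun n => ?_⟩
  have h0 : (((-a) % q).toNat : ℤ) = (-a) % q := Int.toNat_of_nonneg (Int.emod_nonneg _ hq.ne')
  rw [h0]
  have h1 : (-a) % q = -a - q * ((-a) / q) := by
    have := Int.emod_add_mul_ediv (-a) q
    linarith
  rw [h1, vm, vp]
  set k := (-a) / q
  have h2 : (n + (-a - q * k)) * p = (n * p - 1) + q * (b - k * p) := by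
    linear_combination -hab
  have h3 : (n + (-a - q * k) - 1) * p = ((n - 1) * p - 1) + q * (b - k * p) := by
    linear_combination -hab
  rw [h2, h3, Int.add_mul_ediv_left _ _ hq.ne', Int.add_mul_ediv_left _ _ hq.ne']
  ring

end words

/-- cyclic invariance of the trace -/
theorem trace_cyc {x : ℤ → ℂ} {q : ℕ} (hx : ∀ n, x (n + q) = x n) (n : ℤ) :
    (Tm x (n + 1) q).trace = (Tm x n q).trace := by
  have h1 : Tm x n (1 + q) = Tm x (n + 1) q * Am (x n) := by
    rw [Tm_add]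
    simp [Tm_succ, Tm_zero]
  have h2 : Tm x n (1 + q) = Am (x n) * Tm x n q := by
    rw [add_comm 1 q, Tm_succ, hx]
  have hdet : IsUnit (Am (x n)).det := by rw [Am_det]; exact isUnit_one
  have h3 : Tm x (n + 1) q = Am (x n) * Tm x n q * (Am (x n))⁻¹ := by
    rw [← h2, h1, Matrix.mul_assoc, Matrix.mul_nonsing_inv _ hdet, Matrix.mul_one]
  rw [h3, Matrix.trace_mul_comm, ← Matrix.mul_assoc, Matrix.nonsing_inv_mul _ hdet,
    Matrix.one_mul]

theorem trace_cyc' {x : ℤ → ℂ} {q : ℕ} (hx : ∀ n, x (n + q) = x n) (m : ℕ) :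
    (Tm x m q).trace = (Tm x 0 q).trace := by
  induction m with
  | zero => simp
  | succ k ih =>
    push_cast
    rw [trace_cyc hx, ih]

theorem scal_cyc {x : ℤ → ℂ} {q : ℕ} (hx : ∀ n, x (n + q) = x n) {ε : ℂ}
    (h : Tm x 0 q = ε • 1) (m : ℕ) : Tm x m q = ε • 1 := by
  induction m with
  | zero => simpa using h
  | succ k ih =>
    push_cast
    have h1 : Tm x k (1 + q) = Tm x (k + 1) q * Am (x k) := by
      rw [Tm_add]
      simp [Tm_succ, Tm_zero]
    have h2 : Tm x k (1 + q) = Am (x k) * Tm x k q := by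
      rw [add_comm 1 q, Tm_succ, hx]
    have hdet : IsUnit (Am (x k)).det := by rw [Am_det]; exact isUnit_one
    have h3 : Tm x (k + 1) q = Am (x k) * Tm x k q * (Am (x k))⁻¹ := by
      rw [← h2, h1, Matrix.mul_assoc, Matrix.mul_nonsing_inv _ hdet, Matrix.mul_one]
    rw [h3, ih, Matrix.mul_smul, Matrix.mul_one, Matrix.smul_mul,
      Matrix.mul_nonsing_inv _ hdet]

/-- coefficients at energy `E` -/
noncomputable def xe (v : ℤ → ℤ) (lam E : ℝ) (n : ℤ) : ℂ := ((lam * v n - E : ℝ) : ℂ)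

section mono

variable {p q : ℕ} (h0 : 0 < p) (h1 : p < q) (hpq : Nat.Coprime p q) (lam E : ℝ)
include h0 h1 hpq

theorem xp_per (n : ℤ) : xe (vp p q) lam E (n + q) = xe (vp p q) lam E n := by
  rw [xe, xe, vp_per (by omega)]

theorem xm_per (n : ℤ) : xe (vm p q) lam E (n + q) = xe (vm p q) lam E n := by
  rw [xe, xe, vm_per (by omega)]

omit h0 h1 hpq in
theorem Tm_split (x : ℤ → ℂ) {q : ℕ} (hq : 2 ≤ q) :
    Tm x 0 q = Tm x 2 (q - 2) * (Am (x 1) * Am (x 0)) := by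
  have h2 : Tm x 0 (2 + (q - 2)) = Tm x 2 (q - 2) * (Am (x 1) * Am (x 0)) := by
    rw [Tm_add]
    congr 1
    change Am (x (0 + (1 : ℕ))) * (Am (x (0 + (0 : ℕ))) * 1) = _
    rw [Matrix.mul_one]
    simp
  rwa [show 2 + (q - 2) = q by omega] at h2

theorem Mp_eq : Tm (xe (vp p q) lam E) 0 q
    = Tm (xe (vp p q) lam E) 2 (q - 2) * (Am ((-E : ℝ) : ℂ) * Am ((lam - E : ℝ) : ℂ)) := by
  rw [Tm_split _ (by omega)]
  congr 3
  · rw [xe]
    have := vp_one (p := p) (q := q) (by exact_mod_cast h0) (by exact_mod_cast h1)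
    simp [this]
  · rw [xe]
    have := vp_zero (p := p) (q := q) (by exact_mod_cast h0) (by exact_mod_cast h1)
    simp [this]

theorem Mm_eq : Tm (xe (vm p q) lam E) 0 q
    = Tm (xe (vp p q) lam E) 2 (q - 2) * (Am ((lam - E : ℝ) : ℂ) * Am ((-E : ℝ) : ℂ)) := by
  rw [Tm_split _ (by omega)]
  congr 1
  · apply Tm_congr
    intro j hj
    rw [xe, xe]
    have : vp p q (2 + j) = vm p q (2 + j) := by
      have hq : (0 : ℤ) < q := by omega
      apply vp_eq_vm hq ((Nat.isCoprime_iff_coprime).mpr hpq)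
      · intro hd
        have := Int.le_of_dvd (by omega) hd
        omega
      · intro hd
        have := Int.le_of_dvd (by omega) hd
        omega
    rw [this]
  · congr 2
    · rw [xe]
      have := vm_one (p := p) (q := q) (by exact_mod_cast h0) (by exact_mod_cast h1)
      simp [this]
    · rw [xe]
      have := vm_zero (p := p) (q := q) (by exact_mod_cast h0) (by exact_mod_cast h1)
      simp [this]

theorem trace_pm : (Tm (xe (vm p q) lam E) 0 q).trace = (Tm (xe (vp p q) lam E) 0 q).trace := by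
  have hq : (0 : ℤ) < q := by omega
  obtain ⟨m, hm⟩ := vm_shift hq ((Nat.isCoprime_iff_coprime).mpr hpq)
  rw [← trace_cyc' (xp_per h0 h1 hpq lam E) m]
  congr 1
  apply Tm_congr
  intro j _
  rw [xe, xe, hm, zero_add, add_comm (m : ℤ)]

theorem no_scalar (hlam : lam ≠ 0) (ε : ℂ) : Tm (xe (vp p q) lam E) 0 q ≠ ε • 1 := by
  intro h
  have hq : (0 : ℤ) < q := by omega
  obtain ⟨m, hm⟩ := vm_shift hq ((Nat.isCoprime_iff_coprime).mpr hpq)
  have h2 := scal_cyc (xp_per h0 h1 hpq lam E) h m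
  have h3 : Tm (xe (vm p q) lam E) 0 q = ε • 1 := by
    rw [← h2]
    apply Tm_congr
    intro j _
    rw [xe, xe, hm, zero_add, add_comm (m : ℤ)]
  rw [Mp_eq h0 h1 hpq] at h
  rw [Mm_eq h0 h1 hpq] at h3
  refine alg_i (Tm_det _ _ _) ?_ h h3
  intro h4
  have := Complex.ofReal_injective h4
  apply hlam
  linarith

theorem common_eig (hlam : lam ≠ 0) {ν ν' : ℂ} (hν : ν * ν' = 1) {e : Fin 2 → ℂ} (he : e ≠ 0)
    (hp : (Tm (xe (vp p q) lam E) 0 q).mulVec e = ν • e)
    (hm : (Tm (xe (vm p q) lam E) 0 q).mulVec e = ν' • e) :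
    (ν + ν') ^ 2 - 4 = (lam : ℂ) ^ 2 := by
  have htr := trace_pm h0 h1 hpq lam E
  rw [Mp_eq h0 h1 hpq, Mm_eq h0 h1 hpq] at htr
  rw [Mp_eq h0 h1 hpq] at hp
  rw [Mm_eq h0 h1 hpq] at hm
  have h2 := alg_ii (Tm_det _ _ _) (a := ((-E : ℝ) : ℂ)) (b := ((lam - E : ℝ) : ℂ)) (by
    intro h4
    have := Complex.ofReal_injective h4
    apply hlam
    linarith) htr.symm hν he hp hm
  rw [h2]
  push_cast
  ring

end mono

end H221R3.Sturm
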