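import Mathlib
import Pool.Agent.H221R3.StE

set_option autoImplicit false

namespace H221R3.Sturm

open Polynomial

/-- polynomial transfer matrices -/
noncomputable def PM (v : ℤ → ℤ) (lam : ℝ) : ℕ → Matrix (Fin 2) (Fin 2) ℝ[X]
  | 0 => 1
  | k + 1 => !![X - C (lam * v k), -1; 1, 0] * PM v lam k

theorem PM_succ (v : ℤ → ℤ) (lam : ℝ) (k : ℕ) :
    PM v lam (k + 1) = !![X - C (lam * v k), -1; 1, 0] * PM v lam k := rfl

/-- evaluation in the complex numbers at a real energy -/
noncomputable def ev (E : ℝ) : ℝ[X] →+* ℂ := (algebraMap ℝ ℂ).comp (evalRingHom E)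

theorem ev_apply (E : ℝ) (P : ℝ[X]) : ev E P = ((P.eval E : ℝ) : ℂ) := rfl

theorem PM_map (v : ℤ → ℤ) (lam E : ℝ) (k : ℕ) :
    (PM v lam k).map (ev E) = Tm (xe v lam E) 0 k := by
  induction k with
  | zero =>
    rw [Tm_zero]
    change (1 : Matrix (Fin 2) (Fin 2) ℝ[X]).map (ev E) = 1
    rw [Matrix.map_one _ (map_zero _) (map_one _)]
  | succ k ih =>
    rw [PM_succ, Matrix.map_mul, ih, Tm_succ]
    congr 1
    ext i j
    fin_cases i <;> fin_cases j <;> simp [Am, xe, ev_apply]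

/-- the discriminant -/
noncomputable def Disc (v : ℤ → ℤ) (lam : ℝ) (q : ℕ) : ℝ[X] := (PM v lam q).trace

theorem trace_eq (v : ℤ → ℤ) (lam E : ℝ) (q : ℕ) :
    (Tm (xe v lam E) 0 q).trace = (((Disc v lam q).eval E : ℝ) : ℂ) := by
  rw [← PM_map, Disc, ← ev_apply, Matrix.trace_fin_two, Matrix.trace_fin_two, map_add]
  rfl

theorem PM_deg (v : ℤ → ℤ) (lam : ℝ) (k : ℕ) :
    (PM v lam (k + 1) 0 0).Monic ∧ (PM v lam (k + 1) 0 0).natDegree = k + 1 ∧
    (PM v lam (k + 1) 1 0).natDegree ≤ k ∧ (PM v lam (k + 1) 0 1).natDegree ≤ k ∧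
    (PM v lam (k + 1) 1 1).natDegree ≤ k := by
  induction k with
  | zero =>
    rw [PM_succ]
    have h1 : PM v lam 0 = 1 := rfl
    rw [h1, Matrix.mul_one]
    refine ⟨?_, ?_, ?_, ?_, ?_⟩
    · simpa using monic_X_sub_C (lam * (v 0 : ℝ))
    · simpa using natDegree_X_sub_C (lam * (v 0 : ℝ))
    · simp
    · simp
    · simp
  | succ k ih =>
    obtain ⟨i1, i2, i3, i4, i5⟩ := ih
    have e00 : PM v lam (k + 1 + 1) 0 0
        = (X - C (lam * (v ((k + 1 : ℕ) : ℤ) : ℝ))) * PM v lam (k + 1) 0 0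
          - PM v lam (k + 1) 1 0 := by
      rw [PM_succ, Matrix.mul_apply, Fin.sum_univ_two]
      simp
      ring
    have e01 : PM v lam (k + 1 + 1) 0 1
        = (X - C (lam * (v ((k + 1 : ℕ) : ℤ) : ℝ))) * PM v lam (k + 1) 0 1
          - PM v lam (k + 1) 1 1 := by
      rw [PM_succ, Matrix.mul_apply, Fin.sum_univ_two]
      simp
      ring
    have e10 : PM v lam (k + 1 + 1) 1 0 = PM v lam (k + 1) 0 0 := by
      rw [PM_succ, Matrix.mul_apply, Fin.sum_univ_two]
      simp
    have e11 : PM v lam (k + 1 + 1) 1 1 = PM v lam (k + 1) 0 1 := by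
      rw [PM_succ, Matrix.mul_apply, Fin.sum_univ_two]
      simp
    set L := X - C (lam * (v ((k + 1 : ℕ) : ℤ) : ℝ)) with hL
    have hLm : L.Monic := monic_X_sub_C _
    have hLd : L.natDegree = 1 := natDegree_X_sub_C _
    have hmm : (L * PM v lam (k + 1) 0 0).Monic := hLm.mul i1
    have hmd : (L * PM v lam (k + 1) 0 0).natDegree = k + 2 := by
      rw [hLm.natDegree_mul i1, hLd, i2]; ring
    have hlt : (PM v lam (k + 1) 1 0).degree < (L * PM v lam (k + 1) 0 0).degree := by
      rw [degree_eq_natDegree hmm.ne_zero, hmd]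
      refine lt_of_le_of_lt degree_le_natDegree ?_
      exact_mod_cast (by omega : (PM v lam (k + 1) 1 0).natDegree < k + 2)
    refine ⟨?_, ?_, ?_, ?_, ?_⟩
    · rw [e00]
      exact hmm.sub_of_left hlt
    · rw [e00, natDegree_sub_eq_left_of_natDegree_lt, hmd]
      rw [hmd]; omega
    · rw [e10, i2]
    · rw [e01]
      refine (natDegree_sub_le _ _).trans (max_le ?_ (by omega))
      refine natDegree_mul_le.trans ?_
      rw [hLd]; omega
    · rw [e11]; omega

theorem Disc_monic (v : ℤ → ℤ) (lam : ℝ) {q : ℕ} (hq : 0 < q) :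
    (Disc v lam q).Monic ∧ (Disc v lam q).natDegree = q := by
  obtain ⟨k, rfl⟩ : ∃ k, q = k + 1 := ⟨q - 1, by omega⟩
  obtain ⟨i1, i2, i3, i4, i5⟩ := PM_deg v lam k
  rw [Disc, Matrix.trace_fin_two]
  have hlt : (PM v lam (k + 1) 1 1).degree < (PM v lam (k + 1) 0 0).degree := by
    rw [degree_eq_natDegree i1.ne_zero, i2]
    refine lt_of_le_of_lt degree_le_natDegree ?_
    exact_mod_cast (by omega : (PM v lam (k + 1) 1 1).natDegree < k + 1)
  refine ⟨i1.add_of_left hlt, ?_⟩
  rw [natDegree_add_eq_left_of_natDegree_lt, i2]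
  rw [i2]; omega

theorem DiscSq_monic (v : ℤ → ℤ) (lam : ℝ) {q : ℕ} (hq : 0 < q) (c : ℝ) :
    ((Disc v lam q) ^ 2 - C c).Monic ∧ ((Disc v lam q) ^ 2 - C c).natDegree = 2 * q := by
  obtain ⟨h1, h2⟩ := Disc_monic v lam hq
  have h3 : ((Disc v lam q) ^ 2).Monic := h1.pow 2
  have h4 : ((Disc v lam q) ^ 2).natDegree = 2 * q := by rw [h1.natDegree_pow, h2]
  refine ⟨?_, ?_⟩
  · apply h3.sub_of_left
    rw [degree_eq_natDegree h3.ne_zero, h4]
    refine lt_of_le_of_lt degree_C_le ?_
    exact_mod_cast (by omega : 0 < 2 * q)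
  · rw [natDegree_sub_C, h4]

/-- Cayley-Hamilton consequence -/
theorem CH_vec {M : Matrix (Fin 2) (Fin 2) ℂ} (hd : M.det = 1) {e : Fin 2 → ℂ} (he : e ≠ 0)
    (h : (M * M).mulVec e = e) :
    M.trace ≠ 0 ∧ M.mulVec e = (2 / M.trace) • e ∧ M.trace ^ 2 = 4 := by
  have hCH : M * M = M.trace • M - 1 := by
    rw [Matrix.det_fin_two] at hd
    rw [Matrix.trace_fin_two]
    ext i j
    fin_cases i <;> fin_cases j <;> simp [Matrix.mul_apply, Fin.sum_univ_two]
    · linear_combination -hd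
    · ring
    · ring
    · linear_combination -hd
  rw [hCH, Matrix.sub_mulVec, Matrix.one_mulVec, Matrix.smul_mulVec] at h
  have h2 : M.trace • M.mulVec e = (2 : ℂ) • e := by
    have := congrArg (fun w => w + e) h
    simp only [sub_add_cancel] at this
    rw [this, two_smul]
  have ht : M.trace ≠ 0 := by
    intro h0
    rw [h0, zero_smul] at h2
    rcases smul_eq_zero.mp h2.symm with h3 | h3
    · norm_num at h3
    · exact he h3
  have h3 : M.mulVec e = (2 / M.trace) • e := by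
    have := congrArg (fun w => (M.trace)⁻¹ • w) h2
    simp only [smul_smul, inv_mul_cancel₀ ht, one_smul] at this
    rw [this]
    congr 1
    rw [div_eq_inv_mul]
  refine ⟨ht, h3, ?_⟩
  have h4 : (M * M).mulVec e = ((2 / M.trace) ^ 2) • e := by
    rw [← Matrix.mulVec_mulVec, h3, Matrix.mulVec_smul, h3, smul_smul, pow_two]
  have h5 : ((2 / M.trace) ^ 2 - 1) • e = 0 := by
    rw [sub_smul, one_smul, ← h4, hCH, Matrix.sub_mulVec, Matrix.one_mulVec, Matrix.smul_mulVec,
      h2, two_smul]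
    simp
  have h6 := (smul_eq_zero.mp h5).resolve_right he
  field_simp at h6
  linear_combination -h6

section eig

variable {p q : ℕ}

/-- the `2q`-periodic Jacobi matrix -/
noncomputable def Jm (v : ℤ → ℤ) (lam : ℝ) (n : ℕ) : Matrix (ZMod n) (ZMod n) ℂ :=
  fun i j => (if j = i + 1 then 1 else 0) + (if j = i - 1 then 1 else 0)
    + (if i = j then ((lam * v i.val : ℝ) : ℂ) else 0)

theorem Jm_herm (v : ℤ → ℤ) (lam : ℝ) (n : ℕ) : (Jm v lam n).IsHermitian := by
  ext i j
  rw [Matrix.conjTranspose_apply, Jm, Jm]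
  have h1 : (i = j + 1) ↔ (j = i - 1) := by
    constructor
    · rintro rfl; simp
    · rintro rfl; simp
  have h2 : (i = j - 1) ↔ (j = i + 1) := by
    constructor
    · rintro rfl; simp
    · rintro rfl; simp
  simp only [h1, h2, star_add]
  rw [add_comm (star (if j = i - 1 then (1 : ℂ) else 0))]
  congr 1
  · congr 1
    · split_ifs <;> simp
    · split_ifs <;> simp
  · by_cases h : i = j
    · subst h
      simp
    · rw [if_neg h, if_neg (fun h' => h h'.symm)]
      simp

theorem Jm_mulVec (v : ℤ → ℤ) (lam : ℝ) (n : ℕ) [NeZero n] (f : ZMod n → ℂ) (i : ZMod n) :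
    (Jm v lam n).mulVec f i = f (i + 1) + f (i - 1) + ((lam * v i.val : ℝ) : ℂ) * f i := by
  rw [Matrix.mulVec, dotProduct]
  simp only [Jm, add_mul, Finset.sum_add_distrib]
  simp [ite_mul]

theorem mod_per {v : ℤ → ℤ} {q : ℕ} (hv : ∀ n, v (n + q) = v n) (n k : ℤ) :
    v (n + k * q) = v n := by
  induction k using Int.induction_on with
  | zero => simp
  | succ i ih =>
    rw [show n + ((i : ℤ) + 1) * q = n + i * q + q by ring, hv, ih]
  | pred i ih =>
    rw [← hv, show n + (-(i : ℤ) - 1) * q + q = n + -(i : ℤ) * q by ring, ih]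

/-- lifting an eigenvector to a periodic solution -/
theorem lift_sol {v : ℤ → ℤ} {q : ℕ} (hq : 0 < q) (hv : ∀ n, v (n + q) = v n) (lam E : ℝ)
    [NeZero (2 * q)]
    {f : ZMod (2 * q) → ℂ} (hf : (Jm v lam (2 * q)).mulVec f = (E : ℂ) • f) :
    Sol (xe v lam E) (fun n : ℤ => f (n : ZMod (2 * q))) := by
  intro n
  have h1 := congrFun hf (n : ZMod (2 * q))
  rw [Jm_mulVec] at h1
  have h2 : v ((n : ZMod (2 * q)).val : ℤ) = v n := by
    rw [ZMod.val_intCast]
    have h3 : n % ((2 * q : ℕ) : ℤ) = n + (-(n / ((2 * q : ℕ) : ℤ)) * 2) * q := by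
      have := Int.emod_add_mul_ediv n ((2 * q : ℕ) : ℤ)
      push_cast at this ⊢
      linarith
    rw [h3, mod_per hv]
  rw [h2] at h1
  simp only [Pi.smul_apply, smul_eq_mul] at h1
  simp only [xe]
  push_cast at h1 ⊢
  linear_combination h1

theorem eig_facts (h0 : 0 < p) (h1 : p < q) {lam E : ℝ} [NeZero (2 * q)]
    {f : ZMod (2 * q) → ℂ} (hf0 : f ≠ 0)
    (hf : (Jm (vp p q) lam (2 * q)).mulVec f = (E : ℂ) • f) :
    let M := Tm (xe (vp p q) lam E) 0 q
    let e := vec (fun n : ℤ => f (n : ZMod (2 * q))) 0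
    e ≠ 0 ∧ M.trace ≠ 0 ∧ M.mulVec e = (2 / M.trace) • e ∧ M.trace ^ 2 = 4 := by
  intro M e
  have hq : 0 < q := by omega
  have hper : ∀ n, xe (vp p q) lam E (n + q) = xe (vp p q) lam E n := by
    intro n
    rw [xe, xe, vp_per (by omega)]
  have hs := lift_sol hq (v := vp p q) (fun n => vp_per (by omega) n) lam E hf
  have he : e ≠ 0 := by
    intro he
    apply hf0
    have h2 : ∀ n : ℤ, f (n : ZMod (2 * q)) = 0 := by
      intro n
      refine sol_unique hs ?_ ?_ n
      · have := congrFun he 0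
        exact this
      · have := congrFun he 1
        exact this
    ext i
    have := h2 (i.val : ℤ)
    simpa using this
  have hMM : (M * M).mulVec e = e := by
    have h2 := vec_Tm hs 0 (q + q)
    rw [Tm_add] at h2
    have h3 : Tm (xe (vp p q) lam E) (0 + q) q = M := by
      apply Tm_congr
      intro j _
      rw [show (0 : ℤ) + q + j = 0 + j + q by ring, hper]
    rw [h3] at h2
    change vec _ _ = (M * M).mulVec e at h2
    rw [← h2]
    ext i
    fin_cases i
    · change f (((0 + ((q + q : ℕ) : ℤ)) : ℤ) : ZMod (2 * q)) = f ((0 : ℤ) : ZMod (2 * q))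
      congr 1
      rw [zero_add, ← two_mul, Int.cast_natCast, Int.cast_zero]
      exact ZMod.natCast_self (2 * q)
    · change f (((0 + ((q + q : ℕ) : ℤ) - 1) : ℤ) : ZMod (2 * q))
        = f ((0 - 1 : ℤ) : ZMod (2 * q))
      congr 1
      rw [zero_add, ← two_mul, Int.cast_sub, Int.cast_natCast, Int.cast_sub, Int.cast_zero,
        ZMod.natCast_self (2 * q)]
  have := CH_vec (Tm_det _ _ _) he hMM
  exact ⟨he, this⟩

theorem eig_simple (h0 : 0 < p) (h1 : p < q) (hpq : Nat.Coprime p q) {lam E : ℝ} (hlam : lam ≠ 0)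
    [NeZero (2 * q)]
    {f g : ZMod (2 * q) → ℂ} (hf0 : f ≠ 0) (hg0 : g ≠ 0)
    (hf : (Jm (vp p q) lam (2 * q)).mulVec f = (E : ℂ) • f)
    (hg : (Jm (vp p q) lam (2 * q)).mulVec g = (E : ℂ) • g) : ∃ t : ℂ, g = t • f := by
  have hq : 0 < q := by omega
  obtain ⟨ef, tf, mf, _⟩ := eig_facts h0 h1 hf0 hf
  obtain ⟨eg, tg, mg, _⟩ := eig_facts h0 h1 hg0 hg
  set M := Tm (xe (vp p q) lam E) 0 q with hM
  have hsf := lift_sol hq (v := vp p q) (fun n => vp_per (by omega) n) lam E hf
  have hsg := lift_sol hq (v := vp p q) (fun n => vp_per (by omega) n) lam E hg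
  set e := vec (fun n : ℤ => f (n : ZMod (2 * q))) 0 with he
  set e' := vec (fun n : ℤ => g (n : ZMod (2 * q))) 0 with he'
  have hdep : e 0 * e' 1 = e 1 * e' 0 := by
    by_contra hne
    apply no_scalar h0 h1 hpq lam E hlam (2 / M.trace)
    have hd : e 0 * e' 1 - e 1 * e' 0 ≠ 0 := sub_ne_zero.mpr hne
    have a0 := congrFun mf 0
    have a1 := congrFun mf 1
    have b0 := congrFun mg 0
    have b1 := congrFun mg 1
    simp only [Matrix.mulVec, dotProduct, Fin.sum_univ_two, Pi.smul_apply, smul_eq_mul] at a0 a1 b0 b1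
    set s := 2 / M.trace with hs
    rw [← hM]
    ext i j
    fin_cases i <;> fin_cases j <;> simp
    · apply mul_right_cancel₀ hd
      linear_combination e' 1 * a0 - e 1 * b0
    · apply mul_right_cancel₀ hd
      linear_combination (-e' 0) * a0 + e 0 * b0
    · apply mul_right_cancel₀ hd
      linear_combination e' 1 * a1 - e 1 * b1
    · apply mul_right_cancel₀ hd
      linear_combination (-e' 0) * a1 + e 0 * b1
  obtain ⟨t, ht⟩ := par ef hdep
  refine ⟨t, ?_⟩
  have hz := hsg.add_smul hsf 1 (-t)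
  have h2 : ∀ n : ℤ, 1 * g (n : ZMod (2 * q)) + (-t) * f (n : ZMod (2 * q)) = 0 := by
    intro n
    refine sol_unique hz ?_ ?_ n
    · have := congrFun ht 0
      change g ((0 : ℤ) : ZMod (2 * q)) = t * f ((0 : ℤ) : ZMod (2 * q)) at this
      rw [this]; ring
    · have := congrFun ht 1
      change g ((-1 : ℤ) : ZMod (2 * q)) = t * f ((-1 : ℤ) : ZMod (2 * q)) at this
      rw [this]; ring
  ext i
  have := h2 (i.val : ℤ)
  have h3 : (((i.val : ℤ)) : ZMod (2 * q)) = i := by simp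
  rw [h3] at this
  rw [Pi.smul_apply, smul_eq_mul]
  linear_combination this

/-- `Δ² - 4` has `2q` distinct real roots -/
theorem exists_roots (h0 : 0 < p) (h1 : p < q) (hpq : Nat.Coprime p q) {lam : ℝ} (hlam : lam ≠ 0) :
    ∃ R : Finset ℝ, R.card = 2 * q ∧
      (Disc (vp p q) lam q) ^ 2 - C 4 = ∏ r ∈ R, (X - C r) := by
  have hq : 0 < q := by omega
  haveI : NeZero (2 * q) := ⟨by omega⟩
  set A := Jm (vp p q) lam (2 * q) with hA
  have hH : A.IsHermitian := Jm_herm _ _ _
  have hb : ∀ j, A.mulVec (hH.eigenvectorBasis j) = ((hH.eigenvalues j : ℝ) : ℂ) •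
      (hH.eigenvectorBasis j : ZMod (2 * q) → ℂ) := by
    intro j
    have := hH.mulVec_eigenvectorBasis j
    rw [this]
    ext i
    simp
  have hne : ∀ j, ((hH.eigenvectorBasis j) : ZMod (2 * q) → ℂ) ≠ 0 := by
    intro j h
    have h2 := hH.eigenvectorBasis.orthonormal.ne_zero j
    apply h2
    ext i
    exact congrFun h i
  have hinj : Function.Injective hH.eigenvalues := by
    intro i j hij
    by_contra hne'
    have hi := hb i
    have hj := hb j
    rw [← hij] at hj
    obtain ⟨t, ht⟩ := eig_simple h0 h1 hpq hlam (hne i) (hne j) hi hj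
    have h3 := hH.eigenvectorBasis.orthonormal.inner_eq_zero hne'
    have h4 : hH.eigenvectorBasis j = t • hH.eigenvectorBasis i := by
      ext k
      exact congrFun ht k
    rw [h4, inner_smul_right] at h3
    rcases mul_eq_zero.mp h3 with h5 | h5
    · rw [h5, zero_smul] at ht
      exact hne j ht
    · rw [inner_self_eq_zero] at h5
      exact hH.eigenvectorBasis.orthonormal.ne_zero i h5
  set R : Finset ℝ := Finset.univ.image hH.eigenvalues with hR
  have hcard : R.card = 2 * q := by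
    rw [hR, Finset.card_image_of_injective _ hinj, Finset.card_univ, ZMod.card]
  obtain ⟨hmon, hdeg⟩ := DiscSq_monic (vp p q) lam hq 4
  have hroot : ∀ r ∈ R, r ∈ ((Disc (vp p q) lam q) ^ 2 - C 4).roots := by
    intro r hr
    rw [hR, Finset.mem_image] at hr
    obtain ⟨j, _, rfl⟩ := hr
    rw [mem_roots hmon.ne_zero, IsRoot.def]
    obtain ⟨_, _, _, h5⟩ := eig_facts h0 h1 (hne j) (hb j)
    rw [trace_eq] at h5
    have h6 : ((Disc (vp p q) lam q).eval (hH.eigenvalues j)) ^ 2 = 4 := by exact_mod_cast h5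
    simp [h6]
  have hsub : R.val ≤ ((Disc (vp p q) lam q) ^ 2 - C 4).roots := by
    rw [Multiset.le_iff_subset R.nodup]
    intro r hr
    exact hroot r hr
  have hcard2 : Multiset.card ((Disc (vp p q) lam q) ^ 2 - C 4).roots ≤ 2 * q := by
    rw [← hdeg]; exact card_roots' _
  have heq : R.val = ((Disc (vp p q) lam q) ^ 2 - C 4).roots := by
    apply Multiset.eq_of_le_of_card_le hsub
    change _ ≤ R.card
    rw [hcard]; exact hcard2
  refine ⟨R, hcard, ?_⟩
  have h7 := prod_multiset_X_sub_C_of_monic_of_roots_card_eq hmon (by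
    rw [← heq, hdeg]; exact hcard)
  rw [← heq] at h7
  rw [← h7]
  rfl

end eig

end H221R3.Sturm
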