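import Mathlib
import Pool.Agent.H221R3.StF

set_option autoImplicit false

namespace H221R3.Sturm

open Polynomial

/-- between the roots number `2j+1` and `2j+2` the product is positive -/
theorem prod_pos_between {n : ℕ} (r : Fin (2 * n) → ℝ) (hr : StrictMono r) {j : ℕ}
    (h1 : 2 * j + 1 < 2 * n) (h2 : 2 * j + 2 < 2 * n) {t : ℝ} (ht1 : r ⟨2 * j + 1, h1⟩ < t)
    (ht2 : t < r ⟨2 * j + 2, h2⟩) : 0 < ∏ i, (t - r i) := by
  have hneg : ∀ i : Fin (2 * n), 2 * j + 2 ≤ i.val → t - r i < 0 := by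
    intro i hi
    have : r ⟨2 * j + 2, h2⟩ ≤ r i := hr.monotone (by rw [Fin.le_def]; exact hi)
    linarith
  have hpos : ∀ i : Fin (2 * n), i.val < 2 * j + 2 → 0 < t - r i := by
    intro i hi
    have : r i ≤ r ⟨2 * j + 1, h1⟩ := hr.monotone (by rw [Fin.le_def]; simp; omega)
    linarith
  have hcongr : ∏ i, (t - r i) = ∏ i : Fin (2 * n), ((if i.val < 2 * j + 2 then 1 else -1) * |t - r i|) := by
    apply Finset.prod_congr rfl
    intro i _
    by_cases hi : i.val < 2 * j + 2
    · rw [if_pos hi, one_mul, abs_of_pos (hpos i hi)]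
    · rw [if_neg hi, abs_of_neg (hneg i (by omega))]
      ring
  rw [hcongr, Finset.prod_mul_distrib]
  apply mul_pos
  · have : ∏ i : Fin (2 * n), (if i.val < 2 * j + 2 then (1 : ℝ) else -1) = 1 := by
      rw [Fin.prod_univ_eq_prod_range (fun i => if i < 2 * j + 2 then (1 : ℝ) else -1) (2 * n)]
      obtain ⟨m, hm⟩ : ∃ m, 2 * n = (2 * j + 2) + 2 * m := ⟨n - j - 1, by omega⟩
      rw [hm, Finset.prod_range_add]
      have e1 : ∏ x ∈ Finset.range (2 * j + 2), (if x < 2 * j + 2 then (1 : ℝ) else -1) = 1 := by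
        apply Finset.prod_eq_one
        intro x hx
        rw [if_pos (Finset.mem_range.mp hx)]
      have e2 : ∏ x ∈ Finset.range (2 * m), (if 2 * j + 2 + x < 2 * j + 2 then (1 : ℝ) else -1) = 1 := by
        have : ∀ x ∈ Finset.range (2 * m), (if 2 * j + 2 + x < 2 * j + 2 then (1 : ℝ) else -1) = -1 := by
          intro x _
          rw [if_neg (by omega)]
        rw [Finset.prod_congr rfl this, Finset.prod_const, Finset.card_range, pow_mul]
        norm_num
      rw [e1, e2, one_mul]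
    rw [this]; norm_num
  · apply Finset.prod_pos
    intro i _
    rw [abs_pos]
    by_cases hi : i.val < 2 * j + 2
    · exact (hpos i hi).ne'
    · exact (hneg i (by omega)).ne

theorem sep_points {p q : ℕ} (h0 : 0 < p) (h1 : p < q) (hpq : Nat.Coprime p q) {lam : ℝ}
    (hlam : lam ≠ 0) :
    ∃ B t : ℕ → ℝ, (∀ j, j < q → (Disc (vp p q) lam q).eval (B j) ^ 2 = 4) ∧
      ∀ j, j + 1 < q → B j < t j ∧ t j < B (j + 1) ∧ 4 < (Disc (vp p q) lam q).eval (t j) ^ 2 ∧
        (Disc (vp p q) lam q).eval (t j) ^ 2 ≠ 4 + lam ^ 2 := by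
  obtain ⟨R, hcard, hR⟩ := exists_roots h0 h1 hpq hlam
  set D := Disc (vp p q) lam q with hD
  set r := R.orderEmbOfFin hcard with hr
  have hprod : ∀ t : ℝ, D.eval t ^ 2 - 4 = ∏ i, (t - r i) := by
    intro t
    have h2 := congrArg (eval t) hR
    rw [eval_prod] at h2
    simp only [eval_sub, eval_pow, eval_C, eval_X] at h2
    rw [h2]
    have h3 : R = Finset.univ.image r := by
      ext x
      have := Finset.range_orderEmbOfFin R hcard
      have h4 : x ∈ Set.range r ↔ x ∈ (R : Set ℝ) := by rw [this]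
      simp only [Set.mem_range, Finset.mem_coe] at h4
      simp only [Finset.mem_image, Finset.mem_univ, true_and]
      exact h4.symm
    conv_lhs => rw [h3]
    rw [Finset.prod_image]
    intro a _ b _ hab
    exact r.injective hab
  have hroot : ∀ i, D.eval (r i) ^ 2 = 4 := by
    intro i
    have := hprod (r i)
    rw [Finset.prod_eq_zero (Finset.mem_univ i) (sub_self _)] at this
    linarith
  -- choose the test points
  have hq : 0 < q := by omega
  obtain ⟨hmon, hdeg⟩ := DiscSq_monic (vp p q) lam hq (4 + lam ^ 2)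
  have hfin : {x : ℝ | D.eval x ^ 2 = 4 + lam ^ 2}.Finite := by
    apply (((D ^ 2 - C (4 + lam ^ 2)).roots.toFinset).finite_toSet).subset
    intro x hx
    simp only [Finset.mem_coe, Multiset.mem_toFinset]
    rw [mem_roots hmon.ne_zero, IsRoot.def]
    simp only [eval_sub, eval_pow, eval_C]
    rw [Set.mem_setOf_eq] at hx
    rw [hx, sub_self]
  have hex : ∀ j, j + 1 < q → ∃ t : ℝ, (if h : 2 * j < 2 * q then r ⟨2 * j, h⟩ else 0) < t ∧
      t < (if h : 2 * (j + 1) < 2 * q then r ⟨2 * (j + 1), h⟩ else 0) ∧ 4 < D.eval t ^ 2 ∧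
      D.eval t ^ 2 ≠ 4 + lam ^ 2 := by
    intro j hj
    have k0 : 2 * j < 2 * q := by omega
    have k1 : 2 * j + 1 < 2 * q := by omega
    have k2 : 2 * j + 2 < 2 * q := by omega
    have hlt : r ⟨2 * j + 1, k1⟩ < r ⟨2 * j + 2, k2⟩ := by
      apply r.strictMono
      rw [Fin.lt_def]; simp
    have hlt0 : r ⟨2 * j, k0⟩ < r ⟨2 * j + 1, k1⟩ := by
      apply r.strictMono
      rw [Fin.lt_def]; simp
    obtain ⟨t, ht, hnt⟩ := ((Set.Ioo_infinite hlt).sdiff hfin).nonempty
    refine ⟨t, ?_, ?_, ?_, hnt⟩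
    · rw [dif_pos k0]; exact hlt0.trans ht.1
    · rw [dif_pos (by omega : 2 * (j + 1) < 2 * q)]
      exact ht.2
    · have := prod_pos_between (fun i => r i) (fun a b hab => r.strictMono hab) k1 k2 ht.1 ht.2
      rw [← hprod] at this
      linarith
  choose! t ht using hex
  refine ⟨fun j => if h : 2 * j < 2 * q then r ⟨2 * j, h⟩ else 0, t, ?_, ?_⟩
  · intro j hj
    have k0 : 2 * j < 2 * q := by omega
    simp only [dif_pos k0]
    exact hroot _
  · intro j hj
    exact ht j hj

end H221R3.Sturm
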