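import Mathlib
import Pool.Agent.H221R3.StE

set_option autoImplicit false

namespace H221R3.Sturm

/-- the mechanical word -/
noncomputable def ww (a : ℝ) (n : ℤ) : ℤ := ⌊((n : ℝ) + 1) * a⌋ - ⌊(n : ℝ) * a⌋

/-- words with a defect -/
def Dp (p q n : ℤ) : ℤ := if 0 ≤ n then vp p q n else vm p q n

def Dm (p q n : ℤ) : ℤ := if 0 ≤ n then vm p q n else vp p q n

theorem ww_eq {a : ℝ} (h0 : 0 < a) (h1 : a < 1) (n : ℤ) (lam : ℝ) :
    (if 1 - a ≤ Int.fract ((n : ℝ) * a) then lam else 0) = lam * (ww a n : ℝ) := by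
  have hf0 := Int.fract_nonneg ((n : ℝ) * a)
  have hf1 := Int.fract_lt_one ((n : ℝ) * a)
  have hfl := Int.floor_add_fract ((n : ℝ) * a)
  by_cases h : 1 - a ≤ Int.fract ((n : ℝ) * a)
  · rw [if_pos h]
    have h2 : ⌊((n : ℝ) + 1) * a⌋ = ⌊(n : ℝ) * a⌋ + 1 := by
      rw [Int.floor_eq_iff]
      push_cast
      constructor <;> nlinarith
    rw [ww, h2]
    push_cast
    ring
  · rw [if_neg h]
    push Not at h
    have h2 : ⌊((n : ℝ) + 1) * a⌋ = ⌊(n : ℝ) * a⌋ := by
      rw [Int.floor_eq_iff]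
      constructor <;> nlinarith
    rw [ww, h2]
    push_cast
    ring

theorem floor_aux {q : ℤ} (hq : 0 < q) (x : ℤ) {η : ℝ} (h0 : 0 ≤ η) (h1 : η < 1) :
    ⌊((x : ℝ) + η) / q⌋ = x / q := by
  have hq' : (0 : ℝ) < q := by exact_mod_cast hq
  rw [Int.floor_eq_iff]
  have h2 := Int.emod_add_mul_ediv x q
  have h3 := Int.emod_nonneg x hq.ne'
  have h4 := Int.emod_lt_of_pos x hq
  constructor
  · rw [le_div_iff₀ hq']
    have : (((x / q) * q : ℤ) : ℝ) ≤ ((x : ℤ) : ℝ) := by exact_mod_cast (by linarith [mul_comm q (x / q)])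
    push_cast at this
    linarith
  · rw [div_lt_iff₀ hq']
    have : (x : ℤ) + 1 ≤ (x / q + 1) * q := by
      have : (x / q + 1) * q = q * (x / q) + q := by ring
      rw [this]; omega
    have h5 : (x : ℝ) + 1 ≤ ((x / q : ℤ) + 1 : ℝ) * q := by exact_mod_cast this
    linarith

/-- adding one to the numerator matters only at multiples -/
theorem ediv_add_one {q t : ℤ} (hq : 0 < q) (h : ¬ q ∣ t + 1) : (t + 1) / q = t / q := by
  have := ediv_sub_one hq h
  rw [add_sub_cancel_right] at this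
  exact this.symm

/-- a first solution of a congruence -/
theorem exists_first {p q : ℤ} (hq : 0 < q) (hpq : IsCoprime p q) (c j0 : ℤ) :
    ∃ j1, j0 ≤ j1 ∧ q ∣ c + j1 * p ∧ ∀ j, j0 ≤ j → j < j1 → ¬ q ∣ c + j * p := by
  obtain ⟨u, v, huv⟩ := hpq
  have hne : ∃ j, j0 ≤ j ∧ q ∣ c + j * p := by
    refine ⟨-c * u + q * (|j0| + |c * u|), ?_, ?_⟩
    · have h1 : |j0| + |c * u| ≤ q * (|j0| + |c * u|) := by
        have : 0 ≤ |j0| + |c * u| := by positivity
        nlinarith
      have h2 := le_abs_self j0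
      have h3 := le_abs_self (c * u)
      linarith
    · refine ⟨c * v + (|j0| + |c * u|) * p, ?_⟩
      linear_combination (-c) * huv
  obtain ⟨j1, ⟨h1, h2⟩, h3⟩ := Int.exists_least_of_bdd (P := fun j => j0 ≤ j ∧ q ∣ c + j * p)
    ⟨j0, fun z hz => hz.1⟩ hne
  refine ⟨j1, h1, h2, ?_⟩
  intro j hj hj1 hd
  have := h3 j ⟨hj, hd⟩
  omega

theorem win_right {p q : ℤ} (h0 : 0 < p) (h1 : p < q) (hpq : IsCoprime p q) (N : ℕ) :
    ∃ ε : ℝ, 0 < ε ∧ ∀ a : ℝ, (p : ℝ) / q < a → a < p / q + ε → ∀ m : ℤ, ∃ k : ℤ,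
      ∀ j : ℤ, 0 ≤ j → j ≤ N → ww a (m + j) = Dp p q (j + k) := by
  have hq : 0 < q := h0.trans h1
  have hq' : (0 : ℝ) < q := by exact_mod_cast hq
  refine ⟨1 / (q * (N + 1)), by positivity, ?_⟩
  intro a ha1 ha2 m
  set δ := a - p / q with hδ
  have hδ0 : 0 < δ := by rw [hδ]; linarith
  have hδ1 : δ * q * (N + 1) < 1 := by
    have : δ < 1 / (q * (N + 1)) := by rw [hδ]; linarith
    rw [lt_div_iff₀ (by positivity)] at this
    linarith
  set k0 := ⌊(q : ℝ) * (m * a)⌋ with hk0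
  set θ := Int.fract ((q : ℝ) * (m * a)) with hθ
  have hθ0 : 0 ≤ θ := Int.fract_nonneg _
  have hθ1 : θ < 1 := Int.fract_lt_one _
  have hkθ : (k0 : ℝ) + θ = q * (m * a) := Int.floor_add_fract _
  set j0 := ⌈(1 - θ) / (q * δ)⌉ with hj0
  have hqδ : 0 < (q : ℝ) * δ := by positivity
  have hj0iff : ∀ j : ℤ, j0 ≤ j ↔ 1 ≤ θ + j * (q * δ) := by
    intro j
    rw [hj0, Int.ceil_le, div_le_iff₀ hqδ]
    constructor <;> intro h <;> linarith
  obtain ⟨j1, hj1, ⟨z, hz⟩, hfirst⟩ := exists_first hq hpq (k0 + 1) j0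
  -- the floors
  have hF : ∀ j : ℤ, 0 ≤ j → j ≤ N + 1 →
      ⌊((m : ℝ) + j) * a⌋ = z + ((j - j1) * p - (if j < j1 then 1 else 0)) / q := by
    intro j hj hjN
    have hjN' : (j : ℝ) ≤ N + 1 := by exact_mod_cast hjN
    have hj' : (0 : ℝ) ≤ j := by exact_mod_cast hj
    have hjδ : (j : ℝ) * (q * δ) < 1 := by nlinarith
    have e1 : ((m : ℝ) + j) * a = (((k0 + j * p : ℤ) : ℝ) + (θ + j * (q * δ))) / q := by
      rw [eq_div_iff hq'.ne']
      push_cast
      have : (q : ℝ) * δ = q * a - p := by rw [hδ]; field_simp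
      rw [this]
      linear_combination -hkθ
    have e2 : ⌊((m : ℝ) + j) * a⌋ = (k0 + j * p + (if j0 ≤ j then 1 else 0)) / q := by
      rw [e1]
      by_cases hjj : j0 ≤ j
      · rw [if_pos hjj]
        have h3 := (hj0iff j).mp hjj
        have h4 := floor_aux hq (k0 + j * p + 1) (η := θ + j * (q * δ) - 1) (by linarith)
          (by linarith)
        rw [← h4]
        congr 1
        push_cast
        ring
      · rw [if_neg hjj, add_zero]
        have h3 : θ + j * (q * δ) < 1 := by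
          by_contra hcon
          exact hjj ((hj0iff j).mpr (not_lt.mp hcon))
        exact floor_aux hq (k0 + j * p) (by positivity) h3
    have e3 : (k0 + j * p + (if j0 ≤ j then 1 else 0)) / q
        = (k0 + j * p + (if j1 ≤ j then 1 else 0)) / q := by
      by_cases hA : j1 ≤ j
      · rw [if_pos hA, if_pos (hj1.trans hA)]
      · by_cases hB : j0 ≤ j
        · rw [if_pos hB, if_neg hA, add_zero]
          have := hfirst j hB (not_le.mp hA)
          apply ediv_add_one hq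
          rwa [show k0 + j * p + 1 = k0 + 1 + j * p by ring]
        · rw [if_neg hB, if_neg hA]
    rw [e2, e3]
    have e4 : k0 + j * p + (if j1 ≤ j then 1 else 0)
        = (j - j1) * p - (if j < j1 then 1 else 0) + z * q := by
      by_cases hA : j1 ≤ j
      · rw [if_pos hA, if_neg (not_lt.mpr hA)]
        linear_combination hz
      · rw [if_neg hA, if_pos (not_le.mp hA)]
        linear_combination hz
    rw [e4, Int.add_mul_ediv_right _ _ hq.ne']
    ring
  refine ⟨1 - j1, ?_⟩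
  intro j hj hjN
  have f1 := hF (j + 1) (by omega) (by omega)
  have f0 := hF j hj (by omega)
  have g1 : ((m + j : ℤ) : ℝ) + 1 = (m : ℝ) + ((j + 1 : ℤ) : ℝ) := by push_cast; ring
  have g0 : ((m + j : ℤ) : ℝ) = (m : ℝ) + (j : ℝ) := by push_cast; ring
  rw [ww, g1, f1, g0, f0, Dp, vp, vm]
  rcases lt_trichotomy (j + (1 - j1)) 0 with h | h | h
  · rw [if_neg (show ¬ 0 ≤ j + (1 - j1) by omega), if_pos (show j + 1 < j1 by omega),
      if_pos (show j < j1 by omega)]
    rw [show (j + 1 - j1) = j + (1 - j1) by ring, show (j + (1 - j1) - 1) = j - j1 by ring]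
    ring
  · rw [if_pos (show 0 ≤ j + (1 - j1) by omega), if_neg (show ¬ j + 1 < j1 by omega),
      if_pos (show j < j1 by omega)]
    rw [show (j + 1 - j1) = 0 by omega, show j - j1 = -1 by omega, h]
    rw [show (-1 : ℤ) * p - 1 = -(p + 1) by ring, show ((0 : ℤ) - 1) * p = -p by ring,
      ediv_neg_one (by omega) (by omega), ediv_neg_one (by omega) (by omega)]
    simp
  · rw [if_pos (show 0 ≤ j + (1 - j1) by omega), if_neg (show ¬ j + 1 < j1 by omega),
      if_neg (show ¬ j < j1 by omega)]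
    rw [show (j + 1 - j1) = j + (1 - j1) by ring, show (j + (1 - j1) - 1) = j - j1 by ring]
    simp

theorem win_left {p q : ℤ} (h0 : 0 < p) (h1 : p < q) (hpq : IsCoprime p q) (N : ℕ) :
    ∃ ε : ℝ, 0 < ε ∧ ∀ a : ℝ, a < (p : ℝ) / q → p / q - ε < a → ∀ m : ℤ, ∃ k : ℤ,
      ∀ j : ℤ, 0 ≤ j → j ≤ N → ww a (m + j) = Dm p q (j + k) := by
  have hq : 0 < q := h0.trans h1
  have hq' : (0 : ℝ) < q := by exact_mod_cast hq
  refine ⟨1 / (q * (N + 1)), by positivity, ?_⟩
  intro a ha1 ha2 m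
  set δ := p / q - a with hδ
  have hδ0 : 0 < δ := by rw [hδ]; linarith
  have hδ1 : δ * q * (N + 1) < 1 := by
    have : δ < 1 / (q * (N + 1)) := by rw [hδ]; linarith
    rw [lt_div_iff₀ (by positivity)] at this
    linarith
  set k0 := ⌊(q : ℝ) * (m * a)⌋ with hk0
  set θ := Int.fract ((q : ℝ) * (m * a)) with hθ
  have hθ0 : 0 ≤ θ := Int.fract_nonneg _
  have hθ1 : θ < 1 := Int.fract_lt_one _
  have hkθ : (k0 : ℝ) + θ = q * (m * a) := Int.floor_add_fract _
  set j0 := ⌊θ / (q * δ)⌋ + 1 with hj0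
  have hqδ : 0 < (q : ℝ) * δ := by positivity
  have hj0iff : ∀ j : ℤ, j0 ≤ j ↔ θ - j * (q * δ) < 0 := by
    intro j
    rw [hj0, Int.add_one_le_iff, Int.floor_lt, div_lt_iff₀ hqδ]
    constructor <;> intro h <;> linarith
  obtain ⟨j1, hj1, ⟨z, hz⟩, hfirst⟩ := exists_first hq hpq k0 j0
  -- the floors
  have hF : ∀ j : ℤ, 0 ≤ j → j ≤ N + 1 →
      ⌊((m : ℝ) + j) * a⌋ = z + ((j - j1) * p - (if j1 ≤ j then 1 else 0)) / q := by
    intro j hj hjN
    have hjN' : (j : ℝ) ≤ N + 1 := by exact_mod_cast hjN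
    have hj' : (0 : ℝ) ≤ j := by exact_mod_cast hj
    have hjδ : (j : ℝ) * (q * δ) < 1 := by nlinarith
    have hjδ0 : 0 ≤ (j : ℝ) * (q * δ) := by positivity
    have e1 : ((m : ℝ) + j) * a = (((k0 + j * p : ℤ) : ℝ) + (θ - j * (q * δ))) / q := by
      rw [eq_div_iff hq'.ne']
      push_cast
      have : (q : ℝ) * δ = p - q * a := by rw [hδ]; field_simp
      rw [this]
      linear_combination -hkθ
    have e2 : ⌊((m : ℝ) + j) * a⌋ = (k0 + j * p - (if j0 ≤ j then 1 else 0)) / q := by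
      rw [e1]
      by_cases hjj : j0 ≤ j
      · rw [if_pos hjj]
        have h3 := (hj0iff j).mp hjj
        have h4 := floor_aux hq (k0 + j * p - 1) (η := θ - j * (q * δ) + 1) (by linarith)
          (by linarith)
        rw [← h4]
        congr 1
        push_cast
        ring
      · rw [if_neg hjj, sub_zero]
        have h3 : 0 ≤ θ - j * (q * δ) := by
          by_contra hcon
          exact hjj ((hj0iff j).mpr (not_le.mp hcon))
        exact floor_aux hq (k0 + j * p) h3 (by linarith)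
    have e3 : (k0 + j * p - (if j0 ≤ j then 1 else 0)) / q
        = (k0 + j * p - (if j1 ≤ j then 1 else 0)) / q := by
      by_cases hA : j1 ≤ j
      · rw [if_pos hA, if_pos (hj1.trans hA)]
      · by_cases hB : j0 ≤ j
        · rw [if_pos hB, if_neg hA, sub_zero]
          have := hfirst j hB (not_le.mp hA)
          exact ediv_sub_one hq this
        · rw [if_neg hB, if_neg hA]
    rw [e2, e3]
    have e4 : k0 + j * p - (if j1 ≤ j then 1 else 0)
        = (j - j1) * p - (if j1 ≤ j then 1 else 0) + z * q := by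
      linear_combination hz
    rw [e4, Int.add_mul_ediv_right _ _ hq.ne']
    ring
  refine ⟨1 - j1, ?_⟩
  intro j hj hjN
  have f1 := hF (j + 1) (by omega) (by omega)
  have f0 := hF j hj (by omega)
  have g1 : ((m + j : ℤ) : ℝ) + 1 = (m : ℝ) + ((j + 1 : ℤ) : ℝ) := by push_cast; ring
  have g0 : ((m + j : ℤ) : ℝ) = (m : ℝ) + (j : ℝ) := by push_cast; ring
  rw [ww, g1, f1, g0, f0, Dm, vp, vm]
  rcases lt_trichotomy (j + (1 - j1)) 0 with h | h | h
  · rw [if_neg (show ¬ 0 ≤ j + (1 - j1) by omega), if_neg (show ¬ j1 ≤ j + 1 by omega),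
      if_neg (show ¬ j1 ≤ j by omega)]
    rw [show (j + 1 - j1) = j + (1 - j1) by ring, show (j + (1 - j1) - 1) = j - j1 by ring]
    simp
  · rw [if_pos (show 0 ≤ j + (1 - j1) by omega), if_pos (show j1 ≤ j + 1 by omega),
      if_neg (show ¬ j1 ≤ j by omega)]
    rw [show (j + 1 - j1) = 0 by omega, show j - j1 = -1 by omega, h]
    rw [show (-1 : ℤ) * p - 0 = -p by ring, show ((0 : ℤ) - 1) * p - 1 = -(p + 1) by ring,
      show (0 : ℤ) * p - 1 = -1 by ring,
      ediv_neg_one (by omega) (by omega), ediv_neg_one (by omega) (by omega),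
      ediv_neg_one (by omega) (by omega)]
    simp
  · rw [if_pos (show 0 ≤ j + (1 - j1) by omega), if_pos (show j1 ≤ j + 1 by omega),
      if_pos (show j1 ≤ j by omega)]
    rw [show (j + 1 - j1) = j + (1 - j1) by ring, show (j + (1 - j1) - 1) = j - j1 by ring]
    ring

/-- long periodic stretches -/
theorem per_right {p q : ℤ} (h0 : 0 < p) (h1 : p < q) (N : ℕ) :
    ∃ ε : ℝ, 0 < ε ∧ ∀ a : ℝ, (p : ℝ) / q < a → a < p / q + ε →
      ∀ n : ℤ, 0 ≤ n → n < N → ww a n = vp p q (n + 1) := by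
  have hq : 0 < q := h0.trans h1
  have hq' : (0 : ℝ) < q := by exact_mod_cast hq
  refine ⟨1 / (q * (N + 1)), by positivity, ?_⟩
  intro a ha1 ha2
  set δ := a - p / q with hδ
  have hδ0 : 0 < δ := by rw [hδ]; linarith
  have hδ1 : δ * q * (N + 1) < 1 := by
    have : δ < 1 / (q * (N + 1)) := by rw [hδ]; linarith
    rw [lt_div_iff₀ (by positivity)] at this
    linarith
  have hF : ∀ n : ℤ, 0 ≤ n → n ≤ N → ⌊(n : ℝ) * a⌋ = n * p / q := by
    intro n hn hnN
    have hn' : (0 : ℝ) ≤ n := by exact_mod_cast hn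
    have hnN' : (n : ℝ) ≤ N := by exact_mod_cast hnN
    have e1 : (n : ℝ) * a = (((n * p : ℤ) : ℝ) + n * (q * δ)) / q := by
      rw [eq_div_iff hq'.ne']
      push_cast
      rw [hδ]; field_simp; ring
    rw [e1]
    exact floor_aux hq _ (by positivity) (by nlinarith [mul_pos hq' hδ0])
  intro n hn hnN
  have f1 := hF (n + 1) (by omega) (by omega)
  have f0 := hF n hn (by omega)
  push_cast at f1
  rw [ww, f1, f0, vp, add_sub_cancel_right]

theorem per_left {p q : ℤ} (h0 : 0 < p) (h1 : p < q) (N : ℕ) :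
    ∃ ε : ℝ, 0 < ε ∧ ∀ a : ℝ, a < (p : ℝ) / q → p / q - ε < a →
      ∀ n : ℤ, -(N : ℤ) ≤ n → n < 0 → ww a n = vp p q (n + 1) := by
  have hq : 0 < q := h0.trans h1
  have hq' : (0 : ℝ) < q := by exact_mod_cast hq
  refine ⟨1 / (q * (N + 1)), by positivity, ?_⟩
  intro a ha1 ha2
  set δ := p / q - a with hδ
  have hδ0 : 0 < δ := by rw [hδ]; linarith
  have hδ1 : δ * q * (N + 1) < 1 := by
    have : δ < 1 / (q * (N + 1)) := by rw [hδ]; linarith
    rw [lt_div_iff₀ (by positivity)] at this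
    linarith
  have hF : ∀ n : ℤ, -(N : ℤ) ≤ n → n ≤ 0 → ⌊(n : ℝ) * a⌋ = n * p / q := by
    intro n hn hnN
    have hn' : -(N : ℝ) ≤ n := by exact_mod_cast hn
    have hnN' : (n : ℝ) ≤ 0 := by exact_mod_cast hnN
    have e1 : (n : ℝ) * a = (((n * p : ℤ) : ℝ) + (-n) * (q * δ)) / q := by
      rw [eq_div_iff hq'.ne']
      push_cast
      rw [hδ]; field_simp; ring
    rw [e1]
    exact floor_aux hq _ (by
      have := mul_pos hq' hδ0
      nlinarith) (by nlinarith [mul_pos hq' hδ0])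
  intro n hn hnN
  have f1 := hF (n + 1) (by omega) (by omega)
  have f0 := hF n hn (by omega)
  push_cast at f1
  rw [ww, f1, f0, vp, add_sub_cancel_right]

end H221R3.Sturm
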