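import Mathlib
import Pool.Agent.H221R3.StG
import Pool.Agent.H221R3.StH
import Pool.Agent.H221R3.StD
import Pool.Agent.H221R3.StB2

set_option autoImplicit false

namespace H221R3.Sturm

open Polynomial
open scoped ENNReal

theorem exists_mu {D : ℝ} (h : 4 < D ^ 2) : ∃ μ : ℝ, 1 < |μ| ∧ μ + μ⁻¹ = D := by
  have hs : 0 < Real.sqrt (D ^ 2 - 4) := Real.sqrt_pos.mpr (by linarith)
  have hs2 : Real.sqrt (D ^ 2 - 4) ^ 2 = D ^ 2 - 4 := Real.sq_sqrt (by linarith)
  set s := Real.sqrt (D ^ 2 - 4) with hsd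
  have key : ∀ μ : ℝ, μ ≠ 0 → μ ^ 2 - D * μ + 1 = 0 → μ + μ⁻¹ = D := by
    intro μ hμ h
    field_simp
    linarith
  rcases lt_or_ge 0 D with hD | hD
  · have h2 : 2 < D := by nlinarith
    refine ⟨(D + s) / 2, ?_, ?_⟩
    · rw [abs_of_pos (by linarith)]; linarith
    · apply key _ (by linarith : (0 : ℝ) < (D + s) / 2).ne'
      linear_combination hs2 / 4
  · have h2 : D < -2 := by nlinarith
    refine ⟨(D - s) / 2, ?_, ?_⟩
    · rw [abs_of_neg (by linarith)]; linarith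
    · apply key _ (by linarith : (D - s) / 2 < (0 : ℝ)).ne
      linear_combination hs2 / 4

/-- the half line estimates -/
def LB (x : ℤ → ℂ) (c : ℝ) : Prop := ∀ ψ : ℤ → ℂ, Summable (fun n => ‖ψ n‖ ^ 2) →
      Summable (fun n => ‖JA x ψ n‖ ^ 2) →
      c ^ 2 * ∑' n, ‖ψ n‖ ^ 2 ≤ ∑' n, ‖JA x ψ n‖ ^ 2

theorem LB_Dp {p q : ℕ} (h0 : 0 < p) (h1 : p < q) (hpq : Nat.Coprime p q) {lam E : ℝ}
    (hlam : lam ≠ 0) (hE : 4 < (Disc (vp p q) lam q).eval E ^ 2)
    (hE2 : (Disc (vp p q) lam q).eval E ^ 2 ≠ 4 + lam ^ 2) :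
    ∃ c : ℝ, 0 < c ∧ LB (xe (Dp p q) lam E) c := by
  obtain ⟨μ, hμ1, hμ⟩ := exists_mu hE
  have hμ0 : μ ≠ 0 := by rintro rfl; norm_num at hμ1
  have hq : 0 < q := by omega
  have hμC : (μ : ℂ) + (μ : ℂ)⁻¹ = (((Disc (vp p q) lam q).eval E : ℝ) : ℂ) := by
    rw [← hμ]; push_cast; ring
  have hμC0 : (μ : ℂ) ≠ 0 := by exact_mod_cast hμ0
  obtain ⟨c, hc, h⟩ := halfline (xL := xe (vm p q) lam E) (xR := xe (vp p q) lam E) hq
    (fun n => xm_per h0 h1 hpq lam E n) (fun n => xp_per h0 h1 hpq lam E n) (μ := (μ : ℂ))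
    (by rw [Complex.norm_real]; exact hμ1)
    (by rw [trace_pm h0 h1 hpq lam E, trace_eq, hμC])
    (by rw [trace_eq, hμC])
    (by
      intro e h2 h3
      by_contra he
      have h4 := common_eig h0 h1 hpq lam E hlam (ν := (μ : ℂ)⁻¹) (ν' := (μ : ℂ)) (inv_mul_cancel₀ hμC0) he h2 h3
      rw [add_comm, hμC] at h4
      apply hE2
      have : (((Disc (vp p q) lam q).eval E ^ 2 - 4 : ℝ) : ℂ) = ((lam ^ 2 : ℝ) : ℂ) := by
        push_cast; exact h4
      have := Complex.ofReal_injective this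
      linarith)
  refine ⟨c, hc, ?_⟩
  intro ψ hs1 hs2
  have e : JA (xe (Dp p q) lam E) ψ = fun n => ψ (n + 1) + ψ (n - 1)
      + (if 0 ≤ n then xe (vp p q) lam E n else xe (vm p q) lam E n) * ψ n := by
    ext n
    rw [JA]
    congr 2
    by_cases hn : 0 ≤ n
    · rw [if_pos hn, xe, xe, Dp, if_pos hn]
    · rw [if_neg hn, xe, xe, Dp, if_neg hn]
  rw [e] at hs2 ⊢
  exact h ψ hs1 hs2

theorem LB_Dm {p q : ℕ} (h0 : 0 < p) (h1 : p < q) (hpq : Nat.Coprime p q) {lam E : ℝ}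
    (hlam : lam ≠ 0) (hE : 4 < (Disc (vp p q) lam q).eval E ^ 2)
    (hE2 : (Disc (vp p q) lam q).eval E ^ 2 ≠ 4 + lam ^ 2) :
    ∃ c : ℝ, 0 < c ∧ LB (xe (Dm p q) lam E) c := by
  obtain ⟨μ, hμ1, hμ⟩ := exists_mu hE
  have hμ0 : μ ≠ 0 := by rintro rfl; norm_num at hμ1
  have hq : 0 < q := by omega
  have hμC : (μ : ℂ) + (μ : ℂ)⁻¹ = (((Disc (vp p q) lam q).eval E : ℝ) : ℂ) := by
    rw [← hμ]; push_cast; ring
  have hμC0 : (μ : ℂ) ≠ 0 := by exact_mod_cast hμ0
  obtain ⟨c, hc, h⟩ := halfline (xL := xe (vp p q) lam E) (xR := xe (vm p q) lam E) hq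
    (fun n => xp_per h0 h1 hpq lam E n) (fun n => xm_per h0 h1 hpq lam E n) (μ := (μ : ℂ))
    (by rw [Complex.norm_real]; exact hμ1)
    (by rw [trace_eq, hμC])
    (by rw [trace_pm h0 h1 hpq lam E, trace_eq, hμC])
    (by
      intro e h2 h3
      by_contra he
      have h4 := common_eig h0 h1 hpq lam E hlam (ν := (μ : ℂ)) (ν' := (μ : ℂ)⁻¹)
        (mul_inv_cancel₀ hμC0) he h3 h2
      rw [hμC] at h4
      apply hE2
      have : (((Disc (vp p q) lam q).eval E ^ 2 - 4 : ℝ) : ℂ) = ((lam ^ 2 : ℝ) : ℂ) := by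
        push_cast; exact h4
      have := Complex.ofReal_injective this
      linarith)
  refine ⟨c, hc, ?_⟩
  intro ψ hs1 hs2
  have e : JA (xe (Dm p q) lam E) ψ = fun n => ψ (n + 1) + ψ (n - 1)
      + (if 0 ≤ n then xe (vm p q) lam E n else xe (vp p q) lam E n) * ψ n := by
    ext n
    rw [JA]
    congr 2
    by_cases hn : 0 ≤ n
    · rw [if_pos hn, xe, xe, Dm, if_pos hn]
    · rw [if_neg hn, xe, xe, Dm, if_neg hn]
  rw [e] at hs2 ⊢
  exact h ψ hs1 hs2

theorem e2_eq {ψ : ℤ → ℂ} (h : Summable fun n => ‖ψ n‖ ^ 2) :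
    e2 ψ = ENNReal.ofReal (∑' n, ‖ψ n‖ ^ 2) := by
  rw [e2, ENNReal.ofReal_tsum_of_nonneg (fun n => by positivity) h]

theorem summable_of_support {φ : ℤ → ℂ} {m : ℤ} {N : ℕ} (h : ∀ n : ℤ, (N : ℤ) ≤ |n - m| → φ n = 0) :
    Summable fun n => ‖φ n‖ ^ 2 := by
  apply summable_of_ne_finset_zero (s := Finset.Ioo (m - N) (m + N))
  intro n hn
  rw [h n, norm_zero]
  · norm_num
  · by_contra hcon
    push Not at hcon
    rw [abs_lt] at hcon
    apply hn
    rw [Finset.mem_Ioo]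
    constructor <;> linarith

/-- transfer of the lower bound to words which look locally like `v` -/
theorem from_defect {v : ℤ → ℤ} {lam E c : ℝ} (hc : 0 < c) (h : LB (xe v lam E) c) :
    ∃ N : ℕ, ∀ w : ℤ → ℤ, (∀ m, ∃ k : ℤ, ∀ j : ℤ, 0 ≤ j → j ≤ N → w (m + j) = v (j + k)) →
      ∀ ψ : ℤ → ℂ, e2 ψ ≠ ∞ →
        ENNReal.ofReal (c ^ 2 / 4) * e2 ψ ≤ e2 (JA (xe w lam E) ψ) := by
  obtain ⟨M, hM⟩ := exists_nat_gt (8 / c)
  have hM0 : 0 < (M : ℝ) := lt_trans (by positivity) hM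
  have hM0' : 0 < M := by exact_mod_cast hM0
  refine ⟨4 * M, ?_⟩
  intro w hw ψ hψ
  refine localise (x := xe w lam E) hc hM0' ?_ ?_ ψ hψ
  · rw [div_lt_iff₀ hc] at hM
    nlinarith
  · intro m φ hφ
    obtain ⟨k, hk⟩ := hw (m - 2 * M)
    set k' := k - (m - 2 * M) with hk'
    set φ' : ℤ → ℂ := fun n => φ (n + (-k')) with hφ'
    have hs' : ∀ n : ℤ, ((2 * M : ℕ) : ℤ) ≤ |n - (m + k')| → φ' n = 0 := by
      intro n hn
      apply hφ
      push_cast at hn
      rwa [show n + -k' - m = n - (m + k') by ring]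
    have hJA : JA (xe w lam E) φ = fun n => JA (xe v lam E) φ' (n + k') := by
      ext n
      rw [JA, JA, hφ']
      simp only
      rw [show n + k' + 1 + -k' = n + 1 by ring, show n + k' - 1 + -k' = n - 1 by ring,
        show n + k' + -k' = n by ring]
      congr 1
      by_cases hn : φ n = 0
      · rw [hn, mul_zero, mul_zero]
      · congr 1
        have h3 : |n - m| < 2 * M := by
          by_contra hcon
          exact hn (hφ n (not_lt.mp hcon))
        rw [abs_lt] at h3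
        rw [xe, xe]
        have h4 := hk (n - (m - 2 * M)) (by linarith) (by push_cast; linarith)
        rw [show m - 2 * (M : ℤ) + (n - (m - 2 * M)) = n by ring,
          show n - (m - 2 * (M : ℤ)) + k = n + k' by rw [hk']; ring] at h4
        rw [h4]
    have e1 : e2 (JA (xe w lam E) φ) = e2 (JA (xe v lam E) φ') := by
      rw [hJA, e2_shift]
    have e3 : e2 φ = e2 φ' := by
      rw [hφ', e2_shift]
    rw [e1, e3]
    have s1 := summable_of_support hs'
    have s2 : Summable fun n => ‖JA (xe v lam E) φ' n‖ ^ 2 := by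
      apply summable_of_support (m := m + k') (N := 2 * M + 1)
      intro n hn
      rw [JA]
      push_cast at hn
      rw [hs' n, hs' (n + 1), hs' (n - 1)]
      · ring
      · push_cast
        rw [le_abs] at hn ⊢
        rcases hn with hn | hn
        · left; linarith
        · right; linarith
      · push_cast
        rw [le_abs] at hn ⊢
        rcases hn with hn | hn
        · left; linarith
        · right; linarith
      · push_cast
        rw [le_abs] at hn ⊢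
        rcases hn with hn | hn
        · left; linarith
        · right; linarith
    have h5 := h φ' s1 s2
    rw [e2_eq s1, e2_eq s2, ← ENNReal.ofReal_mul (by positivity)]
    exact ENNReal.ofReal_le_ofReal h5

end H221R3.Sturm
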