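import Mathlib
import Pool.Agent.H221R3.StA
import Pool.Agent.H221R3.StI

set_option autoImplicit false

namespace H221R3.Sturm

open Polynomial
open scoped ENNReal
open Pool.Agent.Helper434.PSCplx (L2 SS MM SS_apply MM_apply)

/-- the potential -/
noncomputable def pot (lam a : ℝ) (n : ℤ) : ℝ := if 1 - a ≤ Int.fract ((n : ℝ) * a) then lam else 0

theorem pot_bound (lam a : ℝ) (n : ℤ) : |pot lam a n| ≤ |lam| := by
  rw [pot]
  split_ifs
  · exact le_rfl
  · simp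

/-- the operator -/
noncomputable def HO (lam a : ℝ) : L2 →L[ℂ] L2 := SS 1 + SS (-1) + MM (pot lam a) (pot_bound lam a)

theorem HO_apply (lam a : ℝ) (ψ : L2) (n : ℤ) :
    HO lam a ψ n = ψ (n + 1) + ψ (n - 1) + (pot lam a n : ℂ) * ψ n := rfl

theorem HO_sa (lam a : ℝ) : IsSelfAdjoint (HO lam a) := by
  obtain ⟨H, h1, h2⟩ := Pool.Agent.Helper434.PSCplx.exists_H (pot lam a) (pot_bound lam a)
  have : HO lam a = H := by
    ext ψ n
    rw [HO_apply, h1]
  rw [this]; exact h2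

theorem HO_norm (lam a : ℝ) : ‖HO lam a‖ ≤ 2 + |lam| := by
  rw [HO]
  refine (norm_add_le _ _).trans ?_
  have h1 : ∀ b, ‖SS b‖ ≤ 1 := by
    intro b
    exact LinearMap.mkContinuous_norm_le _ zero_le_one _
  have h2 : ‖MM (pot lam a) (pot_bound lam a)‖ ≤ |lam| :=
    LinearMap.mkContinuous_norm_le _ (abs_nonneg _) _
  have h3 := norm_add_le (SS 1) (SS (-1))
  have := h1 1
  have := h1 (-1)
  linarith

/-- the real spectrum -/
def Sp (lam a : ℝ) : Set ℝ := {E : ℝ | (E : ℂ) ∈ spectrum ℂ (HO lam a)}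

theorem Sp_bdd (lam a : ℝ) {E : ℝ} (h : E ∈ Sp lam a) : |E| ≤ 2 + |lam| := by
  have h1 : (E : ℂ) ∈ spectrum ℂ (HO lam a) := h
  have h2 := spectrum.norm_le_norm_mul_of_mem h1
  have h3 : ‖(1 : L2 →L[ℂ] L2)‖ ≤ 1 := ContinuousLinearMap.norm_id_le
  rw [Complex.norm_real, Real.norm_eq_abs] at h2
  have h4 := HO_norm lam a
  have h5 : 0 ≤ ‖HO lam a‖ := norm_nonneg _
  nlinarith

theorem Sp_compact (lam a : ℝ) : IsCompact (Sp lam a) := by
  apply Metric.isCompact_of_isClosed_isBounded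
  · exact (spectrum.isClosed (𝕜 := ℂ) (HO lam a)).preimage Complex.continuous_ofReal
  · rw [isBounded_iff_forall_norm_le]
    exact ⟨2 + |lam|, fun x hx => Sp_bdd lam a hx⟩

theorem norm_sq_eq (ψ : L2) : ‖ψ‖ ^ 2 = ∑' n, ‖ψ n‖ ^ 2 := by
  have h1 := lp.norm_rpow_eq_tsum (p := 2) Pool.Agent.Helper434.PSCplx.two_pos ψ
  have h5 : (2 : ℝ≥0∞).toReal = ((2 : ℕ) : ℝ) := by norm_num
  rw [h5] at h1
  simp only [Real.rpow_natCast] at h1
  exact h1

theorem summ2 (ψ : L2) : Summable fun n => ‖ψ n‖ ^ 2 := by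
  have h1 := Pool.Agent.Helper434.PSCplx.summ ψ
  have h5 : (2 : ℝ≥0∞).toReal = ((2 : ℕ) : ℝ) := by norm_num
  rw [h5] at h1
  simp only [Real.rpow_natCast] at h1
  exact h1

theorem e2_L2 (ψ : L2) : e2 ψ = ENNReal.ofReal (‖ψ‖ ^ 2) := by
  rw [e2_eq (summ2 ψ), norm_sq_eq]

theorem HO_JA {lam a : ℝ} (h0 : 0 < a) (h1 : a < 1) (E : ℝ) (ψ : L2) :
    ((HO lam a ψ - (E : ℂ) • ψ : L2) : ℤ → ℂ) = JA (xe (ww a) lam E) ψ := by
  ext n
  rw [lp.coeFn_sub, Pi.sub_apply, lp.coeFn_smul, Pi.smul_apply, HO_apply, JA, xe, pot,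
    ww_eq h0 h1, smul_eq_mul]
  push_cast
  ring

theorem free_of_e2 {lam a : ℝ} (h0 : 0 < a) (h1 : a < 1) {E c : ℝ} (hc : 0 < c)
    (h : ∀ ψ : ℤ → ℂ, e2 ψ ≠ ∞ → ENNReal.ofReal (c ^ 2 / 4) * e2 ψ ≤ e2 (JA (xe (ww a) lam E) ψ))
    {E' : ℝ} (hE' : |E' - E| < c / 2) : E' ∉ Sp lam a := by
  refine free_of_below (HO_sa lam a) (c := c / 2) (by positivity) ?_ hE'
  intro ψ
  have h2 := h ψ (by rw [e2_L2]; exact ENNReal.ofReal_ne_top)
  rw [← HO_JA h0 h1, e2_L2, e2_L2, ← ENNReal.ofReal_mul (by positivity),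
    ENNReal.ofReal_le_ofReal_iff (by positivity)] at h2
  apply le_of_sq_le_sq _ (norm_nonneg _)
  rw [mul_pow]
  calc (c / 2) ^ 2 * ‖ψ‖ ^ 2 = c ^ 2 / 4 * ‖ψ‖ ^ 2 := by ring
    _ ≤ _ := h2

section main

variable {p q : ℕ} (h0 : 0 < p) (h1 : p < q) (hpq : Nat.Coprime p q) {lam : ℝ} (hlam : lam ≠ 0)
include h0 h1 hpq hlam

theorem free_right {E : ℝ} (hE : 4 < (Disc (vp p q) lam q).eval E ^ 2)
    (hE2 : (Disc (vp p q) lam q).eval E ^ 2 ≠ 4 + lam ^ 2) :
    ∃ ρ : ℝ, 0 < ρ ∧ ∃ ε : ℝ, 0 < ε ∧ ∀ a : ℝ, (p : ℝ) / q < a → a < p / q + ε →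
      ∀ E' : ℝ, |E' - E| < ρ → E' ∉ Sp lam a := by
  obtain ⟨c, hc, h⟩ := LB_Dp h0 h1 hpq hlam hE hE2
  obtain ⟨N, hN⟩ := from_defect hc h
  obtain ⟨ε, hε, hw⟩ := win_right (p := p) (q := q) (by exact_mod_cast h0) (by exact_mod_cast h1)
    (Nat.isCoprime_iff_coprime.mpr hpq) N
  have hpq0 : 0 < (p : ℝ) / q := by
    have : 0 < (q : ℝ) := by exact_mod_cast h0.trans h1
    have : 0 < (p : ℝ) := by exact_mod_cast h0
    positivity
  have hpq1 : (p : ℝ) / q < 1 := by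
    rw [div_lt_one (by exact_mod_cast h0.trans h1)]
    exact_mod_cast h1
  refine ⟨c / 2, by positivity, min ε (1 - p / q), lt_min hε (by linarith), ?_⟩
  intro a ha1 ha2 E' hE'
  have ha3 : a < p / q + ε := ha2.trans_le (by gcongr; exact min_le_left _ _)
  have ha4 : a < 1 := by
    have := ha2.trans_le (add_le_add_right (min_le_right ε (1 - p / q)) ((p : ℝ) / q))
    linarith
  refine free_of_e2 (hpq0.trans ha1) ha4 hc ?_ hE'
  exact hN (ww a) (hw a (by rw [Int.cast_natCast, Int.cast_natCast]; exact ha1)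
    (by rw [Int.cast_natCast, Int.cast_natCast]; exact ha3))

theorem free_left {E : ℝ} (hE : 4 < (Disc (vp p q) lam q).eval E ^ 2)
    (hE2 : (Disc (vp p q) lam q).eval E ^ 2 ≠ 4 + lam ^ 2) :
    ∃ ρ : ℝ, 0 < ρ ∧ ∃ ε : ℝ, 0 < ε ∧ ∀ a : ℝ, a < (p : ℝ) / q → p / q - ε < a →
      ∀ E' : ℝ, |E' - E| < ρ → E' ∉ Sp lam a := by
  obtain ⟨c, hc, h⟩ := LB_Dm h0 h1 hpq hlam hE hE2
  obtain ⟨N, hN⟩ := from_defect hc h
  obtain ⟨ε, hε, hw⟩ := win_left (p := p) (q := q) (by exact_mod_cast h0) (by exact_mod_cast h1)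
    (Nat.isCoprime_iff_coprime.mpr hpq) N
  have hpq0 : 0 < (p : ℝ) / q := by
    have : 0 < (q : ℝ) := by exact_mod_cast h0.trans h1
    have : 0 < (p : ℝ) := by exact_mod_cast h0
    positivity
  have hpq1 : (p : ℝ) / q < 1 := by
    rw [div_lt_one (by exact_mod_cast h0.trans h1)]
    exact_mod_cast h1
  refine ⟨c / 2, by positivity, min ε (p / q), lt_min hε (by linarith), ?_⟩
  intro a ha1 ha2 E' hE'
  have ha3 : p / q - ε < a := by
    have := min_le_left ε ((p : ℝ) / q)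
    linarith
  have ha4 : 0 < a := by
    have := min_le_right ε ((p : ℝ) / q)
    linarith
  refine free_of_e2 ha4 (ha1.trans hpq1) hc ?_ hE'
  exact hN (ww a) (hw a (by rw [Int.cast_natCast, Int.cast_natCast]; exact ha1)
    (by rw [Int.cast_natCast, Int.cast_natCast]; exact ha3))


theorem exists_bloch {E : ℝ} (hE : (Disc (vp p q) lam q).eval E ^ 2 ≤ 4) :
    ∃ y : ℤ → ℂ, Sol (xe (vp p q) lam E) y ∧ (y 0 ≠ 0 ∨ y 1 ≠ 0) ∧ ∀ n, ‖y (n + q)‖ = ‖y n‖ := by
  set D := (Disc (vp p q) lam q).eval E with hD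
  have hs2 : Real.sqrt (4 - D ^ 2) ^ 2 = 4 - D ^ 2 := Real.sq_sqrt (by linarith)
  set s := Real.sqrt (4 - D ^ 2) with hs
  set μ : ℂ := ⟨D / 2, s / 2⟩ with hμ
  have hμn : ‖μ‖ = 1 := by
    have h2 : ‖μ‖ ^ 2 = 1 := by
      rw [← Complex.normSq_eq_norm_sq, Complex.normSq_mk]
      linear_combination hs2 / 4
    have h3 := norm_nonneg μ
    nlinarith
  have hμe : μ ^ 2 - (Tm (xe (vp p q) lam E) 0 q).trace * μ + 1 = 0 := by
    rw [trace_eq, ← hD]
    apply Complex.ext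
    · simp [hμ, pow_two]
      linear_combination -hs2 / 4
    · simp [hμ, pow_two]
      ring
  obtain ⟨e, he, hMe⟩ := eigvec (Tm_det _ _ _) hμe
  obtain ⟨y, hy1, hy2, hy3⟩ := bloch (fun n => xp_per h0 h1 hpq lam E n) hMe
  refine ⟨y, hy1, ?_, ?_⟩
  · by_contra hcon
    push Not at hcon
    obtain ⟨c0, c1⟩ := hcon
    have h4 := hy1 0
    rw [zero_add, zero_sub, c0, c1, zero_add, mul_zero, add_zero] at h4
    apply he
    rw [← hy2]
    ext i
    fin_cases i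
    · exact c0
    · exact h4
  · intro n
    rw [hy3, norm_mul, hμn, one_mul]

end main

theorem sum_per {f : ℕ → ℝ} (hf : ∀ i, 0 ≤ f i) {q : ℕ} (hq : 0 < q) (hper : ∀ i, f (i + q) = f i)
    (m : ℕ) : (m : ℝ) / 2 * (f 0 + f (q - 1)) ≤ ∑ i ∈ Finset.range (m * q), f i := by
  have hper2 : ∀ (m i : ℕ), f (m * q + i) = f i := by
    intro m i
    induction m with
    | zero => simp
    | succ m ih => rw [show (m + 1) * q + i = (m * q + i) + q by ring, hper, ih]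
  induction m with
  | zero => simp
  | succ m ih =>
    rw [show (m + 1) * q = m * q + q by ring, Finset.sum_range_add]
    have h1 : ∑ x ∈ Finset.range q, f (m * q + x) = ∑ x ∈ Finset.range q, f x :=
      Finset.sum_congr rfl fun x _ => hper2 m x
    rw [h1]
    have h2 : f 0 ≤ ∑ x ∈ Finset.range q, f x :=
      Finset.single_le_sum (fun i _ => hf i) (Finset.mem_range.mpr hq)
    have h3 : f (q - 1) ≤ ∑ x ∈ Finset.range q, f x :=
      Finset.single_le_sum (fun i _ => hf i) (Finset.mem_range.mpr (by omega))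
    push_cast
    linarith

theorem norm_per {y : ℤ → ℂ} {q : ℕ} (hy : ∀ n, ‖y (n + q)‖ = ‖y n‖) (n k : ℤ) :
    ‖y (n + k * q)‖ = ‖y n‖ := by
  induction k using Int.induction_on with
  | zero => simp
  | succ i ih =>
    rw [show n + ((i : ℤ) + 1) * q = n + i * q + q by ring, hy, ih]
  | pred i ih =>
    rw [← hy, show n + (-(i : ℤ) - 1) * q + q = n + -(i : ℤ) * q by ring, ih]

/-- the cut off Bloch solution -/
theorem cut {v w : ℤ → ℤ} {lam E : ℝ} {y : ℤ → ℂ} {q : ℕ} (hq : 2 ≤ q) (hy : Sol (xe v lam E) y)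
    (hne : y 0 ≠ 0 ∨ y 1 ≠ 0) (hper : ∀ n, ‖y (n + q)‖ = ‖y n‖) (s : ℤ) {m : ℕ} (hm : 0 < m)
    (hw : ∀ n : ℤ, s * q ≤ n → n < s * q + m * q → w n = v (n + 1)) :
    ∃ φ : ℤ → ℂ, Summable (fun n => ‖φ n‖ ^ 2) ∧ (∃ n, φ n ≠ 0) ∧
      ∑' n, ‖JA (xe w lam E) φ n‖ ^ 2 ≤ 4 / m * ∑' n, ‖φ n‖ ^ 2 := by
  set n0 : ℤ := s * q with hn0
  set L : ℤ := m * q with hL
  have hL2 : 2 ≤ L := by
    rw [hL]
    have : (2 : ℤ) ≤ q := by exact_mod_cast hq
    have : (1 : ℤ) ≤ m := by exact_mod_cast hm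
    nlinarith
  set φ : ℤ → ℂ := fun n => if n0 ≤ n ∧ n < n0 + L then y (n + 1) else 0 with hφ
  have hin : ∀ n, n0 ≤ n → n < n0 + L → φ n = y (n + 1) := fun n h1 h2 => if_pos ⟨h1, h2⟩
  have hout : ∀ n, (n < n0 ∨ n0 + L ≤ n) → φ n = 0 := by
    intro n h
    apply if_neg
    rintro ⟨h1, h2⟩
    rcases h with h | h <;> linarith
  have hxw : ∀ n, n0 ≤ n → n < n0 + L → xe w lam E n = xe v lam E (n + 1) := by
    intro n h1 h2
    rw [xe, xe, hw n h1 h2]
  -- the values of the operator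
  have j1 : JA (xe w lam E) φ (n0 - 1) = y (n0 + 1) := by
    rw [JA, hin (n0 - 1 + 1) (by linarith) (by linarith), hout (n0 - 1 - 1) (by left; linarith),
      hout (n0 - 1) (by left; linarith)]
    rw [sub_add_cancel]; ring
  have j2 : JA (xe w lam E) φ n0 = - y n0 := by
    rw [JA, hin (n0 + 1) (by linarith) (by linarith), hout (n0 - 1) (by left; linarith),
      hin n0 le_rfl (by linarith), hxw n0 le_rfl (by linarith)]
    have := hy (n0 + 1)
    rw [add_sub_cancel_right] at this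
    linear_combination this
  have j3 : JA (xe w lam E) φ (n0 + L - 1) = - y (n0 + L + 1) := by
    rw [JA, hout (n0 + L - 1 + 1) (by right; linarith), hin (n0 + L - 1 - 1) (by linarith)
      (by linarith), hin (n0 + L - 1) (by linarith) (by linarith), hxw (n0 + L - 1) (by linarith)
      (by linarith)]
    have := hy (n0 + L)
    rw [show n0 + L - 1 - 1 + 1 = n0 + L - 1 by ring, show n0 + L - 1 + 1 = n0 + L by ring]
    linear_combination this
  have j4 : JA (xe w lam E) φ (n0 + L) = y (n0 + L) := by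
    rw [JA, hout (n0 + L + 1) (by right; linarith), hin (n0 + L - 1) (by linarith)
      (by linarith), hout (n0 + L) (by right; linarith)]
    rw [show n0 + L - 1 + 1 = n0 + L by ring]
    ring
  have j5 : ∀ n, n ∉ ({n0 - 1, n0, n0 + L - 1, n0 + L} : Finset ℤ) → ‖JA (xe w lam E) φ n‖ ^ 2 = 0 := by
    intro n hn
    simp only [Finset.mem_insert, Finset.mem_singleton, not_or] at hn
    obtain ⟨a1, a2, a3, a4⟩ := hn
    have : JA (xe w lam E) φ n = 0 := by
      rcases lt_or_ge n n0 with h | h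
      · rw [JA, hout (n + 1) (by left; omega), hout (n - 1) (by left; omega),
          hout n (by left; omega)]
        ring
      · rcases lt_or_ge n (n0 + L) with h' | h'
        · rw [JA, hin (n + 1) (by omega) (by omega), hin (n - 1) (by omega) (by omega),
            hin n (by omega) (by omega), hxw n (by omega) (by omega)]
          have := hy (n + 1)
          rw [add_sub_cancel_right] at this
          rw [sub_add_cancel]
          linear_combination this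
        · rw [JA, hout (n + 1) (by right; omega), hout (n - 1) (by right; omega),
            hout n (by right; omega)]
          ring
    rw [this, norm_zero]; norm_num
  have hJsum : ∑' n, ‖JA (xe w lam E) φ n‖ ^ 2 = 2 * (‖y 1‖ ^ 2 + ‖y 0‖ ^ 2) := by
    rw [tsum_eq_sum (s := {n0 - 1, n0, n0 + L - 1, n0 + L}) (fun n hn => j5 n hn)]
    rw [Finset.sum_insert, Finset.sum_insert, Finset.sum_insert, Finset.sum_singleton, j1, j2, j3,
      j4, norm_neg, norm_neg]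
    · have e1 : ‖y (n0 + 1)‖ = ‖y 1‖ := by
        rw [hn0, add_comm]; exact norm_per hper 1 s
      have e2 : ‖y n0‖ = ‖y 0‖ := by
        have := norm_per hper 0 s
        rwa [zero_add] at this
      have e3 : ‖y (n0 + L + 1)‖ = ‖y 1‖ := by
        rw [hn0, hL, show s * (q : ℤ) + m * q + 1 = 1 + (s + m) * q by ring]
        exact norm_per hper 1 _
      have e4 : ‖y (n0 + L)‖ = ‖y 0‖ := by
        rw [hn0, hL, show s * (q : ℤ) + m * q = 0 + (s + m) * q by ring]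
        exact norm_per hper 0 _
      rw [e1, e2, e3, e4]
      ring
    · simp only [Finset.mem_singleton]; omega
    · simp only [Finset.mem_insert, Finset.mem_singleton]; omega
    · simp only [Finset.mem_insert, Finset.mem_singleton]; omega
  -- the norm
  have hsupp : ∀ n, n ∉ Finset.Ico n0 (n0 + L) → ‖φ n‖ ^ 2 = 0 := by
    intro n hn
    rw [Finset.mem_Ico] at hn
    have : φ n = 0 := if_neg hn
    rw [this, norm_zero]; norm_num
  have hφsum : ∑' n, ‖φ n‖ ^ 2 = ∑ i ∈ Finset.range (m * q), ‖y (n0 + 1 + i)‖ ^ 2 := by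
    rw [tsum_eq_sum (s := Finset.Ico n0 (n0 + L)) (fun n hn => hsupp n hn)]
    symm
    apply Finset.sum_nbij (fun i : ℕ => n0 + (i : ℤ))
    · intro i hi
      rw [Finset.mem_range] at hi
      rw [Finset.mem_Ico]
      have : (i : ℤ) < L := by rw [hL]; exact_mod_cast hi
      omega
    · intro a _ b _ hab
      simpa using hab
    · intro n hn
      rw [Finset.mem_coe, Finset.mem_Ico] at hn
      refine ⟨(n - n0).toNat, ?_, ?_⟩
      · rw [Finset.mem_coe, Finset.mem_range]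
        have h3 : ((n - n0).toNat : ℤ) = n - n0 := Int.toNat_of_nonneg (by omega)
        have h4 : ((n - n0).toNat : ℤ) < ((m * q : ℕ) : ℤ) := by
          rw [h3]; push_cast; rw [← hL]; omega
        exact_mod_cast h4
      · simp only
        rw [Int.toNat_of_nonneg (by omega)]
        ring
    · intro i hi
      rw [Finset.mem_range] at hi
      have : (i : ℤ) < L := by rw [hL]; exact_mod_cast hi
      rw [hin _ (by omega) (by omega)]
      rw [show n0 + (i : ℤ) + 1 = n0 + 1 + i by ring]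
  have hlow : (m : ℝ) / 2 * (‖y 1‖ ^ 2 + ‖y 0‖ ^ 2) ≤ ∑' n, ‖φ n‖ ^ 2 := by
    rw [hφsum]
    have h3 := sum_per (f := fun i : ℕ => ‖y (n0 + 1 + i)‖ ^ 2) (fun i => by positivity)
      (q := q) (by omega) (fun i => by
        push_cast
        rw [show n0 + 1 + ((i : ℤ) + q) = n0 + 1 + i + q by ring, hper]) m
    have e1 : ‖y (n0 + 1 + ((0 : ℕ) : ℤ))‖ = ‖y 1‖ := by
      rw [hn0, Nat.cast_zero, add_zero, add_comm]; exact norm_per hper 1 s
    have e2 : ‖y (n0 + 1 + ((q - 1 : ℕ) : ℤ))‖ = ‖y 0‖ := by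
      rw [hn0, Nat.cast_sub (by omega), show s * (q : ℤ) + 1 + ((q : ℤ) - ((1 : ℕ) : ℤ)) = 0 + (s + 1) * q by
        push_cast; ring]
      exact norm_per hper 0 _
    rw [e1, e2] at h3
    exact h3
  have hpos : 0 < ‖y 1‖ ^ 2 + ‖y 0‖ ^ 2 := by
    rcases hne with h | h
    · have := norm_pos_iff.mpr h
      positivity
    · have := norm_pos_iff.mpr h
      positivity
  have hmR : (0 : ℝ) < m := by exact_mod_cast hm
  refine ⟨φ, summable_of_ne_finset_zero (s := Finset.Ico n0 (n0 + L)) (fun n hn => hsupp n hn), ?_, ?_⟩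
  · by_contra hcon
    push Not at hcon
    have : ∑' n, ‖φ n‖ ^ 2 = 0 := by
      simp only [hcon, norm_zero]
      simp
    rw [this] at hlow
    have : 0 < (m : ℝ) / 2 * (‖y 1‖ ^ 2 + ‖y 0‖ ^ 2) := by positivity
    linarith
  · rw [hJsum]
    calc 2 * (‖y 1‖ ^ 2 + ‖y 0‖ ^ 2)
        = 4 / m * ((m : ℝ) / 2 * (‖y 1‖ ^ 2 + ‖y 0‖ ^ 2)) := by field_simp; ring
      _ ≤ _ := by gcongr

/-- an approximate eigenfunction gives spectrum -/
theorem near_of_cut {lam a E δ : ℝ} (h0 : 0 < a) (h1 : a < 1) (hδ : 0 < δ) {φ : ℤ → ℂ}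
    (hφ : Summable (fun n => ‖φ n‖ ^ 2)) (hne : ∃ n, φ n ≠ 0)
    (h : ∑' n, ‖JA (xe (ww a) lam E) φ n‖ ^ 2 ≤ (δ / 2) ^ 2 * ∑' n, ‖φ n‖ ^ 2) :
    ∃ E' ∈ Sp lam a, |E' - E| ≤ δ := by
  have hmem : Memℓp φ 2 := by
    apply memℓp_gen
    have h5 : (2 : ℝ≥0∞).toReal = ((2 : ℕ) : ℝ) := by norm_num
    rw [h5]
    simp only [Real.rpow_natCast]
    exact hφ
  set ψ : L2 := ⟨φ, hmem⟩ with hψ
  have hψ0 : ψ ≠ 0 := by
    rintro h2
    obtain ⟨n, hn⟩ := hne
    apply hn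
    have : ψ n = 0 := by rw [h2]; rfl
    exact this
  obtain ⟨E', h2, h3⟩ := near_of_approx (HO_sa lam a) (E := E) hδ (half_lt_self hδ) hψ0 (by
    apply le_of_sq_le_sq _ (by positivity)
    rw [mul_pow, norm_sq_eq, norm_sq_eq]
    have e1 := HO_JA h0 h1 (lam := lam) E ψ
    rw [e1]
    exact h)
  exact ⟨E', h3, h2⟩

section main2

variable {p q : ℕ} (h0 : 0 < p) (h1 : p < q) (hpq : Nat.Coprime p q) {lam : ℝ} (hlam : lam ≠ 0)
include h0 h1 hpq hlam

theorem near_right {δ : ℝ} (hδ : 0 < δ) :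
    ∃ ε : ℝ, 0 < ε ∧ ∀ a : ℝ, (p : ℝ) / q < a → a < p / q + ε →
      ∀ E : ℝ, (Disc (vp p q) lam q).eval E ^ 2 ≤ 4 → ∃ E' ∈ Sp lam a, |E' - E| ≤ δ := by
  obtain ⟨m, hm⟩ := exists_nat_gt (16 / δ ^ 2)
  have hm0 : (0 : ℝ) < m := lt_trans (by positivity) hm
  have hm0' : 0 < m := by exact_mod_cast hm0
  obtain ⟨ε, hε, hw⟩ := per_right (p := p) (q := q) (by exact_mod_cast h0) (by exact_mod_cast h1)
    (m * q)
  have hpq0 : 0 < (p : ℝ) / q := by
    have : 0 < (q : ℝ) := by exact_mod_cast h0.trans h1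
    have : 0 < (p : ℝ) := by exact_mod_cast h0
    positivity
  have hpq1 : (p : ℝ) / q < 1 := by
    rw [div_lt_one (by exact_mod_cast h0.trans h1)]
    exact_mod_cast h1
  refine ⟨min ε (1 - p / q), lt_min hε (by linarith), ?_⟩
  intro a ha1 ha2 E hE
  have ha3 : a < p / q + ε := ha2.trans_le (by gcongr; exact min_le_left _ _)
  have ha4 : a < 1 := by
    have := ha2.trans_le (add_le_add_right (min_le_right ε (1 - p / q)) ((p : ℝ) / q))
    linarith
  obtain ⟨y, hy1, hy2, hy3⟩ := exists_bloch h0 h1 hpq hlam hE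
  have hw' := hw a (by rw [Int.cast_natCast, Int.cast_natCast]; exact ha1)
    (by rw [Int.cast_natCast, Int.cast_natCast]; exact ha3)
  obtain ⟨φ, f1, f2, f3⟩ := cut (w := ww a) (by omega) hy1 hy2 hy3 0 hm0' (by
    intro n hn1 hn2
    apply hw' n (by simpa using hn1)
    push_cast
    linarith)
  refine near_of_cut (hpq0.trans ha1) ha4 hδ f1 f2 (f3.trans ?_)
  have : 4 / (m : ℝ) ≤ (δ / 2) ^ 2 := by
    rw [div_le_iff₀ hm0]
    rw [div_lt_iff₀ (by positivity)] at hm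
    nlinarith
  have h5 : 0 ≤ ∑' n, ‖φ n‖ ^ 2 := tsum_nonneg fun n => by positivity
  gcongr

theorem near_left {δ : ℝ} (hδ : 0 < δ) :
    ∃ ε : ℝ, 0 < ε ∧ ∀ a : ℝ, a < (p : ℝ) / q → p / q - ε < a →
      ∀ E : ℝ, (Disc (vp p q) lam q).eval E ^ 2 ≤ 4 → ∃ E' ∈ Sp lam a, |E' - E| ≤ δ := by
  obtain ⟨m, hm⟩ := exists_nat_gt (16 / δ ^ 2)
  have hm0 : (0 : ℝ) < m := lt_trans (by positivity) hm
  have hm0' : 0 < m := by exact_mod_cast hm0
  obtain ⟨ε, hε, hw⟩ := per_left (p := p) (q := q) (by exact_mod_cast h0) (by exact_mod_cast h1)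
    (m * q)
  have hpq0 : 0 < (p : ℝ) / q := by
    have : 0 < (q : ℝ) := by exact_mod_cast h0.trans h1
    have : 0 < (p : ℝ) := by exact_mod_cast h0
    positivity
  have hpq1 : (p : ℝ) / q < 1 := by
    rw [div_lt_one (by exact_mod_cast h0.trans h1)]
    exact_mod_cast h1
  refine ⟨min ε (p / q), lt_min hε (by linarith), ?_⟩
  intro a ha1 ha2 E hE
  have ha3 : p / q - ε < a := by
    have := min_le_left ε ((p : ℝ) / q)
    linarith
  have ha4 : 0 < a := by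
    have := min_le_right ε ((p : ℝ) / q)
    linarith
  obtain ⟨y, hy1, hy2, hy3⟩ := exists_bloch h0 h1 hpq hlam hE
  have hw' := hw a (by rw [Int.cast_natCast, Int.cast_natCast]; exact ha1)
    (by rw [Int.cast_natCast, Int.cast_natCast]; exact ha3)
  obtain ⟨φ, f1, f2, f3⟩ := cut (w := ww a) (by omega) hy1 hy2 hy3 (-m) hm0' (by
    intro n hn1 hn2
    apply hw' n
    · push_cast
      linarith
    · linarith)
  refine near_of_cut ha4 (ha1.trans hpq1) hδ f1 f2 (f3.trans ?_)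
  have : 4 / (m : ℝ) ≤ (δ / 2) ^ 2 := by
    rw [div_le_iff₀ hm0]
    rw [div_lt_iff₀ (by positivity)] at hm
    nlinarith
  have h5 : 0 ≤ ∑' n, ‖φ n‖ ^ 2 := tsum_nonneg fun n => by positivity
  gcongr

end main2

end H221R3.Sturm
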