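import Mathlib
import Pool.Agent.H221R3.StJ

set_option autoImplicit false

namespace H221R3.Sturm

open Polynomial Topology

/-- gaps of length at least `s` -/
def Gap (S : Set ℝ) (s : ℝ) : Set (ℝ × ℝ) :=
  {g | g.1 ∈ S ∧ g.2 ∈ S ∧ g.1 + s ≤ g.2 ∧ ∀ x, g.1 < x → x < g.2 → x ∉ S}

/-- at most `N` gaps -/
def NG (S : Set ℝ) (s : ℝ) (N : ℕ) : Prop :=
  ∀ F : Finset (ℝ × ℝ), (∀ g ∈ F, g ∈ Gap S s) → F.card ≤ N

theorem gap_order {S : Set ℝ} {s : ℝ} (hs : 0 < s) {g g' : ℝ × ℝ} (hg : g ∈ Gap S s)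
    (hg' : g' ∈ Gap S s) (hne : g ≠ g') : g.2 ≤ g'.1 ∨ g'.2 ≤ g.1 := by
  obtain ⟨a1, a2, a3, a4⟩ := hg
  obtain ⟨b1, b2, b3, b4⟩ := hg'
  rcases lt_trichotomy g.1 g'.1 with h | h | h
  · left
    by_contra hcon
    exact a4 _ h (not_le.mp hcon) b1
  · exfalso
    apply hne
    ext
    · exact h
    · rcases lt_trichotomy g.2 g'.2 with h2 | h2 | h2
      · exact absurd a2 (b4 _ (by linarith) h2)
      · exact h2
      · exact absurd b2 (a4 _ (by linarith) h2)
  · right
    by_contra hcon
    exact b4 _ h (not_le.mp hcon) a1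

theorem gap_bounded {S : Set ℝ} {A δ : ℝ} (hδ : 0 < δ) (hS : ∀ x ∈ S, |x| ≤ A) :
    ∃ K : ℕ, NG S δ K := by
  refine ⟨(Finset.Icc ⌊(-A) / δ⌋ ⌊A / δ⌋).card, ?_⟩
  intro F hF
  apply Finset.card_le_card_of_injOn (fun g => ⌊g.1 / δ⌋)
  · intro g hg
    have h1 := abs_le.mp (hS _ (hF g hg).1)
    rw [Finset.mem_coe, Finset.mem_Icc]
    constructor
    · apply Int.floor_le_floor
      gcongr
      exact h1.1
    · apply Int.floor_le_floor
      gcongr
      exact h1.2
  · intro g hg g' hg' hgg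
    by_contra hne
    simp only at hgg
    have f1 := Int.floor_le (g.1 / δ)
    have f2 := Int.lt_floor_add_one (g.1 / δ)
    have f3 := Int.floor_le (g'.1 / δ)
    have f4 := Int.lt_floor_add_one (g'.1 / δ)
    rw [← hgg] at f3 f4
    have h5 : g.1 / δ < g'.1 / δ + 1 := by linarith
    have h6 : g'.1 / δ < g.1 / δ + 1 := by linarith
    rw [div_add_one hδ.ne', div_lt_div_iff_of_pos_right hδ] at h5 h6
    rcases gap_order hδ (hF g hg) (hF g' hg') hne with h | h
    · have := (hF g hg).2.2.1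
      linarith
    · have := (hF g' hg').2.2.1
      linarith

/-- transfer of gaps under a diffeomorphism -/
theorem transfer {S T U V : Set ℝ} (hS : IsCompact S) (hU : IsOpen U) (hV : IsOpen V)
    (hSU : S ⊆ U) {f g : ℝ → ℝ} (hf : ContDiffOn ℝ 1 f U) (hg : ContDiffOn ℝ 1 g V)
    (hfU : Set.MapsTo f U V) (hgf : ∀ x ∈ U, g (f x) = x) (hT : f '' S = T) :
    ∃ K : ℕ, ∃ C : ℝ, 0 < C ∧ ∀ s : ℝ, 0 < s → ∀ N : ℕ, NG T (C * s) N → NG S s (K + N) := by
  obtain ⟨δ, hδ, hδU⟩ := hS.exists_cthickening_subset_open hU hSU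
  obtain ⟨A, hA⟩ := hS.isBounded.exists_norm_le
  obtain ⟨K, hK⟩ := gap_bounded (A := A) hδ hA
  set Z := Metric.cthickening δ S with hZ
  have hZc : IsCompact Z := hS.cthickening
  -- the derivative is bounded below
  have hder : ∀ x ∈ U, deriv f x ≠ 0 := by
    intro x hx h0
    have h1 : DifferentiableAt ℝ f x := (hf.differentiableOn one_ne_zero).differentiableAt (hU.mem_nhds hx)
    have h2 : DifferentiableAt ℝ g (f x) :=
      (hg.differentiableOn one_ne_zero).differentiableAt (hV.mem_nhds (hfU hx))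
    have h3 : (g ∘ f) =ᶠ[𝓝 x] id := by
      filter_upwards [hU.mem_nhds hx] with y hy
      exact hgf y hy
    have h4 : deriv (g ∘ f) x = deriv g (f x) * deriv f x := by
      exact deriv_comp x h2 h1
    rw [h3.deriv_eq, h0, mul_zero, deriv_id] at h4
    exact one_ne_zero h4
  have hdc : ContinuousOn (deriv f) U := hf.continuousOn_deriv_of_isOpen hU le_rfl
  have hdc2 : ContinuousOn (fun x => |deriv f x|) Z := (hdc.mono hδU).abs
  obtain ⟨C, hC, hCb⟩ : ∃ C : ℝ, 0 < C ∧ ∀ x ∈ Z, C ≤ |deriv f x| := by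
    rcases Z.eq_empty_or_nonempty with he | hne
    · refine ⟨1, one_pos, ?_⟩
      intro x hx
      rw [he] at hx
      exact absurd hx (Set.notMem_empty x)
    · obtain ⟨x0, hx0, hmin⟩ := hZc.exists_isMinOn hne hdc2
      refine ⟨|deriv f x0|, abs_pos.mpr (hder x0 (hδU hx0)), ?_⟩
      intro x hx
      exact hmin hx
  refine ⟨K, C, hC, ?_⟩
  intro s hs N hN F hF
  classical
  set F1 := F.filter (fun g => g.1 + δ ≤ g.2) with hF1
  set F2 := F.filter (fun g => ¬ g.1 + δ ≤ g.2) with hF2
  have hcard : F.card = F1.card + F2.card := (Finset.card_filter_add_card_filter_not _).symm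
  have h1 : F1.card ≤ K := by
    apply hK
    intro g hg
    rw [hF1, Finset.mem_filter] at hg
    obtain ⟨a1, a2, a3, a4⟩ := hF g hg.1
    exact ⟨a1, a2, hg.2, a4⟩
  have hinj : Set.InjOn f U := by
    intro x hx y hy hxy
    rw [← hgf x hx, ← hgf y hy, hxy]
  have hsub : ∀ g ∈ F2, ∀ x, g.1 ≤ x → x ≤ g.2 → x ∈ Z := by
    intro g hg x h1 h2
    rw [hF2, Finset.mem_filter] at hg
    rw [hZ]
    apply Metric.mem_cthickening_of_dist_le x g.1 δ S (hF g hg.1).1
    rw [Real.dist_eq, abs_of_nonneg (by linarith)]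
    have := hg.2
    push Not at this
    linarith
  have h2 : F2.card ≤ N := by
    have himg : (F2.image (fun g => (min (f g.1) (f g.2), max (f g.1) (f g.2)))).card = F2.card := by
      apply Finset.card_image_of_injOn
      intro g hg g' hg' hgg
      simp only [Prod.mk.injEq] at hgg
      obtain ⟨e1, e2⟩ := hgg
      have hgF := (Finset.mem_filter.mp hg).1
      have hgF' := (Finset.mem_filter.mp hg').1
      obtain ⟨a1, a2, a3, a4⟩ := hF g hgF
      obtain ⟨b1, b2, b3, b4⟩ := hF g' hgF'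
      have hcases : (f g.1 = f g'.1 ∧ f g.2 = f g'.2) ∨ (f g.1 = f g'.2 ∧ f g.2 = f g'.1) := by
        rcases le_total (f g.1) (f g.2) with h | h <;> rcases le_total (f g'.1) (f g'.2) with h' | h'
        · rw [min_eq_left h, min_eq_left h'] at e1
          rw [max_eq_right h, max_eq_right h'] at e2
          exact Or.inl ⟨e1, e2⟩
        · rw [min_eq_left h, min_eq_right h'] at e1
          rw [max_eq_right h, max_eq_left h'] at e2
          exact Or.inr ⟨e1, e2⟩
        · rw [min_eq_right h, min_eq_left h'] at e1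
          rw [max_eq_left h, max_eq_right h'] at e2
          exact Or.inr ⟨e2, e1⟩
        · rw [min_eq_right h, min_eq_right h'] at e1
          rw [max_eq_left h, max_eq_left h'] at e2
          exact Or.inl ⟨e2, e1⟩
      rcases hcases with ⟨c1, c2⟩ | ⟨c1, c2⟩
      · ext
        · exact hinj (hSU a1) (hSU b1) c1
        · exact hinj (hSU a2) (hSU b2) c2
      · have d1 := hinj (hSU a1) (hSU b2) c1
        have d2 := hinj (hSU a2) (hSU b1) c2
        linarith
    rw [← himg]
    apply hN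
    intro G hG
    rw [Finset.mem_image] at hG
    obtain ⟨g, hg, rfl⟩ := hG
    have hgF := (Finset.mem_filter.mp hg).1
    obtain ⟨a1, a2, a3, a4⟩ := hF g hgF
    have hlt : g.1 < g.2 := by linarith
    have hcont : ContinuousOn f (Set.Icc g.1 g.2) :=
      hf.continuousOn.mono fun x hx => hδU (hsub g hg x hx.1 hx.2)
    have hT1 : f g.1 ∈ T := hT ▸ Set.mem_image_of_mem f a1
    have hT2 : f g.2 ∈ T := hT ▸ Set.mem_image_of_mem f a2
    refine ⟨?_, ?_, ?_, ?_⟩
    · simp only
      rcases min_choice (f g.1) (f g.2) with h | h <;> rw [h]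
      · exact hT1
      · exact hT2
    · simp only
      rcases max_choice (f g.1) (f g.2) with h | h <;> rw [h]
      · exact hT1
      · exact hT2
    · simp only
      obtain ⟨c, hc, hc'⟩ := exists_deriv_eq_slope f hlt hcont
        (fun x hx => ((hf.differentiableOn one_ne_zero).differentiableAt
          (hU.mem_nhds (hδU (hsub g hg x hx.1.le hx.2.le)))).differentiableWithinAt)
      have h3 := hCb c (hsub g hg c hc.1.le hc.2.le)
      rw [hc', abs_div, abs_of_pos (by linarith : 0 < g.2 - g.1), le_div_iff₀ (by linarith)] at h3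
      have h4 : C * s ≤ |f g.2 - f g.1| := by
        refine le_trans ?_ h3
        gcongr
        linarith
      have h5 : max (f g.1) (f g.2) - min (f g.1) (f g.2) = |f g.2 - f g.1| := by
        rw [max_sub_min_eq_abs]
      linarith
    · intro y hy1 hy2 hyT
      simp only at hy1 hy2
      rw [← hT] at hyT
      obtain ⟨x, hx, hxy⟩ := hyT
      obtain ⟨z, hz, hzy⟩ : ∃ z ∈ Set.Icc g.1 g.2, f z = y := by
        rcases le_total (f g.1) (f g.2) with h | h
        · rw [min_eq_left h] at hy1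
          rw [max_eq_right h] at hy2
          exact intermediate_value_Icc hlt.le hcont ⟨hy1.le, hy2.le⟩
        · rw [min_eq_right h] at hy1
          rw [max_eq_left h] at hy2
          exact intermediate_value_Icc' hlt.le hcont ⟨hy1.le, hy2.le⟩
      have hzx : z = x := hinj (hδU (hsub g hg z hz.1 hz.2)) (hSU hx) (by rw [hzy, hxy])
      subst hzx
      have hz1 : z ≠ g.1 := by
        rintro rfl
        rw [hzy] at hy1 hy2
        rcases le_total y (f g.2) with h | h
        · rw [min_eq_left h] at hy1; exact lt_irrefl _ hy1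
        · rw [max_eq_left h] at hy2; exact lt_irrefl _ hy2
      have hz2 : z ≠ g.2 := by
        rintro rfl
        rw [hzy] at hy1 hy2
        rcases le_total (f g.1) y with h | h
        · rw [max_eq_right h] at hy2; exact lt_irrefl _ hy2
        · rw [min_eq_right h] at hy1; exact lt_irrefl _ hy1
      exact a4 z (lt_of_le_of_ne hz.1 hz1.symm) (lt_of_le_of_ne hz.2 hz2) hx
  rw [hcard]
  omega

end H221R3.Sturm
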