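import Mathlib
import Pool.Agent.H221R3.StK

set_option autoImplicit false

namespace H221R3.Sturm

open Polynomial Topology

theorem fin_min {P : ℕ → ℝ → Prop} (hmono : ∀ j r r', 0 < r' → r' ≤ r → P j r → P j r') (n : ℕ)
    (h : ∀ j < n, ∃ r > 0, P j r) : ∃ r > 0, ∀ j < n, P j r := by
  induction n with
  | zero => exact ⟨1, one_pos, fun j hj => absurd hj (Nat.not_lt_zero j)⟩
  | succ n ih =>
    obtain ⟨r, hr, hr2⟩ := ih fun j hj => h j (Nat.lt_succ_of_lt hj)
    obtain ⟨r', hr', hr2'⟩ := h n (Nat.lt_succ_self n)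
    refine ⟨min r r', lt_min hr hr', ?_⟩
    intro j hj
    rcases Nat.lt_succ_iff_lt_or_eq.mp hj with h2 | h2
    · exact hmono j r _ (lt_min hr hr') (min_le_left _ _) (hr2 j h2)
    · subst h2
      exact hmono j r' _ (lt_min hr hr') (min_le_right _ _) hr2'

/-- many gaps -/
theorem many_gaps {S : Set ℝ} (hS : IsCompact S) {B t : ℕ → ℝ} {q : ℕ} (hq : 0 < q) {ρ δ : ℝ}
    (hρ : 0 < ρ)
    (hB : ∀ j < q, ∃ E ∈ S, |E - B j| ≤ δ)
    (ht : ∀ j < q - 1, B j + δ < t j ∧ t j < B (j + 1) - δ ∧ ∀ E, |E - t j| < ρ → E ∉ S)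
    {N : ℕ} (hN : NG S (2 * ρ) N) : q - 1 ≤ N := by
  have hex : ∀ j < q - 1, ∃ g ∈ Gap S (2 * ρ), g.1 < t j ∧ t j < g.2 := by
    intro j hj
    obtain ⟨h1, h2, h3⟩ := ht j hj
    obtain ⟨E1, hE1, hE1'⟩ := hB j (by omega)
    obtain ⟨E2, hE2, hE2'⟩ := hB (j + 1) (by omega)
    rw [abs_le] at hE1' hE2'
    have c1 : IsCompact (S ∩ Set.Iic (t j)) := hS.inter_right isClosed_Iic
    have c2 : IsCompact (S ∩ Set.Ici (t j)) := hS.inter_right isClosed_Ici
    obtain ⟨a, ha, ha'⟩ := c1.exists_isGreatest ⟨E1, hE1, by simp only [Set.mem_Iic]; linarith⟩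
    obtain ⟨b, hb, hb'⟩ := c2.exists_isLeast ⟨E2, hE2, by simp only [Set.mem_Ici]; linarith⟩
    have ha2 : a ≤ t j := ha.2
    have hb2 : t j ≤ b := hb.2
    have ha3 : ρ ≤ t j - a := by
      by_contra hcon
      apply h3 a _ ha.1
      rw [abs_lt]
      constructor <;> linarith
    have hb3 : ρ ≤ b - t j := by
      by_contra hcon
      apply h3 b _ hb.1
      rw [abs_lt]
      constructor <;> linarith
    refine ⟨(a, b), ⟨ha.1, hb.1, ?_, ?_⟩, ?_, ?_⟩
    · simp only; linarith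
    · intro x hx1 hx2 hxS
      simp only at hx1 hx2
      rcases le_total x (t j) with h | h
      · have := ha' ⟨hxS, h⟩
        linarith
      · have := hb' ⟨hxS, h⟩
        linarith
    · simp only; linarith
    · simp only; linarith
  choose! g hg using hex
  have hcard : ((Finset.range (q - 1)).image g).card = q - 1 := by
    rw [Finset.card_image_of_injOn, Finset.card_range]
    have key : ∀ j k, j < k → k < q - 1 → g j ≠ g k := by
      intro j k hjk hk heq
      obtain ⟨h1, h2, h3⟩ := hg j (by omega)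
      obtain ⟨k1, k2, k3⟩ := hg k hk
      obtain ⟨E, hE, hE'⟩ := hB (j + 1) (by omega)
      rw [abs_le] at hE'
      have htm : ∀ i, j + 1 ≤ i → i < q - 1 → t (j + 1) ≤ t i := by
        intro i hi
        induction i, hi using Nat.le_induction with
        | base => intro _; exact le_rfl
        | succ i hi ih =>
          intro h
          have a1 := ih (by omega)
          have a2 := (ht i (by omega)).2.1
          have a3 := (ht (i + 1) h).1
          have a4 : 0 ≤ δ := by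
            have := hE'.1
            have := hE'.2
            linarith
          linarith
      have b1 := (ht j (by omega)).2.1
      have b2 := (ht (j + 1) (by omega)).1
      have b3 := htm k hjk hk
      apply h1.2.2.2 E _ _ hE
      · linarith
      · rw [heq]; linarith
    intro j hj k hk hjk
    rw [Finset.mem_coe, Finset.mem_range] at hj hk
    rcases lt_trichotomy j k with h | h | h
    · exact absurd hjk (key j k h hk)
    · exact h
    · exact absurd hjk.symm (key k j h hj)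
  rw [← hcard]
  apply hN
  intro G hG
  rw [Finset.mem_image] at hG
  obtain ⟨j, hj, rfl⟩ := hG
  exact (hg j (Finset.mem_range.mp hj)).1

/-- few gaps -/
theorem few_gaps {S : Set ℝ} {P : ℝ[X]} (hP : P ≠ 0) {D : ℝ → ℝ} (hD : Continuous D) {c : ℝ} {s : ℝ}
    (hs : 0 < s) (hroot : ∀ x, D x ^ 2 = 4 ∨ D x ^ 2 = c → P.IsRoot x)
    (h1 : ∀ E, D E ^ 2 ≤ 4 → ∃ E' ∈ S, |E' - E| < s / 2)
    (h2 : ∀ x ∈ S, ∃ E, |E - x| < s / 2 ∧ (D E ^ 2 ≤ 4 ∨ D E ^ 2 = c)) :
    NG S s (P.natDegree + 1) := by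
  intro F hF
  classical
  set φ : ℝ × ℝ → ℕ := fun g => (P.roots.toFinset.filter (fun r => r < (g.1 + g.2) / 2)).card with hφ
  have hmaps : Set.MapsTo φ (F : Set (ℝ × ℝ)) (Finset.range (P.natDegree + 1) : Set ℕ) := by
    intro g _
    rw [Finset.mem_coe, Finset.mem_range]
    calc φ g ≤ P.roots.toFinset.card := Finset.card_filter_le _ _
      _ ≤ Multiset.card P.roots := Multiset.toFinset_card_le _
      _ ≤ P.natDegree := card_roots' P
      _ < _ := Nat.lt_succ_self _
  -- a root between the midpoints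
  have key : ∀ g ∈ F, ∀ g' ∈ F, g.2 ≤ g'.1 → φ g < φ g' := by
    intro g hg g' hg' hle
    obtain ⟨a1, a2, a3, a4⟩ := hF g hg
    obtain ⟨b1, b2, b3, b4⟩ := hF g' hg'
    set m := (g.1 + g.2) / 2 with hm
    set m' := (g'.1 + g'.2) / 2 with hm'
    have hmD : 4 < D m ^ 2 := by
      by_contra hcon
      obtain ⟨E', hE', hE''⟩ := h1 m (not_lt.mp hcon)
      rw [abs_lt] at hE''
      apply a4 E' _ _ hE'
      · linarith
      · linarith
    obtain ⟨E, hE, hE'⟩ := h2 g.2 a2
    rw [abs_lt] at hE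
    have hmE : m < E := by linarith
    have hEm : E < m' := by linarith
    obtain ⟨r, hr1, hr2, hr3⟩ : ∃ r, m < r ∧ r < m' ∧ P.IsRoot r := by
      rcases hE' with h | h
      · have hcont : ContinuousOn (fun x => D x ^ 2) (Set.Icc m E) := (hD.pow 2).continuousOn
        obtain ⟨r, hr, hr'⟩ := intermediate_value_Icc' hmE.le hcont ⟨h, hmD.le⟩
        refine ⟨r, ?_, ?_, hroot r (Or.inl hr')⟩
        · apply lt_of_le_of_ne hr.1
          rintro rfl
          simp only at hr'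
          linarith
        · exact lt_of_le_of_lt hr.2 hEm
      · exact ⟨E, hmE, hEm, hroot E (Or.inr h)⟩
    apply Finset.card_lt_card
    rw [Finset.ssubset_iff_of_subset]
    · refine ⟨r, ?_, ?_⟩
      · rw [Finset.mem_filter]
        exact ⟨by rw [Multiset.mem_toFinset, mem_roots hP]; exact hr3, hr2⟩
      · rw [Finset.mem_filter]
        rintro ⟨_, h⟩
        exact absurd h (not_lt.mpr hr1.le)
    · intro x hx
      rw [Finset.mem_filter] at hx ⊢
      refine ⟨hx.1, lt_trans hx.2 ?_⟩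
      linarith
  have hinj : Set.InjOn φ (F : Set (ℝ × ℝ)) := by
    intro g hg g' hg' hgg
    by_contra hne
    rcases gap_order hs (hF g hg) (hF g' hg') hne with h | h
    · exact absurd hgg (key g hg g' hg' h).ne
    · exact absurd hgg.symm (key g' hg' g hg h).ne
  have := Finset.card_le_card_of_injOn φ hmaps hinj
  rwa [Finset.card_range] at this

section main

variable {p q : ℕ} (h0 : 0 < p) (h1 : p < q) (hpq : Nat.Coprime p q) {lam : ℝ} (hlam : lam ≠ 0)
include h0 h1 hpq hlam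

theorem lower_count : ∃ s : ℝ, 0 < s ∧ ∃ ε : ℝ, 0 < ε ∧ ∀ a : ℝ, (p : ℝ) / q < a →
    a < p / q + ε → ∀ N : ℕ, NG (Sp lam a) s N → q - 1 ≤ N := by
  obtain ⟨B, t, hB, ht⟩ := sep_points h0 h1 hpq hlam
  have hq : 0 < q := by omega
  obtain ⟨ρ, hρ, hρ2⟩ := fin_min (P := fun j r => ∀ a : ℝ, (p : ℝ) / q < a → a < p / q + r →
      ∀ E' : ℝ, |E' - t j| < r → E' ∉ Sp lam a) (by
    intro j r r' _ hr h a ha1 ha2 E' hE'
    exact h a ha1 (by linarith) E' (by linarith)) (q - 1) (by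
    intro j hj
    obtain ⟨_, _, h3, h4⟩ := ht j (by omega)
    obtain ⟨ρ, hρ, ε, hε, h5⟩ := free_right h0 h1 hpq hlam h3 h4
    refine ⟨min ρ ε, lt_min hρ hε, ?_⟩
    intro a ha1 ha2 E' hE'
    have := min_le_left ρ ε
    have := min_le_right ρ ε
    exact h5 a ha1 (by linarith) E' (by linarith))
  obtain ⟨δ, hδ, hδ2⟩ := fin_min (P := fun j r => B j + r < t j ∧ t j < B (j + 1) - r) (by
    intro j r r' _ hr h
    exact ⟨by linarith [h.1], by linarith [h.2]⟩) (q - 1) (by
    intro j hj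
    obtain ⟨h3, h4, _, _⟩ := ht j (by omega)
    refine ⟨min ((t j - B j) / 2) ((B (j + 1) - t j) / 2), lt_min (by linarith) (by linarith), ?_, ?_⟩
    · have := min_le_left ((t j - B j) / 2) ((B (j + 1) - t j) / 2)
      linarith
    · have := min_le_right ((t j - B j) / 2) ((B (j + 1) - t j) / 2)
      linarith)
  obtain ⟨ε', hε', hn⟩ := near_right h0 h1 hpq hlam hδ
  refine ⟨2 * ρ, by positivity, min ρ ε', lt_min hρ hε', ?_⟩
  intro a ha1 ha2 N hN
  have m1 := min_le_left ρ ε'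
  have m2 := min_le_right ρ ε'
  refine many_gaps (Sp_compact lam a) hq (B := B) (t := t) (δ := δ) hρ ?_ ?_ hN
  · intro j hj
    exact hn a ha1 (by linarith) (B j) (hB j hj).le
  · intro j hj
    refine ⟨(hδ2 j hj).1, (hδ2 j hj).2, ?_⟩
    exact hρ2 j hj a ha1 (by linarith)

theorem upper_count {s : ℝ} (hs : 0 < s) : ∃ ε : ℝ, 0 < ε ∧ ∀ b : ℝ, b < (p : ℝ) / q →
    p / q - ε < b → NG (Sp lam b) s (4 * q + 1) := by
  have hq : 0 < q := by omega
  obtain ⟨m1, d1⟩ := DiscSq_monic (vp p q) lam hq 4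
  obtain ⟨m2, d2⟩ := DiscSq_monic (vp p q) lam hq (4 + lam ^ 2)
  set D := Disc (vp p q) lam q with hD
  set P := (D ^ 2 - C 4) * (D ^ 2 - C (4 + lam ^ 2)) with hP
  have hPd : P.natDegree = 4 * q := by
    rw [hP, m1.natDegree_mul m2, d1, d2]; ring
  have hP0 : P ≠ 0 := (m1.mul m2).ne_zero
  set A := 2 + |lam| with hA
  set Bad : Set ℝ := {E | D.eval E ^ 2 ≤ 4 ∨ D.eval E ^ 2 = 4 + lam ^ 2} with hBad
  set Z : Set ℝ := Set.Icc (-A) A ∩ (⋃ E ∈ Bad, Metric.ball E (s / 2))ᶜ with hZ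
  have hZc : IsCompact Z := by
    apply isCompact_Icc.inter_right
    rw [isClosed_compl_iff]
    exact isOpen_biUnion fun E _ => Metric.isOpen_ball
  obtain ⟨ε1, hε1, hZ1⟩ : ∃ ε : ℝ, 0 < ε ∧ ∀ b : ℝ, b < (p : ℝ) / q → p / q - ε < b →
      ∀ E ∈ Z, E ∉ Sp lam b := by
    refine hZc.induction_on (p := fun T => ∃ ε : ℝ, 0 < ε ∧ ∀ b : ℝ, b < (p : ℝ) / q →
      p / q - ε < b → ∀ E ∈ T, E ∉ Sp lam b) ?_ ?_ ?_ ?_
    · exact ⟨1, one_pos, fun b _ _ E hE => absurd hE (Set.notMem_empty E)⟩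
    · rintro T T' hTT ⟨ε, hε, h⟩
      exact ⟨ε, hε, fun b h1 h2 E hE => h b h1 h2 E (hTT hE)⟩
    · rintro T T' ⟨ε, hε, h⟩ ⟨ε', hε', h'⟩
      refine ⟨min ε ε', lt_min hε hε', ?_⟩
      intro b h1 h2 E hE
      have := min_le_left ε ε'
      have := min_le_right ε ε'
      rcases hE with hE | hE
      · exact h b h1 (by linarith) E hE
      · exact h' b h1 (by linarith) E hE
    · intro E hE
      have hnb : E ∉ Bad := by
        intro hb
        apply hE.2
        simp only [Set.mem_iUnion]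
        exact ⟨E, hb, Metric.mem_ball_self (by positivity)⟩
      have e1 : 4 < D.eval E ^ 2 := by
        by_contra hcon
        exact hnb (Or.inl (not_lt.mp hcon))
      have e2 : D.eval E ^ 2 ≠ 4 + lam ^ 2 := fun h => hnb (Or.inr h)
      obtain ⟨ρ, hρ, ε, hε, h⟩ := free_left h0 h1 hpq hlam e1 e2
      refine ⟨Metric.ball E ρ, mem_nhdsWithin_of_mem_nhds (Metric.ball_mem_nhds E hρ), ε, hε, ?_⟩
      intro b h1 h2 E' hE'
      rw [Metric.mem_ball, Real.dist_eq] at hE'
      exact h b h1 h2 E' hE'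
  obtain ⟨ε2, hε2, hn⟩ := near_left h0 h1 hpq hlam (δ := s / 4) (by positivity)
  refine ⟨min ε1 ε2, lt_min hε1 hε2, ?_⟩
  intro b hb1 hb2
  have m1 := min_le_left ε1 ε2
  have m2 := min_le_right ε1 ε2
  rw [← hPd]
  refine few_gaps hP0 (D := fun x => D.eval x) D.continuous (c := 4 + lam ^ 2) hs ?_ ?_ ?_
  · intro x hx
    rw [IsRoot.def, hP, eval_mul]
    simp only [eval_sub, eval_pow, eval_C]
    rcases hx with h | h
    · rw [h]; ring
    · rw [h]; ring
  · intro E hE
    obtain ⟨E', h2, h3⟩ := hn b hb1 (by linarith) E hE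
    exact ⟨E', h2, by linarith⟩
  · intro x hx
    have hxA := Sp_bdd lam b hx
    by_contra hcon
    push Not at hcon
    apply hZ1 b hb1 (by linarith) x _ hx
    refine ⟨abs_le.mp hxA, ?_⟩
    intro hmem
    simp only [Set.mem_iUnion] at hmem
    obtain ⟨E, hE, hxE⟩ := hmem
    rw [Metric.mem_ball, Real.dist_eq, abs_sub_comm] at hxE
    obtain ⟨c1, c2⟩ := hcon E hxE
    rcases hE with h | h
    · linarith
    · exact c2 h

end main

end H221R3.Sturm
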