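import Mathlib
import Pool.Agent.H221R3.StL

set_option autoImplicit false

namespace H221R3.Sturm

open Polynomial Topology

theorem NG_mono {S : Set ℝ} {s s' : ℝ} (h : s ≤ s') {N : ℕ} (hN : NG S s N) : NG S s' N := by
  intro F hF
  apply hN F
  intro g hg
  obtain ⟨h1, h2, h3, h4⟩ := hF g hg
  exact ⟨h1, h2, by linarith, h4⟩

/-- admissible pairs -/
def Good (p q : ℕ) : Prop := 2 ≤ p ∧ 5 * p < q ∧ Nat.Coprime p q

theorem main_pair {lam : ℝ} (hlam : lam ≠ 0) {p q : ℕ} (h : Good p q) :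
    ∃ s : ℝ, 0 < s ∧ ∃ ε : ℝ, 0 < ε ∧ ∀ a : ℝ, (p : ℝ) / q < a → a < p / q + ε →
      (∀ N : ℕ, NG (Sp lam a) s N → q - 1 ≤ N) ∧
      NG (Sp lam (Int.fract a⁻¹)) (s / q) (4 * p + 1) := by
  obtain ⟨hp2, h5, hcop⟩ := h
  have hp : 0 < p := by omega
  have hpq : p < q := by omega
  have hq : 0 < q := by omega
  obtain ⟨s, hs, ε1, hε1, hlow⟩ := lower_count hp hpq hcop hlam
  have hr1 : Nat.Coprime (q % p) p := by
    rw [Nat.Coprime, ← Nat.gcd_rec]
    exact hcop
  have hr0 : 0 < q % p := by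
    rcases Nat.eq_zero_or_pos (q % p) with h0 | h0
    · rw [h0, Nat.coprime_zero_left] at hr1
      omega
    · exact h0
  have hrp : q % p < p := Nat.mod_lt _ hp
  have hqR : (0 : ℝ) < q := by exact_mod_cast hq
  have hpR : (0 : ℝ) < p := by exact_mod_cast hp
  obtain ⟨ε2, hε2, hup⟩ := upper_count hr0 hrp hr1 hlam (s := s / q) (by positivity)
  -- the Gauss map near p/q
  set η := min ε2 (((q % p : ℕ) : ℝ) / p) with hη
  have hη0 : 0 < η := lt_min hε2 (div_pos (by exact_mod_cast hr0) hpR)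
  have hcont : ContinuousAt (fun x : ℝ => x⁻¹) ((p : ℝ) / q) := continuousAt_inv₀ (by positivity)
  have hev : ∀ᶠ x in 𝓝 ((p : ℝ) / q), ((p : ℝ) / q)⁻¹ - η < x⁻¹ := by
    apply hcont.eventually_const_lt
    linarith
  rw [Metric.eventually_nhds_iff] at hev
  obtain ⟨ε3, hε3, h3⟩ := hev
  refine ⟨s, hs, min ε1 ε3, lt_min hε1 hε3, ?_⟩
  intro a ha1 ha2
  have m1 := min_le_left ε1 ε3
  have m2 := min_le_right ε1 ε3
  refine ⟨hlow a ha1 (by linarith), ?_⟩
  have ha0 : 0 < a := lt_trans (by positivity) ha1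
  have hlo : ((p : ℝ) / q)⁻¹ - η < a⁻¹ := by
    apply h3
    rw [Real.dist_eq, abs_of_pos (by linarith)]
    linarith
  have hhi : a⁻¹ < ((p : ℝ) / q)⁻¹ := by
    rw [inv_lt_inv₀ ha0 (by positivity)]
    exact ha1
  have hdiv : ((p : ℝ) / q)⁻¹ = ((q / p : ℕ) : ℝ) + ((q % p : ℕ) : ℝ) / p := by
    rw [inv_div]
    have h4 : ((q % p + p * (q / p) : ℕ) : ℝ) = q := by rw [Nat.mod_add_div]
    rw [← h4]
    push_cast
    field_simp
    ring
  have hrp' : ((q % p : ℕ) : ℝ) / p < 1 := by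
    rw [div_lt_one hpR]
    exact_mod_cast hrp
  have n1 := min_le_left ε2 (((q % p : ℕ) : ℝ) / p)
  have n2 := min_le_right ε2 (((q % p : ℕ) : ℝ) / p)
  rw [hdiv] at hlo hhi
  have hfl : ⌊a⁻¹⌋ = ((q / p : ℕ) : ℤ) := by
    rw [Int.floor_eq_iff]
    rw [Int.cast_natCast]
    constructor <;> linarith
  have hfr : Int.fract a⁻¹ = a⁻¹ - ((q / p : ℕ) : ℝ) := by
    rw [Int.fract, hfl, Int.cast_natCast]
  apply hup
  · rw [hfr]; linarith
  · rw [hfr]; linarith

theorem exists_alpha {lam : ℝ} (hlam : lam ≠ 0) :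
    ∃ α : ℝ, Irrational α ∧ 0 < α ∧ α < 1 ∧ ∀ n : ℕ, ∃ p q : ℕ, n ≤ q ∧ 5 * p < q ∧ ∃ s : ℝ, 0 < s ∧
      (∀ N : ℕ, NG (Sp lam α) s N → q - 1 ≤ N) ∧
      NG (Sp lam (Int.fract α⁻¹)) (s / q) (4 * p + 1) := by
  have hmp : ∀ p q : ℕ, ∃ s ε : ℝ, Good p q → (0 < s ∧ 0 < ε ∧ ∀ a : ℝ, (p : ℝ) / q < a →
      a < p / q + ε → (∀ N : ℕ, NG (Sp lam a) s N → q - 1 ≤ N) ∧
      NG (Sp lam (Int.fract a⁻¹)) (s / q) (4 * p + 1)) := by
    intro p q
    by_cases h : Good p q
    · obtain ⟨s, hs, ε, hε, h2⟩ := main_pair hlam h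
      exact ⟨s, ε, fun _ => ⟨hs, hε, h2⟩⟩
    · exact ⟨0, 0, fun h' => absurd h' h⟩
  choose s ε hse using hmp
  set G : ℕ → Set ℝ := fun n => (⋃ p : ℕ, ⋃ q : ℕ, ⋃ (_ : Good p q ∧ n ≤ q),
    Set.Ioo ((p : ℝ) / q) (p / q + ε p q)) ∪ (Set.Iio 0 ∪ Set.Ioi (1 / 5)) with hG
  have hGo : ∀ n, IsOpen (G n) := by
    intro n
    apply IsOpen.union
    · exact isOpen_iUnion fun p => isOpen_iUnion fun q => isOpen_iUnion fun _ => isOpen_Ioo
    · exact isOpen_Iio.union isOpen_Ioi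
  have hGd : ∀ n, Dense (G n) := by
    intro n
    rw [Metric.dense_iff]
    intro x r hr
    by_cases hx : 0 ≤ x ∧ x ≤ 1 / 5
    · -- a point inside the open interval
      obtain ⟨x', hx'0, hx'1, hx'r⟩ : ∃ x' : ℝ, 0 < x' ∧ x' < 1 / 5 ∧ |x' - x| < r / 3 := by
        obtain ⟨hx0, hx1⟩ := hx
        set t := min (r / 6) (1 / 20) with ht
        have t0 : 0 < t := lt_min (by positivity) (by norm_num)
        have t1 : t ≤ r / 6 := min_le_left _ _
        have t2 : t ≤ 1 / 20 := min_le_right _ _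
        rcases le_total x (1 / 10) with h | h
        · refine ⟨x + t, by linarith, by linarith, ?_⟩
          rw [add_sub_cancel_left, abs_of_pos t0]; linarith
        · refine ⟨x - t, by linarith, by linarith, ?_⟩
          rw [show x - t - x = -t by ring, abs_neg, abs_of_pos t0]; linarith
      obtain ⟨M, hM⟩ := exists_nat_gt (max (max (n : ℝ) (3 / x')) (3 / r))
      obtain ⟨q, hqM, hqp⟩ := Nat.exists_infinite_primes M
      have hqR : max (max (n : ℝ) (3 / x')) (3 / r) < q := hM.trans_le (by exact_mod_cast hqM)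
      have q1 : (n : ℝ) < q := lt_of_le_of_lt ((le_max_left _ _).trans (le_max_left _ _)) hqR
      have q2 : 3 / x' < q := lt_of_le_of_lt ((le_max_right _ _).trans (le_max_left _ _)) hqR
      have q3 : 3 / r < q := lt_of_le_of_lt (le_max_right _ _) hqR
      have hq0 : (0 : ℝ) < q := by exact_mod_cast hqp.pos
      rw [div_lt_iff₀ hx'0] at q2
      rw [div_lt_iff₀ hr] at q3
      set p := ⌊x' * q⌋₊ with hp
      have p1 : (p : ℝ) ≤ x' * q := Nat.floor_le (by positivity)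
      have p2 : x' * q < p + 1 := Nat.lt_floor_add_one _
      have hp2 : 2 ≤ p := by
        have : (2 : ℝ) < p := by nlinarith
        exact_mod_cast this.le
      have h5p : 5 * p < q := by
        have : (5 : ℝ) * p < q := by nlinarith
        exact_mod_cast this
      have hgood : Good p q := by
        refine ⟨hp2, h5p, ?_⟩
        exact ((Nat.Prime.coprime_iff_not_dvd hqp).mpr
          (Nat.not_dvd_of_pos_of_lt (by omega) (by omega))).symm
      obtain ⟨_, hε, _⟩ := hse p q hgood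
      set t := min (ε p q / 2) (r / 3) with ht
      have t0 : 0 < t := lt_min (by positivity) (by positivity)
      have t1 : t ≤ ε p q / 2 := min_le_left _ _
      have t2 : t ≤ r / 3 := min_le_right _ _
      refine ⟨(p : ℝ) / q + t, ?_, ?_⟩
      · rw [Metric.mem_ball, Real.dist_eq]
        have e1 : (p : ℝ) / q ≤ x' := by
          rw [div_le_iff₀ hq0]; exact p1
        have e2 : x' < (p : ℝ) / q + r / 3 := by
          have h6 : x' < ((p : ℝ) + 1) / q := by rw [lt_div_iff₀ hq0]; exact p2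
          have h7 : (1 : ℝ) / q < r / 3 := by
            rw [div_lt_div_iff₀ hq0 (by norm_num)]; linarith
          rw [add_div] at h6
          linarith
        rw [abs_lt] at hx'r ⊢
        constructor <;> linarith
      · apply Or.inl
        simp only [Set.mem_iUnion]
        refine ⟨p, q, ⟨hgood, ?_⟩, ?_, ?_⟩
        · exact_mod_cast q1.le
        · linarith
        · linarith
    · refine ⟨x, Metric.mem_ball_self hr, Or.inr ?_⟩
      rw [Set.mem_union, Set.mem_Iio, Set.mem_Ioi]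
      by_contra hcon
      push Not at hcon
      exact hx hcon
  have hres : ∀ᶠ x in residual ℝ, (∀ n, x ∈ G n) ∧ Irrational x := by
    apply Filter.Eventually.and
    · rw [eventually_countable_forall]
      intro n
      exact residual_of_dense_open (hGo n) (hGd n)
    · exact eventually_residual_irrational
  have hdense : Dense {x : ℝ | (∀ n, x ∈ G n) ∧ Irrational x} := dense_of_mem_residual hres
  obtain ⟨α, hα, hα1, hα2⟩ := hdense.exists_mem_open (isOpen_Ioo (a := (0 : ℝ)) (b := 1 / 5))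
    ⟨1 / 10, by norm_num, by norm_num⟩
  refine ⟨α, hα.2, hα1, by linarith, ?_⟩
  intro n
  rcases hα.1 n with h | h | h
  · simp only [Set.mem_iUnion] at h
    obtain ⟨p, q, ⟨hg, hnq⟩, h1, h2⟩ := h
    obtain ⟨h3, h4, h5⟩ := hse p q hg
    exact ⟨p, q, hnq, hg.2.1, s p q, h3, (h5 α h1 h2).1, (h5 α h1 h2).2⟩
  · exact absurd h (not_lt.mpr hα1.le)
  · exact absurd h (not_lt.mpr hα2.le)

/-- the main result -/
theorem not_diffeo {lam : ℝ} (hlam : lam ≠ 0) :
    ∃ α : ℝ, Irrational α ∧ 0 < α ∧ α < 1 ∧ ∀ (U V : Set ℝ) (f g : ℝ → ℝ), IsOpen U → IsOpen V →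
      Sp lam α ⊆ U → ContDiffOn ℝ 1 f U → ContDiffOn ℝ 1 g V → Set.MapsTo f U V →
      (∀ x ∈ U, g (f x) = x) → f '' Sp lam α = Sp lam (Int.fract α⁻¹) → False := by
  obtain ⟨α, h1, h2, h3, h4⟩ := exists_alpha hlam
  refine ⟨α, h1, h2, h3, ?_⟩
  intro U V f g hU hV hSU hf hg hfU hgf hT
  obtain ⟨K, C, hC, h⟩ := transfer (Sp_compact lam α) hU hV hSU hf hg hfU hgf hT
  obtain ⟨M, hM⟩ := exists_nat_gt (1 / C)
  obtain ⟨p, q, hq, hpq, s, hs, hlow, hup⟩ := h4 (max M (5 * K + 7))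
  have hqM : M ≤ q := (le_max_left _ _).trans hq
  have hqK : 5 * K + 7 ≤ q := (le_max_right _ _).trans hq
  have hq0 : (0 : ℝ) < q := by
    have : 0 < q := by omega
    exact_mod_cast this
  have hCs : s / q ≤ C * s := by
    rw [div_le_iff₀ hq0]
    have h5 : 1 / C < q := hM.trans_le (by exact_mod_cast hqM)
    rw [div_lt_iff₀ hC] at h5
    nlinarith
  have h6 := hlow _ (h s hs _ (NG_mono hCs hup))
  omega

end H221R3.Sturm
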