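import Mathlib
import Pool.Agent.H221R3.StM

set_option autoImplicit false

namespace H221R3.Sturm

open scoped ENNReal
open Pool.Agent.Helper434.PSCplx (L2)

theorem coe_T (lam a E : ℝ) (ψ : L2) (n : ℤ) :
    (HO lam a - algebraMap ℂ (L2 →L[ℂ] L2) (E : ℂ)) ψ n
      = ψ (n + 1) + ψ (n - 1) + ((pot lam a n - E : ℝ) : ℂ) * ψ n := by
  have h1 : (HO lam a - algebraMap ℂ (L2 →L[ℂ] L2) (E : ℂ)) ψ = HO lam a ψ - (E : ℂ) • ψ := by
    rw [Algebra.algebraMap_eq_smul_one]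
    rfl
  rw [h1, lp.coeFn_sub, Pi.sub_apply, lp.coeFn_smul, Pi.smul_apply, HO_apply, smul_eq_mul]
  push_cast
  ring

/-- description of the spectrum by unique solvability -/
theorem mem_Sp_iff (a E : ℝ) : E ∈ Sp 1 a ↔
    ¬ (∀ u : ℤ → ℂ, Memℓp u 2 → ∃! v : ℤ → ℂ, Memℓp v 2 ∧ ∀ n : ℤ, v (n + 1) + v (n - 1)
      + ((((1 : ℝ) * (if 1 - a ≤ Int.fract ((n : ℝ) * a) then (1 : ℝ) else 0) - E : ℝ)) : ℂ) * v n
        = u n) := by
  have hpot : ∀ n : ℤ, (1 : ℝ) * (if 1 - a ≤ Int.fract ((n : ℝ) * a) then (1 : ℝ) else 0)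
      = pot 1 a n := by
    intro n
    rw [one_mul, pot]
  simp only [hpot]
  change (E : ℂ) ∈ spectrum ℂ (HO 1 a) ↔ _
  rw [spectrum.mem_iff, not_iff_not]
  set T : L2 →L[ℂ] L2 := HO 1 a - algebraMap ℂ (L2 →L[ℂ] L2) (E : ℂ) with hT
  have h1 : algebraMap ℂ (L2 →L[ℂ] L2) (E : ℂ) - HO 1 a = -T := by rw [hT, neg_sub]
  rw [h1, IsUnit.neg_iff, ContinuousLinearMap.isUnit_iff_bijective]
  have hTn : ∀ (ψ : L2) (n : ℤ), T ψ n = ψ (n + 1) + ψ (n - 1) + ((pot 1 a n - E : ℝ) : ℂ) * ψ n :=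
    fun ψ n => coe_T 1 a E ψ n
  constructor
  · rintro ⟨hinj, hsurj⟩ u hu
    obtain ⟨ψ, hψ⟩ := hsurj ⟨u, hu⟩
    refine ⟨ψ, ⟨lp.memℓp ψ, ?_⟩, ?_⟩
    · intro n
      rw [← hTn, hψ]
    · rintro v ⟨hv, hv2⟩
      have h3 : T ⟨v, hv⟩ = T ψ := by
        rw [hψ]
        ext n
        rw [hTn]
        exact hv2 n
      have h4 := hinj h3
      have h5 := congrArg (fun z : L2 => (z : ℤ → ℂ)) h4
      exact h5
  · intro h
    constructor
    · intro x y hxy
      obtain ⟨v, _, hv⟩ := h (T x) (lp.memℓp (T x))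
      have e1 := hv x ⟨lp.memℓp x, fun n => (hTn x n).symm⟩
      have e2 := hv y ⟨lp.memℓp y, fun n => by rw [hxy]; exact (hTn y n).symm⟩
      ext n
      rw [e1, e2]
    · intro u
      obtain ⟨v, ⟨hv, hv2⟩, _⟩ := h u (lp.memℓp u)
      refine ⟨⟨v, hv⟩, ?_⟩
      ext n
      rw [hTn]
      exact hv2 n

theorem cf_shift {a : ℝ} (h0 : 0 < a) (h1 : a < 1) (hir : Irrational a) (i : ℕ) :
    Stream'.Seq.get? (GenContFract.of (Int.fract a⁻¹)).partDens (i + 0)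
      = Stream'.Seq.get? (GenContFract.of a).partDens (i + 1) := by
  have hfa : Int.fract a = a := Int.fract_eq_self.mpr ⟨h0.le, h1⟩
  have hs : (GenContFract.of a⁻¹).s = (GenContFract.of (Int.fract a⁻¹)).s := by
    apply Stream'.Seq.ext
    intro n
    cases n with
    | zero =>
      have hne : Int.fract a⁻¹ ≠ 0 := by
        have h2 : Irrational a⁻¹ := hir.inv
        intro h3
        rw [Int.fract_eq_iff] at h3
        obtain ⟨_, _, z, hz⟩ := h3
        rw [sub_zero] at hz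
        exact h2 ⟨z, by rw [hz]; simp⟩
      have e1 := GenContFract.of_s_head (v := a⁻¹) hne
      have e2 := GenContFract.of_s_head (v := Int.fract a⁻¹) (by rw [Int.fract_fract]; exact hne)
      rw [Int.fract_fract] at e2
      exact e1.trans e2.symm
    | succ n =>
      rw [GenContFract.of_s_succ, GenContFract.of_s_succ, Int.fract_fract]
  rw [add_zero, GenContFract.partDens, GenContFract.partDens, Stream'.Seq.map_get?,
    Stream'.Seq.map_get?, GenContFract.of_s_succ, hfa, hs]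

end H221R3.Sturm
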