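import Mathlib

set_option autoImplicit false

namespace Pool.Agent.H221R3.Tw

open Classical

/-- labelled plane trees, possibly empty -/
inductive PT
  | emp : PT
  | leaf : PT
  | node : ℕ → PT → PT → PT

/-- status trees: leaves may be fixed or free -/
inductive ST
  | emp : ST
  | fix : ST
  | free : ST
  | node : ℕ → ST → ST → ST

def comb (l : ℕ) : PT → PT → PT
  | PT.emp, q => q
  | PT.leaf, PT.emp => PT.leaf
  | PT.leaf, PT.leaf => PT.node l PT.leaf PT.leaf
  | PT.leaf, PT.node m c d => PT.node l PT.leaf (PT.node m c d)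
  | PT.node m c d, PT.emp => PT.node m c d
  | PT.node m c d, PT.leaf => PT.node l (PT.node m c d) PT.leaf
  | PT.node m c d, PT.node m' c' d' => PT.node l (PT.node m c d) (PT.node m' c' d')

theorem comb_emp_left (l : ℕ) (q : PT) : comb l PT.emp q = q := by
  cases q <;> rfl

theorem comb_emp_right (l : ℕ) (p : PT) : comb l p PT.emp = p := by
  cases p <;> rfl

theorem comb_ll (l : ℕ) : comb l PT.leaf PT.leaf = PT.node l PT.leaf PT.leaf := rfl

theorem comb_ne (l : ℕ) (p q : PT) (hp : p ≠ PT.emp) (hq : q ≠ PT.emp) :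
    comb l p q = PT.node l p q := by
  cases p <;> cases q <;> simp_all [comb]

noncomputable def outs : ST → Multiset PT
  | ST.emp => {PT.emp}
  | ST.fix => {PT.leaf}
  | ST.free => {PT.emp, PT.leaf}
  | ST.node l a b => (outs a).bind fun p => (outs b).map fun q => comb l p q

noncomputable def S1 (f : PT → ℝ) (t : ST) : ℝ := ((outs t).map f).sum

theorem S1_emp (f : PT → ℝ) : S1 f ST.emp = f PT.emp := by simp [S1, outs]
theorem S1_fix (f : PT → ℝ) : S1 f ST.fix = f PT.leaf := by simp [S1, outs]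
theorem S1_free (f : PT → ℝ) : S1 f ST.free = f PT.emp + f PT.leaf := by simp [S1, outs]
theorem S1_node (f : PT → ℝ) (l : ℕ) (a b : ST) :
    S1 f (ST.node l a b) = S1 (fun p => S1 (fun q => f (comb l p q)) b) a := by
  simp [S1, outs, Multiset.map_bind, Multiset.sum_bind]

theorem S1_mono (f g : PT → ℝ) (t : ST) (h : ∀ p ∈ outs t, f p ≤ g p) : S1 f t ≤ S1 g t := by
  unfold S1
  exact Multiset.sum_map_le_sum_map f g h

theorem S1_congr (f g : PT → ℝ) (t : ST) (h : ∀ p ∈ outs t, f p = g p) : S1 f t = S1 g t := by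
  unfold S1
  rw [Multiset.map_congr rfl h]

theorem S1_add (f g : PT → ℝ) (t : ST) : S1 (fun p => f p + g p) t = S1 f t + S1 g t := by
  unfold S1
  exact Multiset.sum_map_add

theorem S1_mul_left (c : ℝ) (f : PT → ℝ) (t : ST) : S1 (fun p => c * f p) t = c * S1 f t := by
  unfold S1
  exact Multiset.sum_map_mul_left

theorem S1_mul_right (c : ℝ) (f : PT → ℝ) (t : ST) : S1 (fun p => f p * c) t = S1 f t * c := by
  unfold S1
  exact Multiset.sum_map_mul_right

theorem S1_nonneg (f : PT → ℝ) (t : ST) (h : ∀ p, 0 ≤ f p) : 0 ≤ S1 f t := by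
  unfold S1
  apply Multiset.sum_nonneg
  intro x hx
  rw [Multiset.mem_map] at hx
  obtain ⟨p, _, rfl⟩ := hx
  exact h p

/-- sum over weighted outcome multisets -/
noncomputable def PS (G : ST → ℕ → ℝ) (P : Multiset (ST × ℕ)) : ℝ :=
  (P.map (fun o => G o.1 o.2)).sum

theorem PS_mono (G H : ST → ℕ → ℝ) (P : Multiset (ST × ℕ))
    (h : ∀ o ∈ P, G o.1 o.2 ≤ H o.1 o.2) : PS G P ≤ PS H P := by
  unfold PS
  exact Multiset.sum_map_le_sum_map _ _ h

theorem PS_congr (G H : ST → ℕ → ℝ) (P : Multiset (ST × ℕ))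
    (h : ∀ o ∈ P, G o.1 o.2 = H o.1 o.2) : PS G P = PS H P := by
  unfold PS
  rw [Multiset.map_congr rfl h]

theorem PS_add (G H : ST → ℕ → ℝ) (P : Multiset (ST × ℕ)) :
    PS (fun c q => G c q + H c q) P = PS G P + PS H P := by
  unfold PS
  exact Multiset.sum_map_add

theorem PS_mul_left (x : ℝ) (G : ST → ℕ → ℝ) (P : Multiset (ST × ℕ)) :
    PS (fun c q => x * G c q) P = x * PS G P := by
  unfold PS
  exact Multiset.sum_map_mul_left

theorem PS_mul_right (x : ℝ) (G : ST → ℕ → ℝ) (P : Multiset (ST × ℕ)) :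
    PS (fun c q => G c q * x) P = PS G P * x := by
  unfold PS
  exact Multiset.sum_map_mul_right

theorem PS_nonneg (G : ST → ℕ → ℝ) (P : Multiset (ST × ℕ)) (h : ∀ o ∈ P, 0 ≤ G o.1 o.2) :
    0 ≤ PS G P := by
  unfold PS
  apply Multiset.sum_nonneg
  intro x hx
  rw [Multiset.mem_map] at hx
  obtain ⟨p, hp, rfl⟩ := hx
  exact h p hp

theorem PS_singleton (G : ST → ℕ → ℝ) (c : ST) (q : ℕ) : PS G {(c, q)} = G c q := by
  simp [PS]

theorem S1_PS (G : PT → ST → ℕ → ℝ) (t : ST) (P : Multiset (ST × ℕ)) :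
    S1 (fun p => PS (G p) P) t = PS (fun c q => S1 (fun p => G p c q) t) P := by
  unfold S1 PS
  exact Multiset.sum_map_sum_map _ _

theorem PS_PS (G : ST → ℕ → ST → ℕ → ℝ) (P Q : Multiset (ST × ℕ)) :
    PS (fun a q => PS (fun b q' => G a q b q') Q) P
      = PS (fun b q' => PS (fun a q => G a q b q') P) Q := by
  unfold PS
  exact Multiset.sum_map_sum_map _ _

noncomputable def mg (l : ℕ) : ST → ST → Multiset (ST × ℕ)
  | ST.emp, b => {(b, 0)}
  | ST.fix, ST.emp => {(ST.fix, 0)}
  | ST.free, ST.emp => {(ST.free, 0)}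
  | ST.node m c d, ST.emp => {(ST.node m c d, 0)}
  | ST.free, ST.free => {(ST.free, 1), (ST.fix, 2), (ST.node l ST.fix ST.fix, 2)}
  | ST.free, ST.fix => {(ST.fix, 1), (ST.node l ST.fix ST.fix, 1)}
  | ST.fix, ST.free => {(ST.fix, 1), (ST.node l ST.fix ST.fix, 1)}
  | ST.fix, ST.fix => {(ST.node l ST.fix ST.fix, 0)}
  | ST.fix, ST.node m c d => {(ST.node l ST.fix (ST.node m c d), 0)}
  | ST.free, ST.node m c d => {(ST.node l ST.free (ST.node m c d), 0)}
  | ST.node m c d, ST.fix => {(ST.node l (ST.node m c d) ST.fix, 0)}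
  | ST.node m c d, ST.free => {(ST.node l (ST.node m c d) ST.free, 0)}
  | ST.node m c d, ST.node m' c' d' => {(ST.node l (ST.node m c d) (ST.node m' c' d'), 0)}

theorem mg_part (f : PT → ℝ) (l : ℕ) (a b : ST) :
    S1 f (ST.node l a b) = PS (fun c _ => S1 f c) (mg l a b) := by
  cases a <;> cases b <;>
    simp [mg, PS, S1_emp, S1_fix, S1_free, S1_node, comb_ll, comb_emp_left, comb_emp_right]

noncomputable def cross (l : ℕ) (A B : Multiset (ST × ℕ)) : Multiset (ST × ℕ) :=
  A.bind fun x => B.bind fun y => (mg l x.1 y.1).map fun z => (z.1, z.2 + x.2 + y.2)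

theorem PS_cross (G : ST → ℕ → ℝ) (l : ℕ) (A B : Multiset (ST × ℕ)) :
    PS G (cross l A B)
      = PS (fun a q => PS (fun b q' => PS (fun c q'' => G c (q'' + q + q')) (mg l a b)) B) A := by
  simp [PS, cross, Multiset.map_bind, Multiset.sum_bind]

noncomputable def proc : ST → Multiset (ST × ℕ)
  | ST.emp => {(ST.emp, 0)}
  | ST.fix => {(ST.fix, 0)}
  | ST.free => {(ST.free, 0)}
  | ST.node l a b => cross l (proc a) (proc b)

def nf : ST → ℕ
  | ST.emp => 0
  | ST.fix => 0
  | ST.free => 1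
  | ST.node _ a b => nf a + nf b

def isN : ST → Prop
  | ST.node _ _ _ => True
  | _ => False

def bd : ℕ → ST → Prop
  | n, ST.node l a b => l < n ∧ bd l a ∧ bd l b
  | _, _ => True

theorem bd_mono (n m : ℕ) (t : ST) (h : bd n t) (hnm : n ≤ m) : bd m t := by
  cases t <;> simp_all [bd]
  omega

def ok (a b : ST) : Prop :=
  (isN a ∧ b ≠ ST.emp) ∨ (a ≠ ST.emp ∧ isN b) ∨ (a = ST.fix ∧ b = ST.fix)

def gd : ST → Prop
  | ST.node _ a b => gd a ∧ gd b ∧ ok a b
  | _ => True

def wf : ST → Prop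
  | ST.node _ a b => wf a ∧ wf b
  | ST.emp => False
  | _ => True

structure Sp (n : ℕ) (t : ST) (P : Multiset (ST × ℕ)) : Prop where
  part : ∀ f : PT → ℝ, S1 f t = PS (fun c _ => S1 f c) P
  good : ∀ o ∈ P, gd o.1 ∧ bd n o.1 ∧ nf o.1 + o.2 = nf t

def Ne0 (P : Multiset (ST × ℕ)) : Prop := ∀ o ∈ P, o.1 ≠ ST.emp

theorem mg_good (n l : ℕ) (a b : ST) (hl : l < n) (ha : gd a ∧ bd l a) (hb : gd b ∧ bd l b) :
    ∀ o ∈ mg l a b, gd o.1 ∧ bd n o.1 ∧ nf o.1 + o.2 = nf a + nf b := by
  have ha' : bd n a := bd_mono l n a ha.2 hl.le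
  have hb' : bd n b := bd_mono l n b hb.2 hl.le
  cases a <;> cases b <;> simp_all [mg, gd, bd, nf, ok, isN]

theorem mg_ne (l : ℕ) (a b : ST) (h : a ≠ ST.emp ∨ b ≠ ST.emp) :
    ∀ o ∈ mg l a b, o.1 ≠ ST.emp := by
  cases a <;> cases b <;> simp_all [mg]

theorem mem_cross (l : ℕ) (A B : Multiset (ST × ℕ)) (o : ST × ℕ) (ho : o ∈ cross l A B) :
    ∃ x ∈ A, ∃ y ∈ B, ∃ z ∈ mg l x.1 y.1, o = (z.1, z.2 + x.2 + y.2) := by
  unfold cross at ho
  rw [Multiset.mem_bind] at ho
  obtain ⟨x, hx, ho⟩ := ho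
  rw [Multiset.mem_bind] at ho
  obtain ⟨y, hy, ho⟩ := ho
  rw [Multiset.mem_map] at ho
  obtain ⟨z, hz, ho⟩ := ho
  exact ⟨x, hx, y, hy, z, hz, ho.symm⟩

theorem cross_ne (l : ℕ) (A B : Multiset (ST × ℕ)) (h : Ne0 A ∨ Ne0 B) : Ne0 (cross l A B) := by
  intro o ho
  obtain ⟨x, hx, y, hy, z, hz, rfl⟩ := mem_cross l A B o ho
  apply mg_ne l x.1 y.1 _ z hz
  rcases h with h | h
  · exact Or.inl (h x hx)
  · exact Or.inr (h y hy)

theorem cross_Sp (n l : ℕ) (a b : ST) (A B : Multiset (ST × ℕ)) (hl : l < n)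
    (hA : Sp l a A) (hB : Sp l b B) : Sp n (ST.node l a b) (cross l A B) := by
  constructor
  · intro f
    rw [S1_node, hA.part, PS_cross]
    apply PS_congr
    intro o _
    try dsimp only
    have : (fun p => S1 (fun q => f (comb l p q)) b)
        = fun p => PS (fun c _ => S1 (fun q => f (comb l p q)) c) B := by
      funext p
      rw [hB.part]
    rw [this, S1_PS]
    apply PS_congr
    intro y _
    try dsimp only
    rw [← S1_node, mg_part]
  · intro o ho
    obtain ⟨x, hx, y, hy, z, hz, rfl⟩ := mem_cross l A B o ho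
    obtain ⟨g1, g2, g3⟩ := hA.good x hx
    obtain ⟨k1, k2, k3⟩ := hB.good y hy
    obtain ⟨m1, m2, m3⟩ := mg_good n l x.1 y.1 hl ⟨g1, g2⟩ ⟨k1, k2⟩ z hz
    refine ⟨m1, m2, ?_⟩
    simp only [nf]
    omega

theorem proc_Sp (t : ST) : ∀ n, bd n t → Sp n t (proc t) := by
  induction t with
  | emp => intro n _; constructor <;> simp [proc, PS, gd, bd, nf]
  | fix => intro n _; constructor <;> simp [proc, PS, gd, bd, nf]
  | free => intro n _; constructor <;> simp [proc, PS, gd, bd, nf]
  | node l a b iha ihb =>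
    intro n h
    simp only [bd] at h
    exact cross_Sp n l a b _ _ h.1 (iha l h.2.1) (ihb l h.2.2)

theorem proc_ne (t : ST) (h : wf t) : Ne0 (proc t) := by
  induction t with
  | emp => simp [wf] at h
  | fix => intro o ho; simp [proc] at ho; simp [ho]
  | free => intro o ho; simp [proc] at ho; simp [ho]
  | node l a b iha ihb =>
    simp only [wf] at h
    exact cross_ne l _ _ (Or.inl (iha h.1))

/-! weights -/

noncomputable def phi : ST → ℝ
  | ST.emp => 1
  | ST.fix => 2
  | ST.free => 4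
  | ST.node _ _ _ => 1

theorem phi_ge (c : ST) : 1 ≤ phi c := by cases c <;> norm_num [phi]

noncomputable def Phi (P : Multiset (ST × ℕ)) : ℝ := PS (fun c q => phi c * (2 / 3) ^ q) P

theorem Phi_nonneg (P : Multiset (ST × ℕ)) : 0 ≤ Phi P := by
  apply PS_nonneg
  intro o _
  have := phi_ge o.1
  positivity

theorem mg_phi (l : ℕ) (a b : ST) :
    PS (fun c q => phi c * (2 / 3) ^ q) (mg l a b) ≤ phi a * phi b := by
  cases a <;> cases b <;> simp [mg, PS, phi] <;> norm_num

theorem mg_phi_tooth (l : ℕ) (a b : ST) (ha : a ≠ ST.emp) (hb : b = ST.fix ∨ b = ST.free) :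
    PS (fun c q => phi c * (2 / 3) ^ q) (mg l a b) ≤ phi a := by
  rcases hb with rfl | rfl
  · cases a <;> simp_all [mg, PS, phi] <;> norm_num
  · cases a <;> simp_all [mg, PS, phi] <;> norm_num

theorem mg_phi_tooth' (l : ℕ) (a b : ST) (ha : a ≠ ST.emp) (hb : b = ST.fix ∨ b = ST.free) :
    PS (fun c q => phi c * (2 / 3) ^ q) (mg l b a) ≤ phi a := by
  rcases hb with rfl | rfl
  · cases a <;> simp_all [mg, PS, phi] <;> norm_num
  · cases a <;> simp_all [mg, PS, phi] <;> norm_num

theorem Phi_cross (l : ℕ) (A B : Multiset (ST × ℕ)) : Phi (cross l A B) ≤ Phi A * Phi B := by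
  unfold Phi
  rw [PS_cross, ← PS_mul_right]
  apply PS_mono
  intro x _
  try dsimp only
  rw [← PS_mul_left]
  apply PS_mono
  intro y _
  try dsimp only
  have h := mg_phi l x.1 y.1
  have e : (fun c q'' => phi c * (2 / 3 : ℝ) ^ (q'' + x.2 + y.2))
      = fun c q'' => (phi c * (2 / 3) ^ q'') * ((2 / 3) ^ x.2 * (2 / 3) ^ y.2) := by
    funext c q''
    rw [pow_add, pow_add]; ring
  rw [e, PS_mul_right]
  have hp : (0 : ℝ) ≤ (2 / 3) ^ x.2 * (2 / 3) ^ y.2 := by positivity
  nlinarith [mul_le_mul_of_nonneg_right h hp]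

theorem Phi_tooth (l : ℕ) (A : Multiset (ST × ℕ)) (hA : Ne0 A) (b : ST)
    (hb : b = ST.fix ∨ b = ST.free) : Phi (cross l A {(b, 0)}) ≤ Phi A := by
  unfold Phi
  rw [PS_cross]
  apply PS_mono
  intro x hx
  try dsimp only
  rw [PS_singleton]
  have h := mg_phi_tooth l x.1 b (hA x hx) hb
  have e : (fun c q'' => phi c * (2 / 3 : ℝ) ^ (q'' + x.2 + 0))
      = fun c q'' => (phi c * (2 / 3) ^ q'') * ((2 / 3) ^ x.2) := by
    funext c q''
    rw [add_zero, pow_add]; ring
  rw [e, PS_mul_right]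
  have hp : (0 : ℝ) ≤ (2 / 3) ^ x.2 := by positivity
  exact mul_le_mul_of_nonneg_right h hp

theorem Phi_tooth' (l : ℕ) (A : Multiset (ST × ℕ)) (hA : Ne0 A) (b : ST)
    (hb : b = ST.fix ∨ b = ST.free) : Phi (cross l {(b, 0)} A) ≤ Phi A := by
  unfold Phi
  rw [PS_cross, PS_singleton]
  apply PS_mono
  intro x hx
  try dsimp only
  have h := mg_phi_tooth' l x.1 b (hA x hx) hb
  have e : (fun c q'' => phi c * (2 / 3 : ℝ) ^ (q'' + 0 + x.2))
      = fun c q'' => (phi c * (2 / 3) ^ q'') * ((2 / 3) ^ x.2) := by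
    funext c q''
    rw [add_zero, pow_add]; ring
  rw [e, PS_mul_right]
  have hp : (0 : ℝ) ≤ (2 / 3) ^ x.2 := by positivity
  exact mul_le_mul_of_nonneg_right h hp

def isLf (t : ST) : Prop := t = ST.fix ∨ t = ST.free

/-- number of cherries having a free leaf -/
noncomputable def ca : ST → ℕ
  | ST.node _ a b =>
      if isLf a ∧ isLf b then (if a = ST.free ∨ b = ST.free then 1 else 0) else ca a + ca b
  | _ => 0

/-- number of cherries -/
noncomputable def cc : ST → ℕ
  | ST.node _ a b => if isLf a ∧ isLf b then 1 else cc a + cc b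
  | _ => 0

theorem wf_cases (t : ST) (h : wf t) : isLf t ∨ isN t := by
  cases t <;> simp_all [wf, isLf, isN]

theorem isLf_not_isN (t : ST) (h : isLf t) : ¬ isN t := by
  rcases h with rfl | rfl <;> simp [isN]

theorem isLf_proc (t : ST) (h : isLf t) : proc t = {(t, 0)} := by
  rcases h with rfl | rfl <;> simp [proc]

theorem Phi_singleton (c : ST) : Phi {(c, 0)} = phi c := by
  simp [Phi, PS]

theorem Phi_proc (t : ST) (h : wf t) (hN : isN t) : Phi (proc t) ≤ 4 ^ (ca t) := by
  induction t with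
  | emp => simp [wf] at h
  | fix => simp [isN] at hN
  | free => simp [isN] at hN
  | node l a b iha ihb =>
    simp only [wf] at h
    simp only [proc, ca]
    rcases wf_cases a h.1 with la | na <;> rcases wf_cases b h.2 with lb | nb
    · rw [if_pos ⟨la, lb⟩]
      rcases la with rfl | rfl <;> rcases lb with rfl | rfl <;>
        simp [proc, Phi, cross, PS, phi, mg] <;> norm_num
    · rw [if_neg (fun hh => isLf_not_isN b hh.2 nb)]
      have h1 := Phi_tooth' l (proc b) (proc_ne b h.2) a la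
      rw [isLf_proc a la]
      have : ca a = 0 := by rcases la with rfl | rfl <;> simp [ca]
      rw [this, zero_add]
      exact h1.trans (ihb h.2 nb)
    · rw [if_neg (fun hh => isLf_not_isN a hh.1 na)]
      have h1 := Phi_tooth l (proc a) (proc_ne a h.1) b lb
      rw [isLf_proc b lb]
      have : ca b = 0 := by rcases lb with rfl | rfl <;> simp [ca]
      rw [this, add_zero]
      exact h1.trans (iha h.1 na)
    · rw [if_neg (fun hh => isLf_not_isN a hh.1 na), pow_add]
      exact (Phi_cross l _ _).trans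
        (mul_le_mul (iha h.1 na) (ihb h.2 nb) (Phi_nonneg _) (by positivity))

theorem S1_one (t : ST) : S1 (fun _ => 1) t = 2 ^ nf t := by
  induction t with
  | emp => simp [S1_emp, nf]
  | fix => simp [S1_fix, nf]
  | free => simp [S1_free, nf]; norm_num
  | node l a b iha ihb =>
    rw [S1_node, ihb]
    have : (fun _ : PT => (2 : ℝ) ^ nf b) = fun p => (2 : ℝ) ^ nf b * 1 := by
      funext; simp
    rw [this, S1_mul_left, iha, nf, pow_add]; ring

theorem mass (n : ℕ) (t : ST) (P : Multiset (ST × ℕ)) (h : Sp n t P) :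
    PS (fun _ q => (1 / 2 : ℝ) ^ q) P = 1 := by
  have h1 := h.part (fun _ => 1)
  rw [S1_one] at h1
  have h2 : PS (fun c _ => S1 (fun _ => 1) c) P = PS (fun c q => 2 ^ nf t * (1 / 2 : ℝ) ^ q) P := by
    apply PS_congr
    intro o ho
    try dsimp only
    rw [S1_one, ← (h.good o ho).2.2, pow_add, mul_assoc, ← mul_pow]
    norm_num
  rw [h2, PS_mul_left] at h1
  have : (2 : ℝ) ^ nf t ≠ 0 := by positivity
  field_simp at h1
  linarith

theorem mg_node_left (l : ℕ) (a b : ST) (h : isN a) :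
    PS (fun c q => if isN c then (1 / 2 : ℝ) ^ q else 0) (mg l a b) = 1 := by
  cases a <;> cases b <;> simp_all [mg, PS, isN]

theorem mg_node_right (l : ℕ) (a b : ST) (h : isN b) :
    PS (fun c q => if isN c then (1 / 2 : ℝ) ^ q else 0) (mg l a b) = 1 := by
  cases a <;> cases b <;> simp_all [mg, PS, isN]

noncomputable def wN (P : Multiset (ST × ℕ)) : ℝ :=
  PS (fun c q => if isN c then (1 / 2 : ℝ) ^ q else 0) P

theorem wN_cross_left (l n : ℕ) (A B : Multiset (ST × ℕ)) (b : ST) (hB : Sp n b B) :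
    wN A ≤ wN (cross l A B) := by
  unfold wN
  rw [PS_cross]
  apply PS_mono
  intro x _
  try dsimp only
  by_cases hx : isN x.1
  · rw [if_pos hx]
    have h1 : PS (fun b q' => PS (fun c q'' => if isN c then (1 / 2 : ℝ) ^ (q'' + x.2 + q') else 0)
        (mg l x.1 b)) B = PS (fun _ q' => (1 / 2 : ℝ) ^ x.2 * (1 / 2 : ℝ) ^ q') B := by
      apply PS_congr
      intro y _
      try dsimp only
      have e : (fun c q'' => if isN c then (1 / 2 : ℝ) ^ (q'' + x.2 + y.2) else 0)
          = fun c q'' => (if isN c then (1 / 2 : ℝ) ^ q'' else 0)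
            * ((1 / 2 : ℝ) ^ x.2 * (1 / 2 : ℝ) ^ y.2) := by
        funext c q''
        split_ifs
        · rw [pow_add, pow_add]; ring
        · simp
      rw [e, PS_mul_right, mg_node_left l x.1 y.1 hx, one_mul]
    rw [h1, PS_mul_left, mass n b B hB, mul_one]
  · rw [if_neg hx]
    apply PS_nonneg
    intro y _
    apply PS_nonneg
    intro z _
    try dsimp only
    split_ifs
    · positivity
    · exact le_refl _

theorem wN_cross_right (l n : ℕ) (A B : Multiset (ST × ℕ)) (a : ST) (hA : Sp n a A) :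
    wN B ≤ wN (cross l A B) := by
  unfold wN
  rw [PS_cross, PS_PS]
  apply PS_mono
  intro y _
  try dsimp only
  by_cases hy : isN y.1
  · rw [if_pos hy]
    have h1 : PS (fun a q => PS (fun c q'' => if isN c then (1 / 2 : ℝ) ^ (q'' + q + y.2) else 0)
        (mg l a y.1)) A = PS (fun _ q' => (1 / 2 : ℝ) ^ y.2 * (1 / 2 : ℝ) ^ q') A := by
      apply PS_congr
      intro x _
      try dsimp only
      have e : (fun c q'' => if isN c then (1 / 2 : ℝ) ^ (q'' + x.2 + y.2) else 0)
          = fun c q'' => (if isN c then (1 / 2 : ℝ) ^ q'' else 0)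
            * ((1 / 2 : ℝ) ^ y.2 * (1 / 2 : ℝ) ^ x.2) := by
        funext c q''
        split_ifs
        · rw [pow_add, pow_add]; ring
        · simp
      rw [e, PS_mul_right, mg_node_right l x.1 y.1 hy, one_mul]
    rw [h1, PS_mul_left, mass n a A hA, mul_one]
  · rw [if_neg hy]
    apply PS_nonneg
    intro y _
    apply PS_nonneg
    intro z _
    try dsimp only
    split_ifs
    · positivity
    · exact le_refl _

theorem wN_proc (t : ST) : ∀ n, bd n t → wf t → isN t → 1 / 4 ≤ wN (proc t) := by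
  induction t with
  | emp => intro n _ h; simp [wf] at h
  | fix => intro n _ _ h; simp [isN] at h
  | free => intro n _ _ h; simp [isN] at h
  | node l a b iha ihb =>
    intro n hb h _
    simp only [wf] at h
    simp only [bd] at hb
    simp only [proc]
    rcases wf_cases a h.1 with la | na <;> rcases wf_cases b h.2 with lb | nb
    · rcases la with rfl | rfl <;> rcases lb with rfl | rfl <;>
        simp [proc, wN, cross, PS, mg, isN] <;> norm_num
    · exact (ihb l hb.2.2 h.2 nb).trans (wN_cross_right l l _ _ a (proc_Sp a l hb.2.1))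
    · exact (iha l hb.2.1 h.1 na).trans (wN_cross_left l l _ _ b (proc_Sp b l hb.2.2))
    · exact (iha l hb.2.1 h.1 na).trans (wN_cross_left l l _ _ b (proc_Sp b l hb.2.2))

end Pool.Agent.H221R3.Tw
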