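import Mathlib
import Pool.Agent.H221R3.TwA

set_option autoImplicit false

namespace Pool.Agent.H221R3.Tw

open Classical

def mapP (f : ℕ → ℕ) : PT → PT
  | PT.emp => PT.emp
  | PT.leaf => PT.leaf
  | PT.node l a b => PT.node (f l) (mapP f a) (mapP f b)

def psh (p : PT) : PT := mapP (fun _ => 0) p

def labels : PT → Finset ℕ
  | PT.emp => ∅
  | PT.leaf => ∅
  | PT.node l a b => insert l (labels a ∪ labels b)

def leaves : PT → ℕ
  | PT.emp => 0
  | PT.leaf => 1
  | PT.node _ a b => leaves a + leaves b

def rd : PT → Prop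
  | PT.emp => True
  | PT.leaf => True
  | PT.node _ a b => rd a ∧ rd b ∧ a ≠ PT.emp ∧ b ≠ PT.emp

def bdp : ℕ → PT → Prop
  | _, PT.emp => True
  | _, PT.leaf => True
  | n, PT.node l a b => l < n ∧ bdp l a ∧ bdp l b

theorem bdp_mono (n m : ℕ) (p : PT) (h : bdp n p) (hnm : n ≤ m) : bdp m p := by
  cases p <;> simp_all [bdp]
  omega

theorem labels_lt (p : PT) : ∀ n, bdp n p → ∀ x ∈ labels p, x < n := by
  induction p with
  | emp => intro n _ x hx; simp [labels] at hx
  | leaf => intro n _ x hx; simp [labels] at hx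
  | node l a b iha ihb =>
    intro n h x hx
    simp only [bdp] at h
    simp only [labels, Finset.mem_insert, Finset.mem_union] at hx
    rcases hx with rfl | hx | hx
    · exact h.1
    · exact (iha l h.2.1 x hx).trans h.1
    · exact (ihb l h.2.2 x hx).trans h.1

theorem mem_outs_node (l : ℕ) (a b : ST) (p : PT) :
    p ∈ outs (ST.node l a b) ↔ ∃ p1 ∈ outs a, ∃ p2 ∈ outs b, comb l p1 p2 = p := by
  simp [outs, Multiset.mem_bind]

theorem comb_cases (l : ℕ) (p q : PT) :
    (p = PT.emp ∧ comb l p q = q) ∨ (q = PT.emp ∧ comb l p q = p) ∨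
      (p ≠ PT.emp ∧ q ≠ PT.emp ∧ comb l p q = PT.node l p q) := by
  by_cases hp : p = PT.emp
  · left; subst hp; exact ⟨rfl, comb_emp_left l q⟩
  · by_cases hq : q = PT.emp
    · right; left; subst hq; exact ⟨rfl, comb_emp_right l p⟩
    · right; right; exact ⟨hp, hq, comb_ne l p q hp hq⟩

theorem outs_rd (t : ST) : ∀ p ∈ outs t, rd p := by
  induction t with
  | emp => intro p hp; simp [outs] at hp; subst hp; trivial
  | fix => intro p hp; simp [outs] at hp; subst hp; trivial
  | free => intro p hp; simp [outs] at hp; rcases hp with rfl | rfl <;> trivial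
  | node l a b iha ihb =>
    intro p hp
    rw [mem_outs_node] at hp
    obtain ⟨p1, h1, p2, h2, rfl⟩ := hp
    rcases comb_cases l p1 p2 with ⟨_, h⟩ | ⟨_, h⟩ | ⟨h3, h4, h⟩
    · rw [h]; exact ihb p2 h2
    · rw [h]; exact iha p1 h1
    · rw [h]; exact ⟨iha p1 h1, ihb p2 h2, h3, h4⟩

theorem outs_bdp (t : ST) : ∀ n, bd n t → ∀ p ∈ outs t, bdp n p := by
  induction t with
  | emp => intro n _ p hp; simp [outs] at hp; subst hp; trivial
  | fix => intro n _ p hp; simp [outs] at hp; subst hp; trivial
  | free => intro n _ p hp; simp [outs] at hp; rcases hp with rfl | rfl <;> trivial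
  | node l a b iha ihb =>
    intro n hn p hp
    simp only [bd] at hn
    rw [mem_outs_node] at hp
    obtain ⟨p1, h1, p2, h2, rfl⟩ := hp
    rcases comb_cases l p1 p2 with ⟨_, h⟩ | ⟨_, h⟩ | ⟨h3, h4, h⟩
    · rw [h]; exact bdp_mono l n _ (ihb l hn.2.2 p2 h2) hn.1.le
    · rw [h]; exact bdp_mono l n _ (iha l hn.2.1 p1 h1) hn.1.le
    · rw [h]; exact ⟨hn.1, iha l hn.2.1 p1 h1, ihb l hn.2.2 p2 h2⟩

theorem ok_cases (a b : ST) (h : ok a b) :
    (a = ST.free ∧ isN b) ∨ (isN a ∧ b = ST.free) ∨
      ((a = ST.fix ∨ isN a) ∧ (b = ST.fix ∨ isN b)) := by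
  cases a <;> cases b <;> simp_all [ok, isN]

theorem no_emp (g : ST) (hg : gd g) : g ≠ ST.free → g ≠ ST.emp → ∀ p ∈ outs g, p ≠ PT.emp := by
  induction g with
  | emp => intro _ h; exact absurd rfl h
  | fix => intro _ _ p hp; simp [outs] at hp; subst hp; simp
  | free => intro h; exact absurd rfl h
  | node l a b iha ihb =>
    intro _ _ p hp
    simp only [gd] at hg
    rw [mem_outs_node] at hp
    obtain ⟨p1, h1, p2, h2, rfl⟩ := hp
    have key : p1 ≠ PT.emp ∨ p2 ≠ PT.emp := by
      rcases ok_cases a b hg.2.2 with ⟨_, h⟩ | ⟨h, _⟩ | ⟨h, _⟩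
      · right
        apply ihb hg.2.1 _ _ p2 h2
        · rintro rfl; exact h
        · rintro rfl; exact h
      · left
        apply iha hg.1 _ _ p1 h1
        · rintro rfl; exact h
        · rintro rfl; exact h
      · left
        apply iha hg.1 _ _ p1 h1
        · rintro rfl; rcases h with h | h
          · simp at h
          · exact h
        · rintro rfl; rcases h with h | h
          · simp at h
          · exact h
    rcases comb_cases l p1 p2 with ⟨h3, h⟩ | ⟨h3, h⟩ | ⟨h3, h4, h⟩
    · rw [h]; rcases key with k | k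
      · exact absurd h3 k
      · exact k
    · rw [h]; rcases key with k | k
      · exact k
      · exact absurd h3 k
    · rw [h]; simp

theorem isN_ne (g : ST) (h : isN g) : g ≠ ST.free ∧ g ≠ ST.emp := by
  constructor <;> rintro rfl <;> exact h

theorem comb_inj (l : ℕ) (p q p' q' : PT) (hp : bdp l p) (hq : bdp l q) (hp' : bdp l p')
    (hq' : bdp l q') (hn : (p ≠ PT.emp ∧ p' ≠ PT.emp) ∨ (q ≠ PT.emp ∧ q' ≠ PT.emp))
    (h : comb l p q = comb l p' q') : p = p' ∧ q = q' := by
  have nn : ∀ u v : PT, ∀ w : PT, bdp l w → w ≠ PT.node l u v := by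
    rintro u v w hw rfl
    simp [bdp] at hw
  rcases comb_cases l p q with ⟨h3, e⟩ | ⟨h3, e⟩ | ⟨h3, h4, e⟩ <;>
    rcases comb_cases l p' q' with ⟨h3', e'⟩ | ⟨h3', e'⟩ | ⟨h3', h4', e'⟩ <;>
      rw [e, e'] at h
  · exact ⟨h3.trans h3'.symm, h⟩
  · rcases hn with hn | hn
    · exact absurd h3 hn.1
    · exact absurd h3' hn.2
  · exact absurd h (nn _ _ _ hq)
  · rcases hn with hn | hn
    · exact absurd h3' hn.2
    · exact absurd h3 hn.1
  · exact ⟨h, h3.trans h3'.symm⟩
  · exact absurd h (nn _ _ _ hp)
  · exact absurd h.symm (nn _ _ _ hq')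
  · exact absurd h.symm (nn _ _ _ hp')
  · simpa using h

theorem outs_node_prod (l : ℕ) (a b : ST) :
    outs (ST.node l a b) = ((outs a) ×ˢ (outs b)).map (fun x => comb l x.1 x.2) := by
  show _ = Multiset.map _ ((outs a).bind fun p => (outs b).map (Prod.mk p))
  rw [Multiset.map_bind]
  simp only [outs, Multiset.map_map, Function.comp_def]

theorem outs_nodup (g : ST) : ∀ n, bd n g → gd g → (outs g).Nodup := by
  induction g with
  | emp => intro n _ _; simp [outs]
  | fix => intro n _ _; simp [outs]
  | free => intro n _ _; simp [outs]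
  | node l a b iha ihb =>
    intro n hn hg
    simp only [bd] at hn
    simp only [gd] at hg
    rw [outs_node_prod]
    apply Multiset.Nodup.map_on
    · rintro ⟨p, q⟩ hpq ⟨p', q'⟩ hpq' h
      rw [Multiset.mem_product] at hpq hpq'
      have hb := comb_inj l p q p' q' (outs_bdp a l hn.2.1 p hpq.1) (outs_bdp b l hn.2.2 q hpq.2)
        (outs_bdp a l hn.2.1 p' hpq'.1) (outs_bdp b l hn.2.2 q' hpq'.2) ?_ h
      · rw [hb.1, hb.2]
      · rcases ok_cases a b hg.2.2 with ⟨_, h⟩ | ⟨h, _⟩ | ⟨h, _⟩
        · right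
          have := isN_ne b h
          exact ⟨no_emp b hg.2.1 this.1 this.2 q hpq.2, no_emp b hg.2.1 this.1 this.2 q' hpq'.2⟩
        · left
          have := isN_ne a h
          exact ⟨no_emp a hg.1 this.1 this.2 p hpq.1, no_emp a hg.1 this.1 this.2 p' hpq'.1⟩
        · left
          have : a ≠ ST.free ∧ a ≠ ST.emp := by
            rcases h with rfl | h
            · simp
            · exact isN_ne a h
          exact ⟨no_emp a hg.1 this.1 this.2 p hpq.1, no_emp a hg.1 this.1 this.2 p' hpq'.1⟩
    · exact Multiset.Nodup.product (iha l hn.2.1 hg.1) (ihb l hn.2.2 hg.2.1)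

noncomputable def Lmin : ST → Finset ℕ
  | ST.node l a b => if a = ST.free ∨ b = ST.free then Lmin a ∪ Lmin b
      else insert l (Lmin a ∪ Lmin b)
  | _ => ∅

def Lall : ST → Finset ℕ
  | ST.node l a b => insert l (Lall a ∪ Lall b)
  | _ => ∅

theorem Lmin_sub (g : ST) : Lmin g ⊆ Lall g := by
  induction g with
  | emp => simp [Lmin]
  | fix => simp [Lmin]
  | free => simp [Lmin]
  | node l a b iha ihb =>
    simp only [Lmin, Lall]
    split_ifs
    · exact (Finset.union_subset_union iha ihb).trans (Finset.subset_insert _ _)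
    · exact Finset.insert_subset_insert _ (Finset.union_subset_union iha ihb)

theorem Lall_lt (g : ST) : ∀ n, bd n g → ∀ x ∈ Lall g, x < n := by
  induction g with
  | emp => intro n _ x hx; simp [Lall] at hx
  | fix => intro n _ x hx; simp [Lall] at hx
  | free => intro n _ x hx; simp [Lall] at hx
  | node l a b iha ihb =>
    intro n h x hx
    simp only [bd] at h
    simp only [Lall, Finset.mem_insert, Finset.mem_union] at hx
    rcases hx with rfl | hx | hx
    · exact h.1
    · exact (iha l h.2.1 x hx).trans h.1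
    · exact (ihb l h.2.2 x hx).trans h.1

theorem card_diff (g : ST) : (Lall g \ Lmin g).card ≤ nf g + (if g = ST.free then 0 else 0) := by
  induction g with
  | emp => simp [Lmin, Lall]
  | fix => simp [Lmin, Lall]
  | free => simp [Lmin, Lall]
  | node l a b iha ihb =>
    simp only [ite_self, add_zero] at iha ihb ⊢
    simp only [Lmin, Lall, nf]
    split_ifs with h
    · have hsub : insert l (Lall a ∪ Lall b) \ (Lmin a ∪ Lmin b)
          ⊆ insert l ((Lall a \ Lmin a) ∪ (Lall b \ Lmin b)) := by
        intro x hx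
        simp only [Finset.mem_sdiff, Finset.mem_insert, Finset.mem_union] at hx ⊢
        tauto
      refine (Finset.card_le_card hsub).trans ((Finset.card_insert_le _ _).trans ?_)
      have hu := Finset.card_union_le (Lall a \ Lmin a) (Lall b \ Lmin b)
      rcases h with rfl | rfl
      · simp only [Lall, Lmin, nf, Finset.sdiff_self, Finset.card_empty] at hu ⊢
        simp at hu ⊢
        omega
      · simp only [Lall, Lmin, nf, Finset.sdiff_self, Finset.card_empty] at hu ⊢
        simp at hu ⊢
        omega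
    · have hsub : insert l (Lall a ∪ Lall b) \ insert l (Lmin a ∪ Lmin b)
          ⊆ (Lall a \ Lmin a) ∪ (Lall b \ Lmin b) := by
        intro x hx
        simp only [Finset.mem_sdiff, Finset.mem_insert, Finset.mem_union] at hx ⊢
        tauto
      refine (Finset.card_le_card hsub).trans ((Finset.card_union_le _ _).trans ?_)
      omega

theorem labels_comb_sub (l : ℕ) (p q : PT) : labels (comb l p q) ⊆ insert l (labels p ∪ labels q) := by
  rcases comb_cases l p q with ⟨_, e⟩ | ⟨_, e⟩ | ⟨_, _, e⟩ <;> rw [e]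
  · exact Finset.subset_union_right.trans (Finset.subset_insert _ _)
  · exact Finset.subset_union_left.trans (Finset.subset_insert _ _)
  · exact Finset.Subset.refl _

theorem labels_comb_sup (l : ℕ) (p q : PT) : labels p ∪ labels q ⊆ labels (comb l p q) := by
  rcases comb_cases l p q with ⟨h, e⟩ | ⟨h, e⟩ | ⟨_, _, e⟩ <;> rw [e]
  · subst h; simp [labels]
  · subst h; simp [labels]
  · exact Finset.subset_insert _ _

theorem labels_all (g : ST) : ∀ p ∈ outs g, labels p ⊆ Lall g := by
  induction g with
  | emp => intro p hp; simp [outs] at hp; subst hp; simp [labels]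
  | fix => intro p hp; simp [outs] at hp; subst hp; simp [labels]
  | free => intro p hp; simp [outs] at hp; rcases hp with rfl | rfl <;> simp [labels]
  | node l a b iha ihb =>
    intro p hp
    rw [mem_outs_node] at hp
    obtain ⟨p1, h1, p2, h2, rfl⟩ := hp
    exact (labels_comb_sub l p1 p2).trans
      (Finset.insert_subset_insert _ (Finset.union_subset_union (iha p1 h1) (ihb p2 h2)))

theorem labels_min (g : ST) (hg : gd g) : ∀ p ∈ outs g, Lmin g ⊆ labels p := by
  induction g with
  | emp => intro p hp; simp [Lmin]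
  | fix => intro p hp; simp [Lmin]
  | free => intro p hp; simp [Lmin]
  | node l a b iha ihb =>
    intro p hp
    simp only [gd] at hg
    rw [mem_outs_node] at hp
    obtain ⟨p1, h1, p2, h2, rfl⟩ := hp
    have hs : Lmin a ∪ Lmin b ⊆ labels p1 ∪ labels p2 :=
      Finset.union_subset_union (iha hg.1 p1 h1) (ihb hg.2.1 p2 h2)
    simp only [Lmin]
    split_ifs with h
    · exact hs.trans (labels_comb_sup l p1 p2)
    · push_neg at h
      have h3 : p1 ≠ PT.emp := by
        apply no_emp a hg.1 h.1 _ p1 h1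
        rintro rfl
        have := hg.2.2
        simp [ok, isN] at this
      have h4 : p2 ≠ PT.emp := by
        apply no_emp b hg.2.1 h.2 _ p2 h2
        rintro rfl
        have := hg.2.2
        simp [ok, isN] at this
      rw [comb_ne l p1 p2 h3 h4]
      exact Finset.insert_subset_insert _ hs

theorem level {α : Type} (g : ST) (n : ℕ) (hg : gd g) (hb : bd n g) (Q : PT → Prop)
    (inj : ∀ p p', Q p → Q p' → labels p = labels p' → p = p')
    (ty : Finset ℕ → α) (τ : α) (hQ : ∀ p, Q p → ty (labels p) = τ) :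
    S1 (fun p => if Q p then 1 else 0) g
      ≤ (((Lall g \ Lmin g).powerset.filter (fun B => ty (Lmin g ∪ B) = τ)).card : ℝ) := by
  set O : Finset PT := ⟨outs g, outs_nodup g n hb hg⟩ with hO
  have h1 : S1 (fun p => if Q p then (1 : ℝ) else 0) g = ∑ p ∈ O, (if Q p then (1 : ℝ) else 0) := rfl
  rw [h1, Finset.sum_boole]
  have hmem : ∀ p, p ∈ O ↔ p ∈ outs g := fun p => Iff.rfl
  norm_cast
  apply Finset.card_le_card_of_injOn (fun p => labels p \ Lmin g)
  · intro p hp
    simp only [Finset.coe_filter, Set.mem_setOf_eq, hmem] at hp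
    have hm := labels_min g hg p hp.1
    have ha := labels_all g p hp.1
    simp only [Finset.coe_filter, Set.mem_setOf_eq, Finset.mem_powerset]
    refine ⟨Finset.sdiff_subset_sdiff ha (Finset.Subset.refl _), ?_⟩
    rw [Finset.union_sdiff_of_subset hm]
    exact hQ p hp.2
  · intro p hp p' hp' h
    simp only [Finset.coe_filter, Set.mem_setOf_eq, hmem] at hp hp'
    have hm := labels_min g hg p hp.1
    have hm' := labels_min g hg p' hp'.1
    apply inj p p' hp.2 hp'.2
    dsimp only at h
    rw [← Finset.union_sdiff_of_subset hm, h, Finset.union_sdiff_of_subset hm']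

theorem disj_min (g : ST) : Disjoint (Lmin g) (Lall g \ Lmin g) := Finset.disjoint_sdiff

end Pool.Agent.H221R3.Tw
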