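import Mathlib
import Pool.Agent.H221R3.TwB

set_option autoImplicit false

namespace Pool.Agent.H221R3.Tw

open Classical

noncomputable def cs (σ : PT) (t : ST) : ℝ := S1 (fun p => if psh p = σ then 1 else 0) t
noncomputable def ce (t : ST) : ℝ := S1 (fun p => if p = PT.emp then 1 else 0) t
noncomputable def csn (σ : PT) (t : ST) : ℝ :=
  S1 (fun p => if p ≠ PT.emp ∧ psh p = σ then 1 else 0) t

def UB (t : ST) (v : ℝ) : Prop := ∀ σ, σ ≠ PT.emp → cs σ t + ce t ≤ v

theorem S1_prod (f g : PT → ℝ) (a b : ST) :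
    S1 (fun p => S1 (fun q => f p * g q) b) a = S1 f a * S1 g b := by
  have : (fun p => S1 (fun q => f p * g q) b) = fun p => f p * S1 g b := by
    funext p
    rw [S1_mul_left]
  rw [this, S1_mul_right]

theorem ce_nonneg (t : ST) : 0 ≤ ce t := by
  apply S1_nonneg; intro p; split_ifs <;> norm_num
theorem cs_nonneg (σ : PT) (t : ST) : 0 ≤ cs σ t := by
  apply S1_nonneg; intro p; split_ifs <;> norm_num
theorem csn_nonneg (σ : PT) (t : ST) : 0 ≤ csn σ t := by
  apply S1_nonneg; intro p; split_ifs <;> norm_num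

theorem ce_node (l : ℕ) (a b : ST) : ce (ST.node l a b) = ce a * ce b := by
  unfold ce
  rw [S1_node, ← S1_prod]
  apply S1_congr
  intro p _
  apply S1_congr
  intro q _
  rcases comb_cases l p q with ⟨h, e⟩ | ⟨h, e⟩ | ⟨h1, h2, e⟩ <;> rw [e]
  · simp [h]
  · simp [h]
  · simp [h1]

theorem psh_emp (p : PT) : psh p = PT.emp ↔ p = PT.emp := by
  cases p <;> simp [psh, mapP]

def sl : PT → PT
  | PT.node _ a _ => a
  | _ => PT.emp
def sr : PT → PT
  | PT.node _ _ b => b
  | _ => PT.emp

theorem cs_node (σ : PT) (hσ : σ ≠ PT.emp) (l : ℕ) (a b : ST) :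
    cs σ (ST.node l a b) ≤ csn (sl σ) a * csn (sr σ) b + (ce a * cs σ b + cs σ a * ce b) := by
  unfold cs ce csn
  rw [S1_node, ← S1_prod, ← S1_prod, ← S1_prod, ← S1_add, ← S1_add]
  apply S1_mono
  intro p _
  rw [← S1_add, ← S1_add]
  apply S1_mono
  intro q _
  rcases comb_cases l p q with ⟨h, e⟩ | ⟨h, e⟩ | ⟨h1, h2, e⟩ <;> rw [e]
  · subst h
    have h0 : ¬ (psh PT.emp = σ) := fun h => hσ h.symm
    simp [h0]
  · subst h
    have h0 : ¬ (psh PT.emp = σ) := fun h => hσ h.symm
    simp [h0]
  · by_cases h : psh (PT.node l p q) = σ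
    · subst h
      simp [psh, mapP, sl, sr, h1, h2]
    · rw [if_neg h]
      have : ∀ (P Q R S : Prop), (0 : ℝ) ≤ (if P then (1 : ℝ) else 0) * (if Q then (1 : ℝ) else 0)
          + ((if R then (1 : ℝ) else 0) * (if S then (1 : ℝ) else 0)) := by
        intro P Q R S
        split_ifs <;> norm_num
      simp only [h1, h2, if_false, zero_mul, mul_zero, add_zero]
      split_ifs <;> norm_num

theorem csn_le (σ : PT) (t : ST) (v : ℝ) (h : UB t v) : csn σ t + ce t ≤ v := by
  by_cases hσ : σ = PT.emp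
  · subst hσ
    have h0 : csn PT.emp t = 0 := by
      unfold csn
      have : S1 (fun p => if p ≠ PT.emp ∧ psh p = PT.emp then (1 : ℝ) else 0) t = S1 (fun _ => 0 * 1) t := by
        apply S1_congr
        intro p _
        rw [psh_emp]
        simp
      rw [this, S1_mul_left, zero_mul]
    have h1 := h PT.leaf (by simp)
    have h2 := cs_nonneg PT.leaf t
    linarith
  · refine le_trans ?_ (h σ hσ)
    apply add_le_add_left
    apply S1_mono
    intro p _
    by_cases h1 : psh p = σ
    · simp [h1]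
      split_ifs <;> norm_num
    · simp [h1]

theorem UB_mul (l : ℕ) (a b : ST) (va vb : ℝ) (ha : UB a va) (hb : UB b vb) :
    UB (ST.node l a b) (va * vb) := by
  intro σ hσ
  have h1 := cs_node σ hσ l a b
  rw [ce_node]
  have h2 := csn_le (sl σ) a va ha
  have h3 := csn_le (sr σ) b vb hb
  have h4 := ha σ hσ
  have h5 := hb σ hσ
  have p1 := csn_nonneg (sl σ) a
  have p2 := csn_nonneg (sr σ) b
  have p3 := ce_nonneg a
  have p4 := ce_nonneg b
  have p5 := cs_nonneg σ a
  have p6 := cs_nonneg σ b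
  set u := va - ce a
  set w := vb - ce b
  have hu1 : csn (sl σ) a ≤ u := by simp only [u]; linarith
  have hu2 : cs σ a ≤ u := by simp only [u]; linarith
  have hw1 : csn (sr σ) b ≤ w := by simp only [w]; linarith
  have hw2 : cs σ b ≤ w := by simp only [w]; linarith
  have e : va * vb = u * w + (ce a * w + u * ce b) + ce a * ce b := by simp only [u, w]; ring
  rw [e]
  have i1 : csn (sl σ) a * csn (sr σ) b ≤ u * w := mul_le_mul hu1 hw1 p2 (p1.trans hu1)
  have i2 : ce a * cs σ b ≤ ce a * w := mul_le_mul_of_nonneg_left hw2 p3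
  have i3 : cs σ a * ce b ≤ u * ce b := mul_le_mul_of_nonneg_right hu2 p4
  linarith

theorem UB_all (t : ST) : UB t (2 ^ nf t) := by
  intro σ hσ
  rw [← S1_one t]
  unfold cs ce
  rw [← S1_add]
  apply S1_mono
  intro p _
  by_cases h : psh p = σ
  · have : p ≠ PT.emp := by
      rintro rfl
      exact hσ h.symm
    simp [h, this]
  · simp [h]
    split_ifs <;> norm_num

theorem UB_mono (t : ST) (v w : ℝ) (h : UB t v) (hvw : v ≤ w) : UB t w :=
  fun σ hσ => (h σ hσ).trans hvw

theorem UB_cherry (l : ℕ) (a b : ST) (ha : isLf a) (hb : isLf b) (h : a = ST.free ∨ b = ST.free) :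
    UB (ST.node l a b) (2 ^ nf (ST.node l a b) * (3 / 4) ^ 1) := by
  intro σ hσ
  have h0 : ¬ (PT.emp = σ) := fun h => hσ h.symm
  have h1 : psh PT.emp = PT.emp := rfl
  have h2 : psh PT.leaf = PT.leaf := rfl
  have h3 : psh (PT.node l PT.leaf PT.leaf) = PT.node 0 PT.leaf PT.leaf := rfl
  by_cases c1 : σ = PT.leaf
  · subst c1
    rcases ha with rfl | rfl <;> rcases hb with rfl | rfl
    · simp at h
    all_goals
      simp [cs, ce, S1_node, S1_fix, S1_free, comb_ll, comb_emp_left, comb_emp_right, h1, h2, h3, nf]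
      norm_num
  · have c1' : ¬ (PT.leaf = σ) := fun h => c1 h.symm
    by_cases c2 : σ = PT.node 0 PT.leaf PT.leaf
    · subst c2
      rcases ha with rfl | rfl <;> rcases hb with rfl | rfl
      · simp at h
      all_goals
        simp [cs, ce, S1_node, S1_fix, S1_free, comb_ll, comb_emp_left, comb_emp_right, h1, h2, h3, nf]
        norm_num
    · have c2' : ¬ (PT.node 0 PT.leaf PT.leaf = σ) := fun h => c2 h.symm
      rcases ha with rfl | rfl <;> rcases hb with rfl | rfl
      · simp at h
      all_goals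
        simp [cs, ce, S1_node, S1_fix, S1_free, comb_ll, comb_emp_left, comb_emp_right, h1, h2, h3, nf,
          c1', c2', h0]
        norm_num

theorem ca_leaf (t : ST) (h : isLf t) : ca t = 0 := by
  rcases h with rfl | rfl <;> simp [ca]
theorem cc_leaf (t : ST) (h : isLf t) : cc t = 0 := by
  rcases h with rfl | rfl <;> simp [cc]

theorem UB34 (t : ST) (h : wf t) : UB t (2 ^ nf t * (3 / 4) ^ ca t) := by
  induction t with
  | emp => simp [wf] at h
  | fix => simpa [ca] using UB_all ST.fix
  | free => simpa [ca] using UB_all ST.free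
  | node l a b iha ihb =>
    simp only [wf] at h
    by_cases hl : isLf a ∧ isLf b
    · simp only [ca]
      rw [if_pos hl]
      split_ifs with hf
      · exact UB_cherry l a b hl.1 hl.2 hf
      · simpa using UB_all (ST.node l a b)
    · simp only [ca]
      rw [if_neg hl]
      have := UB_mul l a b _ _ (iha h.1) (ihb h.2)
      refine UB_mono _ _ _ this (le_of_eq ?_)
      simp only [nf]
      rw [pow_add, pow_add]; ring

/-! leaf counts -/

def nx : ST → ℕ
  | ST.emp => 0
  | ST.fix => 1
  | ST.free => 0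
  | ST.node _ a b => nx a + nx b

theorem leaves_comb (l : ℕ) (p q : PT) : leaves (comb l p q) = leaves p + leaves q := by
  rcases comb_cases l p q with ⟨h, e⟩ | ⟨h, e⟩ | ⟨h1, h2, e⟩ <;> rw [e]
  · subst h; simp [leaves]
  · subst h; simp [leaves]
  · simp [leaves]

open Polynomial in
theorem GP_eq (t : ST) :
    ((outs t).map (fun p => (X : ℝ[X]) ^ leaves p)).sum = X ^ nx t * (1 + X) ^ nf t := by
  induction t with
  | emp => simp [outs, nx, nf, leaves]
  | fix => simp [outs, nx, nf, leaves]
  | free => simp [outs, nx, nf, leaves]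
  | node l a b iha ihb =>
    simp only [outs, Multiset.map_bind, Multiset.sum_bind, Multiset.map_map, Function.comp_def,
      leaves_comb, pow_add, Multiset.sum_map_mul_left, Multiset.sum_map_mul_right, iha, ihb, nx, nf]
    ring

open Polynomial in
theorem count_leaves (t : ST) (s : ℕ) :
    S1 (fun p => if leaves p = s then 1 else 0) t
      = (X ^ nx t * (1 + X) ^ nf t : ℝ[X]).coeff s := by
  rw [← GP_eq]
  have h := map_multiset_sum (Polynomial.lcoeff ℝ s) ((outs t).map (fun p => (X : ℝ[X]) ^ leaves p))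
  simp only [Polynomial.lcoeff_apply, Multiset.map_map, Function.comp_def, Polynomial.coeff_X_pow] at h
  rw [h]
  unfold S1
  congr 1
  apply Multiset.map_congr rfl
  intro p _
  by_cases hp : leaves p = s
  · simp [hp]
  · simp [hp, Ne.symm hp]

theorem count_leaves_le (t : ST) (s : ℕ) :
    ∃ i, S1 (fun p => if leaves p = s then 1 else 0) t ≤ ((nf t).choose i : ℝ) := by
  rw [count_leaves, Polynomial.coeff_X_pow_mul']
  split_ifs
  · rw [Polynomial.coeff_one_add_X_pow]
    exact ⟨_, le_refl _⟩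
  · exact ⟨0, by simp⟩

theorem leaves_mapP (f : ℕ → ℕ) (p : PT) : leaves (mapP f p) = leaves p := by
  induction p with
  | emp => rfl
  | leaf => rfl
  | node l a b iha ihb => simp [mapP, leaves, iha, ihb]

theorem cs_le_leaves (σ : PT) (t : ST) :
    cs σ t ≤ S1 (fun p => if leaves p = leaves σ then 1 else 0) t := by
  apply S1_mono
  intro p _
  by_cases h : psh p = σ
  · subst h
    simp [psh, leaves_mapP]
  · rw [if_neg h]
    split_ifs <;> norm_num

theorem cb_even (m : ℕ) : (Nat.centralBinom m) ^ 2 * (2 * m + 1) ≤ 16 ^ m := by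
  induction m with
  | zero => simp
  | succ m ih =>
    have h := Nat.succ_mul_centralBinom_succ m
    have hp : 0 < (m + 1) ^ 2 := by positivity
    apply Nat.le_of_mul_le_mul_left _ hp
    calc (m + 1) ^ 2 * ((Nat.centralBinom (m + 1)) ^ 2 * (2 * (m + 1) + 1))
        = ((m + 1) * Nat.centralBinom (m + 1)) ^ 2 * (2 * m + 3) := by ring
      _ = (2 * (2 * m + 1) * Nat.centralBinom m) ^ 2 * (2 * m + 3) := by rw [h]
      _ = ((Nat.centralBinom m) ^ 2 * (2 * m + 1)) * (4 * (2 * m + 1) * (2 * m + 3)) := by ring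
      _ ≤ 16 ^ m * (4 * (2 * m + 1) * (2 * m + 3)) := Nat.mul_le_mul_right _ ih
      _ ≤ 16 ^ m * (16 * (m + 1) ^ 2) := by
          apply Nat.mul_le_mul_left
          nlinarith
      _ = (m + 1) ^ 2 * 16 ^ (m + 1) := by ring

theorem cb_all (f : ℕ) : (f.choose (f / 2)) ^ 2 * (f + 1) ≤ 4 ^ f := by
  rcases Nat.even_or_odd f with ⟨m, hm⟩ | ⟨m, hm⟩
  · have h := cb_even m
    have e1 : f / 2 = m := by omega
    rw [e1]
    have e2 : f = 2 * m := by omega
    rw [e2]
    have : Nat.centralBinom m = (2 * m).choose m := rfl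
    rw [this] at h
    rw [pow_mul]
    norm_num
    exact h
  · have h := cb_even (m + 1)
    have e1 : f / 2 = m := by omega
    rw [e1, hm]
    have e2 : Nat.centralBinom (m + 1) = 2 * (2 * m + 1).choose m := by
      have h1 : Nat.centralBinom (m + 1) = (2 * m + 1 + 1).choose (m + 1) := rfl
      rw [h1, Nat.choose_succ_succ, Nat.choose_symm_half]; ring
    rw [e2] at h
    have h3 : 4 * (((2 * m + 1).choose m) ^ 2 * (2 * m + 1 + 1)) ≤ 4 * 4 ^ (2 * m + 1) := by
      calc 4 * (((2 * m + 1).choose m) ^ 2 * (2 * m + 1 + 1))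
          ≤ (2 * (2 * m + 1).choose m) ^ 2 * (2 * (m + 1) + 1) := by
            nlinarith [sq_nonneg ((2 * m + 1).choose m)]
        _ ≤ 16 ^ (m + 1) := h
        _ = 4 * 4 ^ (2 * m + 1) := by
            rw [pow_succ 4 (2 * m), pow_mul, pow_succ]; norm_num; ring
    exact Nat.le_of_mul_le_mul_left h3 (by norm_num)

theorem ce_le_one (t : ST) : ce t ≤ 1 := by
  induction t with
  | emp => simp [ce, S1_emp]
  | fix => simp [ce, S1_fix]
  | free => simp [ce, S1_free]
  | node l a b iha ihb =>
    rw [ce_node]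
    have := ce_nonneg a
    have := ce_nonneg b
    nlinarith

theorem UBg0 (t : ST) (s : ℕ) (hs : 0 < s) (h : s ^ 2 ≤ nf t + 1) :
    UB t (2 ^ nf t * (2 / s : ℝ)) := by
  intro σ hσ
  obtain ⟨i, hi⟩ := count_leaves_le t (leaves σ)
  have h1 := cs_le_leaves σ t
  have h2 : ((nf t).choose i : ℝ) ≤ ((nf t).choose (nf t / 2) : ℝ) := by
    exact_mod_cast Nat.choose_le_middle i (nf t)
  have h3 := ce_le_one t
  have h4 : (1 : ℝ) ≤ ((nf t).choose (nf t / 2) : ℝ) := by
    exact_mod_cast Nat.choose_pos (Nat.div_le_self _ _)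
  have h5 : ((nf t).choose (nf t / 2)) * s ≤ 2 ^ nf t := by
    have := cb_all (nf t)
    apply (Nat.pow_le_pow_iff_left (n := 2) (by norm_num)).mp
    calc (((nf t).choose (nf t / 2)) * s) ^ 2 = ((nf t).choose (nf t / 2)) ^ 2 * s ^ 2 := by ring
      _ ≤ ((nf t).choose (nf t / 2)) ^ 2 * (nf t + 1) := Nat.mul_le_mul_left _ h
      _ ≤ 4 ^ nf t := this
      _ = (2 ^ nf t) ^ 2 := by rw [← pow_mul, mul_comm, pow_mul]; norm_num
  have h6 : ((nf t).choose (nf t / 2) : ℝ) * s ≤ 2 ^ nf t := by exact_mod_cast h5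
  have hs' : (0 : ℝ) < s := by exact_mod_cast hs
  have h7 : ((nf t).choose (nf t / 2) : ℝ) ≤ 2 ^ nf t / s := by
    rw [le_div_iff₀ hs']; exact h6
  have h8 : (2 : ℝ) ^ nf t * (2 / s) = 2 * (2 ^ nf t / s) := by ring
  rw [h8]
  linarith

def Lt (h : ℕ) : ST → Prop
  | ST.node _ a b => (isN a ∧ isN b ∧ ((1 ≤ nf a ∧ nf a < h) ∨ (1 ≤ nf b ∧ nf b < h)))
      ∨ Lt h a ∨ Lt h b
  | _ => False

theorem ca_le_cc (t : ST) : ca t ≤ cc t := by
  induction t with
  | emp => simp [ca]
  | fix => simp [ca]
  | free => simp [ca]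
  | node l a b iha ihb =>
    simp only [ca, cc]
    split_ifs <;> omega

theorem ca_le_nf (t : ST) : ca t ≤ nf t := by
  induction t with
  | emp => simp [ca]
  | fix => simp [ca]
  | free => simp [ca]
  | node l a b iha ihb =>
    simp only [ca, nf]
    split_ifs with h1 h2
    · rcases h2 with rfl | rfl <;> simp [nf] <;> omega
    · omega
    · omega

theorem cc_pos (t : ST) (h : wf t) (hN : isN t) : 1 ≤ cc t := by
  induction t with
  | emp => simp [wf] at h
  | fix => simp [isN] at hN
  | free => simp [isN] at hN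
  | node l a b iha ihb =>
    simp only [wf] at h
    simp only [cc]
    split_ifs with h1
    · exact le_refl _
    · rcases wf_cases a h.1 with la | na
      · rcases wf_cases b h.2 with lb | nb
        · exact absurd ⟨la, lb⟩ h1
        · have := ihb h.2 nb; omega
      · have := iha h.1 na; omega

theorem UBg (s : ℕ) (hs : 0 < s) (t : ST) :
    wf t → ¬ Lt (s ^ 2) t → 2 ≤ cc t → UB t (2 ^ nf t * (2 / s : ℝ) ^ ca t) := by
  have side : ∀ a : ST, wf a → isN a → (nf a = 0 ∨ s ^ 2 ≤ nf a) →
      (2 ≤ cc a → UB a (2 ^ nf a * (2 / s : ℝ) ^ ca a)) →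
      UB a (2 ^ nf a * (2 / s : ℝ) ^ ca a) := by
    intro a wa na hn hc
    by_cases h2 : 2 ≤ cc a
    · exact hc h2
    · have h3 := ca_le_cc a
      have h4 : ca a = 0 ∨ ca a = 1 := by omega
      rcases h4 with h4 | h4
      · rw [h4]; simpa using UB_all a
      · rw [h4, pow_one]
        have h5 := ca_le_nf a
        apply UBg0 a s hs
        rcases hn with hn | hn
        · omega
        · omega
  induction t with
  | emp => intro h; simp [wf] at h
  | fix => intro _ _ h; simp [cc] at h
  | free => intro _ _ h; simp [cc] at h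
  | node l a b iha ihb =>
    intro h hL hc
    simp only [wf] at h
    simp only [Lt] at hL
    rw [not_or, not_or] at hL
    obtain ⟨hL1, hL2, hL3⟩ := hL
    simp only [cc] at hc
    have hl : ¬ (isLf a ∧ isLf b) := by
      intro hl
      rw [if_pos hl] at hc
      omega
    rw [if_neg hl] at hc
    have fin : UB a (2 ^ nf a * (2 / s : ℝ) ^ ca a) → UB b (2 ^ nf b * (2 / s : ℝ) ^ ca b) →
        UB (ST.node l a b) (2 ^ nf (ST.node l a b) * (2 / s : ℝ) ^ ca (ST.node l a b)) := by
      intro ha hb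
      have := UB_mul l a b _ _ ha hb
      refine UB_mono _ _ _ this (le_of_eq ?_)
      simp only [nf, ca]
      rw [if_neg hl, pow_add, pow_add]; ring
    have lf : ∀ a : ST, isLf a → UB a (2 ^ nf a * (2 / s : ℝ) ^ ca a) := by
      intro a la
      rw [ca_leaf a la]; simpa using UB_all a
    rcases wf_cases a h.1 with la | na
    · rcases wf_cases b h.2 with lb | nb
      · exact absurd ⟨la, lb⟩ hl
      · rw [cc_leaf a la, zero_add] at hc
        exact fin (lf a la) (ihb h.2 hL3 hc)
    · rcases wf_cases b h.2 with lb | nb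
      · rw [cc_leaf b lb, add_zero] at hc
        exact fin (iha h.1 hL2 hc) (lf b lb)
      · have hn : (nf a = 0 ∨ s ^ 2 ≤ nf a) ∧ (nf b = 0 ∨ s ^ 2 ≤ nf b) := by
          constructor
          · by_contra hh
            apply hL1
            refine ⟨na, nb, Or.inl ?_⟩
            omega
          · by_contra hh
            apply hL1
            refine ⟨na, nb, Or.inr ?_⟩
            omega
        exact fin (side a h.1 na hn.1 (iha h.1 hL2)) (side b h.2 nb hn.2 (ihb h.2 hL3))

end Pool.Agent.H221R3.Tw
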