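import Mathlib
import Pool.Agent.H221R3.TwC

set_option autoImplicit false

namespace Pool.Agent.H221R3.Tw

open Classical

noncomputable def core : PT → PT
  | PT.node l a b =>
      if a = PT.leaf then (if b = PT.leaf then PT.node l a b else core b)
      else if b = PT.leaf then core a else PT.node l a b
  | p => p

noncomputable def cher : PT → ℕ
  | PT.node _ a b => if a = PT.leaf ∧ b = PT.leaf then 1 else cher a + cher b
  | _ => 0

theorem cher_core (p : PT) : cher (core p) = cher p := by
  induction p with
  | emp => rfl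
  | leaf => rfl
  | node l a b iha ihb =>
    simp only [core]
    split_ifs with h1 h2 h3
    · rfl
    · rw [ihb]; simp [cher, h1, h2]
    · rw [iha]; simp [cher, h1, h3]
    · rfl

theorem mapP_leaf (f : ℕ → ℕ) (p : PT) : mapP f p = PT.leaf ↔ p = PT.leaf := by
  cases p <;> simp [mapP]

theorem mapP_emp (f : ℕ → ℕ) (p : PT) : mapP f p = PT.emp ↔ p = PT.emp := by
  cases p <;> simp [mapP]

theorem cher_mapP (f : ℕ → ℕ) (p : PT) : cher (mapP f p) = cher p := by
  induction p with
  | emp => rfl
  | leaf => rfl
  | node l a b iha ihb => simp [mapP, cher, mapP_leaf, iha, ihb]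

def isNp : PT → Prop
  | PT.node _ _ _ => True
  | _ => False

theorem isNp_iff (p : PT) : isNp p ↔ p ≠ PT.emp ∧ p ≠ PT.leaf := by
  cases p <;> simp [isNp]

theorem node_outs (g : ST) (hg : gd g) : isN g → ∀ p ∈ outs g, isNp p := by
  induction g with
  | emp => intro h; simp [isN] at h
  | fix => intro h; simp [isN] at h
  | free => intro h; simp [isN] at h
  | node l a b iha ihb =>
    intro _ p hp
    simp only [gd] at hg
    rw [mem_outs_node] at hp
    obtain ⟨p1, h1, p2, h2, rfl⟩ := hp
    rcases comb_cases l p1 p2 with ⟨h3, h⟩ | ⟨h3, h⟩ | ⟨h3, h4, h⟩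
    · rw [h]
      apply ihb hg.2.1 _ p2 h2
      rcases ok_cases a b hg.2.2 with ⟨_, h⟩ | ⟨h, _⟩ | ⟨h, h'⟩
      · exact h
      · exact absurd h3 (no_emp a hg.1 (isN_ne a h).1 (isN_ne a h).2 p1 h1)
      · rcases h with rfl | h
        · simp [outs] at h1; rw [h1] at h3; simp at h3
        · exact absurd h3 (no_emp a hg.1 (isN_ne a h).1 (isN_ne a h).2 p1 h1)
    · rw [h]
      apply iha hg.1 _ p1 h1
      rcases ok_cases a b hg.2.2 with ⟨_, h⟩ | ⟨h, _⟩ | ⟨h', h⟩
      · exact absurd h3 (no_emp b hg.2.1 (isN_ne b h).1 (isN_ne b h).2 p2 h2)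
      · exact h
      · rcases h with rfl | h
        · simp [outs] at h2; rw [h2] at h3; simp at h3
        · exact absurd h3 (no_emp b hg.2.1 (isN_ne b h).1 (isN_ne b h).2 p2 h2)
    · rw [h]; trivial

theorem leaf_outs (a : ST) (ha : gd a) (h : PT.leaf ∈ outs a) : isLf a := by
  by_contra hh
  have : isN a := by
    cases a with
    | emp => simp [outs] at h
    | fix => simp [isLf] at hh
    | free => simp [isLf] at hh
    | node l a b => trivial
  have := node_outs a ha this _ h
  simp [isNp] at this

theorem cher_cc (d : ST) (hd : gd d) : ∀ p ∈ outs d, cher p = cc d := by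
  induction d with
  | emp => intro p hp; simp [outs] at hp; subst hp; rfl
  | fix => intro p hp; simp [outs] at hp; subst hp; rfl
  | free => intro p hp; simp [outs] at hp; rcases hp with rfl | rfl <;> rfl
  | node l a b iha ihb =>
    intro p hp
    simp only [gd] at hd
    rw [mem_outs_node] at hp
    obtain ⟨p1, h1, p2, h2, rfl⟩ := hp
    simp only [cc]
    have e1 := iha hd.1 p1 h1
    have e2 := ihb hd.2.1 p2 h2
    by_cases hl : isLf a ∧ isLf b
    · rw [if_pos hl]
      have hab : a = ST.fix ∧ b = ST.fix := by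
        rcases hd.2.2 with h | h | h
        · exact absurd h.1 (isLf_not_isN a hl.1)
        · exact absurd h.2 (isLf_not_isN b hl.2)
        · exact h
      obtain ⟨rfl, rfl⟩ := hab
      simp [outs] at h1 h2
      subst h1 h2
      simp [comb_ll, cher]
    · rw [if_neg hl, ← e1, ← e2]
      rcases comb_cases l p1 p2 with ⟨h3, h⟩ | ⟨h3, h⟩ | ⟨h3, h4, h⟩
      · rw [h, h3]; simp [cher]
      · rw [h, h3]; simp [cher]
      · rw [h]
        simp only [cher]
        rw [if_neg]
        rintro ⟨rfl, rfl⟩
        exact hl ⟨leaf_outs a hd.1 h1, leaf_outs b hd.2.1 h2⟩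

def Inc (κ : PT) (c : ST) : Prop := isN c ∧ ∀ p ∈ outs c, core (psh p) ≠ κ

theorem psh_node (l : ℕ) (p q : PT) : psh (PT.node l p q) = PT.node 0 (psh p) (psh q) := rfl

theorem psh_leaf (p : PT) : psh p = PT.leaf ↔ p = PT.leaf := mapP_leaf _ p

theorem core_node_leaf (p : PT) (h : p ≠ PT.leaf) : core (PT.node 0 p PT.leaf) = core p := by
  simp [core, h]

theorem core_leaf_node (p : PT) (h : p ≠ PT.leaf) : core (PT.node 0 PT.leaf p) = core p := by
  simp [core, h]

theorem core_node_node (p q : PT) (h : p ≠ PT.leaf) (h' : q ≠ PT.leaf) :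
    core (PT.node 0 p q) = PT.node 0 p q := by
  simp [core, h, h']

theorem mg_eq_left (l : ℕ) (c d : ST) (hc : isN c) (hd : d ≠ ST.emp) :
    mg l c d = {(ST.node l c d, 0)} := by
  cases c <;> cases d <;> simp_all [isN, mg]

theorem mg_eq_right (l : ℕ) (c d : ST) (hc : isN c) (hd : d ≠ ST.emp) :
    mg l d c = {(ST.node l d c, 0)} := by
  cases c <;> cases d <;> simp_all [isN, mg]

theorem inc_left (κ : PT) (l : ℕ) (c d : ST) (gc : gd c) (gdd : gd d) (hd : d ≠ ST.emp)
    (h : Inc (if isN d then core (sl κ) else κ) c) : Inc κ (ST.node l c d) := by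
  refine ⟨trivial, ?_⟩
  intro p hp
  rw [mem_outs_node] at hp
  obtain ⟨p1, h1, p2, h2, rfl⟩ := hp
  have n1 := (isNp_iff p1).mp (node_outs c gc h.1 p1 h1)
  have n1' : psh p1 ≠ PT.leaf := fun hh => n1.2 ((psh_leaf p1).mp hh)
  by_cases hN : isN d
  · rw [if_pos hN] at h
    have n2 := (isNp_iff p2).mp (node_outs d gdd hN p2 h2)
    have n2' : psh p2 ≠ PT.leaf := fun hh => n2.2 ((psh_leaf p2).mp hh)
    rw [comb_ne l p1 p2 n1.1 n2.1, psh_node, core_node_node _ _ n1' n2']
    intro hk
    apply h.2 p1 h1
    rw [← hk]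
    rfl
  · rw [if_neg hN] at h
    have hl : isLf d := by
      cases d <;> simp_all [isN, isLf]
    have hp2 : p2 = PT.emp ∨ p2 = PT.leaf := by
      rcases hl with rfl | rfl
      · simp [outs] at h2; exact Or.inr h2
      · simp [outs] at h2; exact h2
    rcases hp2 with rfl | rfl
    · rw [comb_emp_right]
      exact h.2 p1 h1
    · rw [comb_ne l p1 _ n1.1 (by simp), psh_node]
      have : psh PT.leaf = PT.leaf := rfl
      rw [this, core_node_leaf _ n1']
      exact h.2 p1 h1

theorem inc_right (κ : PT) (l : ℕ) (c d : ST) (gc : gd c) (gdd : gd d) (hd : d ≠ ST.emp)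
    (h : Inc (if isN d then core (sr κ) else κ) c) : Inc κ (ST.node l d c) := by
  refine ⟨trivial, ?_⟩
  intro p hp
  rw [mem_outs_node] at hp
  obtain ⟨p2, h2, p1, h1, rfl⟩ := hp
  have n1 := (isNp_iff p1).mp (node_outs c gc h.1 p1 h1)
  have n1' : psh p1 ≠ PT.leaf := fun hh => n1.2 ((psh_leaf p1).mp hh)
  by_cases hN : isN d
  · rw [if_pos hN] at h
    have n2 := (isNp_iff p2).mp (node_outs d gdd hN p2 h2)
    have n2' : psh p2 ≠ PT.leaf := fun hh => n2.2 ((psh_leaf p2).mp hh)
    rw [comb_ne l p2 p1 n2.1 n1.1, psh_node, core_node_node _ _ n2' n1']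
    intro hk
    apply h.2 p1 h1
    rw [← hk]
    rfl
  · rw [if_neg hN] at h
    have hl : isLf d := by
      cases d <;> simp_all [isN, isLf]
    have hp2 : p2 = PT.emp ∨ p2 = PT.leaf := by
      rcases hl with rfl | rfl
      · simp [outs] at h2; exact Or.inr h2
      · simp [outs] at h2; exact h2
    rcases hp2 with rfl | rfl
    · rw [comb_emp_left]
      exact h.2 p1 h1
    · rw [comb_ne l _ p1 (by simp) n1.1, psh_node]
      have : psh PT.leaf = PT.leaf := rfl
      rw [this, core_leaf_node _ n1']
      exact h.2 p1 h1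

noncomputable def wI (κ : PT) (P : Multiset (ST × ℕ)) : ℝ :=
  PS (fun c q => if Inc κ c then (1 / 2 : ℝ) ^ q else 0) P

structure SplitP (n h : ℕ) (t : ST) (P : Multiset (ST × ℕ)) : Prop where
  sp : Sp n t P
  ne : Ne0 P
  ph : Phi P ≤ 2 ^ (h + 1) * 4 ^ ca t
  inc : ∀ κ, 1 / 16 ≤ wI κ P

theorem not_both_left (a b : ST) (h : isN a) : ¬ (isLf a ∧ isLf b) :=
  fun hh => isLf_not_isN a hh.1 h
theorem not_both_right (a b : ST) (h : isN b) : ¬ (isLf a ∧ isLf b) :=
  fun hh => isLf_not_isN b hh.2 h

theorem up_left (n h l : ℕ) (a b : ST) (P : Multiset (ST × ℕ)) (na : isN a)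
    (hP : SplitP l h a P) (wb : wf b) (bb : bd l b) (hl : l < n) :
    SplitP n h (ST.node l a b) (cross l P (proc b)) := by
  have spb := proc_Sp b l bb
  have neb := proc_ne b wb
  constructor
  · exact cross_Sp n l a b _ _ hl hP.sp spb
  · exact cross_ne l _ _ (Or.inl hP.ne)
  · simp only [ca]
    rw [if_neg (not_both_left a b na)]
    rcases wf_cases b wb with lb | nb
    · rw [isLf_proc b lb, ca_leaf b lb, add_zero]
      exact (Phi_tooth l P hP.ne b lb).trans hP.ph
    · refine (Phi_cross l _ _).trans ?_
      rw [pow_add (4 : ℝ), ← mul_assoc]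
      exact mul_le_mul hP.ph (Phi_proc b wb nb) (Phi_nonneg _) (by positivity)
  · intro κ
    unfold wI
    rw [PS_cross, PS_PS]
    have hm := mass l b _ spb
    calc (1 / 16 : ℝ) = PS (fun _ q => (1 / 16 : ℝ) * (1 / 2) ^ q) (proc b) := by
          rw [PS_mul_left, hm, mul_one]
      _ ≤ _ := by
          apply PS_mono
          intro y hy
          try dsimp only
          have h1 := hP.inc (if isN y.1 then core (sl κ) else κ)
          unfold wI at h1
          calc (1 / 16 : ℝ) * (1 / 2) ^ y.2
              ≤ PS (fun c q => if Inc (if isN y.1 then core (sl κ) else κ) c then (1 / 2 : ℝ) ^ q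
                  else 0) P * (1 / 2) ^ y.2 := mul_le_mul_of_nonneg_right h1 (by positivity)
            _ ≤ _ := by
              rw [← PS_mul_right]
              apply PS_mono
              intro x hx
              try dsimp only
              by_cases h2 : Inc (if isN y.1 then core (sl κ) else κ) x.1
              · rw [if_pos h2]
                have gx := hP.sp.good x hx
                have gy := spb.good y hy
                rw [mg_eq_left l x.1 y.1 h2.1 (neb y hy), PS_singleton,
                  if_pos (inc_left κ l x.1 y.1 gx.1 gy.1 (neb y hy) h2)]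
                rw [zero_add, pow_add]
              · rw [if_neg h2, zero_mul]
                apply PS_nonneg
                intro z _
                try dsimp only
                split_ifs
                · positivity
                · exact le_refl _

theorem up_right (n h l : ℕ) (a b : ST) (P : Multiset (ST × ℕ)) (na : isN a)
    (hP : SplitP l h a P) (wb : wf b) (bb : bd l b) (hl : l < n) :
    SplitP n h (ST.node l b a) (cross l (proc b) P) := by
  have spb := proc_Sp b l bb
  have neb := proc_ne b wb
  constructor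
  · exact cross_Sp n l b a _ _ hl spb hP.sp
  · exact cross_ne l _ _ (Or.inr hP.ne)
  · simp only [ca]
    rw [if_neg (not_both_right b a na)]
    rcases wf_cases b wb with lb | nb
    · rw [isLf_proc b lb, ca_leaf b lb, zero_add]
      exact (Phi_tooth' l P hP.ne b lb).trans hP.ph
    · refine (Phi_cross l _ _).trans ?_
      rw [mul_comm, add_comm (ca b) (ca a), pow_add (4 : ℝ), ← mul_assoc]
      exact mul_le_mul hP.ph (Phi_proc b wb nb) (Phi_nonneg _) (by positivity)
  · intro κ
    unfold wI
    rw [PS_cross]
    have hm := mass l b _ spb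
    calc (1 / 16 : ℝ) = PS (fun _ q => (1 / 16 : ℝ) * (1 / 2) ^ q) (proc b) := by
          rw [PS_mul_left, hm, mul_one]
      _ ≤ _ := by
          apply PS_mono
          intro y hy
          try dsimp only
          have h1 := hP.inc (if isN y.1 then core (sr κ) else κ)
          unfold wI at h1
          calc (1 / 16 : ℝ) * (1 / 2) ^ y.2
              ≤ PS (fun c q => if Inc (if isN y.1 then core (sr κ) else κ) c then (1 / 2 : ℝ) ^ q
                  else 0) P * (1 / 2) ^ y.2 := mul_le_mul_of_nonneg_right h1 (by positivity)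
            _ ≤ _ := by
              rw [← PS_mul_right]
              apply PS_mono
              intro x hx
              try dsimp only
              by_cases h2 : Inc (if isN y.1 then core (sr κ) else κ) x.1
              · rw [if_pos h2]
                have gx := hP.sp.good x hx
                have gy := spb.good y hy
                rw [mg_eq_right l x.1 y.1 h2.1 (neb y hy), PS_singleton,
                  if_pos (inc_right κ l x.1 y.1 gx.1 gy.1 (neb y hy) h2)]
                rw [zero_add, pow_add, mul_comm]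
              · rw [if_neg h2, zero_mul]
                apply PS_nonneg
                intro z _
                try dsimp only
                split_ifs
                · positivity
                · exact le_refl _

/-- tree with all leaves fixed -/
def fx : PT → ST
  | PT.emp => ST.emp
  | PT.leaf => ST.fix
  | PT.node l a b => ST.node l (fx a) (fx b)

theorem outs_fx (r : PT) (h : rd r) : outs (fx r) = {r} := by
  induction r with
  | emp => rfl
  | leaf => rfl
  | node l a b iha ihb =>
    simp only [rd] at h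
    simp [fx, outs, iha h.1, ihb h.2.1, comb_ne l a b h.2.2.1 h.2.2.2]

theorem fx_ne (r : PT) (h : r ≠ PT.emp) : fx r ≠ ST.emp := by
  cases r <;> simp_all [fx]

theorem gd_fx (r : PT) (h : rd r) : gd (fx r) := by
  induction r with
  | emp => trivial
  | leaf => trivial
  | node l a b iha ihb =>
    simp only [rd] at h
    refine ⟨iha h.1, ihb h.2.1, ?_⟩
    obtain ⟨_, _, h3, h4⟩ := h
    cases a <;> cases b <;> simp_all [fx, ok, isN]

theorem bd_fx (r : PT) : ∀ n, bdp n r → bd n (fx r) := by
  induction r with
  | emp => intro n _; trivial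
  | leaf => intro n _; trivial
  | node l a b iha ihb =>
    intro n h
    exact ⟨h.1, iha l h.2.1, ihb l h.2.2⟩

theorem nf_fx (r : PT) : nf (fx r) = 0 := by
  induction r with
  | emp => rfl
  | leaf => rfl
  | node l a b iha ihb => simp [fx, nf, iha, ihb]

noncomputable def AA (a : ST) : Multiset (ST × ℕ) := (outs a).map (fun r => (fx r, nf a))

theorem PS_AA (G : ST → ℕ → ℝ) (a : ST) : PS G (AA a) = S1 (fun r => G (fx r) (nf a)) a := by
  simp [PS, AA, S1]

theorem AA_Sp (n : ℕ) (a : ST) (h : bd n a) : Sp n a (AA a) := by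
  constructor
  · intro f
    rw [PS_AA]
    apply S1_congr
    intro p hp
    unfold S1
    rw [outs_fx p (outs_rd a p hp)]
    simp
  · intro o ho
    unfold AA at ho
    rw [Multiset.mem_map] at ho
    obtain ⟨r, hr, rfl⟩ := ho
    refine ⟨gd_fx r (outs_rd a r hr), bd_fx r n (outs_bdp a n h r hr), ?_⟩
    simp [nf_fx]

theorem Phi_AA (a : ST) (h : ℕ) (hh : nf a ≤ h) : Phi (AA a) ≤ 2 ^ (h + 1) := by
  unfold Phi
  rw [PS_AA]
  calc S1 (fun r => phi (fx r) * (2 / 3) ^ nf a) a ≤ S1 (fun _ => 2 * 1) a := by
        apply S1_mono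
        intro p _
        have h1 : phi (fx p) ≤ 2 := by cases p <;> norm_num [fx, phi]
        have h2 : (2 / 3 : ℝ) ^ nf a ≤ 1 := pow_le_one₀ (by norm_num) (by norm_num)
        have h3 := phi_ge (fx p)
        exact mul_le_mul h1 h2 (by positivity) (by norm_num)
    _ = 2 * 2 ^ nf a := by rw [S1_mul_left, S1_one]
    _ ≤ 2 * 2 ^ h := by
        apply mul_le_mul_of_nonneg_left _ (by norm_num)
        exact pow_le_pow_right₀ (by norm_num) hh
    _ = 2 ^ (h + 1) := by rw [pow_succ]; ring

theorem ce_bound (a : ST) (h : wf a) : ce a ≤ 2 ^ nf a / 2 ∧ (isN a → ce a ≤ 2 ^ nf a / 4) := by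
  induction a with
  | emp => simp [wf] at h
  | fix => simp [ce, S1_fix, isN, nf]
  | free => simp [ce, S1_free, isN, nf]
  | node l a b iha ihb =>
    simp only [wf] at h
    have h1 := (iha h.1).1
    have h2 := (ihb h.2).1
    have : ce (ST.node l a b) ≤ 2 ^ nf (ST.node l a b) / 4 := by
      rw [ce_node, nf, pow_add]
      calc ce a * ce b ≤ (2 ^ nf a / 2) * (2 ^ nf b / 2) :=
            mul_le_mul h1 h2 (ce_nonneg b) (by positivity)
        _ = 2 ^ nf a * 2 ^ nf b / 4 := by ring
    refine ⟨?_, fun _ => this⟩
    have h3 : (0 : ℝ) < 2 ^ nf (ST.node l a b) := by positivity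
    linarith

theorem choose_half (n i : ℕ) (hn : 1 ≤ n) : 2 * n.choose i ≤ 2 ^ n := by
  obtain ⟨m, rfl⟩ : ∃ m, n = m + 1 := ⟨n - 1, by omega⟩
  rw [pow_succ, mul_comm]
  apply Nat.mul_le_mul_right
  cases i with
  | zero => simpa using Nat.one_le_two_pow
  | succ i =>
    rw [Nat.choose_succ_succ, ← Nat.sum_range_choose]
    by_cases hi : i + 1 ≤ m
    · have hsub : ({i, i + 1} : Finset ℕ) ⊆ Finset.range (m + 1) := by
        intro x hx
        simp only [Finset.mem_insert, Finset.mem_singleton] at hx
        rw [Finset.mem_range]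
        omega
      have h1 := Finset.sum_le_sum_of_subset (f := fun j => m.choose j) hsub
      rw [Finset.sum_pair (by omega)] at h1
      exact h1
    · have h0 : m.choose (i + 1) = 0 := Nat.choose_eq_zero_of_lt (by omega)
      rw [h0, add_zero]
      by_cases hi' : i ≤ m
      · exact Finset.single_le_sum (f := fun j => m.choose j) (fun _ _ => Nat.zero_le _)
          (Finset.mem_range.mpr (by omega))
      · rw [Nat.choose_eq_zero_of_lt (by omega)]
        exact Nat.zero_le _

theorem half_count (a : ST) (s : ℕ) (h : 1 ≤ nf a) :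
    S1 (fun p => if leaves p = s then 1 else 0) a ≤ 2 ^ nf a / 2 := by
  obtain ⟨i, hi⟩ := count_leaves_le a s
  have h1 := choose_half (nf a) i h
  have h2 : (2 : ℝ) * ((nf a).choose i : ℝ) ≤ 2 ^ nf a := by exact_mod_cast h1
  linarith

theorem rd_cher (r : PT) (h : rd r) (hN : isNp r) : 1 ≤ cher r := by
  induction r with
  | emp => simp [isNp] at hN
  | leaf => simp [isNp] at hN
  | node l a b iha ihb =>
    simp only [rd] at h
    simp only [cher]
    split_ifs with h1
    · exact le_refl _
    · by_cases ha : a = PT.leaf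
      · have hb : b ≠ PT.leaf := fun hb => h1 ⟨ha, hb⟩
        have := ihb h.2.1 ((isNp_iff b).mpr ⟨h.2.2.2, hb⟩)
        omega
      · have := iha h.1 ((isNp_iff a).mpr ⟨h.2.2.1, ha⟩)
        omega

theorem key_left (κ : PT) (l : ℕ) (d : ST) (gdd : gd d) (nd : isN d) (r : PT) (hr : rd r)
    (hre : r ≠ PT.emp) (h : ¬ Inc κ (ST.node l (fx r) d)) :
    (leaves r = 1 ∧ cher κ = cc d) ∨ (leaves r = leaves (sl κ) ∧ 1 + cc d ≤ cher κ) := by
  unfold Inc at h
  push Not at h
  obtain ⟨p, hp, hk⟩ := h trivial
  rw [mem_outs_node, outs_fx r hr] at hp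
  obtain ⟨p1, h1, p2, h2, rfl⟩ := hp
  rw [Multiset.mem_singleton] at h1
  subst h1
  have n2 := (isNp_iff p2).mp (node_outs d gdd nd p2 h2)
  have n2' : psh p2 ≠ PT.leaf := fun hh => n2.2 ((psh_leaf p2).mp hh)
  have e2 := cher_cc d gdd p2 h2
  have e3 : cher (psh p2) = cher p2 := cher_mapP _ _
  rw [comb_ne l p1 p2 hre n2.1, psh_node] at hk
  by_cases hl : p1 = PT.leaf
  · left
    subst hl
    have : psh PT.leaf = PT.leaf := rfl
    rw [this, core_leaf_node _ n2'] at hk
    refine ⟨rfl, ?_⟩
    rw [← hk, cher_core, e3, e2]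
  · right
    have n1' : psh p1 ≠ PT.leaf := fun hh => hl ((psh_leaf p1).mp hh)
    rw [core_node_node _ _ n1' n2'] at hk
    have e4 : cher (psh p1) = cher p1 := cher_mapP _ _
    have e5 := rd_cher p1 hr ((isNp_iff p1).mpr ⟨hre, hl⟩)
    constructor
    · rw [← hk]
      simp [sl, psh, leaves_mapP]
    · rw [← hk]
      simp only [cher]
      rw [if_neg (fun hh => n1' hh.1), e4, e3, e2]
      omega

theorem key_right (κ : PT) (l : ℕ) (d : ST) (gdd : gd d) (nd : isN d) (r : PT) (hr : rd r)
    (hre : r ≠ PT.emp) (h : ¬ Inc κ (ST.node l d (fx r))) :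
    (leaves r = 1 ∧ cher κ = cc d) ∨ (leaves r = leaves (sr κ) ∧ 1 + cc d ≤ cher κ) := by
  unfold Inc at h
  push Not at h
  obtain ⟨p, hp, hk⟩ := h trivial
  rw [mem_outs_node, outs_fx r hr] at hp
  obtain ⟨p2, h2, p1, h1, rfl⟩ := hp
  rw [Multiset.mem_singleton] at h1
  subst h1
  have n2 := (isNp_iff p2).mp (node_outs d gdd nd p2 h2)
  have n2' : psh p2 ≠ PT.leaf := fun hh => n2.2 ((psh_leaf p2).mp hh)
  have e2 := cher_cc d gdd p2 h2
  have e3 : cher (psh p2) = cher p2 := cher_mapP _ _
  rw [comb_ne l p2 p1 n2.1 hre, psh_node] at hk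
  by_cases hl : p1 = PT.leaf
  · left
    subst hl
    have : psh PT.leaf = PT.leaf := rfl
    rw [this, core_node_leaf _ n2'] at hk
    refine ⟨rfl, ?_⟩
    rw [← hk, cher_core, e3, e2]
  · right
    have n1' : psh p1 ≠ PT.leaf := fun hh => hl ((psh_leaf p1).mp hh)
    rw [core_node_node _ _ n2' n1'] at hk
    have e4 : cher (psh p1) = cher p1 := cher_mapP _ _
    have e5 := rd_cher p1 hr ((isNp_iff p1).mpr ⟨hre, hl⟩)
    constructor
    · rw [← hk]
      simp [sr, psh, leaves_mapP]
    · rw [← hk]
      simp only [cher]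
      rw [if_neg (fun hh => n1' hh.2), e4, e3, e2]
      omega

/-- abstract counting of inconsistent light sides -/
theorem inc_count (a : ST) (wa : wf a) (na : isN a) (hf : 1 ≤ nf a) (R : PT → Prop)
    (m c x : ℕ)
    (key : ∀ r ∈ outs a, r ≠ PT.emp → ¬ R r →
      (leaves r = 1 ∧ x = c) ∨ (leaves r = m ∧ 1 + c ≤ x)) :
    1 / 4 ≤ S1 (fun r => if r ≠ PT.emp ∧ R r then (1 / 2 : ℝ) ^ nf a else 0) a := by
  have hs : ∃ s, ∀ r ∈ outs a, r ≠ PT.emp → ¬ R r → leaves r = s := by
    by_cases hx : x = c
    · refine ⟨1, fun r hr h1 h2 => ?_⟩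
      rcases key r hr h1 h2 with h | h
      · exact h.1
      · omega
    · refine ⟨m, fun r hr h1 h2 => ?_⟩
      rcases key r hr h1 h2 with h | h
      · exact absurd h.2 hx
      · exact h.1
  obtain ⟨s, hs⟩ := hs
  have h1 : S1 (fun _ => 1) a ≤ S1 (fun r => (if r = PT.emp then (1 : ℝ) else 0)
      + ((if leaves r = s then (1 : ℝ) else 0) + (if r ≠ PT.emp ∧ R r then (1 : ℝ) else 0))) a := by
    apply S1_mono
    intro r hr
    by_cases h1 : r = PT.emp
    · simp [h1]
      split_ifs <;> norm_num
    · by_cases h2 : R r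
      · simp [h1, h2]
        split_ifs <;> norm_num
      · simp [h1, h2, hs r hr h1 h2]
  rw [S1_add, S1_add, S1_one] at h1
  have h2 : S1 (fun r => if r = PT.emp then (1 : ℝ) else 0) a ≤ 2 ^ nf a / 4 := (ce_bound a wa).2 na
  have h3 := half_count a s hf
  have h4 : 2 ^ nf a / 4 ≤ S1 (fun r => if r ≠ PT.emp ∧ R r then (1 : ℝ) else 0) a := by linarith
  have h5 : S1 (fun r => if r ≠ PT.emp ∧ R r then (1 / 2 : ℝ) ^ nf a else 0) a
      = (1 / 2 : ℝ) ^ nf a * S1 (fun r => if r ≠ PT.emp ∧ R r then (1 : ℝ) else 0) a := by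
    rw [← S1_mul_left]
    apply S1_congr
    intro p _
    split_ifs <;> simp
  rw [h5]
  have h6 : (1 / 2 : ℝ) ^ nf a * (2 ^ nf a / 4) = 1 / 4 := by
    rw [mul_div_assoc', ← mul_pow]
    norm_num
  rw [← h6]
  exact mul_le_mul_of_nonneg_left h4 (by positivity)

theorem base_left (n h l : ℕ) (a b : ST) (na : isN a) (nb : isN b) (wa : wf a) (wb : wf b)
    (ba : bd l a) (bb : bd l b) (hl : l < n) (h1 : 1 ≤ nf a) (h2 : nf a ≤ h) :
    SplitP n h (ST.node l a b) (cross l (AA a) (proc b)) := by
  have spb := proc_Sp b l bb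
  have neb := proc_ne b wb
  constructor
  · exact cross_Sp n l a b _ _ hl (AA_Sp l a ba) spb
  · exact cross_ne l _ _ (Or.inr neb)
  · simp only [ca]
    rw [if_neg (not_both_left a b na)]
    refine (Phi_cross l _ _).trans ?_
    refine mul_le_mul (Phi_AA a h h2) ((Phi_proc b wb nb).trans ?_) (Phi_nonneg _) (by positivity)
    exact pow_le_pow_right₀ (by norm_num) (by omega)
  · intro κ
    unfold wI
    rw [PS_cross, PS_PS]
    have hw := wN_proc b l bb wb nb
    unfold wN at hw
    calc (1 / 16 : ℝ) ≤ (1 / 4) * PS (fun c q => if isN c then (1 / 2 : ℝ) ^ q else 0) (proc b) := by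
          linarith
      _ ≤ _ := by
          rw [← PS_mul_left]
          apply PS_mono
          intro y hy
          try dsimp only
          have gy := spb.good y hy
          rw [PS_AA]
          split_ifs with hN
          · have hc := inc_count a wa na h1 (fun r => Inc κ (ST.node l (fx r) y.1))
              (leaves (sl κ)) (cc y.1) (cher κ)
              (fun r hr hre hR => key_left κ l y.1 gy.1 hN r (outs_rd a r hr) hre hR)
            calc (1 / 4 : ℝ) * (1 / 2) ^ y.2
                ≤ S1 (fun r => if r ≠ PT.emp ∧ Inc κ (ST.node l (fx r) y.1)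
                    then (1 / 2 : ℝ) ^ nf a else 0) a * (1 / 2) ^ y.2 :=
                  mul_le_mul_of_nonneg_right hc (by positivity)
              _ ≤ _ := by
                rw [← S1_mul_right]
                apply S1_mono
                intro r hr
                split_ifs with hR
                · rw [mg_eq_right l y.1 (fx r) hN (fx_ne r hR.1), PS_singleton, if_pos hR.2]
                  rw [zero_add, pow_add]
                · rw [zero_mul]
                  apply PS_nonneg
                  intro z _
                  try dsimp only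
                  split_ifs
                  · positivity
                  · exact le_refl _
          · rw [mul_zero]
            apply S1_nonneg
            intro r
            apply PS_nonneg
            intro z _
            try dsimp only
            split_ifs
            · positivity
            · exact le_refl _

theorem base_right (n h l : ℕ) (a b : ST) (na : isN a) (nb : isN b) (wa : wf a) (wb : wf b)
    (ba : bd l a) (bb : bd l b) (hl : l < n) (h1 : 1 ≤ nf a) (h2 : nf a ≤ h) :
    SplitP n h (ST.node l b a) (cross l (proc b) (AA a)) := by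
  have spb := proc_Sp b l bb
  have neb := proc_ne b wb
  constructor
  · exact cross_Sp n l b a _ _ hl spb (AA_Sp l a ba)
  · exact cross_ne l _ _ (Or.inl neb)
  · simp only [ca]
    rw [if_neg (not_both_right b a na)]
    refine (Phi_cross l _ _).trans ?_
    rw [mul_comm]
    refine mul_le_mul (Phi_AA a h h2) ((Phi_proc b wb nb).trans ?_) (Phi_nonneg _) (by positivity)
    exact pow_le_pow_right₀ (by norm_num) (by omega)
  · intro κ
    unfold wI
    rw [PS_cross]
    have hw := wN_proc b l bb wb nb
    unfold wN at hw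
    calc (1 / 16 : ℝ) ≤ (1 / 4) * PS (fun c q => if isN c then (1 / 2 : ℝ) ^ q else 0) (proc b) := by
          linarith
      _ ≤ _ := by
          rw [← PS_mul_left]
          apply PS_mono
          intro y hy
          try dsimp only
          have gy := spb.good y hy
          rw [PS_AA]
          split_ifs with hN
          · have hc := inc_count a wa na h1 (fun r => Inc κ (ST.node l y.1 (fx r)))
              (leaves (sr κ)) (cc y.1) (cher κ)
              (fun r hr hre hR => key_right κ l y.1 gy.1 hN r (outs_rd a r hr) hre hR)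
            calc (1 / 4 : ℝ) * (1 / 2) ^ y.2
                ≤ S1 (fun r => if r ≠ PT.emp ∧ Inc κ (ST.node l y.1 (fx r))
                    then (1 / 2 : ℝ) ^ nf a else 0) a * (1 / 2) ^ y.2 :=
                  mul_le_mul_of_nonneg_right hc (by positivity)
              _ ≤ _ := by
                rw [← S1_mul_right]
                apply S1_mono
                intro r hr
                split_ifs with hR
                · rw [mg_eq_left l y.1 (fx r) hN (fx_ne r hR.1), PS_singleton, if_pos hR.2]
                  rw [zero_add, pow_add, mul_comm]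
                · rw [zero_mul]
                  apply PS_nonneg
                  intro z _
                  try dsimp only
                  split_ifs
                  · positivity
                  · exact le_refl _
          · rw [mul_zero]
            apply S1_nonneg
            intro r
            apply PS_nonneg
            intro z _
            try dsimp only
            split_ifs
            · positivity
            · exact le_refl _

theorem Lt_isN (h : ℕ) (t : ST) (hL : Lt h t) : isN t := by
  cases t <;> simp_all [Lt, isN]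

theorem split_exists (h : ℕ) (t : ST) : ∀ n, wf t → bd n t → Lt h t → ∃ P, SplitP n h t P := by
  induction t with
  | emp => intro n _ _ h; simp [Lt] at h
  | fix => intro n _ _ h; simp [Lt] at h
  | free => intro n _ _ h; simp [Lt] at h
  | node l a b iha ihb =>
    intro n hw hb hL
    simp only [wf] at hw
    simp only [bd] at hb
    simp only [Lt] at hL
    rcases hL with ⟨na, nb, hh | hh⟩ | hL | hL
    · exact ⟨_, base_left n h l a b na nb hw.1 hw.2 hb.2.1 hb.2.2 hb.1 hh.1 hh.2.le⟩
    · exact ⟨_, base_right n h l b a nb na hw.2 hw.1 hb.2.2 hb.2.1 hb.1 hh.1 hh.2.le⟩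
    · obtain ⟨P, hP⟩ := iha l hw.1 hb.2.1 hL
      exact ⟨_, up_left n h l a b P (Lt_isN h a hL) hP hw.2 hb.2.2 hb.1⟩
    · obtain ⟨P, hP⟩ := ihb l hw.2 hb.2.2 hL
      exact ⟨_, up_right n h l b a P (Lt_isN h b hL) hP hw.1 hb.2.1 hb.1⟩

end Pool.Agent.H221R3.Tw
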