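import Mathlib
import Pool.Agent.H221R3.TwD

set_option autoImplicit false

namespace Pool.Agent.H221R3.Tw

open Classical

noncomputable def lo (M : ℕ) (U : Finset ℕ) : Finset ℕ :=
  (Finset.range (2 ^ M)).filter (fun x => x ∈ U)
noncomputable def up (M : ℕ) (U : Finset ℕ) : Finset ℕ :=
  (Finset.range (2 ^ M)).filter (fun x => x + 2 ^ M ∈ U)
noncomputable def dn (M : ℕ) (V : Finset ℕ) : Finset ℕ := V.image (fun x => x + 2 ^ M)

theorem mem_lo (M : ℕ) (U : Finset ℕ) (x : ℕ) : x ∈ lo M U ↔ x < 2 ^ M ∧ x ∈ U := by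
  simp [lo]
theorem mem_up (M : ℕ) (U : Finset ℕ) (x : ℕ) : x ∈ up M U ↔ x < 2 ^ M ∧ x + 2 ^ M ∈ U := by
  simp [up]
theorem mem_dn (M : ℕ) (V : Finset ℕ) (x : ℕ) : x ∈ dn M V ↔ ∃ y ∈ V, y + 2 ^ M = x := by
  simp [dn]

theorem lo_union (M : ℕ) (U V : Finset ℕ) : lo M (U ∪ V) = lo M U ∪ lo M V := by
  ext x; simp only [mem_lo, Finset.mem_union]; tauto
theorem up_union (M : ℕ) (U V : Finset ℕ) : up M (U ∪ V) = up M U ∪ up M V := by
  ext x; simp only [mem_up, Finset.mem_union]; tauto
theorem lo_range (M : ℕ) (U : Finset ℕ) : lo M U ⊆ Finset.range (2 ^ M) := Finset.filter_subset _ _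
theorem up_range (M : ℕ) (U : Finset ℕ) : up M U ⊆ Finset.range (2 ^ M) := Finset.filter_subset _ _
theorem lo_mono (M : ℕ) (U V : Finset ℕ) (h : U ⊆ V) : lo M U ⊆ lo M V := by
  intro x hx; rw [mem_lo] at hx ⊢; exact ⟨hx.1, h hx.2⟩
theorem up_mono (M : ℕ) (U V : Finset ℕ) (h : U ⊆ V) : up M U ⊆ up M V := by
  intro x hx; rw [mem_up] at hx ⊢; exact ⟨hx.1, h hx.2⟩

theorem lo_low (M : ℕ) (U : Finset ℕ) (h : U ⊆ Finset.range (2 ^ M)) : lo M U = U := by
  ext x; rw [mem_lo]
  exact ⟨fun h => h.2, fun hx => ⟨Finset.mem_range.mp (h hx), hx⟩⟩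
theorem up_low (M : ℕ) (U : Finset ℕ) (h : U ⊆ Finset.range (2 ^ M)) : up M U = ∅ := by
  ext x; rw [mem_up]
  constructor
  · rintro ⟨_, h2⟩
    have := Finset.mem_range.mp (h h2)
    omega
  · intro h; simp at h
theorem lo_dn (M : ℕ) (V : Finset ℕ) : lo M (dn M V) = ∅ := by
  ext x; rw [mem_lo, mem_dn]
  constructor
  · rintro ⟨h1, y, _, h2⟩
    omega
  · intro h; simp at h
theorem up_dn (M : ℕ) (V : Finset ℕ) (h : V ⊆ Finset.range (2 ^ M)) : up M (dn M V) = V := by
  ext x; rw [mem_up, mem_dn]
  constructor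
  · rintro ⟨h1, y, hy, h2⟩
    have : y = x := by omega
    rw [← this]; exact hy
  · intro hx
    exact ⟨Finset.mem_range.mp (h hx), x, hx, rfl⟩

theorem split_set (M : ℕ) (U : Finset ℕ) (h : U ⊆ Finset.range (2 ^ (M + 1))) :
    U = lo M U ∪ dn M (up M U) := by
  ext x
  rw [Finset.mem_union, mem_lo, mem_dn]
  constructor
  · intro hx
    by_cases h1 : x < 2 ^ M
    · exact Or.inl ⟨h1, hx⟩
    · right
      have h2 := Finset.mem_range.mp (h hx)
      rw [pow_succ] at h2
      refine ⟨x - 2 ^ M, ?_, by omega⟩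
      rw [mem_up]
      refine ⟨by omega, ?_⟩
      rw [Nat.sub_add_cancel (by omega)]
      exact hx
  · rintro (h1 | ⟨y, hy, rfl⟩)
    · exact h1.2
    · exact ((mem_up M U y).mp hy).2

theorem disj_set (M : ℕ) (U V : Finset ℕ) : Disjoint (lo M U) (dn M V) := by
  rw [Finset.disjoint_left]
  intro x h1 h2
  rw [mem_lo] at h1
  rw [mem_dn] at h2
  obtain ⟨y, _, h2⟩ := h2
  omega

theorem card_dn (M : ℕ) (V : Finset ℕ) : (dn M V).card = V.card := by
  unfold dn
  apply Finset.card_image_of_injective
  intro x y h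
  dsimp only at h
  omega

noncomputable def T : ℕ → Finset ℕ → PT
  | 0, U => if 0 ∈ U then PT.leaf else PT.emp
  | M + 1, U => comb M (T M (lo M U)) (T M (up M U))

theorem T_card (M : ℕ) : ∀ U : Finset ℕ, U ⊆ Finset.range (2 ^ M) → leaves (T M U) = U.card := by
  induction M with
  | zero =>
    intro U hU
    simp only [pow_zero, Finset.range_one] at hU
    rcases Finset.subset_singleton_iff.mp hU with rfl | rfl
    · simp [T, leaves]
    · simp [T, leaves]
  | succ M ih =>
    intro U hU
    simp only [T]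
    rw [leaves_comb, ih _ (lo_range M U), ih _ (up_range M U)]
    conv_rhs => rw [split_set M U hU]
    rw [Finset.card_union_of_disjoint (disj_set M U _), card_dn]

theorem leaves_zero (p : PT) (h : rd p) (h0 : leaves p = 0) : p = PT.emp := by
  induction p with
  | emp => rfl
  | leaf => simp [leaves] at h0
  | node l a b iha _ =>
    simp only [rd] at h
    simp only [leaves] at h0
    exact absurd (iha h.1 (by omega)) h.2.2.1

theorem rd_comb (l : ℕ) (p q : PT) (hp : rd p) (hq : rd q) : rd (comb l p q) := by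
  rcases comb_cases l p q with ⟨_, e⟩ | ⟨_, e⟩ | ⟨h1, h2, e⟩ <;> rw [e]
  · exact hq
  · exact hp
  · exact ⟨hp, hq, h1, h2⟩

theorem T_rd (M : ℕ) : ∀ U : Finset ℕ, rd (T M U) := by
  induction M with
  | zero => intro U; simp only [T]; split_ifs <;> trivial
  | succ M ih => intro U; exact rd_comb M _ _ (ih _) (ih _)

theorem T_bdp (M : ℕ) : ∀ U : Finset ℕ, bdp M (T M U) := by
  induction M with
  | zero => intro U; simp only [T]; split_ifs <;> trivial
  | succ M ih =>
    intro U
    simp only [T]
    rcases comb_cases M (T M (lo M U)) (T M (up M U)) with ⟨_, e⟩ | ⟨_, e⟩ | ⟨_, _, e⟩ <;> rw [e]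
    · exact bdp_mono M (M + 1) _ (ih _) (by omega)
    · exact bdp_mono M (M + 1) _ (ih _) (by omega)
    · exact ⟨by omega, ih _, ih _⟩

theorem T_empty (M : ℕ) : T M ∅ = PT.emp := by
  apply leaves_zero _ (T_rd M ∅)
  rw [T_card M ∅ (Finset.empty_subset _)]
  rfl

theorem T_emp (M : ℕ) (U : Finset ℕ) (h : U ⊆ Finset.range (2 ^ M)) (h0 : T M U = PT.emp) :
    U = ∅ := by
  have := T_card M U h
  rw [h0] at this
  exact Finset.card_eq_zero.mp this.symm

theorem T_low (M : ℕ) (U : Finset ℕ) (h : U ⊆ Finset.range (2 ^ M)) : T (M + 1) U = T M U := by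
  simp only [T]
  rw [lo_low M U h, up_low M U h, T_empty, comb_emp_right]

theorem T_dn (M : ℕ) (V : Finset ℕ) (h : V ⊆ Finset.range (2 ^ M)) : T (M + 1) (dn M V) = T M V := by
  simp only [T]
  rw [lo_dn M V, up_dn M V h, T_empty, comb_emp_left]

theorem T_labels_mono (M : ℕ) : ∀ C U : Finset ℕ, C ⊆ U → labels (T M C) ⊆ labels (T M U) := by
  induction M with
  | zero =>
    intro C U _
    simp only [T]
    split_ifs <;> simp [labels]
  | succ M ih =>
    intro C U hCU
    simp only [T]
    have h1 := ih _ _ (lo_mono M C U hCU)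
    have h2 := ih _ _ (up_mono M C U hCU)
    rcases comb_cases M (T M (lo M C)) (T M (up M C)) with ⟨_, e⟩ | ⟨_, e⟩ | ⟨n1, n2, e⟩ <;> rw [e]
    · exact h2.trans (Finset.subset_union_right.trans (labels_comb_sup _ _ _))
    · exact h1.trans (Finset.subset_union_left.trans (labels_comb_sup _ _ _))
    · have m1 : T M (lo M U) ≠ PT.emp := by
        intro h
        have := T_emp M _ (lo_range M U) h
        apply n1
        have h3 := lo_mono M C U hCU
        rw [this, Finset.subset_empty] at h3
        rw [h3, T_empty]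
      have m2 : T M (up M U) ≠ PT.emp := by
        intro h
        have := T_emp M _ (up_range M U) h
        apply n2
        have h3 := up_mono M C U hCU
        rw [this, Finset.subset_empty] at h3
        rw [h3, T_empty]
      rw [comb_ne M _ _ m1 m2]
      exact Finset.insert_subset_insert _ (Finset.union_subset_union h1 h2)

theorem T_node (M : ℕ) : ∀ (U : Finset ℕ) (l : ℕ) (a b : PT), U ⊆ Finset.range (2 ^ M) →
    T M U = PT.node l a b → ∃ U0 U1 : Finset ℕ, U = U0 ∪ U1 ∧ (∀ x ∈ U0, ∀ y ∈ U1, x < y) ∧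
      T M U0 = a ∧ T M U1 = b ∧
      ∀ C0 ⊆ U0, ∀ C1 ⊆ U1, T M (C0 ∪ C1) = comb l (T M C0) (T M C1) := by
  induction M with
  | zero =>
    intro U l a b _ h
    simp only [T] at h
    split_ifs at h
  | succ M ih =>
    intro U l a b hU h
    have hs := split_set M U hU
    rcases comb_cases M (T M (lo M U)) (T M (up M U)) with ⟨he, e⟩ | ⟨he, e⟩ | ⟨n1, n2, e⟩
    · -- everything in the upper half
      have h1 : lo M U = ∅ := T_emp M _ (lo_range M U) he
      have h2 : T M (up M U) = PT.node l a b := by rw [← e]; exact h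
      obtain ⟨V0, V1, i1, i2, i3, i4, i5⟩ := ih (up M U) l a b (up_range M U) h2
      have hV0 : V0 ⊆ Finset.range (2 ^ M) :=
        (Finset.subset_union_left).trans (i1 ▸ up_range M U)
      have hV1 : V1 ⊆ Finset.range (2 ^ M) :=
        (Finset.subset_union_right).trans (i1 ▸ up_range M U)
      refine ⟨dn M V0, dn M V1, ?_, ?_, ?_, ?_, ?_⟩
      · rw [hs, h1, Finset.empty_union, i1]
        unfold dn
        rw [Finset.image_union]
      · intro x hx y hy
        rw [mem_dn] at hx hy
        obtain ⟨x', hx', rfl⟩ := hx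
        obtain ⟨y', hy', rfl⟩ := hy
        have := i2 x' hx' y' hy'
        omega
      · rw [T_dn M V0 hV0, i3]
      · rw [T_dn M V1 hV1, i4]
      · intro C0 hC0 C1 hC1
        have k : ∀ C : Finset ℕ, ∀ V : Finset ℕ, V ⊆ Finset.range (2 ^ M) → C ⊆ dn M V →
            T (M + 1) C = T M (up M C) ∧ up M C ⊆ V := by
          intro C V hV hC
          have e1 : lo M C = ∅ := by
            have := lo_mono M C _ hC
            rw [lo_dn] at this
            exact Finset.subset_empty.mp this
          constructor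
          · simp only [T]
            rw [e1, T_empty, comb_emp_left]
          · have := up_mono M C _ hC
            rwa [up_dn M V hV] at this
        have k0 := k C0 V0 hV0 hC0
        have k1 := k C1 V1 hV1 hC1
        have k2 : T (M + 1) (C0 ∪ C1) = T M (up M (C0 ∪ C1)) := by
          apply (k (C0 ∪ C1) (V0 ∪ V1) (Finset.union_subset hV0 hV1) _).1
          unfold dn
          rw [Finset.image_union]
          exact Finset.union_subset_union hC0 hC1
        rw [k2, k0.1, k1.1, up_union]
        exact i5 _ k0.2 _ k1.2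
    · -- everything in the lower half
      have h1 : up M U = ∅ := T_emp M _ (up_range M U) he
      have h2 : T M (lo M U) = PT.node l a b := by rw [← e]; exact h
      obtain ⟨U0, U1, i1, i2, i3, i4, i5⟩ := ih (lo M U) l a b (lo_range M U) h2
      have hU0 : U0 ⊆ Finset.range (2 ^ M) :=
        (Finset.subset_union_left).trans (i1 ▸ lo_range M U)
      have hU1 : U1 ⊆ Finset.range (2 ^ M) :=
        (Finset.subset_union_right).trans (i1 ▸ lo_range M U)
      refine ⟨U0, U1, ?_, i2, ?_, ?_, ?_⟩
      · conv_lhs => rw [hs, h1]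
        rw [← i1]
        simp [dn]
      · rw [T_low M U0 hU0, i3]
      · rw [T_low M U1 hU1, i4]
      · intro C0 hC0 C1 hC1
        rw [T_low M C0 (hC0.trans hU0), T_low M C1 (hC1.trans hU1),
          T_low M _ (Finset.union_subset (hC0.trans hU0) (hC1.trans hU1))]
        exact i5 C0 hC0 C1 hC1
    · have h2 : comb M (T M (lo M U)) (T M (up M U)) = PT.node l a b := h
      rw [e] at h2
      simp only [PT.node.injEq] at h2
      obtain ⟨hl, ha, hb⟩ := h2
      refine ⟨lo M U, dn M (up M U), hs, ?_, ?_, ?_, ?_⟩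
      · intro x hx y hy
        rw [mem_lo] at hx
        rw [mem_dn] at hy
        obtain ⟨y', _, rfl⟩ := hy
        omega
      · rw [T_low M _ (lo_range M U), ha]
      · rw [T_dn M _ (up_range M U), hb]
      · intro C0 hC0 C1 hC1
        have c0 : C0 ⊆ Finset.range (2 ^ M) := hC0.trans (lo_range M U)
        have c1 : lo M C1 = ∅ := by
          have := lo_mono M C1 _ hC1
          rw [lo_dn] at this
          exact Finset.subset_empty.mp this
        have e1 : T (M + 1) C1 = T M (up M C1) := by
          simp only [T]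
          rw [c1, T_empty, comb_emp_left]
        rw [T_low M C0 c0, e1]
        simp only [T]
        rw [lo_union, up_union, lo_low M C0 c0, up_low M C0 c0, c1, Finset.union_empty,
          Finset.empty_union, hl]

/-! status trees of pairs -/

noncomputable def combS (l : ℕ) (a b : ST) : ST :=
  if a = ST.emp then b else if b = ST.emp then a else ST.node l a b

noncomputable def st : ℕ → Finset ℕ → Finset ℕ → ST
  | 0, X, Y => if 0 ∈ X then ST.fix else if 0 ∈ Y then ST.free else ST.emp
  | M + 1, X, Y => combS M (st M (lo M X) (lo M Y)) (st M (up M X) (up M Y))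

theorem st_wf (M : ℕ) : ∀ X Y : Finset ℕ, st M X Y = ST.emp ∨ wf (st M X Y) := by
  induction M with
  | zero =>
    intro X Y
    simp only [st]
    split_ifs <;> simp [wf]
  | succ M ih =>
    intro X Y
    simp only [st, combS]
    rcases ih (lo M X) (lo M Y) with h1 | h1 <;> rcases ih (up M X) (up M Y) with h2 | h2
    · simp [h1, h2]
    · simp [h1, h2]
    · rw [h2]
      by_cases he : st M (lo M X) (lo M Y) = ST.emp
      · simp [he]
      · right; simp [he]; exact h1
    · split_ifs
      · exact Or.inr h2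
      · exact Or.inr h1
      · exact Or.inr ⟨h1, h2⟩

theorem st_bd (M : ℕ) : ∀ X Y : Finset ℕ, bd M (st M X Y) := by
  induction M with
  | zero =>
    intro X Y
    simp only [st]
    split_ifs <;> simp [bd]
  | succ M ih =>
    intro X Y
    simp only [st, combS]
    split_ifs
    · exact bd_mono M (M + 1) _ (ih _ _) (by omega)
    · exact bd_mono M (M + 1) _ (ih _ _) (by omega)
    · exact ⟨by omega, ih _ _, ih _ _⟩

theorem S1_combS (f : PT → ℝ) (l : ℕ) (a b : ST) :
    S1 f (combS l a b) = S1 (fun p => S1 (fun q => f (comb l p q)) b) a := by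
  unfold combS
  split_ifs with h1 h2
  · subst h1
    rw [S1_emp]
    apply S1_congr
    intro p _
    rw [comb_emp_left]
  · subst h2
    apply S1_congr
    intro p _
    rw [S1_emp, comb_emp_right]
  · rw [S1_node]

theorem sum_powerset_split (M : ℕ) (Y : Finset ℕ) (hY : Y ⊆ Finset.range (2 ^ (M + 1)))
    (g : Finset ℕ → Finset ℕ → ℝ) :
    ∑ B ∈ Y.powerset, g (lo M B) (up M B)
      = ∑ B0 ∈ (lo M Y).powerset, ∑ B1 ∈ (up M Y).powerset, g B0 B1 := by
  rw [← Finset.sum_product']
  apply Finset.sum_nbij' (fun B => (lo M B, up M B)) (fun x => x.1 ∪ dn M x.2)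
  · intro B hB
    rw [Finset.mem_powerset] at hB
    rw [Finset.mem_product, Finset.mem_powerset, Finset.mem_powerset]
    exact ⟨lo_mono M _ _ hB, up_mono M _ _ hB⟩
  · rintro ⟨B0, B1⟩ hB
    rw [Finset.mem_product, Finset.mem_powerset, Finset.mem_powerset] at hB
    rw [Finset.mem_powerset]
    apply Finset.union_subset
    · intro x hx
      exact ((mem_lo M Y x).mp (hB.1 hx)).2
    · intro x hx
      rw [mem_dn] at hx
      obtain ⟨y, hy, rfl⟩ := hx
      exact ((mem_up M Y y).mp (hB.2 hy)).2
  · intro B hB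
    rw [Finset.mem_powerset] at hB
    exact (split_set M B (hB.trans hY)).symm
  · rintro ⟨B0, B1⟩ hB
    rw [Finset.mem_product, Finset.mem_powerset, Finset.mem_powerset] at hB
    have h0 : B0 ⊆ Finset.range (2 ^ M) := hB.1.trans (lo_range M Y)
    have h1 : B1 ⊆ Finset.range (2 ^ M) := hB.2.trans (up_range M Y)
    dsimp only
    rw [lo_union, up_union, lo_low M B0 h0, up_low M B0 h0, lo_dn, up_dn M B1 h1,
      Finset.union_empty, Finset.empty_union]
  · intro B _
    rfl

theorem st_sum (M : ℕ) : ∀ (f : PT → ℝ) (X Y : Finset ℕ), Disjoint X Y →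
    Y ⊆ Finset.range (2 ^ M) →
    S1 f (st M X Y) = ∑ B ∈ Y.powerset, f (T M (X ∪ B)) := by
  induction M with
  | zero =>
    intro f X Y hd hY
    simp only [pow_zero, Finset.range_one] at hY
    rcases Finset.subset_singleton_iff.mp hY with rfl | rfl
    · simp only [st, Finset.powerset_empty, Finset.sum_singleton, Finset.union_empty, T]
      by_cases h : 0 ∈ X
      · simp [h, S1_fix]
      · simp [h, S1_emp]
    · have h : 0 ∉ X := by
        intro h
        exact Finset.disjoint_left.mp hd h (Finset.mem_singleton_self 0)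
      have hp : ({0} : Finset ℕ).powerset = {∅, {0}} := by
        ext s
        rw [Finset.mem_powerset, Finset.subset_singleton_iff]
        simp
      rw [hp, Finset.sum_pair (by intro h; exact absurd h.symm (Finset.singleton_ne_empty 0))]
      simp [st, h, T, S1_free]
  | succ M ih =>
    intro f X Y hd hY
    have hdl : Disjoint (lo M X) (lo M Y) := by
      rw [Finset.disjoint_left] at hd ⊢
      intro x h1 h2
      exact hd ((mem_lo M X x).mp h1).2 ((mem_lo M Y x).mp h2).2
    have hdu : Disjoint (up M X) (up M Y) := by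
      rw [Finset.disjoint_left] at hd ⊢
      intro x h1 h2
      exact hd ((mem_up M X x).mp h1).2 ((mem_up M Y x).mp h2).2
    have e1 : ∀ B : Finset ℕ, f (T (M + 1) (X ∪ B))
        = (fun B0 B1 => f (comb M (T M (lo M X ∪ B0)) (T M (up M X ∪ B1)))) (lo M B) (up M B) := by
      intro B
      simp only [T]
      rw [lo_union, up_union]
    rw [Finset.sum_congr rfl (fun B _ => e1 B)]
    have e2 := sum_powerset_split M Y hY
      (fun B0 B1 => f (comb M (T M (lo M X ∪ B0)) (T M (up M X ∪ B1))))
    refine Eq.trans ?_ e2.symm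
    simp only [st]
    rw [S1_combS, ih _ _ _ hdl (lo_range M Y)]
    apply Finset.sum_congr rfl
    intro B0 _
    rw [ih _ _ _ hdu (up_range M Y)]

theorem st_nf (M : ℕ) (X Y : Finset ℕ) (hd : Disjoint X Y) (hY : Y ⊆ Finset.range (2 ^ M)) :
    nf (st M X Y) = Y.card := by
  have h := st_sum M (fun _ => 1) X Y hd hY
  rw [S1_one] at h
  simp only [Finset.sum_const, Finset.card_powerset, nsmul_eq_mul, mul_one] at h
  have h2 : 2 ^ nf (st M X Y) = 2 ^ Y.card := by exact_mod_cast h
  exact Nat.pow_right_injective (le_refl 2) h2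

end Pool.Agent.H221R3.Tw
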