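import Mathlib
import Pool.Agent.H221R3.TwE

set_option autoImplicit false

namespace Pool.Agent.H221R3.Tw

open Classical

noncomputable def rk (D : Finset ℕ) (x : ℕ) : ℕ := (D.filter (fun y => y < x)).card

theorem rk_lt (D : Finset ℕ) (x y : ℕ) (hx : x ∈ D) (h : x < y) : rk D x < rk D y := by
  apply Finset.card_lt_card
  rw [Finset.ssubset_iff_of_subset]
  · refine ⟨x, ?_, ?_⟩
    · rw [Finset.mem_filter]; exact ⟨hx, h⟩
    · rw [Finset.mem_filter]; intro hh; exact absurd hh.2 (lt_irrefl x)
  · intro z hz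
    rw [Finset.mem_filter] at hz ⊢
    exact ⟨hz.1, hz.2.trans h⟩

theorem rk_mono (D : Finset ℕ) (x y : ℕ) (h : x ≤ y) : rk D x ≤ rk D y := by
  apply Finset.card_le_card
  intro z hz
  rw [Finset.mem_filter] at hz ⊢
  exact ⟨hz.1, lt_of_lt_of_le hz.2 h⟩

theorem rk_inj (D : Finset ℕ) (x y : ℕ) (hx : x ∈ D) (hy : y ∈ D) (h : rk D x = rk D y) :
    x = y := by
  rcases lt_trichotomy x y with h1 | h1 | h1
  · have := rk_lt D x y hx h1; omega
  · exact h1
  · have := rk_lt D y x hy h1; omega

theorem rk_card (D : Finset ℕ) (x : ℕ) (hx : x ∈ D) : rk D x < D.card := by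
  apply Finset.card_lt_card
  rw [Finset.ssubset_iff_of_subset (Finset.filter_subset _ _)]
  refine ⟨x, hx, ?_⟩
  rw [Finset.mem_filter]; intro hh; exact absurd hh.2 (lt_irrefl x)

theorem rk_image (D : Finset ℕ) (ψ : ℕ → ℕ) (hψ : StrictMonoOn ψ (D : Set ℕ)) (x : ℕ) (hx : x ∈ D) :
    rk (D.image ψ) (ψ x) = rk D x := by
  unfold rk
  have : (D.image ψ).filter (fun y => y < ψ x) = (D.filter (fun y => y < x)).image ψ := by
    ext z
    simp only [Finset.mem_filter, Finset.mem_image]
    constructor
    · rintro ⟨⟨y, hy, rfl⟩, h⟩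
      exact ⟨y, ⟨hy, (hψ.lt_iff_lt hy hx).mp h⟩, rfl⟩
    · rintro ⟨y, ⟨hy, h⟩, rfl⟩
      exact ⟨⟨y, hy, rfl⟩, (hψ.lt_iff_lt hy hx).mpr h⟩
  rw [this, Finset.card_image_of_injOn]
  apply hψ.injOn.mono
  intro y hy
  exact (Finset.mem_filter.mp hy).1

theorem labels_mapP (f : ℕ → ℕ) (p : PT) : labels (mapP f p) = (labels p).image f := by
  induction p with
  | emp => rfl
  | leaf => rfl
  | node l a b iha ihb =>
    simp only [mapP, labels, iha, ihb, Finset.image_insert, Finset.image_union]

theorem mapP_mapP (f g : ℕ → ℕ) (p : PT) : mapP f (mapP g p) = mapP (fun x => f (g x)) p := by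
  induction p with
  | emp => rfl
  | leaf => rfl
  | node l a b iha ihb => simp only [mapP, iha, ihb]

theorem mapP_congr (f g : ℕ → ℕ) (p : PT) (h : ∀ x ∈ labels p, f x = g x) :
    mapP f p = mapP g p := by
  induction p with
  | emp => rfl
  | leaf => rfl
  | node l a b iha ihb =>
    simp only [labels, Finset.mem_insert, Finset.mem_union] at h
    simp only [mapP, h l (Or.inl rfl), iha (fun x hx => h x (Or.inr (Or.inl hx))),
      ihb (fun x hx => h x (Or.inr (Or.inr hx)))]

theorem mapP_inj (f : ℕ → ℕ) (D : Finset ℕ) (hf : ∀ x ∈ D, ∀ y ∈ D, f x = f y → x = y) (p : PT) :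
    ∀ p', labels p ⊆ D → labels p' ⊆ D → mapP f p = mapP f p' → p = p' := by
  induction p with
  | emp => intro p' _ _ h; cases p' <;> simp_all [mapP]
  | leaf => intro p' _ _ h; cases p' <;> simp_all [mapP]
  | node l a b iha ihb =>
    intro p' h1 h2 h
    cases p' with
    | emp => simp [mapP] at h
    | leaf => simp [mapP] at h
    | node l' a' b' =>
      simp only [mapP, PT.node.injEq] at h
      simp only [labels, Finset.insert_subset_iff, Finset.union_subset_iff] at h1 h2
      rw [hf l h1.1 l' h2.1 h.1, iha a' h1.2.1 h2.2.1 h.2.1, ihb b' h1.2.2 h2.2.2 h.2.2]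

noncomputable def nrm (p : PT) : PT := mapP (rk (labels p)) p

theorem psh_mapP (f : ℕ → ℕ) (p : PT) : psh (mapP f p) = psh p := by
  unfold psh; rw [mapP_mapP]

theorem psh_nrm (p : PT) : psh (nrm p) = psh p := psh_mapP _ p

theorem nrm_mapP (ψ : ℕ → ℕ) (p : PT) (hψ : StrictMonoOn ψ (labels p : Set ℕ)) :
    nrm (mapP ψ p) = nrm p := by
  unfold nrm
  rw [mapP_mapP, labels_mapP]
  apply mapP_congr
  intro x hx
  exact rk_image _ ψ hψ x hx

theorem nrm_eq (p p' : PT) (h : nrm p = nrm p') (hl : labels p = labels p') : p = p' := by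
  unfold nrm at h
  rw [hl] at h
  exact mapP_inj _ (labels p') (fun x hx y hy => rk_inj _ x y hx hy) p p' (hl ▸ Finset.Subset.refl _)
    (Finset.Subset.refl _) h

theorem exists_psi (p p' : PT) (h : nrm p = nrm p') :
    ∃ ψ : ℕ → ℕ, p' = mapP ψ p ∧ StrictMonoOn ψ (labels p : Set ℕ) := by
  have hl : (labels p).image (rk (labels p)) = (labels p').image (rk (labels p')) := by
    have h1 := congrArg labels h
    unfold nrm at h1
    rwa [labels_mapP, labels_mapP] at h1
  have hex : ∀ x, ∃ y, x ∈ labels p → (y ∈ labels p' ∧ rk (labels p') y = rk (labels p) x) := by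
    intro x
    by_cases hx : x ∈ labels p
    · have : rk (labels p) x ∈ (labels p').image (rk (labels p')) := by
        rw [← hl]; exact Finset.mem_image_of_mem _ hx
      rw [Finset.mem_image] at this
      obtain ⟨y, hy, hy2⟩ := this
      exact ⟨y, fun _ => ⟨hy, hy2⟩⟩
    · exact ⟨0, fun h => absurd h hx⟩
  choose ψ hψ using hex
  have hmono : StrictMonoOn ψ (labels p : Set ℕ) := by
    intro x hx y hy hxy
    have h1 := hψ x hx
    have h2 := hψ y hy
    have h3 := rk_lt (labels p) x y hx hxy
    by_contra hh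
    have h4 := rk_mono (labels p') _ _ (not_lt.mp hh)
    omega
  refine ⟨ψ, ?_, hmono⟩
  symm
  apply mapP_inj (rk (labels p')) (labels p') (fun x hx y hy => rk_inj _ x y hx hy)
  · rw [labels_mapP]
    intro z hz
    rw [Finset.mem_image] at hz
    obtain ⟨x, hx, rfl⟩ := hz
    exact (hψ x hx).1
  · exact Finset.Subset.refl _
  · rw [mapP_mapP]
    have h1 : mapP (fun x => rk (labels p') (ψ x)) p = mapP (rk (labels p)) p := by
      apply mapP_congr
      intro x hx
      exact (hψ x hx).2
    rw [h1]
    exact h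

theorem mapP_comb (ψ : ℕ → ℕ) (l : ℕ) (p q : PT) :
    mapP ψ (comb l p q) = comb (ψ l) (mapP ψ p) (mapP ψ q) := by
  rcases comb_cases l p q with ⟨h, e⟩ | ⟨h, e⟩ | ⟨h1, h2, e⟩ <;> rw [e]
  · subst h
    show _ = comb (ψ l) PT.emp _
    rw [comb_emp_left]
  · subst h
    show _ = comb (ψ l) _ PT.emp
    rw [comb_emp_right]
  · rw [comb_ne]
    · rfl
    · intro h; exact h1 ((mapP_emp ψ p).mp h)
    · intro h; exact h2 ((mapP_emp ψ q).mp h)

theorem order_split (A B A' B' : Finset ℕ) (h : A ∪ B = A' ∪ B') (h1 : ∀ x ∈ A, ∀ y ∈ B, x < y)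
    (h2 : ∀ x ∈ A', ∀ y ∈ B', x < y) (hc : A.card = A'.card) : A = A' ∧ B = B' := by
  have hA : A = A' := by
    by_contra hne
    have e1 : ¬ A ⊆ A' := fun hs => hne (Finset.eq_of_subset_of_card_le hs hc.ge)
    have e2 : ¬ A' ⊆ A := fun hs => hne (Finset.eq_of_subset_of_card_le hs hc.le).symm
    rw [Finset.not_subset] at e1 e2
    obtain ⟨x, hx, hx'⟩ := e1
    obtain ⟨y, hy, hy'⟩ := e2
    have hxB : x ∈ B' := by
      have : x ∈ A' ∪ B' := h ▸ Finset.mem_union_left _ hx
      rcases Finset.mem_union.mp this with h3 | h3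
      · exact absurd h3 hx'
      · exact h3
    have hyB : y ∈ B := by
      have : y ∈ A ∪ B := h ▸ Finset.mem_union_left _ hy
      rcases Finset.mem_union.mp this with h3 | h3
      · exact absurd h3 hy'
      · exact h3
    have := h1 x hx y hyB
    have := h2 y hy x hxB
    omega
  subst hA
  refine ⟨rfl, ?_⟩
  ext z
  constructor
  · intro hz
    have : z ∈ A ∪ B' := h ▸ Finset.mem_union_right _ hz
    rcases Finset.mem_union.mp this with h3 | h3
    · exact absurd (h1 z h3 z hz) (lt_irrefl z)
    · exact h3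
  · intro hz
    have : z ∈ A ∪ B := h.symm ▸ Finset.mem_union_right _ hz
    rcases Finset.mem_union.mp this with h3 | h3
    · exact absurd (h2 z h3 z hz) (lt_irrefl z)
    · exact h3

theorem T_phi (M : ℕ) (ψ φ : ℕ → ℕ) (p : PT) : ∀ U U' : Finset ℕ, U ⊆ Finset.range (2 ^ M) →
    U' ⊆ Finset.range (2 ^ M) → T M U = p → T M U' = mapP ψ p → StrictMonoOn φ (U : Set ℕ) →
    U' = U.image φ → ∀ C ⊆ U, T M (C.image φ) = mapP ψ (T M C) := by
  induction p with
  | emp =>
    intro U U' hU _ h _ _ _ C hC
    have h0 := T_emp M U hU h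
    rw [h0, Finset.subset_empty] at hC
    rw [hC, Finset.image_empty, T_empty]
    rfl
  | leaf =>
    intro U U' hU _ h h' _ hUU C hC
    have h0 := T_card M U hU
    rw [h] at h0
    obtain ⟨x, hx⟩ := Finset.card_eq_one.mp h0.symm
    subst hx
    rcases Finset.subset_singleton_iff.mp hC with rfl | rfl
    · rw [Finset.image_empty, T_empty]; rfl
    · rw [← hUU, h', h]
  | node l a b iha ihb =>
    intro U U' hU hU' h h' hφ hUU C hC
    obtain ⟨U0, U1, i1, i2, i3, i4, i5⟩ := T_node M U l a b hU h
    obtain ⟨V0, V1, j1, j2, j3, j4, j5⟩ := T_node M U' (ψ l) (mapP ψ a) (mapP ψ b) hU' h'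
    have s0 : U0 ⊆ U := i1 ▸ Finset.subset_union_left
    have s1 : U1 ⊆ U := i1 ▸ Finset.subset_union_right
    have t0 : V0 ⊆ U' := j1 ▸ Finset.subset_union_left
    have t1 : V1 ⊆ U' := j1 ▸ Finset.subset_union_right
    have hcard : (U0.image φ).card = V0.card := by
      rw [Finset.card_image_of_injOn (hφ.injOn.mono (by exact_mod_cast s0)),
        ← T_card M U0 (s0.trans hU), ← T_card M V0 (t0.trans hU'), i3, j3, leaves_mapP]
    have hos := order_split (U0.image φ) (U1.image φ) V0 V1
      (by rw [← Finset.image_union, ← i1, ← hUU, ← j1])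
      (by
        intro x hx y hy
        rw [Finset.mem_image] at hx hy
        obtain ⟨x', hx', rfl⟩ := hx
        obtain ⟨y', hy', rfl⟩ := hy
        exact hφ (s0 hx') (s1 hy') (i2 x' hx' y' hy'))
      j2 hcard
    have hC01 : C = (C ∩ U0) ∪ (C ∩ U1) := by
      rw [← Finset.inter_union_distrib_left, ← i1]
      exact (Finset.inter_eq_left.mpr hC).symm
    have f0 := iha U0 V0 (s0.trans hU) (t0.trans hU') i3 j3 (hφ.mono (by exact_mod_cast s0))
      hos.1.symm (C ∩ U0) Finset.inter_subset_right
    have f1 := ihb U1 V1 (s1.trans hU) (t1.trans hU') i4 j4 (hφ.mono (by exact_mod_cast s1))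
      hos.2.symm (C ∩ U1) Finset.inter_subset_right
    conv_lhs => rw [hC01]
    conv_rhs => rw [hC01]
    rw [Finset.image_union, j5 _ (by rw [← hos.1]; exact Finset.image_subset_image Finset.inter_subset_right)
      _ (by rw [← hos.2]; exact Finset.image_subset_image Finset.inter_subset_right),
      i5 _ Finset.inter_subset_right _ Finset.inter_subset_right, mapP_comb, f0, f1]

def Bd : ℕ → ℕ
  | 0 => 0
  | j + 1 => 2 ^ Bd j

noncomputable def ty : ℕ → Finset ℕ → List PT
  | 0, _ => []
  | j + 1, A => nrm (T (Bd j) A) :: ty j (labels (T (Bd j) A))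

theorem T_labels_range (M : ℕ) (A : Finset ℕ) : labels (T M A) ⊆ Finset.range M := by
  intro x hx
  rw [Finset.mem_range]
  exact labels_lt (T M A) M (T_bdp M A) x hx

theorem coherence (j : ℕ) : ∀ (U U' : Finset ℕ) (φ : ℕ → ℕ), U ⊆ Finset.range (Bd j) →
    U' ⊆ Finset.range (Bd j) → StrictMonoOn φ (U : Set ℕ) → U' = U.image φ →
    ty j U = ty j U' → ∀ C ⊆ U, ty j (C.image φ) = ty j C := by
  induction j with
  | zero => intro U U' φ _ _ _ _ _ C _; rfl
  | succ j ih =>
    intro U U' φ hU hU' hφ hUU h C hC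
    simp only [ty, List.cons.injEq] at h ⊢
    obtain ⟨ψ, hψ1, hψ2⟩ := exists_psi _ _ h.1
    have key := T_phi (Bd j) ψ φ _ U U' hU hU' rfl hψ1 hφ hUU C hC
    have hsub := T_labels_mono (Bd j) C U hC
    constructor
    · rw [key]
      exact nrm_mapP ψ _ (hψ2.mono (by exact_mod_cast hsub))
    · rw [key, labels_mapP]
      exact ih _ _ ψ (T_labels_range _ _) (T_labels_range _ _) hψ2
        (by rw [hψ1, labels_mapP]) h.2 _ hsub

/-! codes -/

def enc : PT → List ℕ
  | PT.emp => [1]
  | PT.leaf => [2]
  | PT.node l a b => (l + 3) :: (enc a ++ enc b)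

theorem enc_inj (p : PT) : ∀ (q : PT) (s t : List ℕ), enc p ++ s = enc q ++ t → p = q ∧ s = t := by
  induction p with
  | emp => intro q s t h; cases q <;> simp_all [enc]
  | leaf => intro q s t h; cases q <;> simp_all [enc]
  | node l a b iha ihb =>
    intro q s t h
    cases q with
    | emp => simp [enc] at h
    | leaf => simp [enc] at h
    | node l' a' b' =>
      simp only [enc, List.cons_append, List.append_assoc, List.cons.injEq] at h
      obtain ⟨h1, h2⟩ := h
      obtain ⟨h3, h4⟩ := iha a' _ _ h2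
      obtain ⟨h5, h6⟩ := ihb b' _ _ h4
      refine ⟨?_, h6⟩
      rw [h3, h5]
      congr 1
      omega

theorem enc_pos (p : PT) : ∀ x ∈ enc p, 0 < x := by
  induction p with
  | emp => simp [enc]
  | leaf => simp [enc]
  | node l a b iha ihb =>
    intro x hx
    simp only [enc, List.mem_cons, List.mem_append] at hx
    rcases hx with rfl | hx | hx
    · omega
    · exact iha x hx
    · exact ihb x hx

theorem enc_len (p : PT) (h : rd p) : p ≠ PT.emp → (enc p).length + 1 = 2 * leaves p := by
  induction p with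
  | emp => intro h; exact absurd rfl h
  | leaf => intro _; simp [enc, leaves]
  | node l a b iha ihb =>
    intro _
    simp only [rd] at h
    have h1 := iha h.1 h.2.2.1
    have h2 := ihb h.2.1 h.2.2.2
    simp only [enc, leaves, List.length_cons, List.length_append]
    omega

theorem labels_card (p : PT) (h : rd p) : p ≠ PT.emp → (labels p).card + 1 ≤ leaves p := by
  induction p with
  | emp => intro h; exact absurd rfl h
  | leaf => intro _; simp [labels, leaves]
  | node l a b iha ihb =>
    intro _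
    simp only [rd] at h
    have h1 := iha h.1 h.2.2.1
    have h2 := ihb h.2.1 h.2.2.2
    simp only [labels, leaves]
    have h3 := Finset.card_insert_le l (labels a ∪ labels b)
    have h4 := Finset.card_union_le (labels a) (labels b)
    omega

theorem labels_card' (p : PT) (h : rd p) : (labels p).card ≤ leaves p := by
  by_cases he : p = PT.emp
  · subst he; simp [labels]
  · have := labels_card p h he
    omega

theorem enc_lt (n : ℕ) (p : PT) (h : ∀ x ∈ labels p, x < n) : ∀ x ∈ enc p, x < n + 3 := by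
  induction p with
  | emp => simp [enc]
  | leaf => simp [enc]
  | node l a b iha ihb =>
    simp only [labels, Finset.mem_insert, Finset.mem_union] at h
    intro x hx
    simp only [enc, List.mem_cons, List.mem_append] at hx
    rcases hx with rfl | hx | hx
    · have := h l (Or.inl rfl); omega
    · exact iha (fun y hy => h y (Or.inr (Or.inl hy))) x hx
    · exact ihb (fun y hy => h y (Or.inr (Or.inr hy))) x hx

def good (n : ℕ) (p : PT) : Prop := (enc p).length ≤ 2 * n + 1 ∧ ∀ x ∈ enc p, x < n + 3

theorem enc_nrm_len (f : ℕ → ℕ) (p : PT) : (enc (mapP f p)).length = (enc p).length := by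
  induction p with
  | emp => rfl
  | leaf => rfl
  | node l a b iha ihb => simp [mapP, enc, iha, ihb]

theorem nrm_good (n : ℕ) (p : PT) (h : rd p) (hl : leaves p ≤ n) : good n (nrm p) := by
  constructor
  · unfold nrm
    rw [enc_nrm_len]
    by_cases he : p = PT.emp
    · subst he; simp [enc]
    · have := enc_len p h he
      omega
  · apply enc_lt
    intro x hx
    unfold nrm at hx
    rw [labels_mapP, Finset.mem_image] at hx
    obtain ⟨y, hy, rfl⟩ := hx
    have h1 := rk_card _ y hy
    have h2 := labels_card' p h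
    omega

theorem ty_good (n j : ℕ) : ∀ A : Finset ℕ, A ⊆ Finset.range (Bd j) → A.card ≤ n →
    ∀ p ∈ ty j A, good n p := by
  induction j with
  | zero => intro A _ _ p hp; simp [ty] at hp
  | succ j ih =>
    intro A hA hc p hp
    simp only [ty, List.mem_cons] at hp
    have h1 := T_card (Bd j) A hA
    rcases hp with rfl | hp
    · exact nrm_good n _ (T_rd _ _) (by omega)
    · apply ih _ (T_labels_range _ _) _ p hp
      have := labels_card' _ (T_rd (Bd j) A)
      omega

theorem ty_length (j : ℕ) : ∀ A : Finset ℕ, (ty j A).length = j := by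
  induction j with
  | zero => intro A; rfl
  | succ j ih => intro A; simp [ty, ih]

noncomputable def code (n : ℕ) (p : PT) : ℕ := Nat.ofDigits (n + 4) (enc p)

theorem code_inj (n : ℕ) (p q : PT) (hp : good n p) (hq : good n q) (h : code n p = code n q) :
    p = q := by
  have key : ∀ r : PT, good n r → Nat.digits (n + 4) (code n r) = enc r := by
    intro r hr
    unfold code
    apply Nat.digits_ofDigits (n + 4) (by omega)
    · intro x hx
      have := hr.2 x hx
      omega
    · intro hne
      have := enc_pos r _ (List.getLast_mem hne)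
      omega
  have h1 : enc p = enc q := by rw [← key p hp, ← key q hq, h]
  exact (enc_inj p q [] [] (by rw [h1])).1

theorem code_lt (n : ℕ) (p : PT) (hp : good n p) : code n p < (n + 4) ^ (2 * n + 1) := by
  unfold code
  calc Nat.ofDigits (n + 4) (enc p) < (n + 4) ^ (enc p).length := by
        apply Nat.ofDigits_lt_base_pow_length (by omega)
        intro x hx
        have := hp.2 x hx
        omega
    _ ≤ (n + 4) ^ (2 * n + 1) := Nat.pow_le_pow_right (by omega) hp.1

noncomputable def KK (n : ℕ) : ℕ := (n + 4) ^ (2 * n + 1)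

theorem KK_gt (n : ℕ) : 1 < KK n := by
  unfold KK
  exact Nat.one_lt_pow (by omega) (by omega)

noncomputable def tc (n j : ℕ) (A : Finset ℕ) : ℕ :=
  Nat.ofDigits (KK n) ((ty j A).map (code n))

theorem tc_lt (n j : ℕ) (A : Finset ℕ) (hA : A ⊆ Finset.range (Bd j)) (hc : A.card ≤ n) :
    tc n j A < KK n ^ j := by
  unfold tc
  have h1 : ((ty j A).map (code n)).length = j := by rw [List.length_map, ty_length]
  conv_rhs => rw [← h1]
  apply Nat.ofDigits_lt_base_pow_length (KK_gt n)
  intro x hx
  rw [List.mem_map] at hx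
  obtain ⟨p, hp, rfl⟩ := hx
  exact code_lt n p (ty_good n j A hA hc p hp)

theorem tc_inj (n j : ℕ) (A A' : Finset ℕ) (hA : A ⊆ Finset.range (Bd j)) (hc : A.card ≤ n)
    (hA' : A' ⊆ Finset.range (Bd j)) (hc' : A'.card ≤ n) (h : tc n j A = tc n j A') :
    ty j A = ty j A' := by
  have g := ty_good n j A hA hc
  have g' := ty_good n j A' hA' hc'
  have h1 : (ty j A).map (code n) = (ty j A').map (code n) := by
    apply Nat.ofDigits_inj_of_len_eq (KK_gt n)
    · simp [ty_length]
    · intro x hx
      rw [List.mem_map] at hx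
      obtain ⟨p, hp, rfl⟩ := hx
      exact code_lt n p (g p hp)
    · intro x hx
      rw [List.mem_map] at hx
      obtain ⟨p, hp, rfl⟩ := hx
      exact code_lt n p (g' p hp)
    · exact h
  clear h
  revert h1 g g'
  generalize ty j A = L
  generalize ty j A' = L'
  induction L generalizing L' with
  | nil =>
    intro _ _ h
    cases L' with
    | nil => rfl
    | cons q L' => simp at h
  | cons p L ih =>
    intro g g' h
    cases L' with
    | nil => simp at h
    | cons q L' =>
      simp only [List.map_cons, List.cons.injEq] at h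
      rw [code_inj n p q (g p (by simp)) (g' q (by simp)) h.1,
        ih L' (fun r hr => g r (by simp [hr])) (fun r hr => g' r (by simp [hr])) h.2]

end Pool.Agent.H221R3.Tw
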