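import Mathlib
import Pool.Agent.H221R3.TwF

set_option autoImplicit false

namespace Pool.Agent.H221R3.Tw

open Classical

noncomputable def IQ (Q : PT → Prop) (p : PT) : ℝ := if Q p then 1 else 0

theorem IQ_nonneg (Q : PT → Prop) (p : PT) : 0 ≤ IQ Q p := by
  unfold IQ; split_ifs <;> norm_num

theorem IQ_le_one (Q : PT → Prop) (p : PT) : IQ Q p ≤ 1 := by
  unfold IQ; split_ifs <;> norm_num

theorem UB_Q (t : ST) (v : ℝ) (h : UB t v) (Q : PT → Prop)
    (Q1 : ∀ p p', Q p → Q p' → psh p = psh p') : S1 (IQ Q) t ≤ v := by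
  have hc := ce_nonneg t
  by_cases hex : ∃ p, Q p
  · obtain ⟨p, hp⟩ := hex
    by_cases he : p = PT.emp
    · have h1 : S1 (IQ Q) t ≤ ce t := by
        apply S1_mono
        intro q _
        unfold IQ
        by_cases hq : Q q
        · have := Q1 q p hq hp
          rw [he] at this
          have h2 : q = PT.emp := (psh_emp q).mp this
          simp [h2]
          split_ifs <;> norm_num
        · rw [if_neg hq]
          split_ifs <;> norm_num
      have h2 := h PT.leaf (by simp)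
      have h3 := cs_nonneg PT.leaf t
      linarith
    · have h1 : S1 (IQ Q) t ≤ cs (psh p) t := by
        apply S1_mono
        intro q _
        unfold IQ
        by_cases hq : Q q
        · have := Q1 q p hq hp
          rw [if_pos hq, if_pos this]
        · rw [if_neg hq]
          split_ifs <;> norm_num
      have h2 := h (psh p) (fun hh => he ((psh_emp p).mp hh))
      linarith
  · have h1 : S1 (IQ Q) t ≤ ce t := by
      apply S1_mono
      intro q _
      unfold IQ
      rw [if_neg (fun hq => hex ⟨q, hq⟩)]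
      split_ifs <;> norm_num
    have h2 := h PT.leaf (by simp)
    have h3 := cs_nonneg PT.leaf t
    linarith

/-- hypothesis on the lower level -/
def Hyp {α : Type} (n r0 : ℕ) (c M : ℝ) (ty : Finset ℕ → α) (τ : α) : Prop :=
  ∀ r ≤ r0, ∀ X Y : Finset ℕ, X ⊆ Finset.range n → Y ⊆ Finset.range n → Disjoint X Y →
    ((Y.powerset.filter (fun B => ty (X ∪ B) = τ)).card : ℝ)
      ≤ c * (3 / 2) ^ Y.card * M ^ r + 2 ^ Y.card * (15 / 16) ^ r

theorem level_bound {α : Type} (n r0 : ℕ) (c M : ℝ) (hc : 0 ≤ c) (hM : 0 ≤ M)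
    (ty : Finset ℕ → α) (τ : α)
    (H : Hyp n r0 c M ty τ) (Q : PT → Prop)
    (inj : ∀ p p', Q p → Q p' → labels p = labels p' → p = p')
    (hQ : ∀ p, Q p → ty (labels p) = τ) (g : ST) (hg : gd g) (hb : bd n g) (r : ℕ) (hr : r ≤ r0) :
    S1 (IQ Q) g ≤ c * (3 / 2) ^ nf g * M ^ r + 2 ^ nf g * (15 / 16) ^ r := by
  have h1 := level g n hg hb Q inj ty τ hQ
  have hall : Lall g ⊆ Finset.range n := by
    intro x hx
    exact Finset.mem_range.mpr (Lall_lt g n hb x hx)
  have h2 := H r hr (Lmin g) (Lall g \ Lmin g) ((Lmin_sub g).trans hall)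
    (Finset.sdiff_subset.trans hall) (disj_min g)
  have h3 : (Lall g \ Lmin g).card ≤ nf g := by
    have := card_diff g
    simpa using this
  have h4 : (3 / 2 : ℝ) ^ (Lall g \ Lmin g).card ≤ (3 / 2) ^ nf g :=
    pow_le_pow_right₀ (by norm_num) h3
  have h5 : (2 : ℝ) ^ (Lall g \ Lmin g).card ≤ 2 ^ nf g := pow_le_pow_right₀ (by norm_num) h3
  refine h1.trans (h2.trans ?_)
  have hMr : 0 ≤ M ^ r := pow_nonneg hM r
  have hl : (0 : ℝ) ≤ (15 / 16) ^ r := by positivity
  apply add_le_add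
  · exact mul_le_mul_of_nonneg_right (mul_le_mul_of_nonneg_left h4 hc) hMr
  · exact mul_le_mul_of_nonneg_right h5 hl

theorem part_bound {α : Type} (n r0 : ℕ) (c M : ℝ) (hc : 0 ≤ c) (hM : 0 ≤ M)
    (ty : Finset ℕ → α) (τ : α)
    (H : Hyp n r0 c M ty τ) (Q : PT → Prop)
    (inj : ∀ p p', Q p → Q p' → labels p = labels p' → p = p')
    (hQ : ∀ p, Q p → ty (labels p) = τ) (t : ST) (P : Multiset (ST × ℕ)) (hP : Sp n t P)
    (Z : ST → Prop) (hZ : ∀ o ∈ P, Z o.1 → ∀ p ∈ outs o.1, ¬ Q p)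
    (r : ℕ) (hr : r ≤ r0) :
    S1 (IQ Q) t ≤ c * (3 / 2) ^ nf t * M ^ r * Phi P
      + 2 ^ nf t * (15 / 16) ^ r * PS (fun d q => if Z d then 0 else (1 / 2 : ℝ) ^ q) P := by
  rw [hP.part]
  unfold Phi
  rw [← PS_mul_left, ← PS_mul_left, ← PS_add]
  apply PS_mono
  intro o ho
  try dsimp only
  obtain ⟨g1, g2, g3⟩ := hP.good o ho
  have hMr : 0 ≤ M ^ r := pow_nonneg hM r
  have hl : (0 : ℝ) ≤ (15 / 16) ^ r := by positivity
  have hph := phi_ge o.1
  have e1 : (3 / 2 : ℝ) ^ nf t * (2 / 3) ^ o.2 = (3 / 2) ^ nf o.1 := by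
    rw [← g3, pow_add, mul_assoc, ← mul_pow]
    norm_num
  have e2 : (2 : ℝ) ^ nf t * (1 / 2) ^ o.2 = 2 ^ nf o.1 := by
    rw [← g3, pow_add, mul_assoc, ← mul_pow]
    norm_num
  have e3 : c * (3 / 2) ^ nf t * M ^ r * (phi o.1 * (2 / 3) ^ o.2)
      = phi o.1 * (c * (3 / 2) ^ nf o.1 * M ^ r) := by
    rw [← e1]; ring
  have hpos : 0 ≤ c * (3 / 2) ^ nf o.1 * M ^ r := by positivity
  rw [e3]
  by_cases hz : Z o.1
  · rw [if_pos hz, mul_zero, add_zero]
    have : S1 (IQ Q) o.1 = 0 := by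
      have h1 : S1 (IQ Q) o.1 = S1 (fun _ => 0 * 1) o.1 := by
        apply S1_congr
        intro p hp
        unfold IQ
        rw [if_neg (hZ o ho hz p hp)]
        norm_num
      rw [h1, S1_mul_left, zero_mul]
    rw [this]
    positivity
  · rw [if_neg hz]
    have h1 := level_bound n r0 c M hc hM ty τ H Q inj hQ o.1 g1 g2 r hr
    have e4 : (2 : ℝ) ^ nf t * (15 / 16) ^ r * (1 / 2) ^ o.2 = 2 ^ nf o.1 * (15 / 16) ^ r := by
      rw [← e2]; ring
    rw [e4]
    nlinarith

theorem Phi_proc' (t : ST) (h : wf t) : Phi (proc t) ≤ 4 ^ (ca t + 1) := by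
  rcases wf_cases t h with hl | hN
  · rw [isLf_proc t hl, Phi_singleton, ca_leaf t hl]
    rcases hl with rfl | rfl <;> norm_num [phi]
  · refine (Phi_proc t h hN).trans ?_
    exact pow_le_pow_right₀ (by norm_num) (by omega)

theorem tree_step {α : Type} (n r0 K0 K1 s : ℕ) (c M : ℝ) (hc : 0 ≤ c)
    (hMdef : M = 2 ^ (s ^ 2 + 1) * 4 ^ K1)
    (ty : Finset ℕ → α) (τ : α)
    (H : Hyp n r0 c M ty τ) (Q : PT → Prop)
    (Q1 : ∀ p p', Q p → Q p' → psh p = psh p')
    (inj : ∀ p p', Q p → Q p' → labels p = labels p' → p = p')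
    (hQ : ∀ p, Q p → ty (labels p) = τ)
    (hK1 : (3 / 4 : ℝ) ^ K1 ≤ (15 / 16) ^ r0) (hs : 2 ≤ s)
    (hK0 : (2 / s : ℝ) ^ K0 ≤ (15 / 16) ^ r0) (hK : 1 ≤ K0)
    (t : ST) (hw : wf t) (hb : bd n t) (r : ℕ) (hr : r ≤ r0) :
    S1 (IQ Q) t ≤ (4 ^ (K0 + 1) * c) * (3 / 2) ^ nf t * M ^ r + 2 ^ nf t * (15 / 16) ^ r := by
  have hM : 0 ≤ M := by rw [hMdef]; positivity
  have hMr : 0 ≤ M ^ r := pow_nonneg hM r
  have hf1 : 0 ≤ c * (3 / 2) ^ nf t * M ^ r := by positivity
  have hfirst : 0 ≤ (4 ^ (K0 + 1) * c) * (3 / 2) ^ nf t * M ^ r := by positivity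
  have hlr : (15 / 16 : ℝ) ^ r0 ≤ (15 / 16) ^ r :=
    pow_le_pow_of_le_one (by norm_num) (by norm_num) hr
  have hn0 : (0 : ℝ) ≤ 2 ^ nf t := by positivity
  have hs' : (2 : ℝ) ≤ s := by exact_mod_cast hs
  have hs1 : (2 / s : ℝ) ≤ 1 := by rw [div_le_one (by linarith)]; exact hs'
  have hs0 : (0 : ℝ) ≤ 2 / s := by positivity
  by_cases h1 : ca t ≤ K0
  · have h2 := part_bound n r0 c M hc hM ty τ H Q inj hQ t (proc t) (proc_Sp t n hb)
      (fun _ => False) (fun _ _ h => absurd h id) r hr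
    simp only [if_false] at h2
    rw [mass n t _ (proc_Sp t n hb), mul_one] at h2
    have h3 : Phi (proc t) ≤ 4 ^ (K0 + 1) :=
      (Phi_proc' t hw).trans (pow_le_pow_right₀ (by norm_num) (by omega))
    calc S1 (IQ Q) t ≤ _ := h2
      _ ≤ c * (3 / 2) ^ nf t * M ^ r * 4 ^ (K0 + 1) + 2 ^ nf t * (15 / 16) ^ r := by
          have := mul_le_mul_of_nonneg_left h3 hf1
          linarith
      _ = _ := by ring
  · push Not at h1
    by_cases h2 : K1 ≤ ca t
    · have h3 := UB_Q t _ (UB34 t hw) Q Q1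
      have h4 : (3 / 4 : ℝ) ^ ca t ≤ (3 / 4) ^ K1 :=
        pow_le_pow_of_le_one (by norm_num) (by norm_num) h2
      have h5 : (2 : ℝ) ^ nf t * (3 / 4) ^ ca t ≤ 2 ^ nf t * (15 / 16) ^ r :=
        mul_le_mul_of_nonneg_left (h4.trans (hK1.trans hlr)) hn0
      linarith
    · push Not at h2
      by_cases h3 : Lt (s ^ 2) t
      · obtain ⟨P, hP⟩ := split_exists (s ^ 2) t n hw hb h3
        by_cases hex : ∃ p, Q p
        · obtain ⟨p0, hp0⟩ := hex
          cases r with
          | zero =>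
            have h4 : S1 (IQ Q) t ≤ S1 (fun _ => 1) t := S1_mono _ _ t (fun p _ => IQ_le_one Q p)
            rw [S1_one] at h4
            simp only [pow_zero, mul_one] at hfirst ⊢
            linarith
          | succ r =>
            have h4 := part_bound n r0 c M hc hM ty τ H Q inj hQ t P hP.sp
              (Inc (core (psh p0)))
              (fun o _ hz p hp hq => hz.2 p hp (by rw [Q1 p p0 hq hp0])) r (by omega)
            have h5 : PS (fun d q => if Inc (core (psh p0)) d then 0 else (1 / 2 : ℝ) ^ q) P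
                ≤ 15 / 16 := by
              have e1 : PS (fun d q => if Inc (core (psh p0)) d then 0 else (1 / 2 : ℝ) ^ q) P
                  + wI (core (psh p0)) P = 1 := by
                unfold wI
                have e0 := mass n t P hP.sp
                rw [← PS_add]
                refine Eq.trans ?_ e0
                apply PS_congr
                intro o _
                try dsimp only
                split_ifs <;> simp
              have := hP.inc (core (psh p0))
              linarith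
            have h6 : Phi P ≤ M := by
              rw [hMdef]
              refine hP.ph.trans (mul_le_mul_of_nonneg_left ?_ (by positivity))
              exact pow_le_pow_right₀ (by norm_num) h2.le
            have hMr' : 0 ≤ M ^ r := pow_nonneg hM r
            have hf2 : 0 ≤ c * (3 / 2) ^ nf t * M ^ r := by positivity
            have i1 := mul_le_mul_of_nonneg_left h6 hf2
            have i2 : (2 : ℝ) ^ nf t * (15 / 16) ^ r
                * PS (fun d q => if Inc (core (psh p0)) d then 0 else (1 / 2 : ℝ) ^ q) P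
                ≤ 2 ^ nf t * (15 / 16) ^ r * (15 / 16) :=
              mul_le_mul_of_nonneg_left h5 (by positivity)
            have i3 : (2 : ℝ) ^ nf t * (15 / 16) ^ r * (15 / 16)
                = 2 ^ nf t * (15 / 16) ^ (r + 1) := by rw [pow_succ]; ring
            have i4 : c * (3 / 2) ^ nf t * M ^ r * M = c * (3 / 2) ^ nf t * M ^ (r + 1) := by
              rw [pow_succ]; ring
            have i5 : (1 : ℝ) ≤ 4 ^ (K0 + 1) := one_le_pow₀ (by norm_num)
            have i6 : c * (3 / 2) ^ nf t * M ^ (r + 1)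
                ≤ 4 ^ (K0 + 1) * c * (3 / 2) ^ nf t * M ^ (r + 1) := by
              have := mul_le_mul_of_nonneg_right i5 hf1
              rw [one_mul] at this
              calc c * (3 / 2) ^ nf t * M ^ (r + 1)
                  ≤ 4 ^ (K0 + 1) * (c * (3 / 2) ^ nf t * M ^ (r + 1)) := this
                _ = _ := by ring
            linarith
        · have h4 : S1 (IQ Q) t = S1 (fun _ => 0 * 1) t := by
            apply S1_congr
            intro p _
            unfold IQ
            rw [if_neg (fun h => hex ⟨p, h⟩)]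
            norm_num
          rw [h4, S1_mul_left, zero_mul]
          positivity
      · have hcc := ca_le_cc t
        have h4 := UB_Q t _ (UBg s (by omega) t hw h3 (by omega)) Q Q1
        have h5 : (2 / s : ℝ) ^ ca t ≤ (2 / s) ^ K0 :=
          pow_le_pow_of_le_one hs0 hs1 h1.le
        have h6 : (2 : ℝ) ^ nf t * (2 / s) ^ ca t ≤ 2 ^ nf t * (15 / 16) ^ r :=
          mul_le_mul_of_nonneg_left (h5.trans (hK0.trans hlr)) hn0
        linarith

theorem main_count (r0 K0 K1 s : ℕ) (M : ℝ)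
    (hMdef : M = 2 ^ (s ^ 2 + 1) * 4 ^ K1)
    (hK1 : (3 / 4 : ℝ) ^ K1 ≤ (15 / 16) ^ r0) (hs : 2 ≤ s)
    (hK0 : (2 / s : ℝ) ^ K0 ≤ (15 / 16) ^ r0) (hK : 1 ≤ K0) (j : ℕ) :
    ∀ τ : List PT, Hyp (Bd j) r0 ((4 ^ (K0 + 1)) ^ j) M (ty j) τ := by
  have hM1 : 1 ≤ M := by
    rw [hMdef]
    have h1 : (1 : ℝ) ≤ 2 ^ (s ^ 2 + 1) := one_le_pow₀ (by norm_num)
    have h2 : (1 : ℝ) ≤ 4 ^ K1 := one_le_pow₀ (by norm_num)
    nlinarith
  induction j with
  | zero =>
    intro τ r _ X Y _ hY _
    simp only [Bd, Finset.range_zero, Finset.subset_empty] at hY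
    subst hY
    suffices goal' : (((∅ : Finset ℕ).powerset.filter (fun B => ty 0 (X ∪ B) = τ)).card : ℝ)
        ≤ (4 ^ (K0 + 1)) ^ 0 * (3 / 2) ^ (∅ : Finset ℕ).card * M ^ r
          + 2 ^ (∅ : Finset ℕ).card * (15 / 16) ^ r by convert goal'
    have h1 : (((∅ : Finset ℕ).powerset.filter (fun B => ty 0 (X ∪ B) = τ)).card : ℝ) ≤ 1 := by
      have := Finset.card_filter_le ((∅ : Finset ℕ).powerset) (fun B => ty 0 (X ∪ B) = τ)
      simp only [Finset.powerset_empty, Finset.card_singleton] at this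
      exact_mod_cast this
    have h2 : (1 : ℝ) ≤ M ^ r := one_le_pow₀ hM1
    have h3 : (0 : ℝ) ≤ (15 / 16) ^ r := by positivity
    simp only [pow_zero, Finset.card_empty, mul_one, one_mul]
    linarith
  | succ j ih =>
    intro τ r hr X Y hX hY hd
    suffices goal' : ((Y.powerset.filter (fun B => ty (j + 1) (X ∪ B) = τ)).card : ℝ)
        ≤ (4 ^ (K0 + 1)) ^ (j + 1) * (3 / 2) ^ Y.card * M ^ r
          + 2 ^ Y.card * (15 / 16) ^ r by convert goal'
    cases τ with
    | nil =>
      have : Y.powerset.filter (fun B => ty (j + 1) (X ∪ B) = []) = ∅ := by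
        apply Finset.filter_false_of_mem
        intro B _
        simp [ty]
      have hM0 : 0 < M := by linarith
      rw [this, Finset.card_empty, Nat.cast_zero]
      positivity
    | cons sh τ' =>
      set Q : PT → Prop := fun p => nrm p = sh ∧ ty j (labels p) = τ' with hQdef
      have e1 : ((Y.powerset.filter (fun B => ty (j + 1) (X ∪ B) = sh :: τ')).card : ℝ)
          = S1 (IQ Q) (st (Bd j) X Y) := by
        rw [st_sum (Bd j) (IQ Q) X Y hd hY, Finset.card_filter]
        push_cast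
        apply Finset.sum_congr rfl
        intro B _
        unfold IQ
        simp only [ty, List.cons.injEq, hQdef]
      have e2 : nf (st (Bd j) X Y) = Y.card := st_nf (Bd j) X Y hd hY
      rw [e1]
      rcases st_wf (Bd j) X Y with he | hw
      · rw [he, S1_emp]
        rw [he] at e2
        have h1 := IQ_le_one Q PT.emp
        have h2 : (1 : ℝ) ≤ M ^ r := one_le_pow₀ hM1
        have h3 : (1 : ℝ) ≤ (4 ^ (K0 + 1)) ^ (j + 1) := one_le_pow₀ (one_le_pow₀ (by norm_num))
        have h4 : (1 : ℝ) ≤ (3 / 2) ^ Y.card := one_le_pow₀ (by norm_num)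
        have h5 : (0 : ℝ) ≤ 2 ^ Y.card * (15 / 16) ^ r := by positivity
        have h6 : (1 : ℝ) ≤ (4 ^ (K0 + 1)) ^ (j + 1) * (3 / 2) ^ Y.card * M ^ r := by
          have := one_le_mul_of_one_le_of_one_le (one_le_mul_of_one_le_of_one_le h3 h4) h2
          exact this
        linarith
      · have h1 := tree_step (Bd j) r0 K0 K1 s ((4 ^ (K0 + 1)) ^ j) M (by positivity) hMdef
          (ty j) τ' (ih τ') Q
          (fun p p' hp hp' => by rw [← psh_nrm p, ← psh_nrm p', hp.1, hp'.1])
          (fun p p' hp hp' hl => nrm_eq p p' (hp.1.trans hp'.1.symm) hl)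
          (fun p hp => hp.2) hK1 hs hK0 hK (st (Bd j) X Y) hw (st_bd _ _ _) r hr
        rw [e2] at h1
        rw [pow_succ (4 ^ (K0 + 1) : ℝ) j, mul_comm ((4 ^ (K0 + 1) : ℝ) ^ j) (4 ^ (K0 + 1))]
        exact h1

end Pool.Agent.H221R3.Tw
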