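import Mathlib
import Pool.Agent.H221R3.TwG

set_option autoImplicit false

namespace Pool.Agent.H221R3.Tw

open Classical

noncomputable def sg (b : Bool) : ℝ := if b then 1 else -1

theorem exp_sum (V : ℕ) (a : Fin V → ℝ) (s : ℝ) :
    ∑ F : Fin V → Bool, Real.exp (s * ∑ τ, sg (F τ) * a τ)
      = ∏ τ, (Real.exp (s * a τ) + Real.exp (-(s * a τ))) := by
  have h1 : ∀ F : Fin V → Bool, Real.exp (s * ∑ τ, sg (F τ) * a τ)
      = ∏ τ, Real.exp (s * (sg (F τ) * a τ)) := by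
    intro F
    rw [Finset.mul_sum, Real.exp_sum]
  rw [Finset.sum_congr rfl (fun F _ => h1 F)]
  have h2 := Finset.prod_univ_sum (R := ℝ) (fun _ : Fin V => (Finset.univ : Finset Bool))
    (fun τ b => Real.exp (s * (sg b * a τ)))
  rw [Fintype.piFinset_univ] at h2
  rw [← h2]
  apply Finset.prod_congr rfl
  intro τ _
  simp [sg]

theorem exp_sum_le (V : ℕ) (a : Fin V → ℝ) (s W : ℝ) (hW : ∑ τ, a τ ^ 2 ≤ W) :
    ∑ F : Fin V → Bool, Real.exp (s * ∑ τ, sg (F τ) * a τ) ≤ 2 ^ V * Real.exp (s ^ 2 * W / 2) := by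
  rw [exp_sum]
  have h1 : ∏ τ, (Real.exp (s * a τ) + Real.exp (-(s * a τ)))
      ≤ ∏ τ, (2 * Real.exp ((s * a τ) ^ 2 / 2)) := by
    apply Finset.prod_le_prod
    · intro τ _
      positivity
    · intro τ _
      have := Real.cosh_le_exp_half_sq (s * a τ)
      rw [Real.cosh_eq] at this
      linarith
  refine h1.trans ?_
  rw [Finset.prod_mul_distrib, Finset.prod_const, Finset.card_univ, Fintype.card_fin,
    ← Real.exp_sum]
  apply mul_le_mul_of_nonneg_left _ (by positivity)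
  rw [Real.exp_le_exp]
  have h2 : ∑ τ, (s * a τ) ^ 2 / 2 = s ^ 2 * (∑ τ, a τ ^ 2) / 2 := by
    rw [Finset.mul_sum, Finset.sum_div]
    apply Finset.sum_congr rfl
    intro τ _
    ring
  rw [h2]
  have := mul_le_mul_of_nonneg_left hW (sq_nonneg s)
  linarith

theorem rc {ι : Type} (V : ℕ) (I : Finset ι) (a : ι → Fin V → ℝ) (C η δ : ℝ) (hC : 0 < C)
    (hη : 0 < η) (hδ : 0 < δ) (ha : ∀ i ∈ I, ∀ τ, 0 ≤ a i τ)
    (hsum : ∀ i ∈ I, ∑ τ, a i τ = C) (hmax : ∀ i ∈ I, ∀ τ, a i τ ≤ η * C)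
    (hI : 2 * (I.card : ℝ) < Real.exp (δ ^ 2 / (2 * η))) :
    ∃ F : Fin V → Bool, ∀ i ∈ I, |∑ τ, sg (F τ) * a i τ| ≤ δ * C := by
  by_contra hcon
  push Not at hcon
  set s : ℝ := δ / (η * C) with hs
  have hs0 : 0 < s := by positivity
  have hW : ∀ i ∈ I, ∑ τ, a i τ ^ 2 ≤ η * C ^ 2 := by
    intro i hi
    calc ∑ τ, a i τ ^ 2 ≤ ∑ τ, (η * C) * a i τ := by
          apply Finset.sum_le_sum
          intro τ _
          have h1 := ha i hi τ
          have h2 := hmax i hi τ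
          nlinarith
      _ = η * C ^ 2 := by rw [← Finset.mul_sum, hsum i hi]; ring
  have h1 : ∀ F : Fin V → Bool, Real.exp (s * (δ * C))
      ≤ ∑ i ∈ I, (Real.exp (s * ∑ τ, sg (F τ) * a i τ) + Real.exp (-s * ∑ τ, sg (F τ) * a i τ)) := by
    intro F
    obtain ⟨i, hi, hF⟩ := hcon F
    have h2 : Real.exp (s * (δ * C)) ≤ Real.exp (s * ∑ τ, sg (F τ) * a i τ)
        + Real.exp (-s * ∑ τ, sg (F τ) * a i τ) := by
      rcases lt_abs.mp hF with h | h
      · have : Real.exp (s * (δ * C)) ≤ Real.exp (s * ∑ τ, sg (F τ) * a i τ) := by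
          rw [Real.exp_le_exp]
          exact mul_le_mul_of_nonneg_left h.le hs0.le
        have h3 := Real.exp_pos (-s * ∑ τ, sg (F τ) * a i τ)
        linarith
      · have : Real.exp (s * (δ * C)) ≤ Real.exp (-s * ∑ τ, sg (F τ) * a i τ) := by
          rw [Real.exp_le_exp]
          have := mul_le_mul_of_nonneg_left h.le hs0.le
          linarith
        have h3 := Real.exp_pos (s * ∑ τ, sg (F τ) * a i τ)
        linarith
    refine h2.trans ?_
    exact Finset.single_le_sum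
      (f := fun i => Real.exp (s * ∑ τ, sg (F τ) * a i τ) + Real.exp (-s * ∑ τ, sg (F τ) * a i τ))
      (fun i _ => by positivity) hi
  have h2 : ∑ _F : Fin V → Bool, Real.exp (s * (δ * C))
      ≤ ∑ F : Fin V → Bool, ∑ i ∈ I, (Real.exp (s * ∑ τ, sg (F τ) * a i τ)
        + Real.exp (-s * ∑ τ, sg (F τ) * a i τ)) :=
    Finset.sum_le_sum (fun F _ => h1 F)
  rw [Finset.sum_comm] at h2
  have h3 : ∑ i ∈ I, ∑ F : Fin V → Bool, (Real.exp (s * ∑ τ, sg (F τ) * a i τ)
        + Real.exp (-s * ∑ τ, sg (F τ) * a i τ))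
      ≤ ∑ i ∈ I, (2 * (2 ^ V * Real.exp (s ^ 2 * (η * C ^ 2) / 2))) := by
    apply Finset.sum_le_sum
    intro i hi
    rw [Finset.sum_add_distrib]
    have e1 := exp_sum_le V (a i) s _ (hW i hi)
    have e2 := exp_sum_le V (a i) (-s) _ (hW i hi)
    rw [neg_sq] at e2
    linarith
  have h4 := h2.trans h3
  simp only [Finset.sum_const, Finset.card_univ, Fintype.card_fun, Fintype.card_bool,
    Fintype.card_fin, nsmul_eq_mul] at h4
  push_cast at h4
  have e1 : s * (δ * C) = δ ^ 2 / (2 * η) + δ ^ 2 / (2 * η) := by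
    rw [hs]; field_simp; ring
  have e2 : s ^ 2 * (η * C ^ 2) / 2 = δ ^ 2 / (2 * η) := by
    rw [hs]; field_simp
  rw [e1, e2, Real.exp_add] at h4
  have hE := Real.exp_pos (δ ^ 2 / (2 * η))
  have h5 : (2 : ℝ) ^ V * Real.exp (δ ^ 2 / (2 * η)) * Real.exp (δ ^ 2 / (2 * η))
      ≤ (2 : ℝ) ^ V * Real.exp (δ ^ 2 / (2 * η)) * (2 * (I.card : ℝ)) := by
    linarith
  have h6 := le_of_mul_le_mul_left h5 (by positivity)
  linarith

/-! order isomorphisms -/

theorem image_rk (D : Finset ℕ) : D.image (rk D) = Finset.range D.card := by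
  apply Finset.eq_of_subset_of_card_le
  · intro x hx
    rw [Finset.mem_image] at hx
    obtain ⟨y, hy, rfl⟩ := hx
    exact Finset.mem_range.mpr (rk_card D y hy)
  · rw [Finset.card_range, Finset.card_image_of_injOn]
    intro x hx y hy h
    exact rk_inj D x y hx hy h

theorem exists_iso (D D' : Finset ℕ) (h : D.card = D'.card) :
    ∃ ψ : ℕ → ℕ, D' = D.image ψ ∧ StrictMonoOn ψ (D : Set ℕ) := by
  have hl : D.image (rk D) = D'.image (rk D') := by rw [image_rk, image_rk, h]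
  have hex : ∀ x, ∃ y, x ∈ D → (y ∈ D' ∧ rk D' y = rk D x) := by
    intro x
    by_cases hx : x ∈ D
    · have : rk D x ∈ D'.image (rk D') := by
        rw [← hl]; exact Finset.mem_image_of_mem _ hx
      rw [Finset.mem_image] at this
      obtain ⟨y, hy, hy2⟩ := this
      exact ⟨y, fun _ => ⟨hy, hy2⟩⟩
    · exact ⟨0, fun h => absurd h hx⟩
  choose ψ hψ using hex
  have hmono : StrictMonoOn ψ (D : Set ℕ) := by
    intro x hx y hy hxy
    have h1 := hψ x hx
    have h2 := hψ y hy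
    have h3 := rk_lt D x y hx hxy
    by_contra hh
    have h4 := rk_mono D' _ _ (not_lt.mp hh)
    omega
  refine ⟨ψ, ?_, hmono⟩
  symm
  apply Finset.eq_of_subset_of_card_le
  · intro z hz
    rw [Finset.mem_image] at hz
    obtain ⟨x, hx, rfl⟩ := hz
    exact (hψ x hx).1
  · rw [Finset.card_image_of_injOn hmono.injOn, h]

theorem sum_iso (n j k : ℕ) (S S' : Finset ℕ) (hS : S ⊆ Finset.range (Bd j))
    (hS' : S' ⊆ Finset.range (Bd j)) (hc : S.card = n) (hc' : S'.card = n)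
    (h : tc n j S = tc n j S') (G : ℕ → ℝ) :
    ∑ T ∈ S.powersetCard k, G (tc n j T) = ∑ T ∈ S'.powersetCard k, G (tc n j T) := by
  obtain ⟨ψ, hψ1, hψ2⟩ := exists_iso S S' (hc.trans hc'.symm)
  have hty := tc_inj n j S S' hS hc.le hS' hc'.le h
  have hinj := hψ2.injOn
  apply Finset.sum_bij (fun T _ => T.image ψ)
  · intro T hT
    rw [Finset.mem_powersetCard] at hT ⊢
    constructor
    · rw [hψ1]; exact Finset.image_subset_image hT.1
    · rw [Finset.card_image_of_injOn (hinj.mono (by exact_mod_cast hT.1)), hT.2]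
  · intro T hT T' hT' hTT
    rw [Finset.mem_powersetCard] at hT hT'
    ext x
    constructor
    · intro hx
      have : ψ x ∈ T'.image ψ := by
        rw [← hTT]; exact Finset.mem_image_of_mem _ hx
      rw [Finset.mem_image] at this
      obtain ⟨y, hy, hy2⟩ := this
      rwa [← hinj (hT'.1 hy) (hT.1 hx) hy2]
    · intro hx
      have : ψ x ∈ T.image ψ := by
        rw [hTT]; exact Finset.mem_image_of_mem _ hx
      rw [Finset.mem_image] at this
      obtain ⟨y, hy, hy2⟩ := this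
      rwa [← hinj (hT.1 hy) (hT'.1 hx) hy2]
  · intro T' hT'
    rw [Finset.mem_powersetCard] at hT'
    have he : (S.filter (fun x => ψ x ∈ T')).image ψ = T' := by
      ext z
      rw [Finset.mem_image]
      constructor
      · rintro ⟨x, hx, rfl⟩
        exact (Finset.mem_filter.mp hx).2
      · intro hz
        have : z ∈ S.image ψ := by rw [← hψ1]; exact hT'.1 hz
        rw [Finset.mem_image] at this
        obtain ⟨x, hx, rfl⟩ := this
        exact ⟨x, Finset.mem_filter.mpr ⟨hx, hz⟩, rfl⟩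
    refine ⟨S.filter (fun x => ψ x ∈ T'), ?_, he⟩
    rw [Finset.mem_powersetCard]
    refine ⟨Finset.filter_subset _ _, ?_⟩
    rw [← Finset.card_image_of_injOn (hinj.mono (by exact_mod_cast Finset.filter_subset _ _)), he,
      hT'.2]
  · intro T hT
    rw [Finset.mem_powersetCard] at hT
    unfold tc
    rw [coherence j S S' ψ hS hS' hψ2 hψ1 hty T hT.1]

/-- fibre sizes -/
noncomputable def fib (n j k : ℕ) (S : Finset ℕ) (τ : ℕ) : ℝ :=
  (((S.powersetCard k).filter (fun T => tc n j T = τ)).card : ℝ)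

theorem fib_bound (r0 K0 K1 s n j k : ℕ) (M : ℝ)
    (hMdef : M = 2 ^ (s ^ 2 + 1) * 4 ^ K1)
    (hK1 : (3 / 4 : ℝ) ^ K1 ≤ (15 / 16) ^ r0) (hs : 2 ≤ s)
    (hK0 : (2 / s : ℝ) ^ K0 ≤ (15 / 16) ^ r0) (hK : 1 ≤ K0)
    (S : Finset ℕ) (hS : S ⊆ Finset.range (Bd j)) (hc : S.card = n) (hk : k ≤ n) (τ : ℕ) :
    fib n j k S τ ≤ (4 ^ (K0 + 1)) ^ j * (3 / 2) ^ n * M ^ r0 + 2 ^ n * (15 / 16) ^ r0 := by
  have hM : 0 < M := by rw [hMdef]; positivity
  unfold fib
  by_cases hex : ∃ T0 ∈ S.powersetCard k, tc n j T0 = τ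
  · obtain ⟨T0, hT0, hτ⟩ := hex
    rw [Finset.mem_powersetCard] at hT0
    have h1 := main_count r0 K0 K1 s M hMdef hK1 hs hK0 hK j (ty j T0) r0 (le_refl _) ∅ S
      (Finset.empty_subset _) hS (Finset.disjoint_empty_left _)
    rw [hc] at h1
    have h1' : ((S.powerset.filter (fun B => ty j (∅ ∪ B) = ty j T0)).card : ℝ)
        ≤ (4 ^ (K0 + 1)) ^ j * (3 / 2) ^ n * M ^ r0 + 2 ^ n * (15 / 16) ^ r0 := by convert h1
    refine le_trans ?_ h1'
    norm_cast
    apply Finset.card_le_card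
    intro T hT
    rw [Finset.mem_filter, Finset.mem_powersetCard] at hT
    rw [Finset.mem_filter, Finset.mem_powerset, Finset.empty_union]
    refine ⟨hT.1.1, ?_⟩
    apply tc_inj n j T T0 (hT.1.1.trans hS) (by omega) (hT0.1.trans hS) (by omega)
    rw [hT.2, hτ]
  · have : (S.powersetCard k).filter (fun T => tc n j T = τ) = ∅ := by
      apply Finset.filter_false_of_mem
      intro T hT h
      exact hex ⟨T, hT, h⟩
    rw [this, Finset.card_empty, Nat.cast_zero]
    positivity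

theorem sum_fib (n j k : ℕ) (S : Finset ℕ) (hS : S ⊆ Finset.range (Bd j)) (hc : S.card = n)
    (hk : k ≤ n) (G : ℕ → ℝ) :
    ∑ T ∈ S.powersetCard k, G (tc n j T) = ∑ τ : Fin (KK n ^ j), G τ * fib n j k S τ := by
  rw [Fin.sum_univ_eq_sum_range (fun τ => G τ * fib n j k S τ) (KK n ^ j)]
  rw [← Finset.sum_fiberwise_of_maps_to (s := S.powersetCard k) (t := Finset.range (KK n ^ j))
    (g := fun T => tc n j T)]
  · apply Finset.sum_congr rfl
    intro τ _
    rw [Finset.sum_congr rfl (g := fun _ => G τ)]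
    · rw [Finset.sum_const, nsmul_eq_mul, mul_comm]
      unfold fib
      congr
    · intro T hT
      rw [(Finset.mem_filter.mp hT).2]
  · intro T hT
    rw [Finset.mem_powersetCard] at hT
    rw [Finset.mem_range]
    exact tc_lt n j T (hT.1.trans hS) (by omega)

/-- existence of a good colouring given the numerical inequalities -/
theorem colouring (r0 K0 K1 s j k : ℕ) (M η δ : ℝ)
    (hMdef : M = 2 ^ (s ^ 2 + 1) * 4 ^ K1)
    (hK1 : (3 / 4 : ℝ) ^ K1 ≤ (15 / 16) ^ r0) (hs : 2 ≤ s)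
    (hK0 : (2 / s : ℝ) ^ K0 ≤ (15 / 16) ^ r0) (hK : 1 ≤ K0) (hη : 0 < η) (hδ : 0 < δ)
    (hfib : (4 ^ (K0 + 1)) ^ j * (3 / 2) ^ (2 * k) * M ^ r0 + 2 ^ (2 * k) * (15 / 16) ^ r0
      ≤ η * ((2 * k).choose k : ℝ))
    (hcl : 2 * ((KK (2 * k) : ℝ) ^ j) < Real.exp (δ ^ 2 / (2 * η))) :
    ∃ F : ℕ → Bool, ∀ S : Finset ℕ, S ⊆ Finset.range (Bd j) → S.card = 2 * k →
      |∑ T ∈ S.powersetCard k, sg (F (tc (2 * k) j T))| ≤ δ * ((2 * k).choose k : ℝ) := by
  set n := 2 * k with hn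
  set I : Finset ℕ := (Finset.range (KK n ^ j)).filter
    (fun i => ∃ S : Finset ℕ, S ⊆ Finset.range (Bd j) ∧ S.card = n ∧ tc n j S = i) with hI
  have hex : ∀ i, ∃ S : Finset ℕ, i ∈ I → (S ⊆ Finset.range (Bd j) ∧ S.card = n ∧ tc n j S = i) := by
    intro i
    by_cases hi : i ∈ I
    · obtain ⟨S, hS⟩ := (Finset.mem_filter.mp hi).2
      exact ⟨S, fun _ => hS⟩
    · exact ⟨∅, fun h => absurd h hi⟩
  choose R hR using hex
  have hC : (0 : ℝ) < (n.choose k : ℝ) := by
    exact_mod_cast Nat.choose_pos (by omega)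
  have hcard : (I.card : ℝ) ≤ (KK n : ℝ) ^ j := by
    have h1 := Finset.card_filter_le (Finset.range (KK n ^ j))
      (fun i => ∃ S : Finset ℕ, S ⊆ Finset.range (Bd j) ∧ S.card = n ∧ tc n j S = i)
    rw [Finset.card_range] at h1
    exact_mod_cast h1
  obtain ⟨F, hF⟩ := rc (KK n ^ j) I (fun i τ => fib n j k (R i) τ) (n.choose k : ℝ) η δ hC hη hδ
    (by
      intro i _ τ
      unfold fib
      positivity)
    (by
      intro i hi
      have h1 := sum_fib n j k (R i) (hR i hi).1 (hR i hi).2.1 (by omega) (fun _ => 1)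
      simp only [one_mul] at h1
      rw [← h1, Finset.sum_const, Finset.card_powersetCard, (hR i hi).2.1]
      simp)
    (by
      intro i hi τ
      exact (fib_bound r0 K0 K1 s n j k M hMdef hK1 hs hK0 hK (R i) (hR i hi).1 (hR i hi).2.1
        (by omega) τ).trans hfib)
    (by linarith)
  set F' : ℕ → Bool := fun x => if h : x < KK n ^ j then F ⟨x, h⟩ else true with hF'
  refine ⟨F', ?_⟩
  intro S hS hSc
  have hi : tc n j S ∈ I := by
    rw [hI, Finset.mem_filter, Finset.mem_range]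
    exact ⟨tc_lt n j S hS (by omega), S, hS, hSc, rfl⟩
  have hRi := hR _ hi
  rw [sum_iso n j k S (R (tc n j S)) hS hRi.1 hSc hRi.2.1 hRi.2.2.symm (fun x => sg (F' x))]
  rw [sum_fib n j k _ hRi.1 hRi.2.1 (by omega) (fun x => sg (F' x))]
  have h2 := hF _ hi
  convert h2 using 4 with τ
  rw [hF']
  simp

end Pool.Agent.H221R3.Tw
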