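import Mathlib
import Pool.Agent.H221R3.TwH

set_option autoImplicit false

namespace Pool.Agent.H221R3.Tw

open Classical

theorem num_A (b : ℕ) : (3 / 4 : ℝ) ^ (440 * b) ≤ (15 / 16) ^ (440 * b) :=
  pow_le_pow_left₀ (by norm_num) (by norm_num) _

theorem num_B (b : ℕ) (hb : 2 ≤ b) : 2 ≤ 2 ^ b := by
  calc 2 = 2 ^ 1 := by norm_num
    _ ≤ 2 ^ b := Nat.pow_le_pow_right (by norm_num) (by omega)

theorem num_C (b : ℕ) (hb : 2 ≤ b) :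
    (2 / ((2 ^ b : ℕ) : ℝ)) ^ 88 ≤ (15 / 16 : ℝ) ^ (440 * b) := by
  obtain ⟨c, rfl⟩ : ∃ c, b = c + 1 := ⟨b - 1, by omega⟩
  have e1 : (2 / ((2 ^ (c + 1) : ℕ) : ℝ)) = (1 / 2) ^ c := by
    push_cast
    rw [pow_succ, one_div, inv_pow]
    field_simp
  rw [e1, ← pow_mul]
  calc (1 / 2 : ℝ) ^ (c * 88) ≤ (1 / 2) ^ (44 * (c + 1)) :=
        pow_le_pow_of_le_one (by norm_num) (by norm_num) (by omega)
    _ ≤ ((15 / 16 : ℝ) ^ 10) ^ (44 * (c + 1)) :=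
        pow_le_pow_left₀ (by norm_num) (by norm_num) _
    _ = (15 / 16 : ℝ) ^ (440 * (c + 1)) := by
        rw [← pow_mul]; congr 1; ring

theorem num_lam (b : ℕ) : (15 / 16 : ℝ) ^ (440 * b) ≤ (1 / 2) ^ (40 * b) := by
  have e : (15 / 16 : ℝ) ^ (440 * b) = ((15 / 16 : ℝ) ^ 11) ^ (40 * b) := by
    rw [← pow_mul]; congr 1; ring
  rw [e]
  exact pow_le_pow_left₀ (by norm_num) (by norm_num) _

theorem num_E (b k j : ℕ) (hb : 21 ≤ b) (hk : 16 ^ b ≤ k) (hj : 1000 * j ≤ k + 1000) :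
    178 * j + (4 ^ b + 1 + 880 * b) * (440 * b) + 40 * b ≤ 4 * (k / 5) := by
  set u : ℕ := 2 ^ b with hu
  have e4 : 4 ^ b = u ^ 2 := by rw [hu, ← pow_mul, mul_comm, pow_mul]; norm_num
  have e16 : 16 ^ b = u ^ 4 := by rw [hu, ← pow_mul, mul_comm, pow_mul]; norm_num
  have hbu : b ≤ u := by
    rw [hu]; exact Nat.lt_two_pow_self.le
  have hu21 : 2 ^ 21 ≤ u := Nat.pow_le_pow_right (by norm_num) hb
  have hu1 : 1 ≤ u := by
    have : (1 : ℕ) ≤ 2 ^ 21 := by norm_num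
    omega
  rw [e4]
  rw [e16] at hk
  have h3 : u ^ 3 * 2 ^ 21 ≤ u ^ 4 := by
    calc u ^ 3 * 2 ^ 21 ≤ u ^ 3 * u := Nat.mul_le_mul_left _ hu21
      _ = u ^ 4 := by ring
  have p1 : b * u ^ 2 ≤ u ^ 3 := by
    calc b * u ^ 2 ≤ u * u ^ 2 := Nat.mul_le_mul_right _ hbu
      _ = u ^ 3 := by ring
  have p3 : u ≤ u ^ 3 := by
    calc u = u * 1 := by ring
      _ ≤ u * u ^ 2 := Nat.mul_le_mul_left _ (Nat.one_le_pow _ _ (by omega))
      _ = u ^ 3 := by ring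
  have p2 : b * b ≤ u ^ 3 := by
    calc b * b ≤ u * u := Nat.mul_le_mul hbu hbu
      _ = u * u * 1 := by ring
      _ ≤ u * u * u := Nat.mul_le_mul_left _ hu1
      _ = u ^ 3 := by ring
  have hX : (u ^ 2 + 1 + 880 * b) * (440 * b) + 40 * b ≤ 388120 * u ^ 3 := by
    have : (u ^ 2 + 1 + 880 * b) * (440 * b) + 40 * b
        = 440 * (b * u ^ 2) + 387200 * (b * b) + 480 * b := by ring
    rw [this]
    omega
  have h5 : 1 ≤ u ^ 3 := Nat.one_le_pow _ _ (by omega)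
  omega

theorem num_D1 (b k j : ℕ) (hb : 21 ≤ b) (hk : 16 ^ b ≤ k) (hj : 1000 * j ≤ k + 1000) :
    (4 ^ (88 + 1) : ℝ) ^ j * (3 / 2) ^ (2 * k)
      * ((2 : ℝ) ^ ((2 ^ b) ^ 2 + 1) * 4 ^ (440 * b)) ^ (440 * b) ≤ 4 ^ k * (1 / 2) ^ (40 * b) := by
  have hE := num_E b k j hb hk hj
  have e0 : ((2 : ℕ) ^ b) ^ 2 = 4 ^ b := by rw [← pow_mul, mul_comm, pow_mul]; norm_num
  have e1 : (4 ^ (88 + 1) : ℝ) ^ j = 2 ^ (178 * j) := by
    rw [show (4 : ℝ) = 2 ^ 2 by norm_num, ← pow_mul, ← pow_mul]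
    congr 1
    ring
  have e2 : ((2 : ℝ) ^ ((2 ^ b) ^ 2 + 1) * 4 ^ (440 * b)) ^ (440 * b)
      = 2 ^ ((4 ^ b + 1 + 880 * b) * (440 * b)) := by
    rw [e0, show (4 : ℝ) = 2 ^ 2 by norm_num, ← pow_mul, ← pow_add, ← pow_mul]
    congr 1
    ring
  have e3 : (3 / 2 : ℝ) ^ (2 * k) = (9 / 4) ^ k := by
    rw [pow_mul]; norm_num
  have h1 : (2 : ℝ) ^ (178 * j + (4 ^ b + 1 + 880 * b) * (440 * b) + 40 * b) ≤ (16 / 9) ^ k := by
    calc (2 : ℝ) ^ (178 * j + (4 ^ b + 1 + 880 * b) * (440 * b) + 40 * b)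
        ≤ 2 ^ (4 * (k / 5)) := pow_le_pow_right₀ (by norm_num) hE
      _ = (2 ^ 4) ^ (k / 5) := by rw [pow_mul]
      _ ≤ ((16 / 9 : ℝ) ^ 5) ^ (k / 5) := pow_le_pow_left₀ (by norm_num) (by norm_num) _
      _ = (16 / 9 : ℝ) ^ (5 * (k / 5)) := by rw [pow_mul]
      _ ≤ (16 / 9) ^ k := pow_le_pow_right₀ (by norm_num) (Nat.mul_div_le k 5)
  rw [e1, e2, e3]
  have h2 : (2 : ℝ) ^ (40 * b) * (1 / 2) ^ (40 * b) = 1 := by
    rw [← mul_pow]; norm_num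
  have h3 : (9 / 4 : ℝ) ^ k * (16 / 9) ^ k = 4 ^ k := by
    rw [← mul_pow]; norm_num
  calc (2 : ℝ) ^ (178 * j) * (9 / 4) ^ k * 2 ^ ((4 ^ b + 1 + 880 * b) * (440 * b))
      = (2 : ℝ) ^ (178 * j) * (9 / 4) ^ k * 2 ^ ((4 ^ b + 1 + 880 * b) * (440 * b))
        * ((2 : ℝ) ^ (40 * b) * (1 / 2) ^ (40 * b)) := by rw [h2, mul_one]
    _ = 2 ^ (178 * j + (4 ^ b + 1 + 880 * b) * (440 * b) + 40 * b) * ((9 / 4) ^ k
        * (1 / 2) ^ (40 * b)) := by rw [pow_add, pow_add]; ring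
    _ ≤ (16 / 9) ^ k * ((9 / 4) ^ k * (1 / 2) ^ (40 * b)) :=
        mul_le_mul_of_nonneg_right h1 (by positivity)
    _ = (9 / 4 : ℝ) ^ k * (16 / 9) ^ k * (1 / 2) ^ (40 * b) := by ring
    _ = 4 ^ k * (1 / 2) ^ (40 * b) := by rw [h3]

theorem num_D (b k j : ℕ) (hb : 21 ≤ b) (hk : 16 ^ b ≤ k) (hk2 : k < 16 ^ (b + 1))
    (hj : 1000 * j ≤ k + 1000) :
    (4 ^ (88 + 1) : ℝ) ^ j * (3 / 2) ^ (2 * k)
      * ((2 : ℝ) ^ ((2 ^ b) ^ 2 + 1) * 4 ^ (440 * b)) ^ (440 * b)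
      + 2 ^ (2 * k) * (15 / 16) ^ (440 * b) ≤ (64 / 2 ^ (36 * b)) * ((2 * k).choose k : ℝ) := by
  have h1 := num_D1 b k j hb hk hj
  have h2 : (2 : ℝ) ^ (2 * k) * (15 / 16) ^ (440 * b) ≤ 4 ^ k * (1 / 2) ^ (40 * b) := by
    rw [pow_mul, show (2 : ℝ) ^ 2 = 4 by norm_num]
    exact mul_le_mul_of_nonneg_left (num_lam b) (by positivity)
  have h3 : (4 : ℝ) ^ k ≤ (2 * k + 1) * ((2 * k).choose k : ℝ) := by
    have := Nat.four_pow_le_two_mul_add_one_mul_central_binom k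
    have h : (4 : ℕ) ^ k ≤ (2 * k + 1) * (2 * k).choose k := this
    exact_mod_cast h
  have h4 : (2 * (k : ℝ) + 1) ≤ 2 * 16 ^ (b + 1) := by
    have : 2 * k + 1 ≤ 2 * 16 ^ (b + 1) := by omega
    exact_mod_cast this
  have hC : (0 : ℝ) ≤ ((2 * k).choose k : ℝ) := by positivity
  have h5 : (4 : ℝ) ^ k ≤ 2 * 16 ^ (b + 1) * ((2 * k).choose k : ℝ) :=
    h3.trans (mul_le_mul_of_nonneg_right h4 hC)
  have h6 : 2 * (4 ^ k * (1 / 2 : ℝ) ^ (40 * b))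
      ≤ 2 * (2 * 16 ^ (b + 1) * ((2 * k).choose k : ℝ) * (1 / 2 : ℝ) ^ (40 * b)) := by
    have := mul_le_mul_of_nonneg_right h5 (show (0 : ℝ) ≤ (1 / 2) ^ (40 * b) by positivity)
    linarith
  have e : (2 : ℝ) * (2 * 16 ^ (b + 1) * ((2 * k).choose k : ℝ) * (1 / 2 : ℝ) ^ (40 * b))
      = (64 / 2 ^ (36 * b)) * ((2 * k).choose k : ℝ) := by
    have e1 : (1 / 2 : ℝ) ^ (40 * b) = 1 / (2 ^ (36 * b) * 16 ^ b) := by
      rw [one_div, inv_pow, one_div]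
      congr 1
      rw [show (16 : ℝ) = 2 ^ 4 by norm_num, ← pow_mul, ← pow_add]
      congr 1
      ring
    rw [e1, pow_succ]
    field_simp
    norm_num
    ring
  linarith

theorem num_cl (δ : ℝ) (hδ : 0 < δ) (b k j : ℕ) (hb : 21 ≤ b) (hb2 : 7864448 / δ ^ 2 < 2 ^ b)
    (hk : 16 ^ b ≤ k) (hk2 : k < 16 ^ (b + 1)) (hj : 1000 * j ≤ k + 1000) :
    2 * ((KK (2 * k) : ℝ) ^ j) < Real.exp (δ ^ 2 / (2 * (64 / 2 ^ (36 * b)))) := by
  have hk4 : 16 ≤ k := by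
    calc 16 = 16 ^ 1 := by norm_num
      _ ≤ 16 ^ b := Nat.pow_le_pow_right (by norm_num) (by omega)
      _ ≤ k := hk
  have hjk : j ≤ k := by omega
  have h1 : (KK (2 * k) : ℝ) ^ j ≤ Real.exp ((2 * k + 4) * ((4 * k + 1) * k)) := by
    unfold KK
    push_cast
    rw [← pow_mul]
    have h2 : (2 * (k : ℝ) + 4) ≤ Real.exp (2 * k + 4) := by
      have := Real.add_one_le_exp (2 * (k : ℝ) + 4)
      linarith
    calc (2 * (k : ℝ) + 4) ^ ((2 * (2 * k) + 1) * j)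
        ≤ (Real.exp (2 * k + 4)) ^ ((2 * (2 * k) + 1) * j) :=
          pow_le_pow_left₀ (by positivity) h2 _
      _ ≤ (Real.exp (2 * k + 4)) ^ ((4 * k + 1) * k) := by
          apply pow_le_pow_right₀
          · apply Real.one_le_exp; positivity
          · apply Nat.mul_le_mul (by omega) hjk
      _ = Real.exp ((2 * k + 4) * ((4 * k + 1) * k)) := by
          rw [← Real.exp_nat_mul]
          congr 1
          push_cast
          ring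
  have h2 : (2 : ℝ) ≤ Real.exp 1 := by
    have := Real.add_one_le_exp (1 : ℝ)
    linarith
  have h3 : 2 * ((KK (2 * k) : ℝ) ^ j) ≤ Real.exp (1 + (2 * k + 4) * ((4 * k + 1) * k)) := by
    rw [Real.exp_add]
    exact mul_le_mul h2 h1 (by positivity) (by positivity)
  refine lt_of_le_of_lt h3 ?_
  rw [Real.exp_lt_exp]
  set u : ℝ := 2 ^ b with hu
  have hu1 : 1 ≤ u := one_le_pow₀ (by norm_num)
  have hu0 : 0 < u := by linarith
  have e36 : (2 : ℝ) ^ (36 * b) = u ^ 36 := by rw [hu, ← pow_mul, mul_comm]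
  have hkr : (k : ℝ) ≤ 16 * u ^ 4 := by
    have h : (k : ℝ) ≤ ((16 ^ (b + 1) : ℕ) : ℝ) := by exact_mod_cast hk2.le
    have e : ((16 ^ (b + 1) : ℕ) : ℝ) = 16 * u ^ 4 := by
      push_cast
      rw [hu, ← pow_mul, mul_comm b 4, pow_mul, pow_succ]
      norm_num
      ring
    rw [e] at h; exact h
  have hk16 : (16 : ℝ) ≤ k := by exact_mod_cast hk4
  have h4 : 1 + (2 * (k : ℝ) + 4) * ((4 * k + 1) * k) ≤ 1 + 15 * (k : ℝ) ^ 3 := by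
    nlinarith [sq_nonneg (k : ℝ), mul_nonneg (sq_nonneg (k : ℝ)) (by linarith : (0 : ℝ) ≤ k - 16),
      mul_nonneg (by linarith : (0 : ℝ) ≤ (k : ℝ)) (by linarith : (0 : ℝ) ≤ k - 16)]
  have h5 : (k : ℝ) ^ 3 ≤ 4096 * u ^ 12 := by
    calc (k : ℝ) ^ 3 ≤ (16 * u ^ 4) ^ 3 := pow_le_pow_left₀ (by linarith) hkr 3
      _ = 4096 * u ^ 12 := by ring
  have h6 : (1 : ℝ) ≤ u ^ 12 := one_le_pow₀ hu1
  have h7 : 7864448 / δ ^ 2 < u ^ 24 := by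
    refine lt_of_lt_of_le hb2 ?_
    calc u = u ^ 1 := by ring
      _ ≤ u ^ 24 := pow_le_pow_right₀ hu1 (by norm_num)
  rw [div_lt_iff₀ (by positivity)] at h7
  have h8 : δ ^ 2 / (2 * (64 / 2 ^ (36 * b))) = u ^ 24 * δ ^ 2 * u ^ 12 / 128 := by
    rw [e36]
    field_simp
    ring
  rw [h8]
  have h9 : 7864448 * u ^ 12 < u ^ 24 * δ ^ 2 * u ^ 12 :=
    mul_lt_mul_of_pos_right h7 (by positivity)
  linarith

theorem tower_eq (h : ℕ) : (fun n : ℕ => 2 ^ n)^[h] 1 = Bd (h + 1) := by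
  induction h with
  | zero => rfl
  | succ h ih =>
    rw [Function.iterate_succ_apply', ih]
    rfl

theorem final :
    ∃ ε : ℝ, 0 < ε ∧ ∀ δ : ℝ, 0 < δ → ∃ k₀ : ℕ, ∀ k : ℕ, k₀ ≤ k →
      ∀ N : ℕ, N ≤ (fun n : ℕ => 2 ^ n)^[⌊ε * (k : ℝ)⌋₊] 1 →
        ∃ γ : Finset (Fin N) → Bool, ∀ S : Finset (Fin N), S.card = 2 * k →
          |∑ T ∈ S.powersetCard k, (if γ T then (1 : ℝ) else -1)|
            ≤ δ * ((Nat.choose (2 * k) k : ℕ) : ℝ) := by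
  refine ⟨1 / 1000, by norm_num, ?_⟩
  intro δ hδ
  obtain ⟨b1, hb1⟩ := pow_unbounded_of_one_lt (7864448 / δ ^ 2) (by norm_num : (1 : ℝ) < 2)
  refine ⟨16 ^ (max 21 b1), ?_⟩
  intro k hk N hN
  set b := Nat.log 16 k with hb
  have hkpos : k ≠ 0 := by
    have : 0 < 16 ^ (max 21 b1) := by positivity
    omega
  have hbge : max 21 b1 ≤ b := by
    rw [hb]
    exact Nat.le_log_of_pow_le (by norm_num) hk
  have hb21 : 21 ≤ b := (le_max_left _ _).trans hbge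
  have hb2 : 7864448 / δ ^ 2 < (2 : ℝ) ^ b :=
    lt_of_lt_of_le hb1 (pow_le_pow_right₀ (by norm_num) ((le_max_right _ _).trans hbge))
  have hk1 : 16 ^ b ≤ k := Nat.pow_log_le_self 16 hkpos
  have hk2 : k < 16 ^ (b + 1) := Nat.lt_pow_succ_log_self (by norm_num) k
  set h := ⌊(1 / 1000 : ℝ) * (k : ℝ)⌋₊ with hh
  have hj : 1000 * (h + 1) ≤ k + 1000 := by
    have h1 : (h : ℝ) ≤ (1 / 1000 : ℝ) * (k : ℝ) := Nat.floor_le (by positivity)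
    have h2 : 1000 * (h : ℝ) ≤ k := by linarith
    have h3 : 1000 * h ≤ k := by exact_mod_cast h2
    omega
  obtain ⟨F, hF⟩ := colouring (440 * b) 88 (440 * b) (2 ^ b) (h + 1) k
    ((2 : ℝ) ^ ((2 ^ b) ^ 2 + 1) * 4 ^ (440 * b)) (64 / 2 ^ (36 * b)) δ rfl (num_A b)
    (num_B b (by omega)) (num_C b (by omega)) (by norm_num) (by positivity) hδ
    (num_D b k (h + 1) hb21 hk1 hk2 hj) (num_cl δ hδ b k (h + 1) hb21 hb2 hk1 hk2 hj)
  rw [tower_eq] at hN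
  refine ⟨fun T => F (tc (2 * k) (h + 1) (T.map Fin.valEmbedding)), ?_⟩
  intro S hS
  have hS' : S.map Fin.valEmbedding ⊆ Finset.range (Bd (h + 1)) := by
    intro x hx
    rw [Finset.mem_map] at hx
    obtain ⟨y, _, rfl⟩ := hx
    rw [Finset.mem_range]
    exact lt_of_lt_of_le y.isLt hN
  have h1 := hF (S.map Fin.valEmbedding) hS' (by rw [Finset.card_map, hS])
  rw [Finset.powersetCard_map, Finset.sum_map] at h1
  exact h1

end Pool.Agent.H221R3.Tw
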